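import Pool.Agent.ST6.Defs

set_option autoImplicit false

/-!
# MP_a901ae_nt: basic facts about `ℤ[√3]` and `ℤ[ζ₁₂]`
-/

namespace ST6

open Matrix

/-- The first real embedding. -/
noncomputable def e1 : R →+* ℝ := Zsqrtd.lift ⟨√3, by norm_num⟩

/-- The second real embedding. -/
noncomputable def e2 : R →+* ℝ := Zsqrtd.lift ⟨-√3, by norm_num⟩

theorem e1_eq (x : R) : e1 x = x.re + x.im * √3 := by
  simp [e1, Zsqrtd.lift]

theorem e2_eq (x : R) : e2 x = x.re - x.im * √3 := by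
  simp [e2, Zsqrtd.lift, sub_eq_add_neg]

theorem sqrt3_sq : (√3 : ℝ) * √3 = 3 := by norm_num

theorem sqrt3_pos : (0 : ℝ) < √3 := by positivity

theorem Tn_iff (x : R) : Tn x ↔ 0 ≤ e1 x ∧ 0 ≤ e2 x := by
  rw [e1_eq, e2_eq]
  have h3 := sqrt3_sq
  have hp := sqrt3_pos
  constructor
  · rintro ⟨h0, h1⟩
    have h0' : (0 : ℝ) ≤ x.re := by exact_mod_cast h0
    have h1' : (3 : ℝ) * x.im ^ 2 ≤ x.re ^ 2 := by exact_mod_cast h1
    have : |(x.im : ℝ) * √3| ≤ |(x.re : ℝ)| := by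
      apply sq_le_sq.1
      nlinarith
    rw [abs_of_nonneg h0', abs_le] at this
    constructor <;> linarith [this.1, this.2]
  · rintro ⟨h1, h2⟩
    have h0 : (0 : ℝ) ≤ x.re := by linarith
    refine ⟨by exact_mod_cast h0, ?_⟩
    have : (3 : ℝ) * x.im ^ 2 ≤ x.re ^ 2 := by
      have := mul_nonneg h1 h2
      nlinarith
    exact_mod_cast this

theorem Tp_iff (x : R) : Tp x ↔ 0 < e1 x ∧ 0 < e2 x := by
  rw [e1_eq, e2_eq]
  have h3 := sqrt3_sq
  have hp := sqrt3_pos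
  constructor
  · rintro ⟨h0, h1⟩
    have h0' : (0 : ℝ) < x.re := by exact_mod_cast h0
    have h1' : (3 : ℝ) * x.im ^ 2 < x.re ^ 2 := by exact_mod_cast h1
    have : |(x.im : ℝ) * √3| < |(x.re : ℝ)| := by
      apply sq_lt_sq.1
      nlinarith
    rw [abs_of_pos h0', abs_lt] at this
    constructor <;> linarith [this.1, this.2]
  · rintro ⟨h1, h2⟩
    have h0 : (0 : ℝ) < x.re := by linarith
    refine ⟨by exact_mod_cast h0, ?_⟩
    have : (3 : ℝ) * x.im ^ 2 < x.re ^ 2 := by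
      have := mul_pos h1 h2
      nlinarith
    exact_mod_cast this

theorem Tp.tn {x : R} (h : Tp x) : Tn x := ⟨h.1.le, h.2.le⟩

theorem Tn_zero : Tn 0 := by constructor <;> simp

theorem Tp_one : Tp 1 := by constructor <;> simp

theorem Tn.add {x y : R} (hx : Tn x) (hy : Tn y) : Tn (x + y) := by
  rw [Tn_iff] at *
  simp only [map_add]
  exact ⟨add_nonneg hx.1 hy.1, add_nonneg hx.2 hy.2⟩

theorem Tn.mul {x y : R} (hx : Tn x) (hy : Tn y) : Tn (x * y) := by
  rw [Tn_iff] at *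
  simp only [map_mul]
  exact ⟨mul_nonneg hx.1 hy.1, mul_nonneg hx.2 hy.2⟩

theorem Tp.mul {x y : R} (hx : Tp x) (hy : Tp y) : Tp (x * y) := by
  rw [Tp_iff] at *
  simp only [map_mul]
  exact ⟨mul_pos hx.1 hy.1, mul_pos hx.2 hy.2⟩

theorem Tp.add {x y : R} (hx : Tp x) (hy : Tn y) : Tp (x + y) := by
  rw [Tp_iff] at *
  rw [Tn_iff] at hy
  simp only [map_add]
  exact ⟨add_pos_of_pos_of_nonneg hx.1 hy.1, add_pos_of_pos_of_nonneg hx.2 hy.2⟩

theorem Tn_sq (x : R) : Tn (x ^ 2) := by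
  rw [Tn_iff]
  simp only [map_pow]
  exact ⟨sq_nonneg _, sq_nonneg _⟩

theorem Tn_sum {ι : Type} (s : Finset ι) (f : ι → R) (h : ∀ i ∈ s, Tn (f i)) :
    Tn (∑ i ∈ s, f i) := by
  rw [Tn_iff]
  simp only [map_sum]
  exact ⟨Finset.sum_nonneg fun i hi => ((Tn_iff _).1 (h i hi)).1,
    Finset.sum_nonneg fun i hi => ((Tn_iff _).1 (h i hi)).2⟩

/-- `3 y ^ 2 = x ^ 2` has only the zero solution. -/
theorem three_sq {x y : ℤ} (h : 3 * y ^ 2 = x ^ 2) : x = 0 ∧ y = 0 := by
  have hir : Irrational (√(3 : ℕ)) := Nat.Prime.irrational_sqrt (by norm_num)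
  by_cases hy : y = 0
  · subst hy
    constructor
    · have : x ^ 2 = 0 := by linarith
      exact pow_eq_zero_iff (by norm_num) |>.1 this
    · rfl
  · exfalso
    apply hir
    refine ⟨|(x : ℚ) / y|, ?_⟩
    have hy' : (y : ℝ) ≠ 0 := by exact_mod_cast hy
    have h' : (3 : ℝ) * y ^ 2 = x ^ 2 := by exact_mod_cast h
    have : ((x : ℝ) / y) ^ 2 = 3 := by
      rw [div_pow, ← h']
      field_simp
    rw [Rat.cast_abs, Rat.cast_div, Rat.cast_intCast, Rat.cast_intCast, Nat.cast_ofNat, ← this,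
      Real.sqrt_sq_eq_abs]

theorem norm_eq (x : R) : x.norm = x.re ^ 2 - 3 * x.im ^ 2 := by
  rw [Zsqrtd.norm_def]
  push_cast
  ring

theorem norm_eq_zero_iff (x : R) : x.norm = 0 ↔ x = 0 := by
  constructor
  · intro h
    rw [norm_eq] at h
    have := three_sq (x := x.re) (y := x.im) (by linarith)
    exact Zsqrtd.ext this.1 this.2
  · rintro rfl
    simp

theorem Tp.of_ne {x : R} (hx : Tn x) (h : x ≠ 0) : Tp x := by
  have hn : x.norm ≠ 0 := fun h' => h ((norm_eq_zero_iff x).1 h')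
  rw [norm_eq] at hn
  obtain ⟨h0, h1⟩ := hx
  have h2 : 3 * x.im ^ 2 < x.re ^ 2 := lt_of_le_of_ne h1 (fun h' => hn (by linarith))
  refine ⟨lt_of_le_of_ne h0 ?_, h2⟩
  intro h'
  rw [← h'] at h2
  nlinarith [sq_nonneg x.im]

theorem Tp.ne {x : R} (h : Tp x) : x ≠ 0 := by
  rintro rfl
  exact absurd h.1 (by simp)

theorem Tp.norm_pos {x : R} (h : Tp x) : 0 < x.norm := by
  rw [norm_eq]
  linarith [h.2]

theorem Tp_sq {x : R} (h : x ≠ 0) : Tp (x ^ 2) := by
  apply Tp.of_ne (Tn_sq x)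
  intro h'
  have : (x ^ 2).norm = 0 := by rw [h']; simp
  rw [pow_two, Zsqrtd.norm_mul] at this
  rcases mul_self_eq_zero.1 this with h''
  exact h ((norm_eq_zero_iff x).1 h'')

instance : NoZeroDivisors R where
  eq_zero_or_eq_zero_of_mul_eq_zero := by
    intro a b h
    have : (a * b).norm = 0 := by rw [h]; simp
    rw [Zsqrtd.norm_mul, mul_eq_zero] at this
    rcases this with h' | h'
    · exact Or.inl ((norm_eq_zero_iff a).1 h')
    · exact Or.inr ((norm_eq_zero_iff b).1 h')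

instance : IsDomain R := NoZeroDivisors.to_isDomain R

theorem Tp.of_mul {x y : R} (hx : Tp x) (hxy : Tp (x * y)) : Tp y := by
  rw [Tp_iff] at *
  simp only [map_mul] at hxy
  exact ⟨(mul_pos_iff_of_pos_left hx.1).1 hxy.1, (mul_pos_iff_of_pos_left hx.2).1 hxy.2⟩

/-! ## Parity -/

theorem w_sq : w * w = 3 := by
  ext <;> simp [w]

theorem Od_iff_not (x : R) : Od x ↔ ¬ En x := by
  unfold Od En
  exact Int.not_even_iff_odd.symm

theorem En_iff (x : R) : En x ↔ pp ∣ x := by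
  unfold En pp
  constructor
  · rintro ⟨k, hk⟩
    refine ⟨⟨x.im - k + x.im, k - x.im⟩, ?_⟩
    ext
    · simp
      linarith
    · simp
  · rintro ⟨y, rfl⟩
    simp
    exact ⟨y.re + 2 * y.im, by ring⟩

theorem En.add {x y : R} (hx : En x) (hy : En y) : En (x + y) := by
  rw [En_iff] at *
  exact dvd_add hx hy

theorem En.mul_left {x : R} (y : R) (hx : En x) : En (y * x) := by
  rw [En_iff] at *
  exact Dvd.dvd.mul_left hx y

theorem Od_mul (x y : R) : Od (x * y) ↔ Od x ∧ Od y := by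
  unfold Od
  have : (x * y).re + (x * y).im = (x.re + x.im) * (y.re + y.im) + 2 * (x.im * y.im) := by
    simp
    ring
  rw [this, Int.odd_add]
  simp [Int.odd_mul]

theorem Od_sq (x : R) : Od (x ^ 2) ↔ Od x := by
  rw [pow_two, Od_mul, and_self_iff]

theorem En_sq (x : R) : En (x ^ 2) ↔ En x := by
  rw [← not_iff_not, ← Od_iff_not, ← Od_iff_not, Od_sq]

theorem two_dvd_iff (x : R) : 2 ∣ x ↔ Even x.re ∧ Even x.im := by
  have := Zsqrtd.intCast_dvd (d := 3) 2 x
  simp only [Int.cast_ofNat] at this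
  rw [this, even_iff_two_dvd, even_iff_two_dvd]

theorem four_dvd_iff (x : R) : 4 ∣ x ↔ 4 ∣ x.re ∧ 4 ∣ x.im := by
  have := Zsqrtd.intCast_dvd (d := 3) 4 x
  simpa only [Int.cast_ofNat] using this

theorem pp_sq : pp ^ 2 = 2 * ⟨2, 1⟩ := by
  ext <;> simp [pp, pow_two]

theorem two_eq : (2 : R) = pp ^ 2 * ⟨2, -1⟩ := by
  ext <;> simp [pp, pow_two]

/-- `2 ∣ x` if and only if `(1 + √3) ^ 2 ∣ x`. -/
theorem two_dvd_iff_pp (x : R) : 2 ∣ x ↔ pp ^ 2 ∣ x := by
  constructor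
  · intro h
    exact dvd_trans ⟨_, two_eq⟩ h
  · intro h
    exact dvd_trans ⟨_, pp_sq⟩ h

theorem Ev.add {x y : R} (hx : Ev x) (hy : Ev y) : Ev (x + y) := by
  unfold Ev at *
  simpa using Even.add hx hy

theorem Ev.sub {x y : R} (hx : Ev x) (hy : Ev y) : Ev (x - y) := by
  unfold Ev at *
  simpa using Even.sub hx hy

theorem Ev.mul {x y : R} (hx : Ev x) (hy : Ev y) : Ev (x * y) := by
  unfold Ev at *
  simpa using Even.add (Even.mul_left hy _) (Even.mul_right hx _)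

theorem Ev_sq (x : R) : Ev (x ^ 2) := by
  unfold Ev
  rw [pow_two]
  simp
  exact ⟨x.re * x.im, by ring⟩

theorem Ev_int (n : ℤ) : Ev (n : R) := by
  unfold Ev
  simp

theorem Ev_two_mul (x : R) : Ev (2 * x) := by
  unfold Ev
  simp

theorem Ev_sum {ι : Type} (s : Finset ι) (f : ι → R) (h : ∀ i ∈ s, Ev (f i)) :
    Ev (∑ i ∈ s, f i) := by
  classical
  induction s using Finset.induction_on with
  | empty => simp [Ev]
  | insert a s ha ih =>
    rw [Finset.sum_insert ha]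
    exact Ev.add (h a (by simp)) (ih fun i hi => h i (by simp [hi]))

/-! ## The ring `O` -/

theorem nm_eq_norm (z : O) : nm z = QuadraticAlgebra.norm z := by
  rw [QuadraticAlgebra.norm_def]
  unfold nm
  ring

theorem nm_mul (y z : O) : nm (y * z) = nm y * nm z := by
  simp only [nm_eq_norm, map_mul]

theorem nm_star (z : O) : nm (star z) = nm z := by
  rw [nm_eq_norm, nm_eq_norm, QuadraticAlgebra.norm_star]

theorem star_mul_self_eq (z : O) : star z * z = algebraMap R O (nm z) := by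
  rw [nm_eq_norm, QuadraticAlgebra.algebraMap_norm_eq_mul_star, mul_comm]

theorem nm_one : nm (1 : O) = 1 := by
  rw [nm_eq_norm, map_one]

theorem nm_zero : nm (0 : O) = 0 := by
  simp [nm]

theorem nm_algebraMap (r : R) : nm (algebraMap R O r) = r ^ 2 := by
  rw [nm_eq_norm, QuadraticAlgebra.norm_algebraMap]

theorem nm_smul (r : R) (z : O) : nm (r • z) = r ^ 2 * nm z := by
  simp only [nm, QuadraticAlgebra.re_smul, QuadraticAlgebra.im_smul, smul_eq_mul]
  ring

/-- The norm in integral coordinates: `z = (r0 + r1 √3) + (s0 + s1 √3) ζ`. -/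
theorem nm_coord (z : O) :
    nm z = ⟨z.re.re ^ 2 + 3 * z.re.im ^ 2 + (3 * z.re.re * z.im.im + 3 * z.re.im * z.im.re) +
        (z.im.re ^ 2 + 3 * z.im.im ^ 2),
      2 * z.re.re * z.re.im + (z.re.re * z.im.re + 3 * z.re.im * z.im.im) +
        2 * z.im.re * z.im.im⟩ := by
  unfold nm w
  ext
  · simp [pow_two]
    ring
  · simp [pow_two]
    ring

theorem four_nm_e1 (z : O) :
    4 * e1 (nm z) = (2 * e1 z.re + √3 * e1 z.im) ^ 2 + (e1 z.im) ^ 2 := by
  have h3 := sqrt3_sq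
  have hw : e1 w = √3 := by simp [e1_eq, w]
  unfold nm
  simp only [map_add, map_mul, map_pow, hw]
  linear_combination -(e1 z.im) ^ 2 * h3

theorem four_nm_e2 (z : O) :
    4 * e2 (nm z) = (2 * e2 z.re - √3 * e2 z.im) ^ 2 + (e2 z.im) ^ 2 := by
  have h3 := sqrt3_sq
  have hw : e2 w = -√3 := by simp [e2_eq, w]
  unfold nm
  simp only [map_add, map_mul, map_pow, hw]
  linear_combination -(e2 z.im) ^ 2 * h3

theorem Tn_nm (z : O) : Tn (nm z) := by
  rw [Tn_iff]
  have h1 := four_nm_e1 z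
  have h2 := four_nm_e2 z
  constructor
  · nlinarith [sq_nonneg (2 * e1 z.re + √3 * e1 z.im), sq_nonneg (e1 z.im)]
  · nlinarith [sq_nonneg (2 * e2 z.re - √3 * e2 z.im), sq_nonneg (e2 z.im)]

theorem e1_inj {x : R} (h : e1 x = 0) : x = 0 := by
  rw [e1_eq] at h
  have h3 := sqrt3_sq
  have : (3 : ℝ) * x.im ^ 2 = x.re ^ 2 := by
    have h' : (x.re : ℝ) = -(x.im * √3) := by linarith
    rw [h']
    nlinarith
  have := three_sq (x := x.re) (y := x.im) (by exact_mod_cast this)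
  exact Zsqrtd.ext this.1 this.2

theorem nm_eq_zero_iff (z : O) : nm z = 0 ↔ z = 0 := by
  constructor
  · intro h
    have h1 := four_nm_e1 z
    rw [h, map_zero, mul_zero] at h1
    have h2 : e1 z.im = 0 := by
      nlinarith [sq_nonneg (2 * e1 z.re + √3 * e1 z.im), sq_nonneg (e1 z.im)]
    have h3 : e1 z.re = 0 := by
      rw [h2] at h1
      nlinarith [sq_nonneg (2 * e1 z.re + √3 * e1 z.im), sq_nonneg (e1 z.im)]
    exact QuadraticAlgebra.ext (e1_inj h3) (e1_inj h2)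
  · rintro rfl
    exact nm_zero

instance : NoZeroDivisors O where
  eq_zero_or_eq_zero_of_mul_eq_zero := by
    intro a b h
    have : nm (a * b) = 0 := by rw [h]; exact nm_zero
    rw [nm_mul, mul_eq_zero] at this
    rcases this with h' | h'
    · exact Or.inl ((nm_eq_zero_iff a).1 h')
    · exact Or.inr ((nm_eq_zero_iff b).1 h')

instance : IsDomain O := NoZeroDivisors.to_isDomain O

/-- `1 + √3` in `O`. -/
def pO : O := algebraMap R O pp

/-- The norm of `z` is even if and only if `z` is divisible by `1 + √3`. -/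
theorem En_nm (z : O) : En (nm z) ↔ En z.re ∧ En z.im := by
  have : (nm z).re + (nm z).im ≡ (z.re.re + z.re.im) + (z.re.re + z.re.im) *
      (z.im.re + z.im.im) + (z.im.re + z.im.im) [ZMOD 2] := by
    rw [nm_coord]
    rcases Int.even_or_odd' z.re.re with ⟨a, ha | ha⟩ <;>
    rcases Int.even_or_odd' z.re.im with ⟨b, hb | hb⟩ <;>
    rcases Int.even_or_odd' z.im.re with ⟨c, hc | hc⟩ <;>
    rcases Int.even_or_odd' z.im.im with ⟨d, hd | hd⟩ <;>
    simp only [ha, hb, hc, hd] <;> (apply Int.modEq_iff_dvd.2; ring_nf; omega)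
  unfold En
  rw [Int.even_iff, Int.even_iff, Int.even_iff]
  rcases Int.emod_two_eq_zero_or_one (z.re.re + z.re.im) with h1 | h1 <;>
  rcases Int.emod_two_eq_zero_or_one (z.im.re + z.im.im) with h2 | h2 <;>
  simp [Int.ModEq, Int.add_emod, Int.mul_emod, h1, h2] at this ⊢ <;> omega

theorem dvd_pO_iff (z : O) : pO ∣ z ↔ En z.re ∧ En z.im := by
  unfold pO
  rw [QuadraticAlgebra.algebraMap_dvd_iff, En_iff, En_iff]

/-- The unit `1 + ζ`, of norm `2 + √3`. -/
def uO : O := ⟨1, 1⟩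

theorem nm_uO : nm uO = ⟨2, 1⟩ := by
  unfold nm uO w
  ext <;> simp

/-- `i = 2 ζ - √3`. -/
def iO : O := ⟨-w, 2⟩

theorem iO_sq : iO * iO = -1 := by
  apply QuadraticAlgebra.ext <;> (apply Zsqrtd.ext <;> rfl)

theorem star_iO : star iO = -iO := by
  apply QuadraticAlgebra.ext <;> (apply Zsqrtd.ext <;> rfl)

end ST6
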