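import Mathlib

set_option autoImplicit false

/-!
# MP_a901ae_nt: binary forms over `ℤ[√3]` and sums of six squares: definitions

`R = ℤ[√3]`, `w = √3`, `pp = 1 + √3` (the prime above `2`), `O = R[ζ] = ℤ[ζ₁₂]` with
`ζ ^ 2 = √3 ζ - 1`, `nm : O → R` the relative norm `(x + ζ y) ↦ x ^ 2 + √3 x y + y ^ 2`.
-/

namespace ST6

open Matrix

/-- `ℤ[√3]`. -/
abbrev R : Type := Zsqrtd 3

/-- `√3`. -/
def w : R := ⟨0, 1⟩

/-- `1 + √3`, the prime above `2`. -/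
def pp : R := ⟨1, 1⟩

/-- Totally nonnegative. -/
def Tn (x : R) : Prop := 0 ≤ x.re ∧ 3 * x.im ^ 2 ≤ x.re ^ 2

/-- Totally positive. -/
def Tp (x : R) : Prop := 0 < x.re ∧ 3 * x.im ^ 2 < x.re ^ 2

/-- Not divisible by `1 + √3`. -/
def Od (x : R) : Prop := Odd (x.re + x.im)

/-- Divisible by `1 + √3`. -/
def En (x : R) : Prop := Even (x.re + x.im)

/-- Even coefficient of `√3`. -/
def Ev (x : R) : Prop := Even x.im

/-- `ℤ[ζ₁₂] = R[ζ]`, `ζ ^ 2 = √3 ζ - 1`. -/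
abbrev O : Type := QuadraticAlgebra R (-1) w

/-- The norm from `ℤ[ζ₁₂]` to `ℤ[√3]`. -/
def nm (z : O) : R := z.re ^ 2 + w * z.re * z.im + z.im ^ 2

/-- The Hermitian matrix with entries `a`, `h`, `c` is `Zᴴ Z`, `Z` with the columns
`(z11, z12)` and `(z21, z22)`. -/
def HZ (a c : R) (h z11 z12 z21 z22 : O) : Prop :=
  nm z11 + nm z12 = a ∧ nm z21 + nm z22 = c ∧ star z11 * z21 + star z12 * z22 = h

/-- The binary form with Gram matrix `(a, b; b, c)` is a sum of `n` squares of linear forms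
over `R`. -/
def SS (n : ℕ) (a b c : R) : Prop :=
  ∃ x y : Fin n → R, ∑ i, x i ^ 2 = a ∧ ∑ i, x i * y i = b ∧ ∑ i, y i ^ 2 = c

/-- Totally positive semidefinite. -/
def Psd (a b c : R) : Prop := Tn a ∧ Tn c ∧ Tn (a * c - b ^ 2)

/-- The first basis vector is a flag of the form `(a, b; b, c)`. -/
def Fl (a b c : R) : Prop :=
  ((4 ∣ a ∧ Od c) ∨ 4 ∣ a - 2 * w) ∧ En b

/-- Odd form whose determinant is `1` or `3` modulo `4`. -/
def Un (a b c : R) : Prop :=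
  (Od a ∨ Od c) ∧ (4 ∣ a * c - b ^ 2 - 1 ∨ 4 ∣ a * c - b ^ 2 - 3)

/-- The congruence condition under which a form is a sum of four squares. -/
def Gd (a b c : R) : Prop :=
  Fl a b c ∨ Fl c b a ∨ Fl (a + 2 * b + c) (b + c) c ∨ Un a b c

/-- The matrix of `x ^ 2 + 2 (y ^ 2 + √3 y z + z ^ 2)`. -/
def G2 : Matrix (Fin 3) (Fin 3) R := !![1, 0, 0; 0, 2, w; 0, w, 2]

/-- Totally positive definite symmetric matrix. -/
def PD {n : ℕ} (X : Matrix (Fin n) (Fin n) R) : Prop :=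
  Xᵀ = X ∧ ∀ v : Fin n → R, v ≠ 0 → Tp (v ⬝ᵥ (X *ᵥ v))

end ST6
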