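import Pool.Agent.ST6.Main
import Pool.Agent.P7.RR
import Pool.Agent.P7.CASEB
import Pool.Agent.P7.LI
import Pool.Agent.P7.COORD
import Pool.Agent.P7.CONJ
import Pool.Agent.P7.FOUR
import Pool.Agent.P7.CONG
import Pool.Agent.P7.LAM
import Pool.Agent.P7.PLACES
import Pool.Agent.P7.BRIDGE
import Pool.Agent.P7.SWAP
import Pool.Agent.P7.LA
import Pool.Agent.P7.LC
import Pool.Agent.P7.BA
import Pool.Agent.P7.BC
import Pool.Agent.P7.TRIPLE

set_option autoImplicit false

/-!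
# MP_a901ae_nt: almost all biquadratic fields that contain `√3` need six squares

The arguments of `Pool.Agent.P7` (relative rigidity) for five squares instead of six, applied to
the binary form over `ℤ[√3]` of `T_LOW`.
-/

open Filter Topology
open scoped NumberField

namespace ST6

open P7

/-- Some sum of six squares of linear forms is not a sum of five. -/
def Long5 (x θ : Fin 2 → ℝ) : Prop :=
  ∃ W' : Fin 6 → Fin 4 → ℤ, ∀ W : Fin 5 → Fin 4 → ℤ, ¬ SameForm x θ W W'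

/-- Every sum of six squares of elements of `Lam a b c` is a sum of five such squares. -/
def Bad5 (a b c : ℕ) : Prop :=
  ∀ f : Fin 6 → Fin 4 → ℤ, (∀ ν, f ν ∈ Lam a b c) →
    ∃ g : Fin 5 → Fin 4 → ℤ, (∀ ν, g ν ∈ Lam a b c) ∧
      ∀ j, ∑ ν, val a b c j (g ν) ^ 2 = ∑ ν, val a b c j (f ν) ^ 2

open P7.RR_ in
theorem rr5 (x θ : Fin 2 → ℝ) (hx : x 0 ≠ x 1) (hθ : θ 0 ≠ θ 1) (Y η : ℕ → ℝ)
    (hY : Tendsto Y atTop atTop) (D : ℝ) (hη : ∀ n, |η n| ≤ D) (W' : Fin 6 → Fin 4 → ℤ)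
    (hW : ∀ n, ∃ W : Fin 5 → Fin 4 → ℤ, ∀ j,
      ∑ ν, bv x θ (Y n) (η n) (W ν) j ^ 2 = ∑ ν, bv x θ (Y n) (η n) (W' ν) j ^ 2) :
    ∃ W : Fin 5 → Fin 4 → ℤ, SameForm x θ W W' := by
  choose W hW using hW
  have hD : 0 ≤ D := le_trans (abs_nonneg _) (hη 0)
  -- a common bound for the values of the given forms
  obtain ⟨M, hM0, hM⟩ : ∃ M : ℝ, 0 ≤ M ∧ ∀ (φ : Fin 2) (ν : Fin 6),
      |(W' ν 0 : ℝ) + W' ν 1 * x φ| ≤ M ∧ |(W' ν 2 : ℝ) + W' ν 3 * θ φ| ≤ M := by
    refine ⟨∑ φ : Fin 2, ∑ ν : Fin 6, (|(W' ν 0 : ℝ) + W' ν 1 * x φ| +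
      |(W' ν 2 : ℝ) + W' ν 3 * θ φ|), by positivity, fun φ ν => ?_⟩
    have h1 : |(W' ν 0 : ℝ) + W' ν 1 * x φ| + |(W' ν 2 : ℝ) + W' ν 3 * θ φ| ≤
        ∑ ν : Fin 6, (|(W' ν 0 : ℝ) + W' ν 1 * x φ| + |(W' ν 2 : ℝ) + W' ν 3 * θ φ|) :=
      Finset.single_le_sum (f := fun ν => (|(W' ν 0 : ℝ) + W' ν 1 * x φ| +
        |(W' ν 2 : ℝ) + W' ν 3 * θ φ|)) (fun i _ => by positivity) (Finset.mem_univ ν)
    have h2 : ∑ ν : Fin 6, (|(W' ν 0 : ℝ) + W' ν 1 * x φ| + |(W' ν 2 : ℝ) + W' ν 3 * θ φ|) ≤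
        ∑ φ : Fin 2, ∑ ν : Fin 6, (|(W' ν 0 : ℝ) + W' ν 1 * x φ| +
          |(W' ν 2 : ℝ) + W' ν 3 * θ φ|) :=
      Finset.single_le_sum (f := fun φ => ∑ ν : Fin 6, (|(W' ν 0 : ℝ) + W' ν 1 * x φ| +
        |(W' ν 2 : ℝ) + W' ν 3 * θ φ|)) (fun i _ => by positivity) (Finset.mem_univ φ)
    constructor
    · linarith [abs_nonneg ((W' ν 2 : ℝ) + W' ν 3 * θ φ)]
    · linarith [abs_nonneg ((W' ν 0 : ℝ) + W' ν 1 * x φ)]
  -- the four equations, grouped by `φ`
  have hY' : ∀ n (φ : Fin 2), ∑ ν, (((W n ν 0 : ℝ) + W n ν 1 * x φ) +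
      ((W n ν 2 : ℝ) + W n ν 3 * θ φ) * Y n) ^ 2 =
      ∑ ν, (((W' ν 0 : ℝ) + W' ν 1 * x φ) + ((W' ν 2 : ℝ) + W' ν 3 * θ φ) * Y n) ^ 2 := by
    intro n φ
    fin_cases φ
    · simpa [bv] using hW n 0
    · simpa [bv] using hW n 2
  have hη' : ∀ n (φ : Fin 2), ∑ ν, (((W n ν 0 : ℝ) + W n ν 1 * x φ) +
      ((W n ν 2 : ℝ) + W n ν 3 * θ φ) * η n) ^ 2 =
      ∑ ν, (((W' ν 0 : ℝ) + W' ν 1 * x φ) + ((W' ν 2 : ℝ) + W' ν 3 * θ φ) * η n) ^ 2 := by
    intro n φ
    fin_cases φ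
    · simpa [bv] using hW n 1
    · simpa [bv] using hW n 3
  -- bounds for `u`, `v`
  have hbd : ∀ᶠ n in atTop, ∀ (φ : Fin 2) (ν : Fin 5),
      |(W n ν 0 : ℝ) + W n ν 1 * x φ| ≤ 6 * (M + M * D) + 24 * M * D ∧
      |(W n ν 2 : ℝ) + W n ν 3 * θ φ| ≤ 24 * M := by
    filter_upwards [hY.eventually_ge_atTop (2 * D + 2)] with n hn φ ν
    have hηn := hη n
    have e1 := term_aux (fun ν => ((W n ν 0 : ℝ) + W n ν 1 * x φ) +
      ((W n ν 2 : ℝ) + W n ν 3 * θ φ) * η n)
      (fun ν => ((W' ν 0 : ℝ) + W' ν 1 * x φ) + ((W' ν 2 : ℝ) + W' ν 3 * θ φ) * η n)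
      (M + M * D) (by positivity) (hη' n φ) (fun μ => by
        refine (abs_add_le _ _).trans ?_
        rw [abs_mul]
        have := hM φ μ
        exact add_le_add this.1 (mul_le_mul this.2 hηn (abs_nonneg _) hM0)) ν
    have e2 := term_aux (fun ν => ((W n ν 0 : ℝ) + W n ν 1 * x φ) +
      ((W n ν 2 : ℝ) + W n ν 3 * θ φ) * Y n)
      (fun ν => ((W' ν 0 : ℝ) + W' ν 1 * x φ) + ((W' ν 2 : ℝ) + W' ν 3 * θ φ) * Y n)
      (M + M * Y n) (by have : 0 ≤ Y n := by linarith
                        positivity) (hY' n φ) (fun μ => by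
        refine (abs_add_le _ _).trans ?_
        rw [abs_mul]
        have := hM φ μ
        refine add_le_add this.1 (mul_le_mul this.2 ?_ (abs_nonneg _) hM0)
        rw [abs_of_nonneg (by linarith)]) ν
    push_cast at e1 e2
    set u : ℝ := (W n ν 0 : ℝ) + W n ν 1 * x φ with hu
    set v : ℝ := (W n ν 2 : ℝ) + W n ν 3 * θ φ with hv
    have hη2 : η n ≤ D := (abs_le.mp hηn).2
    have hv1 : |v| * (Y n / 2) ≤ 24 * M * (Y n / 2) := by
      have h1 : |v| * (Y n / 2) ≤ |v| * (Y n - η n) :=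
        mul_le_mul_of_nonneg_left (by linarith) (abs_nonneg _)
      have h2 : |v| * (Y n - η n) = |(u + v * Y n) - (u + v * η n)| := by
        have : (u + v * Y n) - (u + v * η n) = v * (Y n - η n) := by ring
        rw [this, abs_mul, abs_of_nonneg (a := Y n - η n) (by linarith)]
      have h3 : |(u + v * Y n) - (u + v * η n)| ≤ |u + v * Y n| + |u + v * η n| := abs_sub _ _
      have h4 : M * D ≤ M * (Y n) := mul_le_mul_of_nonneg_left (by linarith) hM0
      have h5 : M * (2 + D + D) ≤ M * Y n := mul_le_mul_of_nonneg_left (by linarith) hM0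
      have h6 : 0 ≤ M * D := by positivity
      linarith
    have hv2 : |v| ≤ 24 * M := le_of_mul_le_mul_right hv1 (by linarith)
    refine ⟨?_, hv2⟩
    have : u = (u + v * η n) - v * η n := by ring
    rw [this]
    refine (abs_sub _ _).trans ?_
    rw [abs_mul]
    have : |v| * |η n| ≤ 24 * M * D := mul_le_mul hv2 hηn (abs_nonneg _) (by positivity)
    linarith
  obtain ⟨B1, hB1⟩ := bound_aux x hx (6 * (M + M * D) + 24 * M * D)
  obtain ⟨B2, hB2⟩ := bound_aux θ hθ (24 * M)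
  obtain ⟨B, hB⟩ := exists_nat_ge (max B1 B2)
  have hfin : ({w : Fin 5 → Fin 4 → ℤ | ∀ ν i, |w ν i| ≤ (B : ℤ)}).Finite := by
    refine (Set.finite_Icc (fun _ _ => -(B : ℤ)) (fun _ _ => (B : ℤ))).subset ?_
    intro w hw
    constructor
    · intro ν i
      exact (abs_le.mp (hw ν i)).1
    · intro ν i
      exact (abs_le.mp (hw ν i)).2
  have hev : ∀ᶠ n in atTop, W n ∈ {w : Fin 5 → Fin 4 → ℤ | ∀ ν i, |w ν i| ≤ (B : ℤ)} := by
    filter_upwards [hbd] with n hn ν i
    have h1 := hB1 (W n ν 0) (W n ν 1) (fun φ => (hn φ ν).1)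
    have h2 := hB2 (W n ν 2) (W n ν 3) (fun φ => (hn φ ν).2)
    have c1 : B1 ≤ B := (le_max_left _ _).trans hB
    have c2 : B2 ≤ B := (le_max_right _ _).trans hB
    have : |(W n ν i : ℝ)| ≤ B := by
      fin_cases i
      · exact h1.1.trans c1
      · exact h1.2.trans c1
      · exact h2.1.trans c2
      · exact h2.2.trans c2
    exact_mod_cast this
  obtain ⟨w, hw⟩ : ∃ w, ∃ᶠ n in atTop, W n = w := by
    by_contra hcon
    push Not at hcon
    have h1 : ∀ᶠ n in atTop, ∀ w ∈ {w : Fin 5 → Fin 4 → ℤ | ∀ ν i, |w ν i| ≤ (B : ℤ)}, W n ≠ w := by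
      rw [Filter.eventually_all_finite hfin]
      intro w _
      have := hcon w
      simpa [Filter.not_frequently] using this
    obtain ⟨n, hn1, hn2⟩ := (h1.and hev).exists
    exact hn1 _ hn2 rfl
  refine ⟨w, fun φ => ?_⟩
  refine coef_aux (fun ν => (w ν 0 : ℝ) + w ν 1 * x φ) (fun ν => (w ν 2 : ℝ) + w ν 3 * θ φ)
    (fun ν => (W' ν 0 : ℝ) + W' ν 1 * x φ) (fun ν => (W' ν 2 : ℝ) + W' ν 3 * θ φ) Y hY ?_
  refine hw.mono fun n hn => ?_
  have := hY' n φ
  rw [hn] at this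
  exact this

theorem bt5 (a b : ℕ) (x θ : Fin 2 → ℝ) (hx : x 0 ≠ x 1) (hθ : θ 0 ≠ θ 1) (hL : Long5 x θ)
    (S : Set ℕ) (D : ℝ)
    (hS : ∀ c ∈ S, ∃ yp ym : ℝ, √(c : ℝ) / 2 ≤ yp ∧ |ym| ≤ D ∧ RelBasis a b c x θ yp ym) :
    ∃ B : ℕ, ∀ c ∈ S, B ≤ c → ¬ Bad5 a b c := by
  by_contra hcon
  push Not at hcon
  choose c hcS hcB hbad using hcon
  choose yp ym hyp hym hrel using fun n => hS (c n) (hcS n)
  obtain ⟨W', hW'⟩ := hL
  have hY : Tendsto yp atTop atTop := by
    refine tendsto_atTop_mono hyp ?_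
    refine Tendsto.atTop_div_const (by norm_num) ?_
    refine Real.tendsto_sqrt_atTop.comp ?_
    refine tendsto_natCast_atTop_atTop.comp ?_
    exact tendsto_atTop_mono hcB tendsto_id
  obtain ⟨W, hW⟩ := rr5 x θ hx hθ yp ym hY D hym W' (fun n => by
    choose f hfL hf using fun ν => (hrel n).2 (W' ν)
    obtain ⟨g, hgL, hg⟩ := hbad n f hfL
    choose W hW using fun ν => (hrel n).1 (g ν) (hgL ν)
    refine ⟨W, fun j => ?_⟩
    have := hg j
    simp only [hW, hf] at this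
    exact this)
  exact hW' W hW

open P7.SWAP in
theorem swap5 (a b c : ℕ) (hbad : Bad5 a b c) : Bad5 b a c := by
  intro f hf
  obtain ⟨g, hg, hgv⟩ := hbad (fun ν => sw (f ν)) (fun ν => sw_mem b a c _ (hf ν))
  refine ⟨fun ν => sw (g ν), fun ν => sw_mem a b c _ (hg ν), ?_⟩
  intro j
  fin_cases j
  · have h := hgv 0
    simpa only [val0, Fin.zero_eta] using h
  · have h := hgv 1
    simpa only [val1, Fin.mk_one] using h
  · have h := hgv 3
    simpa only [val2, val3, Fin.reduceFinMk] using h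
  · have h := hgv 2
    simpa only [val2, val3, Fin.reduceFinMk] using h

open P7.BRIDGE in
theorem five {A : Type*} [CommRing A] {α : A} (hR : ¬ 6 ≤ pythagorasNumber A)
    (h : SumSq A 6 α) : SumSq A 5 α := by
  by_contra h6
  apply hR
  have hmem : SumSq A (len A α) α := Nat.sInf_mem (s := {n | SumSq A n α}) ⟨6, h⟩
  have h7 : 6 ≤ len A α := by
    by_contra hlt
    exact h6 (mono' hmem (by omega))
  have h7' : (6 : ℕ∞) ≤ (len A α : ℕ∞) := by exact_mod_cast h7
  exact le_iSup_of_le (f := fun α : {α : A // ∃ n, SumSq A n α} => (len A α.1 : ℕ∞))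
    ⟨α, 6, h⟩ h7'

open P7.BRIDGE in
theorem bridge5 (hCOORD : T_COORD) (hFOUR : T_FOUR) (hPLACES : T_PLACES) (a b c : ℕ)
    (hadm : Adm a b c) (hK : ¬ 6 ≤ pythagorasNumber (𝓞 (biquad (a * b) (a * c)))) :
    Bad5 a b c := by
  intro f hf
  have ha : a ≠ 0 := by
    rintro rfl
    have := hadm.1
    simp at this
  -- the ring elements
  have hint : ∀ ν, IsIntegral ℤ
      (⟨val a b c 0 (f ν), val_mem a b c ha (f ν)⟩ : biquad (a * b) (a * c)) := by
    intro ν
    have h : IsIntegral ℤ (val a b c 0 (f ν)) := hf ν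
    have hinj : Function.Injective (algebraMap (biquad (a * b) (a * c)) ℝ) :=
      (algebraMap (biquad (a * b) (a * c)) ℝ).injective
    exact (isIntegral_algebraMap_iff hinj).1 h
  obtain ⟨G, hG⟩ := five hK (α := ∑ ν, (⟨_, hint ν⟩ : 𝓞 (biquad (a * b) (a * c))) ^ 2) ⟨_, rfl⟩
  -- coordinates of the new elements
  have hGi : ∀ ν, IsIntegral ℤ (((G ν : biquad (a * b) (a * c)) : ℝ)) := by
    intro ν
    have h := (G ν).2
    exact IsIntegral.map (algebraMap (biquad (a * b) (a * c)) ℝ).toIntAlgHom h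
  have hco : ∀ ν, ∃ v : Fin 4 → ℤ, val a b c 0 v = ((G ν : biquad (a * b) (a * c)) : ℝ) := by
    intro ν
    obtain ⟨x, y, z, t, hx⟩ := hCOORD a b c hadm _ (G ν : biquad (a * b) (a * c)).2
    have h1 := hGi ν
    rw [hx] at h1
    obtain ⟨v, h0, h1', h2, h3⟩ := hFOUR a b c hadm x y z t h1
    refine ⟨v, ?_⟩
    rw [hx]
    have e0 : (4 : ℝ) * x = v 0 := by exact_mod_cast h0
    have e1 : (4 : ℝ) * y = v 1 := by exact_mod_cast h1'
    have e2 : (4 : ℝ) * z = v 2 := by exact_mod_cast h2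
    have e3 : (4 : ℝ) * t = v 3 := by exact_mod_cast h3
    simp only [val, ev, Matrix.cons_val_zero]
    rw [← e0, ← e1, ← e2, ← e3]
    ring
  choose g hg using hco
  refine ⟨g, fun ν => ?_, ?_⟩
  · show IsIntegral ℤ (val a b c 0 (g ν))
    rw [hg]
    exact hGi ν
  · apply hPLACES a b c hadm
    let φ : 𝓞 (biquad (a * b) (a * c)) →+* ℝ :=
      (algebraMap (biquad (a * b) (a * c)) ℝ).comp
        (algebraMap (𝓞 (biquad (a * b) (a * c))) (biquad (a * b) (a * c)))
    have h := congrArg φ hG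
    have e1 := map_sum φ (fun ν => (⟨_, hint ν⟩ : 𝓞 (biquad (a * b) (a * c))) ^ 2) Finset.univ
    have e2 := map_sum φ (fun ν => G ν ^ 2) Finset.univ
    have h3 := e1.symm.trans (h.trans e2)
    simp only [map_pow] at h3
    simp only [hg]
    exact h3.symm

/-- The form of `T_LOW` is a long form for every relative basis over `ℤ[√3]`. -/
theorem long5_of (x θ : Fin 2 → ℝ) (γ : ℝ) (hγ : γ ≠ 0) (hx : x 0 = √(3 : ℝ)) (ρ : ℤ → ℤ → R)
    (σ : R → ℤ × ℤ) (hσ : ∀ y, ρ (σ y).1 (σ y).2 = y)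
    (hρ : ∀ m n : ℤ, (m : ℝ) + n * θ 0 = γ * e1 (ρ m n)) : Long5 x θ := by
  obtain ⟨⟨X', Y', h1, h2, h3⟩, hno⟩ := p_LOW
  refine ⟨fun ν => ![(X' ν).re, (X' ν).im, (σ (Y' ν)).1, (σ (Y' ν)).2], fun W hW => hno ?_⟩
  obtain ⟨s1, s2, s3⟩ := hW 0
  have eX : ∀ m n : ℤ, (m : ℝ) + n * x 0 = e1 ⟨m, n⟩ := fun m n => by
    rw [hx, e1_eq]
  have inj : ∀ u v : R, e1 u = e1 v → u = v := fun u v h => by
    have : e1 (u - v) = 0 := by rw [map_sub, h, sub_self]
    exact sub_eq_zero.1 (e1_inj this)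
  have eta : ∀ y : R, (⟨y.re, y.im⟩ : R) = y := fun y => rfl
  simp only [Matrix.cons_val_zero, Matrix.cons_val_one, Matrix.cons_val, eX, hρ, hσ, eta]
    at s1 s2 s3
  refine ⟨fun ν => ⟨W ν 0, W ν 1⟩, fun ν => ρ (W ν 2) (W ν 3), ?_, ?_, ?_⟩
  · rw [← h1]
    apply inj
    simpa only [map_sum, map_pow] using s1
  · rw [← h2]
    apply inj
    simp only [map_sum, map_mul]
    have e : ∀ {k : ℕ} (u v : Fin k → R), ∑ ν, e1 (u ν) * (γ * e1 (v ν)) =
        γ * ∑ ν, e1 (u ν) * e1 (v ν) := by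
      intro k u v
      rw [Finset.mul_sum]
      exact Finset.sum_congr rfl fun i _ => by ring
    rw [e (fun ν => ⟨W ν 0, W ν 1⟩) (fun ν => ρ (W ν 2) (W ν 3)), e X' Y'] at s2
    exact mul_left_cancel₀ hγ s2
  · rw [← h3]
    apply inj
    simp only [map_sum, map_pow]
    have e : ∀ {k : ℕ} (v : Fin k → R), ∑ ν, (γ * e1 (v ν)) ^ 2 =
        γ ^ 2 * ∑ ν, e1 (v ν) ^ 2 := by
      intro k v
      rw [Finset.mul_sum]
      exact Finset.sum_congr rfl fun i _ => by ring
    rw [e (fun ν => ρ (W ν 2) (W ν 3)), e Y'] at s3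
    exact mul_left_cancel₀ (pow_ne_zero 2 hγ) s3

theorem sq13 : sq 1 3 = √(3 : ℝ) := by
  unfold P7.sq
  norm_num

theorem sq31 : sq 3 1 = √(3 : ℝ) := by
  unfold P7.sq
  norm_num

open P7.CASEB in
theorem good5A (hBA : T_BA) :
    ∃ B : ℕ, ∀ c, B ≤ c → Adm 1 3 c → c % 2 = 0 → ¬ Bad5 1 3 c := by
  have hs : 0 < sq 1 3 := by
    rw [sq13]
    positivity
  have h3 : (√(3 : ℝ)) * √(3 : ℝ) = 3 := by norm_num
  have hl : Long5 (pm 0 (sq 1 3)) (pm (1 / 2) (sq 1 3 / (2 * ((1 : ℕ) : ℝ)))) := by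
    refine long5_of _ _ ((√(3 : ℝ) - 1) / 2) ?_ ?_ (fun m n => ⟨m + 2 * n, m + n⟩)
      (fun y => (-y.re + 2 * y.im, y.re - y.im)) ?_ ?_
    · intro h
      have : √(3 : ℝ) = 1 := by linarith
      rw [this] at h3
      norm_num at h3
    · simp [pm, sq13]
    · intro y
      apply Zsqrtd.ext
      · show -y.re + 2 * y.im + 2 * (y.re - y.im) = y.re
        ring
      · show -y.re + 2 * y.im + (y.re - y.im) = y.im
        ring
    · intro m n
      rw [e1_eq]
      simp only [pm, sq13, Matrix.cons_val_zero]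
      push_cast
      linear_combination (-(m + n : ℝ) / 2) * h3
  obtain ⟨B, hB⟩ := bt5 1 3 _ _ (pm_ne 0 _ hs)
    (pm_ne (1 / 2) _ (by positivity : 0 < sq 1 3 / (2 * ((1 : ℕ) : ℝ)))) hl
    {c | Adm 1 3 c ∧ c % 2 = 0} (2 * ((1 : ℕ) : ℝ)) (by
      rintro c ⟨h1, h3⟩
      obtain ⟨u, ⟨t, hu⟩, hu0, hu1⟩ := exists_u 1 le_rfl 0 (by norm_num) (by norm_num) c
      refine ⟨_, _, ?_, ?_, hBA 1 3 c h1 (by norm_num) h3 u ⟨t, by omega⟩⟩
      · have := sqrt_le_sq 1 le_rfl c
        have h5 : 0 ≤ ((1 : ℕ) : ℝ) * u := by positivity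
        have h6 := Real.sqrt_nonneg (c : ℝ)
        linarith
      · exact hu1)
  exact ⟨B, fun c hc h1 h3 => hB c ⟨h1, h3⟩ hc⟩

open P7.CASEB in
theorem good5C (hBC : T_BC) (a b : ℕ) (ha : 1 ≤ a) (hb : 1 ≤ b)
    (hl : Long5 (pm 0 (sq a b)) (pm 0 (sq a b / a))) :
    ∃ B : ℕ, ∀ c, B ≤ c → Adm a b c → a * c % 4 = 1 → a * b % 4 ≠ 1 → ¬ Bad5 a b c := by
  have hapos : (0 : ℝ) < a := by exact_mod_cast ha
  have hs := sq_pos a b ha hb
  obtain ⟨B, hB⟩ := bt5 a b _ _ (pm_ne 0 _ hs) (pm_ne 0 _ (by positivity : 0 < sq a b / a)) hl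
    {c | Adm a b c ∧ a * c % 4 = 1 ∧ a * b % 4 ≠ 1} (2 * a) (by
      rintro c ⟨h1, h2, h3⟩
      obtain ⟨u, ⟨t, hu⟩, hu0, hu1⟩ := exists_u a ha 1 (by norm_num) (by norm_num) c
      refine ⟨_, _, ?_, ?_, hBC a b c h1 h2 h3 u (by omega)⟩
      · have := sqrt_le_sq a ha c
        have h5 : 0 ≤ (a : ℝ) * u := by positivity
        have h6 := Real.sqrt_nonneg (c : ℝ)
        linarith
      · rw [abs_div, abs_two]
        have := abs_nonneg ((a : ℝ) * u - sq a c)
        linarith)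
  exact ⟨B, fun c hc h1 h2 h3 => hB c ⟨h1, h2, h3⟩ hc⟩

theorem long5C1 : Long5 (pm 0 (sq 1 3)) (pm 0 (sq 1 3 / ((1 : ℕ) : ℝ))) := by
  refine long5_of _ _ 1 one_ne_zero ?_ (fun m n => ⟨m, n⟩) (fun y => (y.re, y.im)) ?_ ?_
  · simp [pm, sq13]
  · intro y
    rfl
  · intro m n
    rw [e1_eq]
    simp [pm, sq13]

theorem long5C3 : Long5 (pm 0 (sq 3 1)) (pm 0 (sq 3 1 / ((3 : ℕ) : ℝ))) := by
  have h3 : (√(3 : ℝ)) * √(3 : ℝ) = 3 := by norm_num
  refine long5_of _ _ (√(3 : ℝ) / 3) (by positivity) ?_ (fun m n => ⟨n, m⟩)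
    (fun y => (y.im, y.re)) ?_ ?_
  · simp [pm, sq31]
  · intro y
    rfl
  · intro m n
    rw [e1_eq]
    simp only [pm, sq31, Matrix.cons_val_zero]
    push_cast
    linear_combination (-(m : ℝ) / 3) * h3

theorem good5 (hBA : T_BA) (hBC : T_BC) :
    ∃ B : ℕ, ∀ c, B ≤ c → Adm 1 3 c → ¬ Bad5 1 3 c := by
  obtain ⟨B1, hB1⟩ := good5A hBA
  obtain ⟨B2, hB2⟩ := good5C hBC 1 3 le_rfl (by norm_num) long5C1
  obtain ⟨B3, hB3⟩ := good5C hBC 3 1 (by norm_num) le_rfl long5C3
  refine ⟨max B1 (max B2 B3), fun c hc hadm hbad => ?_⟩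
  have hc1 : B1 ≤ c := le_trans (le_max_left _ _) hc
  have hc2 : B2 ≤ c := le_trans (le_trans (le_max_left _ _) (le_max_right _ _)) hc
  have hc3 : B3 ≤ c := le_trans (le_trans (le_max_right _ _) (le_max_right _ _)) hc
  have h4 : c % 4 = 0 ∨ c % 4 = 1 ∨ c % 4 = 2 ∨ c % 4 = 3 := by omega
  rcases h4 with h | h | h | h
  · exact hB1 c hc1 hadm (by omega) hbad
  · exact hB2 c hc2 hadm (by omega) (by norm_num) hbad
  · exact hB1 c hc1 hadm (by omega) hbad
  · exact hB3 c hc3 (CASEB.adm_swap hadm) (by omega) (by norm_num) (swap5 _ _ _ hbad)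

/-- A squarefree number that is three times a rational square is three. -/
theorem eq_three {N : ℕ} (hN : Squarefree N) {y : ℚ} (h : (N : ℚ) * y ^ 2 = 3) : N = 3 := by
  have hsq : IsSquare ((3 * N : ℕ) : ℚ) := by
    refine ⟨N * y, ?_⟩
    push_cast
    linear_combination -(N : ℚ) * h
  rw [Rat.isSquare_natCast_iff] at hsq
  obtain ⟨s, hs⟩ := hsq
  have h3 : 3 ∣ s := by
    have : 3 ∣ s * s := ⟨N, hs.symm⟩
    rcases (Nat.Prime.dvd_mul Nat.prime_three).1 this with h | h <;> exact h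
  obtain ⟨u, rfl⟩ := h3
  have hu : N = 3 * (u * u) := by linarith
  have hu1 := hN u ⟨3, by rw [hu]; ring⟩
  rw [Nat.isUnit_iff] at hu1
  rw [hu, hu1]

theorem three_mem (hLI : T_LI) (hCOORD : T_COORD) {a b c : ℕ} (hadm : Adm a b c)
    (h3 : √(3 : ℝ) ∈ biquad (a * b) (a * c)) : a * b = 3 ∨ a * c = 3 ∨ b * c = 3 := by
  obtain ⟨x, y, z, t, hx⟩ := hCOORD a b c hadm _ h3
  have hsqf := hadm.1
  have ha : a ≠ 0 := by
    rintro rfl
    simp at hsqf
  have hb : b ≠ 0 := by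
    rintro rfl
    simp at hsqf
  have hc : c ≠ 0 := by
    rintro rfl
    simp at hsqf
  have hab : Squarefree (a * b) := hsqf.of_mul_left
  have hbc : Squarefree (b * c) := by
    have : a * b * c = (b * c) * a := by ring
    rw [this] at hsqf
    exact hsqf.of_mul_left
  have hac : Squarefree (a * c) := by
    have : a * b * c = (a * c) * b := by ring
    rw [this] at hsqf
    exact hsqf.of_mul_left
  have hirr : ∀ s : ℚ, (s : ℝ) ^ 2 ≠ 3 := by
    intro s hs
    have hir : Irrational (√(3 : ℕ)) := Nat.Prime.irrational_sqrt (by norm_num)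
    apply hir
    refine ⟨|s|, ?_⟩
    rw [Rat.cast_abs, Nat.cast_ofNat, ← hs, Real.sqrt_sq_eq_abs]
  have q1 : sq a b * sq a b = a * b := by
    unfold P7.sq
    rw [Real.mul_self_sqrt (Nat.cast_nonneg _)]
    push_cast
    ring
  have q2 : sq a c * sq a c = a * c := by
    unfold P7.sq
    rw [Real.mul_self_sqrt (Nat.cast_nonneg _)]
    push_cast
    ring
  have q3 : sq b c * sq b c = b * c := by
    unfold P7.sq
    rw [Real.mul_self_sqrt (Nat.cast_nonneg _)]
    push_cast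
    ring
  have r1 : sq a b * sq a c = a * sq b c := P7.BRIDGE.sq_mul a b c
  have r2 : sq a b * sq b c = b * sq a c := by
    have := P7.BRIDGE.sq_mul b a c
    rwa [P7.SWAP.sq_comm' b a] at this
  have r3 : sq a c * sq b c = c * sq a b := by
    have := P7.BRIDGE.sq_mul c a b
    rwa [P7.SWAP.sq_comm' c a, P7.SWAP.sq_comm' c b] at this
  have hsq : (√(3 : ℝ)) * √(3 : ℝ) = 3 := by norm_num
  have e1 : ((x ^ 2 + a * b * y ^ 2 + a * c * z ^ 2 + b * c * t ^ 2 - 3 : ℚ) : ℝ) +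
      ((2 * (x * y + c * z * t) : ℚ) : ℝ) * sq a b + ((2 * (x * z + b * y * t) : ℚ) : ℝ) * sq a c +
      ((2 * (x * t + a * y * z) : ℚ) : ℝ) * sq b c = 0 := by
    rw [hx] at hsq
    push_cast
    linear_combination hsq - (y : ℝ) ^ 2 * q1 - (z : ℝ) ^ 2 * q2 - (t : ℝ) ^ 2 * q3 -
      2 * (y : ℝ) * z * r1 - 2 * (y : ℝ) * t * r2 - 2 * (z : ℝ) * t * r3
  obtain ⟨k0, k1, k2, k3⟩ := hLI a b c hadm _ _ _ _ e1
  have k1' : x * y + c * z * t = 0 := by linarith
  have k2' : x * z + b * y * t = 0 := by linarith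
  have k3' : x * t + a * y * z = 0 := by linarith
  have haq : (a : ℚ) ≠ 0 := by exact_mod_cast ha
  have hbq : (b : ℚ) ≠ 0 := by exact_mod_cast hb
  have hcq : (c : ℚ) ≠ 0 := by exact_mod_cast hc
  have hx3 : ∀ s : ℚ, s ^ 2 ≠ 3 := fun s hs => hirr s (by exact_mod_cast hs)
  by_cases hx0 : x = 0
  · subst hx0
    by_cases hy0 : y = 0
    · subst hy0
      by_cases hz0 : z = 0
      · subst hz0
        right; right
        refine eq_three hbc (y := t) ?_
        push_cast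
        linarith
      · have ht0 : t = 0 := by
          have : c * z * t = 0 := by linarith
          rcases mul_eq_zero.1 this with h | h
          · rcases mul_eq_zero.1 h with h' | h'
            · exact absurd h' hcq
            · exact absurd h' hz0
          · exact h
        subst ht0
        right; left
        refine eq_three hac (y := z) ?_
        push_cast
        linarith
    · have ht0 : t = 0 := by
        have : b * y * t = 0 := by linarith
        rcases mul_eq_zero.1 this with h | h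
        · rcases mul_eq_zero.1 h with h' | h'
          · exact absurd h' hbq
          · exact absurd h' hy0
        · exact h
      have hz0 : z = 0 := by
        have : a * y * z = 0 := by linarith
        rcases mul_eq_zero.1 this with h | h
        · rcases mul_eq_zero.1 h with h' | h'
          · exact absurd h' haq
          · exact absurd h' hy0
        · exact h
      subst ht0
      subst hz0
      left
      refine eq_three hab (y := y) ?_
      push_cast
      linarith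
  · exfalso
    -- if one of the others is zero, all are
    by_cases ht0 : t = 0
    · subst ht0
      have hy0 : y = 0 := by
        have : x * y = 0 := by linarith
        rcases mul_eq_zero.1 this with h | h
        · exact absurd h hx0
        · exact h
      have hz0 : z = 0 := by
        have : x * z = 0 := by linarith
        rcases mul_eq_zero.1 this with h | h
        · exact absurd h hx0
        · exact h
      subst hy0
      subst hz0
      exact hx3 x (by linarith)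
    · by_cases hy0 : y = 0
      · subst hy0
        have : x * t = 0 := by linarith
        rcases mul_eq_zero.1 this with h | h
        · exact hx0 h
        · exact ht0 h
      · by_cases hz0 : z = 0
        · subst hz0
          have : x * t = 0 := by linarith
          rcases mul_eq_zero.1 this with h | h
          · exact hx0 h
          · exact ht0 h
        · have h1 : y * z * (x ^ 2 - b * c * t ^ 2) = 0 := by
            linear_combination (x * z) * k1' - (c * z * t) * k2'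
          have h2 : x ^ 2 - b * c * t ^ 2 = 0 := by
            rcases mul_eq_zero.1 h1 with h | h
            · rcases mul_eq_zero.1 h with h' | h'
              · exact absurd h' hy0
              · exact absurd h' hz0
            · exact h
          have h4 : sq b c = ((|x / t| : ℚ) : ℝ) := by
            unfold P7.sq
            have : ((b * c : ℕ) : ℝ) = ((x / t : ℚ) : ℝ) ^ 2 := by
              have h5 : ((b * c : ℕ) : ℚ) = (x / t) ^ 2 := by
                push_cast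
                field_simp
                linarith
              exact_mod_cast h5
            rw [this, Real.sqrt_sq_eq_abs, Rat.cast_abs]
          have h6 := hLI a b c hadm (-|x / t|) 0 0 1 (by
            rw [h4]
            push_cast
            ring)
          exact one_ne_zero h6.2.2.2

theorem finite6 : {K : IntermediateField ℚ ℝ | IsBiquadratic K ∧ √(3 : ℝ) ∈ K ∧
    pythagorasNumber (𝓞 K) ≠ 6}.Finite := by
  have hcong := tCONG (tCONJ tLI)
  have hBA : T_BA := tBA tLAM (tLA hcong)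
  have hBC : T_BC := tBC tLAM (tLC hcong)
  obtain ⟨B, hB⟩ := good5 hBA hBC
  refine (((Set.finite_Iio B).image fun c : ℕ => biquad (1 * 3) (1 * c)).union
    (Set.finite_singleton (biquad (1 * 2) (1 * 3)))).subset ?_
  rintro K ⟨hbi, h3, hP⟩
  have h6 : ¬ 6 ≤ pythagorasNumber (𝓞 K) := fun h => hP (le_antisymm (m_OK K hbi h3) h)
  obtain ⟨a, b, c, h1, hab, hbc, hadm, rfl⟩ := tTRIPLE K hbi
  have hbad := bridge5 tCOORD (tFOUR (tCONJ tLI)) (tPLACES tLI) a b c hadm h6
  rcases three_mem tLI tCOORD hadm h3 with h | h | h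
  · have ha1 : a = 1 := by
      have h2 : a * a < 3 := by nlinarith
      nlinarith
    subst ha1
    have hb3 : b = 3 := by omega
    subst hb3
    left
    refine ⟨c, ?_, rfl⟩
    show c < B
    by_contra hcB
    exact hB c (by omega) hadm hbad
  · have ha1 : a = 1 := by
      have h2 : a * a < 3 := by nlinarith
      nlinarith
    subst ha1
    have hc3 : c = 3 := by omega
    subst hc3
    have hb2 : b = 2 := by omega
    subst hb2
    right
    rfl
  · exfalso
    have h2 : 2 * 3 ≤ b * c := Nat.mul_le_mul (by omega) (by omega)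
    omega

end ST6
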