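import Pool.Agent.ST6.Targets

set_option autoImplicit false

/-!
# MP_a901ae_nt, target CLS3: the classification of the ternary unimodular forms
-/

namespace ST6

open Matrix

/-- All values of a form with `Ev` diagonal are `Ev`. -/
theorem ev_CLS3 (X : Matrix (Fin 3) (Fin 3) R) (hX : Xᵀ = X) (hE : ∀ i, Ev (X i i))
    (x : Fin 3 → R) : Ev (x ⬝ᵥ (X *ᵥ x)) := by
  have h10 : X 1 0 = X 0 1 := congrFun (congrFun hX 0) 1
  have h20 : X 2 0 = X 0 2 := congrFun (congrFun hX 0) 2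
  have h21 : X 2 1 = X 1 2 := congrFun (congrFun hX 1) 2
  have e : x ⬝ᵥ (X *ᵥ x) = X 0 0 * x 0 ^ 2 + X 1 1 * x 1 ^ 2 + X 2 2 * x 2 ^ 2 +
      2 * (X 0 1 * x 0 * x 1 + X 0 2 * x 0 * x 2 + X 1 2 * x 1 * x 2) := by
    simp only [dotProduct, mulVec, Fin.sum_univ_three, h10, h20, h21]
    ring
  rw [e]
  exact (((Ev.mul (hE 0) (Ev_sq _)).add (Ev.mul (hE 1) (Ev_sq _))).add
    (Ev.mul (hE 2) (Ev_sq _))).add (Ev_two_mul _)

/-- The entries of `Aᵀ X A`. -/
theorem ent_CLS3 (X A : Matrix (Fin 3) (Fin 3) R) (k l : Fin 3) :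
    (Aᵀ * X * A) k l = (fun i => A i k) ⬝ᵥ (X *ᵥ fun i => A i l) := by
  simp only [Matrix.mul_apply, Matrix.transpose_apply, dotProduct, mulVec, Fin.sum_univ_three]
  ring

/-- A column of a matrix of determinant `1` is not zero. -/
theorem col_CLS3 (A : Matrix (Fin 3) (Fin 3) R) (hA : A.det = 1) (k : Fin 3) :
    (fun i => A i k) ≠ 0 := by
  intro h
  have h0 : A.det = 0 := Matrix.det_eq_zero_of_column_eq_zero k fun i => congrFun h i
  rw [hA] at h0
  exact one_ne_zero h0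

theorem p_CLS3 (h1 : T_ONE) (h2 : T_CLS2) (h3 : T_CPL) : T_CLS3 := by
  intro X hX hdet hE
  obtain ⟨v, hv⟩ := h1 X hX hdet hE
  obtain ⟨U0, hU0, hcol⟩ := h3.2 v (X *ᵥ v) (by rw [dotProduct_comm]; exact hv)
  -- the matrix in the new basis
  obtain ⟨Y, hY⟩ : ∃ Y : Matrix (Fin 3) (Fin 3) R, Y = U0ᵀ * X * U0 := ⟨_, rfl⟩
  have hYs : Yᵀ = Y := by
    rw [hY, transpose_mul, transpose_mul, transpose_transpose, hX.1, Matrix.mul_assoc]
  have hY00 : Y 0 0 = 1 := by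
    rw [hY, ent_CLS3]
    have : (fun i => U0 i 0) = v := funext hcol
    rw [this]
    exact hv
  have hY10 : Y 1 0 = Y 0 1 := congrFun (congrFun hYs 0) 1
  have hY20 : Y 2 0 = Y 0 2 := congrFun (congrFun hYs 0) 2
  have hY21 : Y 2 1 = Y 1 2 := congrFun (congrFun hYs 1) 2
  obtain ⟨T, hT⟩ : ∃ T : Matrix (Fin 3) (Fin 3) R,
      T = !![1, -Y 0 1, -Y 0 2; 0, 1, 0; 0, 0, 1] := ⟨_, rfl⟩
  have hTd : T.det = 1 := by
    rw [hT, Matrix.det_fin_three]
    simp
  obtain ⟨P, hP⟩ : ∃ P : Matrix (Fin 3) (Fin 3) R, P = U0 * T := ⟨_, rfl⟩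
  have hPd : P.det = 1 := by rw [hP, det_mul, hU0, hTd, one_mul]
  obtain ⟨p, hp⟩ : ∃ p : R, p = Y 1 1 - Y 0 1 ^ 2 := ⟨_, rfl⟩
  obtain ⟨q, hq⟩ : ∃ q : R, q = Y 1 2 - Y 0 1 * Y 0 2 := ⟨_, rfl⟩
  obtain ⟨r, hr⟩ : ∃ r : R, r = Y 2 2 - Y 0 2 ^ 2 := ⟨_, rfl⟩
  have hZ : Pᵀ * X * P = !![1, 0, 0; 0, p, q; 0, q, r] := by
    have e1 : Pᵀ * X * P = Tᵀ * Y * T := by
      rw [hP, hY, transpose_mul]
      simp only [Matrix.mul_assoc]
    rw [e1]
    refine Matrix.ext fun i j => ?_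
    rw [ent_CLS3]
    fin_cases i <;> fin_cases j <;>
      simp [hT, dotProduct, mulVec, Fin.sum_univ_three, hY00, hY10, hY20, hY21, hp, hq, hr] <;>
      ring
  have hp1 : p = (fun i => P i 1) ⬝ᵥ (X *ᵥ fun i => P i 1) := by
    rw [← ent_CLS3, hZ]
    rfl
  have hr1 : r = (fun i => P i 2) ⬝ᵥ (X *ᵥ fun i => P i 2) := by
    rw [← ent_CLS3, hZ]
    rfl
  have hEp : Ev p := by rw [hp1]; exact ev_CLS3 X hX.1 hE _
  have hEr : Ev r := by rw [hr1]; exact ev_CLS3 X hX.1 hE _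
  have hTp : Tp p := by rw [hp1]; exact hX.2 _ (col_CLS3 P hPd 1)
  have hd : p * r - q ^ 2 = 1 := by
    have h4 : (Pᵀ * X * P).det = 1 := by
      rw [det_mul, det_mul, det_transpose, hPd, hdet, one_mul, one_mul]
    rw [hZ, Matrix.det_fin_three] at h4
    simp at h4
    linear_combination h4
  obtain ⟨U2, hU2, hcase⟩ := h2 p q r hEp hEr hTp hd
  obtain ⟨U3, hU3⟩ : ∃ U3 : Matrix (Fin 3) (Fin 3) R,
      U3 = !![1, 0, 0; 0, U2 0 0, U2 0 1; 0, U2 1 0, U2 1 1] := ⟨_, rfl⟩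
  have hU3d : U3.det = U2.det := by
    rw [hU3, Matrix.det_fin_three, Matrix.det_fin_two]
    simp
  -- back to `X`
  obtain ⟨Q, hPQ⟩ : ∃ Q : Matrix (Fin 3) (Fin 3) R, P * Q = 1 :=
    ⟨P.adjugate, by rw [Matrix.mul_adjugate, hPd, one_smul]⟩
  have hQd : Q.det = 1 := by
    have h5 := congrArg Matrix.det hPQ
    rw [det_mul, hPd, one_mul, det_one] at h5
    exact h5
  have hback : ∀ M : Matrix (Fin 3) (Fin 3) R, Pᵀ * X * P = U3ᵀ * M * U3 →
      X = (U3 * Q)ᵀ * M * (U3 * Q) := by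
    intro M hM
    have h6 : Qᵀ * (Pᵀ * X * P) * Q = (P * Q)ᵀ * X * (P * Q) := by
      rw [transpose_mul]
      simp only [Matrix.mul_assoc]
    rw [hPQ, transpose_one, Matrix.one_mul, Matrix.mul_one] at h6
    rw [← h6, hM, transpose_mul]
    simp only [Matrix.mul_assoc]
  refine ⟨U3 * Q, ?_, ?_⟩
  · rw [det_mul, hQd, mul_one, hU3d, hU2]
  · rcases hcase with hc | hc
    · left
      have h7 := hback 1 (by
        rw [hZ, Matrix.mul_one]
        have e00 := congrFun (congrFun hc 0) 0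
        have e01 := congrFun (congrFun hc 0) 1
        have e10 := congrFun (congrFun hc 1) 0
        have e11 := congrFun (congrFun hc 1) 1
        simp [Matrix.mul_apply, Fin.sum_univ_two] at e00 e01 e10 e11
        refine Matrix.ext fun i j => ?_
        fin_cases i <;> fin_cases j <;>
          simp [hU3, Matrix.mul_apply, Fin.sum_univ_three, ← e00, ← e01, ← e10, ← e11])
      rw [Matrix.mul_one] at h7
      exact h7
    · right
      refine hback G2 ?_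
      rw [hZ]
      have e00 := congrFun (congrFun hc 0) 0
      have e01 := congrFun (congrFun hc 0) 1
      have e10 := congrFun (congrFun hc 1) 0
      have e11 := congrFun (congrFun hc 1) 1
      simp [Matrix.mul_apply, Fin.sum_univ_two] at e00 e01 e10 e11
      refine Matrix.ext fun i j => ?_
      fin_cases i <;> fin_cases j <;>
        simp [hU3, G2, Matrix.mul_apply, Fin.sum_univ_three, ← e00, ← e01, ← e10, ← e11]

end ST6
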