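import Pool.Agent.ST6.Targets

/-!
# ST6: among seven vectors (CMB)
-/

set_option autoImplicit false
set_option maxRecDepth 100000

namespace ST6

/-- Table of the subtraction of a type (chunks of 256 bits). -/
def tl_CMB : List ℕ := [
  0x25cddd05e24a9a02e08858002109190124ccdc04e1499901e38b5b0320081800,
  0x27cfdf07e0489800e28a5a02230b1b0326cede06e34b9b03e1895901220a1a02,
  0x21c9d901e64e9e06e48c5c04250d1d0520c8d800e54d9d05e78f5f07240c1c04,
  0x23cbdb03e44c9c04e68e5e06270f1f0722cada02e74f9f07e58d5d05260e1e06,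
  0x2dd5c50dea52820ae8904008291101092cd4c40ce9518109eb93430b28100008,
  0x2fd7c70fe8508008ea92420a2b13030b2ed6c60eeb53830be99141092a12020a,
  0x29d1c109ee56860eec94440c2d15050d28d0c008ed55850def97470f2c14040c,
  0x2bd3c30bec54840cee96460e2f17070f2ad2c20aef57870fed95450d2e16060e,
  0x35ddcd15f25a8a12f09848103119091134dccc14f1598911f39b4b1330180810,
  0x37dfcf17f0588810f29a4a12331b0b1336dece16f35b8b13f1994911321a0a12,
  0x31d9c911f65e8e16f49c4c14351d0d1530d8c810f55d8d15f79f4f17341c0c14,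
  0x33dbcb13f45c8c14f69e4e16371f0f1732daca12f75f8f17f59d4d15361e0e16,
  0x3dc5d51dfa42921af8805018390111193cc4d41cf9419119fb83531b38001018,
  0x3fc7d71ff8409018fa82521a3b03131b3ec6d61efb43931bf98151193a02121a,
  0x39c1d119fe46961efc84541c3d05151d38c0d018fd45951dff87571f3c04141c,
  0x3bc3d31bfc44941cfe86561e3f07171f3ac2d21aff47971ffd85551d3e06161e,
  0x05edfd25c26aba22c0a878200129392104ecfc24c169b921c3ab7b2300283820,
  0x07efff27c068b820c2aa7a22032b3b2306eefe26c36bbb23c1a97921022a3a22,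
  0x01e9f921c66ebe26c4ac7c24052d3d2500e8f820c56dbd25c7af7f27042c3c24,
  0x03ebfb23c46cbc24c6ae7e26072f3f2702eafa22c76fbf27c5ad7d25062e3e26,
  0x0df5e52dca72a22ac8b06028093121290cf4e42cc971a129cbb3632b08302028,
  0x0ff7e72fc870a028cab2622a0b33232b0ef6e62ecb73a32bc9b161290a32222a,
  0x09f1e129ce76a62eccb4642c0d35252d08f0e028cd75a52dcfb7672f0c34242c,
  0x0bf3e32bcc74a42cceb6662e0f37272f0af2e22acf77a72fcdb5652d0e36262e,
  0x15fded35d27aaa32d0b868301139293114fcec34d179a931d3bb6b3310382830,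
  0x17ffef37d078a830d2ba6a32133b2b3316feee36d37bab33d1b96931123a2a32,
  0x11f9e931d67eae36d4bc6c34153d2d3510f8e830d57dad35d7bf6f37143c2c34,
  0x13fbeb33d47cac34d6be6e36173f2f3712faea32d77faf37d5bd6d35163e2e36,
  0x1de5f53dda62b23ad8a07038192131391ce4f43cd961b139dba3733b18203038,
  0x1fe7f73fd860b038daa2723a1b23333b1ee6f63edb63b33bd9a171391a22323a,
  0x19e1f139de66b63edca4743c1d25353d18e0f038dd65b53ddfa7773f1c24343c,
  0x1be3f33bdc64b43cdea6763e1f27373f1ae2f23adf67b73fdda5753d1e26363e,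
  0x658d9d45a20ada42a0c8184061495941648c9c44a109d941a3cb1b4360485840,
  0x678f9f47a008d840a2ca1a42634b5b43668e9e46a30bdb43a1c91941624a5a42,
  0x61899941a60ede46a4cc1c44654d5d4560889840a50ddd45a7cf1f47644c5c44,
  0x638b9b43a40cdc44a6ce1e46674f5f47628a9a42a70fdf47a5cd1d45664e5e46,
  0x6d95854daa12c24aa8d00048695141496c94844ca911c149abd3034b68504048,
  0x6f97874fa810c048aad2024a6b53434b6e96864eab13c34ba9d101496a52424a,
  0x69918149ae16c64eacd4044c6d55454d68908048ad15c54dafd7074f6c54444c,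
  0x6b93834bac14c44caed6064e6f57474f6a92824aaf17c74fadd5054d6e56464e,
  0x759d8d55b21aca52b0d8085071594951749c8c54b119c951b3db0b5370584850,
  0x779f8f57b018c850b2da0a52735b4b53769e8e56b31bcb53b1d90951725a4a52,
  0x71998951b61ece56b4dc0c54755d4d5570988850b51dcd55b7df0f57745c4c54,
  0x739b8b53b41ccc54b6de0e56775f4f57729a8a52b71fcf57b5dd0d55765e4e56,
  0x7d85955dba02d25ab8c01058794151597c84945cb901d159bbc3135b78405058,
  0x7f87975fb800d058bac2125a7b43535b7e86965ebb03d35bb9c111597a42525a,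
  0x79819159be06d65ebcc4145c7d45555d78809058bd05d55dbfc7175f7c44545c,
  0x7b83935bbc04d45cbec6165e7f47575f7a82925abf07d75fbdc5155d7e46565e,
  0x45adbd65822afa6280e838604169796144acbc648129f96183eb3b6340687860,
  0x47afbf678028f86082ea3a62436b7b6346aebe66832bfb6381e93961426a7a62,
  0x41a9b961862efe6684ec3c64456d7d6540a8b860852dfd6587ef3f67446c7c64,
  0x43abbb63842cfc6486ee3e66476f7f6742aaba62872fff6785ed3d65466e7e66,
  0x4db5a56d8a32e26a88f02068497161694cb4a46c8931e1698bf3236b48706068,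
  0x4fb7a76f8830e0688af2226a4b73636b4eb6a66e8b33e36b89f121694a72626a,
  0x49b1a1698e36e66e8cf4246c4d75656d48b0a0688d35e56d8ff7276f4c74646c,
  0x4bb3a36b8c34e46c8ef6266e4f77676f4ab2a26a8f37e76f8df5256d4e76666e,
  0x55bdad75923aea7290f828705179697154bcac749139e97193fb2b7350786870,
  0x57bfaf779038e87092fa2a72537b6b7356beae76933beb7391f92971527a6a72,
  0x51b9a971963eee7694fc2c74557d6d7550b8a870953ded7597ff2f77547c6c74,
  0x53bbab73943cec7496fe2e76577f6f7752baaa72973fef7795fd2d75567e6e76,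
  0x5da5b57d9a22f27a98e03078596171795ca4b47c9921f1799be3337b58607078,
  0x5fa7b77f9820f0789ae2327a5b63737b5ea6b67e9b23f37b99e131795a62727a,
  0x59a1b1799e26f67e9ce4347c5d65757d58a0b0789d25f57d9fe7377f5c64747c,
  0x5ba3b37b9c24f47c9ee6367e5f67777f5aa2b27a9f27f77f9de5357d5e66767e,
  0xa54d5d8562ca1a826008d880a1899981a44c5c8461c91981630bdb83a0889880,
  0xa74f5f8760c81880620ada82a38b9b83a64e5e8663cb1b836109d981a28a9a82,
  0xa149598166ce1e86640cdc84a58d9d85a048588065cd1d85670fdf87a48c9c84,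
  0xa34b5b8364cc1c84660ede86a78f9f87a24a5a8267cf1f87650ddd85a68e9e86,
  0xad55458d6ad2028a6810c088a9918189ac54448c69d101896b13c38ba8908088,
  0xaf57478f68d000886a12c28aab93838bae56468e6bd3038b6911c189aa92828a,
  0xa95141896ed6068e6c14c48cad95858da85040886dd5058d6f17c78fac94848c,
  0xab53438b6cd4048c6e16c68eaf97878faa52428a6fd7078f6d15c58dae96868e,
  0xb55d4d9572da0a927018c890b1998991b45c4c9471d90991731bcb93b0988890,
  0xb75f4f9770d80890721aca92b39b8b93b65e4e9673db0b937119c991b29a8a92,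
  0xb159499176de0e96741ccc94b59d8d95b058489075dd0d95771fcf97b49c8c94,
  0xb35b4b9374dc0c94761ece96b79f8f97b25a4a9277df0f97751dcd95b69e8e96,
  0xbd45559d7ac2129a7800d098b9819199bc44549c79c111997b03d39bb8809098,
  0xbf47579f78c010987a02d29abb83939bbe46569e7bc3139b7901d199ba82929a,
  0xb94151997ec6169e7c04d49cbd85959db84050987dc5159d7f07d79fbc84949c,
  0xbb43539b7cc4149c7e06d69ebf87979fba42529a7fc7179f7d05d59dbe86969e,
  0x856d7da542ea3aa24028f8a081a9b9a1846c7ca441e939a1432bfba380a8b8a0,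
  0x876f7fa740e838a0422afaa283abbba3866e7ea643eb3ba34129f9a182aabaa2,
  0x816979a146ee3ea6442cfca485adbda5806878a045ed3da5472fffa784acbca4,
  0x836b7ba344ec3ca4462efea687afbfa7826a7aa247ef3fa7452dfda586aebea6,
  0x8d7565ad4af222aa4830e0a889b1a1a98c7464ac49f121a94b33e3ab88b0a0a8,
  0x8f7767af48f020a84a32e2aa8bb3a3ab8e7666ae4bf323ab4931e1a98ab2a2aa,
  0x897161a94ef626ae4c34e4ac8db5a5ad887060a84df525ad4f37e7af8cb4a4ac,
  0x8b7363ab4cf424ac4e36e6ae8fb7a7af8a7262aa4ff727af4d35e5ad8eb6a6ae,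
  0x957d6db552fa2ab25038e8b091b9a9b1947c6cb451f929b1533bebb390b8a8b0,
  0x977f6fb750f828b0523aeab293bbabb3967e6eb653fb2bb35139e9b192baaab2,
  0x917969b156fe2eb6543cecb495bdadb5907868b055fd2db5573fefb794bcacb4,
  0x937b6bb354fc2cb4563eeeb697bfafb7927a6ab257ff2fb7553dedb596beaeb6,
  0x9d6575bd5ae232ba5820f0b899a1b1b99c6474bc59e131b95b23f3bb98a0b0b8,
  0x9f6777bf58e030b85a22f2ba9ba3b3bb9e6676be5be333bb5921f1b99aa2b2ba,
  0x996171b95ee636be5c24f4bc9da5b5bd986070b85de535bd5f27f7bf9ca4b4bc,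
  0x9b6373bb5ce434bc5e26f6be9fa7b7bf9a6272ba5fe737bf5d25f5bd9ea6b6be,
  0xe50d1dc5228a5ac2204898c0e1c9d9c1e40c1cc4218959c1234b9bc3e0c8d8c0,
  0xe70f1fc7208858c0224a9ac2e3cbdbc3e60e1ec6238b5bc3214999c1e2cadac2,
  0xe10919c1268e5ec6244c9cc4e5cdddc5e00818c0258d5dc5274f9fc7e4ccdcc4,
  0xe30b1bc3248c5cc4264e9ec6e7cfdfc7e20a1ac2278f5fc7254d9dc5e6cedec6,
  0xed1505cd2a9242ca285080c8e9d1c1c9ec1404cc299141c92b5383cbe8d0c0c8,
  0xef1707cf289040c82a5282caebd3c3cbee1606ce2b9343cb295181c9ead2c2ca,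
  0xe91101c92e9646ce2c5484ccedd5c5cde81000c82d9545cd2f5787cfecd4c4cc,
  0xeb1303cb2c9444cc2e5686ceefd7c7cfea1202ca2f9747cf2d5585cdeed6c6ce,
  0xf51d0dd5329a4ad2305888d0f1d9c9d1f41c0cd4319949d1335b8bd3f0d8c8d0,
  0xf71f0fd7309848d0325a8ad2f3dbcbd3f61e0ed6339b4bd3315989d1f2dacad2,
  0xf11909d1369e4ed6345c8cd4f5ddcdd5f01808d0359d4dd5375f8fd7f4dcccd4,
  0xf31b0bd3349c4cd4365e8ed6f7dfcfd7f21a0ad2379f4fd7355d8dd5f6deced6,
  0xfd0515dd3a8252da384090d8f9c1d1d9fc0414dc398151d93b4393dbf8c0d0d8,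
  0xff0717df388050d83a4292dafbc3d3dbfe0616de3b8353db394191d9fac2d2da,
  0xf90111d93e8656de3c4494dcfdc5d5ddf80010d83d8555dd3f4797dffcc4d4dc,
  0xfb0313db3c8454dc3e4696deffc7d7dffa0212da3f8757df3d4595ddfec6d6de,
  0xc52d3de502aa7ae20068b8e0c1e9f9e1c42c3ce401a979e1036bbbe3c0e8f8e0,
  0xc72f3fe700a878e0026abae2c3ebfbe3c62e3ee603ab7be30169b9e1c2eafae2,
  0xc12939e106ae7ee6046cbce4c5edfde5c02838e005ad7de5076fbfe7c4ecfce4,
  0xc32b3be304ac7ce4066ebee6c7efffe7c22a3ae207af7fe7056dbde5c6eefee6,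
  0xcd3525ed0ab262ea0870a0e8c9f1e1e9cc3424ec09b161e90b73a3ebc8f0e0e8,
  0xcf3727ef08b060e80a72a2eacbf3e3ebce3626ee0bb363eb0971a1e9caf2e2ea,
  0xc93121e90eb666ee0c74a4eccdf5e5edc83020e80db565ed0f77a7efccf4e4ec,
  0xcb3323eb0cb464ec0e76a6eecff7e7efca3222ea0fb767ef0d75a5edcef6e6ee,
  0xd53d2df512ba6af21078a8f0d1f9e9f1d43c2cf411b969f1137babf3d0f8e8f0,
  0xd73f2ff710b868f0127aaaf2d3fbebf3d63e2ef613bb6bf31179a9f1d2faeaf2,
  0xd13929f116be6ef6147cacf4d5fdedf5d03828f015bd6df5177faff7d4fcecf4,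
  0xd33b2bf314bc6cf4167eaef6d7ffeff7d23a2af217bf6ff7157dadf5d6feeef6,
  0xdd2535fd1aa272fa1860b0f8d9e1f1f9dc2434fc19a171f91b63b3fbd8e0f0f8,
  0xdf2737ff18a070f81a62b2fadbe3f3fbde2636fe1ba373fb1961b1f9dae2f2fa,
  0xd92131f91ea676fe1c64b4fcdde5f5fdd82030f81da575fd1f67b7ffdce4f4fc,
  0xdb2333fb1ca474fc1e66b6fedfe7f7ffda2232fa1fa777ff1d65b5fddee6f6fe]

/-- Table of the types whose subtraction gives a value that is not good. -/
def bl_CMB : List ℕ := [
  0xc6f5d99bcf65299056fcf00f5f6c000666767667676610000110766701100001,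
  0xa6f3b99daf63499036faf00f3f6a0006f6ef799efe6f9ff09999e99799990ff9,
  0x56fcd66d5f6c4660c6f5dff9cf650ff406e0e66e0e6080006806e66e60860008,
  0x36fab66b3f6a2660a6f3bff9af630ff296f9e9979f699ff0f18f799ef81f0ff9,
  0x99f965cf0b906c5f9669f5c60420fc56a9fc9cafcf9a9cafa9fcfac9cf9afac9,
  0x09d06a3f9f9963af0420fa369669f3a6c9fa9cafaf9c9cafc9fafac9af9cfac9,
  0xf9df65cf6d966c5ff44ff5c66046fc5639f5935f5f93935f39f5f5395f93f539,
  0x69b66a3ffb9f63af6206fa36f22ff3a659f3935f3f95935f59f3f5393f95f539,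
  0x09b06c5f9f9965cf0240fc569669f5c6c9fa9acfaf9c9acfc9fafca9af9cfca9,
  0x99f963af0d906a3f9669f3a60240fa36a9fc9acfcf9a9acfa9fcfca9cf9afca9,
  0x69d66c5ffd9f65cf6406fc56f44ff5c659f3953f3f95953f59f3f3593f95f359,
  0xf9bf63af6b966a3ff22ff3a66026fa3639f5953f5f93953f39f5f3595f93f359,
  0x56fcf00f5f6c6000c6f5b99dcf65099206706007076016606106700660160661,
  0x36faf00f3f6a6000a6f3d99baf63099496f9ffff9f698990f81ffffff18f0998,
  0xc6f59ffdcf654ff056fcd66d5f6c066466e6600e6e6686600880e00608800668,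
  0xa6f39ffbaf632ff036fab66b3f6a0662f67ffffff76f19909999ffff99990991]

/-- Tables of the sums of `k` types. -/
def sl_CMB : List ℕ := [
  0x0000000000000000000000000000000000000000000000000000000000000001,
  0x0000000a1000100000000000020008000000000008000200000000110100011b,
  0x1b001bafb111b1be27008d0027aa8daa8d0027008daa27aab100b1bb1b051bbf,
  0xbf1bbfffffbbffff7fffdfffffffffffdfff7ffffffffffffbfffbffff5fffff,
  0xffbfffffffffffffffffffffffffffffffffffffffffffffffffffffffffffff,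
  0xffffffffffffffffffffffffffffffffffffffffffffffffffffffffffffffff,
  0xffffffffffffffffffffffffffffffffffffffffffffffffffffffffffffffff]

/-- Table of the good values. -/
def gd_CMB : ℕ :=
  0x1b101bffb111b1be27008d0027aa8daa8d0027008daa27aab114b1ff1b501bba

/-- Concatenation of chunks of 256 bits. -/
def cat_CMB (l : List ℕ) : ℕ :=
  List.rec 0 (fun x _ acc => Nat.add x (Nat.shiftLeft acc 256)) l

/-- The whole table of subtractions. -/
def TT_CMB : ℕ := cat_CMB tl_CMB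

/-- The whole table of masks. -/
def BT_CMB : ℕ := cat_CMB bl_CMB

/-- The whole table of sums. -/
def ST_CMB : ℕ := cat_CMB sl_CMB

/-- Evaluation of the argument. -/
def ev_CMB (f : ℕ → Bool) (n : ℕ) : Bool := Nat.rec (f 0) (fun k _ => f (Nat.succ k)) n

/-- Subtraction of the type `i`. -/
def tT_CMB (r i : ℕ) : ℕ :=
  Nat.land (Nat.shiftRight TT_CMB (Nat.mul 8 (Nat.add (Nat.mul 16 r) i))) 255

/-- The mask of the types whose subtraction gives a value that is not good. -/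
def tB_CMB (u : ℕ) : ℕ := Nat.land (Nat.shiftRight BT_CMB (Nat.mul 16 u)) 65535

/-- Good values. -/
def tG_CMB (r : ℕ) : ℕ := Nat.land (Nat.shiftRight gd_CMB r) 1

/-- Sums of `k` types. -/
def tS_CMB (k r : ℕ) : ℕ :=
  Nat.land (Nat.shiftRight ST_CMB (Nat.add (Nat.mul 256 k) r)) 1

/-- The loop over the bits of the mask `m`, the highest bit first. -/
def lp_CMB (F : ℕ → ℕ → Bool) (t r z : ℕ) (f : ℕ) : ℕ → Bool :=
  Nat.rec (fun _ => false) (fun _ ih m => cond (Nat.ble m z) false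
    (ev_CMB (fun i => or (F (Nat.land m (tB_CMB (tT_CMB t i))) (tT_CMB r i))
      (ev_CMB ih (Nat.sub m (Nat.pow 2 i)))) (Nat.log2 m))) f

/-- The search for `k` types with the sum `r`. -/
def sr_CMB (t k : ℕ) : ℕ → ℕ → Bool :=
  Nat.rec (fun _ r => Nat.beq r 0) (fun k ih m r => ev_CMB (fun r =>
    cond (Nat.beq (tS_CMB (Nat.succ k) r) 0) false (ev_CMB (lp_CMB ih t r 0 16) m)) r) k

/-- The search for one total sum. -/
def one_CMB (t : ℕ) : Bool :=
  cond (Nat.beq (tG_CMB t) 1) false (lp_CMB (sr_CMB t 6) t t 1 16 (tB_CMB t))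

/-! ### Finite checks -/

/-- `p k` for all `k < n`. -/
def ab_CMB (n : ℕ) (p : ℕ → Bool) : Bool := Nat.rec true (fun k ih => and (p k) ih) n

theorem ab_spec_CMB {n : ℕ} {p : ℕ → Bool} (h : ab_CMB n p = true) : ∀ k < n, p k = true := by
  induction n with
  | zero => intro k hk; exact absurd hk (Nat.not_lt_zero k)
  | succ n ih =>
    have h' : (p n && ab_CMB n p) = true := h
    rw [Bool.and_eq_true] at h'
    intro k hk
    rcases Nat.lt_succ_iff_lt_or_eq.1 hk with h1 | h1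
    · exact ih h'.2 k h1
    · rw [h1]; exact h'.1

/-- The searches for the total sums `a, ..., a + n - 1`. -/
def al_CMB (a n : ℕ) : Bool := ab_CMB n (fun t => not (one_CMB (Nat.add a t)))

theorem c1_CMB : al_CMB 0 64 = true := by decide +kernel
theorem c2_CMB : al_CMB 64 64 = true := by decide +kernel
theorem c3_CMB : al_CMB 128 64 = true := by decide +kernel
theorem c4_CMB : al_CMB 192 64 = true := by decide +kernel

theorem one_false_CMB (t : ℕ) (ht : t < 256) : one_CMB t = false := by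
  have key : ∀ a, al_CMB a 64 = true → a ≤ t → t < a + 64 → one_CMB t = false := by
    intro a ha h1 h2
    have h3 := ab_spec_CMB ha (t - a) (by omega)
    have h4 : Nat.add a (t - a) = t := Nat.add_sub_cancel' h1
    rw [h4] at h3
    simpa using h3
  rcases Nat.lt_or_ge t 64 with h | h
  · exact key 0 c1_CMB (by omega) (by omega)
  rcases Nat.lt_or_ge t 128 with h' | h'
  · exact key 64 c2_CMB (by omega) (by omega)
  rcases Nat.lt_or_ge t 192 with h'' | h''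
  · exact key 128 c3_CMB (by omega) (by omega)
  · exact key 192 c4_CMB (by omega) (by omega)

theorem cs_CMB : ab_CMB 6 (fun k => ab_CMB 256 (fun r => ab_CMB 16 (fun i =>
    or (not (Nat.beq (tS_CMB k (tT_CMB r i)) 1)) (Nat.beq (tS_CMB (Nat.succ k) r) 1)))) =
    true := by decide +kernel

theorem tS_step_CMB (k r i : ℕ) (hk : k < 6) (hr : r < 256) (hi : i < 16)
    (h : tS_CMB k (tT_CMB r i) = 1) : tS_CMB (k + 1) r = 1 := by
  have h1 := ab_spec_CMB (ab_spec_CMB (ab_spec_CMB cs_CMB k hk) r hr) i hi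
  rw [h] at h1
  exact Nat.eq_of_beq_eq_true (by simpa using h1)

theorem tS_zero_CMB : tS_CMB 0 0 = 1 := by decide +kernel

theorem cb_CMB : ab_CMB 256 (fun u => ab_CMB 16 (fun j =>
    or (Nat.beq (tG_CMB (tT_CMB u j)) 1) (Nat.testBit (tB_CMB u) j))) = true := by
  decide +kernel

theorem tB_spec_CMB (u j : ℕ) (hu : u < 256) (hj : j < 16) (h : tG_CMB (tT_CMB u j) ≠ 1) :
    (tB_CMB u).testBit j = true := by
  have h1 := ab_spec_CMB (ab_spec_CMB cb_CMB u hu) j hj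
  rw [Bool.or_eq_true] at h1
  rcases h1 with h1 | h1
  · exact absurd (Nat.eq_of_beq_eq_true h1) h
  · exact h1

/-- The code of a value. -/
def cd_CMB (p0 p1 p2 p3 p4 p5 : ℕ) : ℕ := p0 + 4 * p1 + 8 * p2 + 32 * p3 + 64 * p4 + 128 * p5

theorem ct_CMB : ab_CMB 4 (fun p0 => ab_CMB 2 fun p1 => ab_CMB 4 fun p2 => ab_CMB 2 fun p3 =>
    ab_CMB 2 fun p4 => ab_CMB 2 fun p5 => ab_CMB 2 fun q1 => ab_CMB 2 fun q2 =>
    ab_CMB 2 fun q3 => ab_CMB 2 fun q4 =>
      Nat.beq (tT_CMB (cd_CMB p0 p1 p2 p3 p4 p5) (4 * (q1 + 2 * q2) + (q3 + 2 * q4)))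
        (cd_CMB ((p0 + 3 * (q1 + 3 * q2)) % 4) ((p1 + q1 * q2) % 2)
          ((p2 + 3 * (q3 + 3 * q4)) % 4) ((p3 + q3 * q4) % 2) ((p4 + q1 * q3 + q2 * q4) % 2)
          ((p5 + q1 * q4 + q2 * q3) % 2))) = true := by decide +kernel

theorem tT_spec_CMB (p0 p1 p2 p3 p4 p5 q1 q2 q3 q4 : ℕ) (h0 : p0 < 4) (h1 : p1 < 2)
    (h2 : p2 < 4) (h3 : p3 < 2) (h4 : p4 < 2) (h5 : p5 < 2) (g1 : q1 < 2) (g2 : q2 < 2)
    (g3 : q3 < 2) (g4 : q4 < 2) :
    tT_CMB (cd_CMB p0 p1 p2 p3 p4 p5) (4 * (q1 + 2 * q2) + (q3 + 2 * q4)) =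
        cd_CMB ((p0 + 3 * (q1 + 3 * q2)) % 4) ((p1 + q1 * q2) % 2)
          ((p2 + 3 * (q3 + 3 * q4)) % 4) ((p3 + q3 * q4) % 2) ((p4 + q1 * q3 + q2 * q4) % 2)
          ((p5 + q1 * q4 + q2 * q3) % 2) :=
  Nat.eq_of_beq_eq_true (ab_spec_CMB (ab_spec_CMB (ab_spec_CMB (ab_spec_CMB (ab_spec_CMB
    (ab_spec_CMB (ab_spec_CMB (ab_spec_CMB (ab_spec_CMB (ab_spec_CMB ct_CMB p0 h0) p1 h1) p2 h2)
    p3 h3) p4 h4) p5 h5) q1 g1) q2 g2) q3 g3) q4 g4)

/-! ### Soundness of the search -/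

theorem ev_eq_CMB (f : ℕ → Bool) (n : ℕ) : ev_CMB f n = f n := by
  cases n <;> rfl

theorem lp_succ_CMB (F : ℕ → ℕ → Bool) (t r z f m : ℕ) : lp_CMB F t r z (f + 1) m =
    cond (Nat.ble m z) false ((F (m &&& tB_CMB (tT_CMB t (Nat.log2 m))) (tT_CMB r (Nat.log2 m)))
      || lp_CMB F t r z f (m - 2 ^ (Nat.log2 m))) := by
  show cond (Nat.ble m z) false (ev_CMB (fun i => or (F (Nat.land m (tB_CMB (tT_CMB t i)))
    (tT_CMB r i)) (ev_CMB (lp_CMB F t r z f) (Nat.sub m (Nat.pow 2 i)))) (Nat.log2 m)) = _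
  rw [ev_eq_CMB, ev_eq_CMB]
  rfl

theorem sr_succ_CMB (t k m r : ℕ) : sr_CMB t (k + 1) m r =
    cond (Nat.beq (tS_CMB (k + 1) r) 0) false (lp_CMB (sr_CMB t k) t r 0 16 m) := by
  show ev_CMB (fun r => cond (Nat.beq (tS_CMB (Nat.succ k) r) 0) false
    (ev_CMB (lp_CMB (sr_CMB t k) t r 0 16) m)) r = _
  rw [ev_eq_CMB, ev_eq_CMB]

theorem lp_sound_CMB (F : ℕ → ℕ → Bool) (t r z i : ℕ) : ∀ f m : ℕ, m < 2 ^ f →
    m.testBit i = true → z < 2 ^ i →
    (∀ m', (∀ j ≤ i, m.testBit j = true → m'.testBit j = true) →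
      F (m' &&& tB_CMB (tT_CMB t i)) (tT_CMB r i) = true) → lp_CMB F t r z f m = true := by
  intro f
  induction f with
  | zero =>
    intro m hm hi _ _
    have : m = 0 := by simpa using hm
    rw [this] at hi
    simp at hi
  | succ f ih =>
    intro m hm hi hz hF
    have hmi : 2 ^ i ≤ m := Nat.ge_two_pow_of_testBit hi
    have hm0 : m ≠ 0 := by
      rintro rfl
      have := Nat.two_pow_pos i
      omega
    have hble : Nat.ble m z = false := by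
      rw [Bool.eq_false_iff]
      intro h
      have := Nat.le_of_ble_eq_true h
      omega
    rw [lp_succ_CMB, hble, cond_false, Bool.or_eq_true]
    set q := Nat.log2 m with hq
    have hq1 : 2 ^ q ≤ m := Nat.log2_self_le hm0
    have hq2 : m < 2 ^ (q + 1) := Nat.lt_log2_self
    have hiq : i ≤ q := by
      by_contra hcon
      have h1 : 2 ^ (q + 1) ≤ 2 ^ i := Nat.pow_le_pow_right (by norm_num) (by omega)
      omega
    rcases hiq.eq_or_lt with h | h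
    · left
      rw [← h]
      exact hF m (fun j _ hj => hj)
    · right
      have hbit : ∀ j ≤ i, (m - 2 ^ q).testBit j = m.testBit j := by
        intro j hj
        have e : m = 2 ^ q + (m - 2 ^ q) := by omega
        conv_rhs => rw [e]
        rw [Nat.testBit_two_pow_add_gt (by omega)]
      apply ih
      · have hqf : q ≤ f := by
          by_contra hcon
          have h1 : 2 ^ (f + 1) ≤ 2 ^ q := Nat.pow_le_pow_right (by norm_num) (by omega)
          omega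
        have h1 : 2 ^ q ≤ 2 ^ f := Nat.pow_le_pow_right (by norm_num) hqf
        have h2 : 2 ^ (q + 1) = 2 * 2 ^ q := by ring
        omega
      · rw [hbit i (le_refl i)]; exact hi
      · exact hz
      · intro m' hm'
        apply hF
        intro j hj hj2
        apply hm' j hj
        rw [hbit j hj]
        exact hj2

theorem tB_lt_CMB (u : ℕ) : tB_CMB u < 2 ^ 16 := by
  have : tB_CMB u ≤ 65535 := Nat.and_le_right
  omega

theorem tT_lt_CMB (r i : ℕ) : tT_CMB r i < 256 := by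
  have : tT_CMB r i ≤ 255 := Nat.and_le_right
  omega

/-- The types in the list add up to `r`. -/
def Ch_CMB : List ℕ → ℕ → Prop
  | [], r => r = 0
  | i :: l, r => Ch_CMB l (tT_CMB r i)

theorem tS_sound_CMB : ∀ (l : List ℕ) (r : ℕ), r < 256 → (∀ i ∈ l, i < 16) → l.length ≤ 6 →
    Ch_CMB l r → tS_CMB l.length r = 1 := by
  intro l
  induction l with
  | nil =>
    intro r _ _ _ h
    have h0 : r = 0 := h
    rw [h0]
    exact tS_zero_CMB
  | cons i l ih =>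
    intro r hr hi hl h
    rw [List.length_cons] at hl ⊢
    exact tS_step_CMB l.length r i (by omega) hr (hi i (by simp))
      (ih (tT_CMB r i) (tT_lt_CMB r i) (fun j hj => hi j (by simp [hj])) (by omega) h)

theorem sr_sound_CMB (t : ℕ) : ∀ (l : List ℕ) (m r : ℕ), m < 2 ^ 16 → r < 256 →
    (∀ i ∈ l, i < 16 ∧ m.testBit i = true) →
    l.Pairwise (fun i j => j ≤ i ∧ (tB_CMB (tT_CMB t i)).testBit j = true) → l.length ≤ 6 →
    Ch_CMB l r → sr_CMB t l.length m r = true := by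
  intro l
  induction l with
  | nil =>
    intro m r _ _ _ _ _ h
    have h0 : r = 0 := h
    rw [h0]
    rfl
  | cons i l ih =>
    intro m r hm hr hi hp hl h
    have hS := tS_sound_CMB (i :: l) r hr (fun j hj => (hi j hj).1) hl h
    rw [List.length_cons] at hl hS ⊢
    rw [List.pairwise_cons] at hp
    rw [sr_succ_CMB, hS]
    show lp_CMB (sr_CMB t l.length) t r 0 16 m = true
    apply lp_sound_CMB (sr_CMB t l.length) t r 0 i 16 m hm (hi i (by simp)).2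
      (Nat.two_pow_pos i)
    intro m' hm'
    apply ih
    · exact lt_of_le_of_lt Nat.and_le_right (tB_lt_CMB _)
    · exact tT_lt_CMB r i
    · intro j hj
      refine ⟨(hi j (by simp [hj])).1, ?_⟩
      rw [Nat.testBit_land, hm' j (hp.1 j hj).1 (hi j (by simp [hj])).2, (hp.1 j hj).2]
      rfl
    · exact hp.2
    · omega
    · exact h

/-! ### Codes of elements of `R` -/

/-- Residue modulo `4`. -/
def f4_CMB (z : ℤ) : ℕ := (z % 4).toNat

/-- Residue modulo `2`. -/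
def f2_CMB (z : ℤ) : ℕ := (z % 2).toNat

/-- Residue of the half modulo `2`. -/
def fh_CMB (z : ℤ) : ℕ := (z / 2 % 2).toNat

/-- The code of the values `a`, `c` modulo `4`, `b` modulo `2`. -/
def en_CMB (a b c : R) : ℕ :=
  cd_CMB (f4_CMB a.re) (fh_CMB a.im) (f4_CMB c.re) (fh_CMB c.im) (f2_CMB b.re) (f2_CMB b.im)

/-- The type of a vector. -/
def ty_CMB (x y : R) : ℕ :=
  4 * (f2_CMB x.re + 2 * f2_CMB x.im) + (f2_CMB y.re + 2 * f2_CMB y.im)

theorem f4_lt_CMB (z : ℤ) : f4_CMB z < 4 := by unfold f4_CMB; omega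
theorem f2_lt_CMB (z : ℤ) : f2_CMB z < 2 := by unfold f2_CMB; omega
theorem fh_lt_CMB (z : ℤ) : fh_CMB z < 2 := by unfold fh_CMB; omega

theorem en_lt_CMB (a b c : R) : en_CMB a b c < 256 := by
  have h1 := f4_lt_CMB a.re
  have h2 := fh_lt_CMB a.im
  have h3 := f4_lt_CMB c.re
  have h4 := fh_lt_CMB c.im
  have h5 := f2_lt_CMB b.re
  have h6 := f2_lt_CMB b.im
  unfold en_CMB cd_CMB
  omega

theorem ty_lt_CMB (x y : R) : ty_CMB x y < 16 := by
  have h1 := f2_lt_CMB x.re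
  have h2 := f2_lt_CMB x.im
  have h3 := f2_lt_CMB y.re
  have h4 := f2_lt_CMB y.im
  unfold ty_CMB
  omega

theorem sq_four_CMB (z : ℤ) : ∃ k, z ^ 2 = 4 * k + z % 2 := by
  rcases Int.even_or_odd' z with ⟨n, h | h⟩
  · refine ⟨n ^ 2, ?_⟩
    have : z % 2 = 0 := by omega
    rw [this, h]; ring
  · refine ⟨n ^ 2 + n, ?_⟩
    have : z % 2 = 1 := by omega
    rw [this, h]; ring

theorem mul_two_CMB (u v : ℤ) : ∃ k, u * v = 2 * k + ((f2_CMB u * f2_CMB v : ℕ) : ℤ) := by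
  unfold f2_CMB
  rcases Int.even_or_odd' u with ⟨n, h | h⟩ <;> rcases Int.even_or_odd' v with ⟨m, h' | h'⟩
  · refine ⟨2 * (n * m), ?_⟩
    have e1 : u % 2 = 0 := by omega
    have e2 : v % 2 = 0 := by omega
    rw [e1, e2, h, h']; push_cast; simp; ring
  · refine ⟨n * (2 * m + 1), ?_⟩
    have e1 : u % 2 = 0 := by omega
    have e2 : v % 2 = 1 := by omega
    rw [e1, e2, h, h']; push_cast; simp; ring
  · refine ⟨(2 * n + 1) * m, ?_⟩
    have e1 : u % 2 = 1 := by omega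
    have e2 : v % 2 = 0 := by omega
    rw [e1, e2, h, h']; push_cast; simp; ring
  · refine ⟨2 * (n * m) + n + m, ?_⟩
    have e1 : u % 2 = 1 := by omega
    have e2 : v % 2 = 1 := by omega
    rw [e1, e2, h, h']; push_cast; ring

theorem g4_CMB (a x : R) : f4_CMB (a - x ^ 2).re =
    (f4_CMB a.re + 3 * (f2_CMB x.re + 3 * f2_CMB x.im)) % 4 := by
  have e : (a - x ^ 2).re = a.re - x.re ^ 2 - 3 * x.im ^ 2 := by
    rw [pow_two]; simp; ring
  obtain ⟨k, hk⟩ := sq_four_CMB x.re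
  obtain ⟨l, hl⟩ := sq_four_CMB x.im
  rw [e, hk, hl]
  unfold f4_CMB f2_CMB
  omega

theorem gh_CMB (a x : R) (ha : Ev a) : fh_CMB (a - x ^ 2).im =
    (fh_CMB a.im + f2_CMB x.re * f2_CMB x.im) % 2 := by
  have e : (a - x ^ 2).im = a.im - 2 * (x.re * x.im) := by
    rw [pow_two]; simp; ring
  obtain ⟨k, hk⟩ := mul_two_CMB x.re x.im
  unfold Ev at ha
  obtain ⟨n, hn⟩ := ha
  rw [e, hk, hn]
  generalize f2_CMB x.re * f2_CMB x.im = s
  unfold fh_CMB
  omega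

theorem en_sub_CMB (a b c x y : R) (ha : Ev a) (hc : Ev c) :
    tT_CMB (en_CMB a b c) (ty_CMB x y) = en_CMB (a - x ^ 2) (b - x * y) (c - y ^ 2) := by
  unfold en_CMB ty_CMB
  rw [tT_spec_CMB _ _ _ _ _ _ _ _ _ _ (f4_lt_CMB _) (fh_lt_CMB _) (f4_lt_CMB _) (fh_lt_CMB _)
    (f2_lt_CMB _) (f2_lt_CMB _) (f2_lt_CMB _) (f2_lt_CMB _) (f2_lt_CMB _) (f2_lt_CMB _),
    g4_CMB, g4_CMB, gh_CMB a x ha, gh_CMB c y hc]
  congr 1
  · have e : (b - x * y).re = b.re - x.re * y.re - 3 * (x.im * y.im) := by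
      simp; ring
    obtain ⟨k, hk⟩ := mul_two_CMB x.re y.re
    obtain ⟨l, hl⟩ := mul_two_CMB x.im y.im
    rw [e, hk, hl]
    generalize f2_CMB x.re * f2_CMB y.re = s
    generalize f2_CMB x.im * f2_CMB y.im = s'
    unfold f2_CMB
    omega
  · have e : (b - x * y).im = b.im - x.re * y.im - x.im * y.re := by
      simp; ring
    obtain ⟨k, hk⟩ := mul_two_CMB x.re y.im
    obtain ⟨l, hl⟩ := mul_two_CMB x.im y.re
    rw [e, hk, hl]
    generalize f2_CMB x.re * f2_CMB y.im = s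
    generalize f2_CMB x.im * f2_CMB y.re = s'
    unfold f2_CMB
    omega

/-! ### Good values -/

theorem Fl_congr_CMB {a b c u v s : R} (h : Fl a b c) : Fl (a + 4 * u) (b + 2 * v) (c + 4 * s) := by
  obtain ⟨h1, h2⟩ := h
  refine ⟨?_, ?_⟩
  · rcases h1 with ⟨h3, h4⟩ | h3
    · refine Or.inl ⟨dvd_add h3 (dvd_mul_right _ _), ?_⟩
      unfold Od at h4 ⊢
      have e : (c + 4 * s).re + (c + 4 * s).im = (c.re + c.im) + 2 * (2 * (s.re + s.im)) := by
        simp; ring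
      rw [e]
      exact h4.add_even (even_two_mul _)
    · refine Or.inr ?_
      have e : a + 4 * u - 2 * w = (a - 2 * w) + 4 * u := by ring
      rw [e]
      exact dvd_add h3 (dvd_mul_right _ _)
  · unfold En at h2 ⊢
    have e : (b + 2 * v).re + (b + 2 * v).im = (b.re + b.im) + 2 * (v.re + v.im) := by
      simp; ring
    rw [e]
    exact h2.add (even_two_mul _)

theorem Gd_congr_CMB {a b c u v s : R} (h : Gd a b c) : Gd (a + 4 * u) (b + 2 * v) (c + 4 * s) := by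
  rcases h with h | h | h | h
  · exact Or.inl (Fl_congr_CMB h)
  · exact Or.inr (Or.inl (Fl_congr_CMB h))
  · refine Or.inr (Or.inr (Or.inl ?_))
    have h' := Fl_congr_CMB (u := u + v + s) (v := v + 2 * s) (s := s) h
    have e1 : a + 4 * u + 2 * (b + 2 * v) + (c + 4 * s) = a + 2 * b + c + 4 * (u + v + s) := by
      ring
    have e2 : b + 2 * v + (c + 4 * s) = b + c + 2 * (v + 2 * s) := by ring
    rw [e1, e2]
    exact h'
  · refine Or.inr (Or.inr (Or.inr ?_))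
    have hod : ∀ x y : R, Od x → Od (x + 4 * y) := by
      intro x y hx
      unfold Od at hx ⊢
      have e : (x + 4 * y).re + (x + 4 * y).im = (x.re + x.im) + 2 * (2 * (y.re + y.im)) := by
        simp; ring
      rw [e]
      exact hx.add_even (even_two_mul _)
    have e : ∀ z : R, (a + 4 * u) * (c + 4 * s) - (b + 2 * v) ^ 2 - z =
        (a * c - b ^ 2 - z) + 4 * (u * c + a * s + 4 * (u * s) - b * v - v ^ 2) := by
      intro z
      ring
    obtain ⟨h1, h2⟩ := h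
    refine ⟨h1.imp (hod _ _) (hod _ _), ?_⟩
    rw [e, e]
    exact h2.imp (fun h => dvd_add h (dvd_mul_right _ _)) (fun h => dvd_add h (dvd_mul_right _ _))

/-- The condition in integers. -/
def Fb_CMB (a0 a1 b0 b1 c0 c1 : ℤ) : Bool :=
  and (or (and (and (a0 % 4 == 0) (a1 % 4 == 0)) ((c0 + c1) % 2 == 1))
    (and (a0 % 4 == 0) ((a1 - 2) % 4 == 0))) ((b0 + b1) % 2 == 0)

theorem Fb_spec_CMB (a0 a1 b0 b1 c0 c1 : ℤ) (h : Fb_CMB a0 a1 b0 b1 c0 c1 = true) :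
    Fl ⟨a0, a1⟩ ⟨b0, b1⟩ ⟨c0, c1⟩ := by
  unfold Fb_CMB at h
  simp only [Bool.and_eq_true, Bool.or_eq_true, beq_iff_eq] at h
  unfold Fl Od En
  rw [four_dvd_iff, four_dvd_iff, Int.odd_iff, Int.even_iff]
  obtain ⟨h1, h2⟩ := h
  refine ⟨?_, h2⟩
  rcases h1 with ⟨⟨h3, h4⟩, h5⟩ | ⟨h3, h4⟩
  · exact Or.inl ⟨⟨Int.dvd_of_emod_eq_zero h3, Int.dvd_of_emod_eq_zero h4⟩, h5⟩
  · refine Or.inr ⟨?_, ?_⟩
    · simpa [w] using Int.dvd_of_emod_eq_zero h3
    · simpa [w] using Int.dvd_of_emod_eq_zero h4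

/-- The condition on the determinant in integers. -/
def Ub_CMB (a0 a1 b0 b1 c0 c1 : ℤ) : Bool :=
  and (or ((a0 + a1) % 2 == 1) ((c0 + c1) % 2 == 1))
    (and ((a0 * c1 + a1 * c0 - 2 * (b0 * b1)) % 4 == 0)
      (or ((a0 * c0 + 3 * (a1 * c1) - b0 * b0 - 3 * (b1 * b1) - 1) % 4 == 0)
        ((a0 * c0 + 3 * (a1 * c1) - b0 * b0 - 3 * (b1 * b1) - 3) % 4 == 0)))

theorem Ub_spec_CMB (a0 a1 b0 b1 c0 c1 : ℤ) (h : Ub_CMB a0 a1 b0 b1 c0 c1 = true) :
    Un ⟨a0, a1⟩ ⟨b0, b1⟩ ⟨c0, c1⟩ := by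
  unfold Ub_CMB at h
  simp only [Bool.and_eq_true, Bool.or_eq_true, beq_iff_eq] at h
  unfold Un Od
  rw [four_dvd_iff, four_dvd_iff, Int.odd_iff, Int.odd_iff]
  obtain ⟨h1, h2, h3⟩ := h
  refine ⟨h1, ?_⟩
  have e1 : ((⟨a0, a1⟩ : R) * (⟨c0, c1⟩ : R) - (⟨b0, b1⟩ : R) ^ 2 - 1).re =
      a0 * c0 + 3 * (a1 * c1) - b0 * b0 - 3 * (b1 * b1) - 1 := by
    rw [pow_two]; simp; ring
  have e2 : ((⟨a0, a1⟩ : R) * (⟨c0, c1⟩ : R) - (⟨b0, b1⟩ : R) ^ 2 - 3).re =
      a0 * c0 + 3 * (a1 * c1) - b0 * b0 - 3 * (b1 * b1) - 3 := by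
    rw [pow_two]; simp; ring
  have e3 : ((⟨a0, a1⟩ : R) * (⟨c0, c1⟩ : R) - (⟨b0, b1⟩ : R) ^ 2 - 1).im =
      a0 * c1 + a1 * c0 - 2 * (b0 * b1) := by
    rw [pow_two]; simp; ring
  have e4 : ((⟨a0, a1⟩ : R) * (⟨c0, c1⟩ : R) - (⟨b0, b1⟩ : R) ^ 2 - 3).im =
      a0 * c1 + a1 * c0 - 2 * (b0 * b1) := by
    rw [pow_two]; simp; ring
  rw [e1, e2, e3, e4]
  rcases h3 with h3 | h3
  · exact Or.inl ⟨Int.dvd_of_emod_eq_zero h3, Int.dvd_of_emod_eq_zero h2⟩
  · exact Or.inr ⟨Int.dvd_of_emod_eq_zero h3, Int.dvd_of_emod_eq_zero h2⟩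

/-- The condition in integers. -/
def Gb_CMB (a0 a1 b0 b1 c0 c1 : ℤ) : Bool :=
  or (Fb_CMB a0 a1 b0 b1 c0 c1) (or (Fb_CMB c0 c1 b0 b1 a0 a1)
    (or (Fb_CMB (a0 + 2 * b0 + c0) (a1 + 2 * b1 + c1) (b0 + c0) (b1 + c1) c0 c1)
      (Ub_CMB a0 a1 b0 b1 c0 c1)))

theorem Gb_spec_CMB (a0 a1 b0 b1 c0 c1 : ℤ) (h : Gb_CMB a0 a1 b0 b1 c0 c1 = true) :
    Gd ⟨a0, a1⟩ ⟨b0, b1⟩ ⟨c0, c1⟩ := by
  unfold Gb_CMB at h
  simp only [Bool.or_eq_true] at h
  rcases h with h | h | h | h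
  · exact Or.inl (Fb_spec_CMB _ _ _ _ _ _ h)
  · exact Or.inr (Or.inl (Fb_spec_CMB _ _ _ _ _ _ h))
  · refine Or.inr (Or.inr (Or.inl ?_))
    have h' := Fb_spec_CMB _ _ _ _ _ _ h
    have e1 : (⟨a0, a1⟩ : R) + 2 * (⟨b0, b1⟩ : R) + (⟨c0, c1⟩ : R) =
        ⟨a0 + 2 * b0 + c0, a1 + 2 * b1 + c1⟩ := by
      ext <;> simp
    have e2 : (⟨b0, b1⟩ : R) + (⟨c0, c1⟩ : R) = ⟨b0 + c0, b1 + c1⟩ := by
      ext <;> simp
    rw [e1, e2]
    exact h'
  · exact Or.inr (Or.inr (Or.inr (Ub_spec_CMB _ _ _ _ _ _ h)))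

theorem cg_CMB : ab_CMB 4 (fun p0 => ab_CMB 2 fun p1 => ab_CMB 4 fun p2 => ab_CMB 2 fun p3 =>
    ab_CMB 2 fun p4 => ab_CMB 2 fun p5 =>
      or (not (Nat.beq (tG_CMB (cd_CMB p0 p1 p2 p3 p4 p5)) 1))
        (Gb_CMB p0 (2 * p1) p4 p5 p2 (2 * p3))) = true := by decide +kernel

theorem good_CMB (a b c : R) (ha : Ev a) (hc : Ev c) (h : tG_CMB (en_CMB a b c) = 1) :
    Gd a b c := by
  have h1 := ab_spec_CMB (ab_spec_CMB (ab_spec_CMB (ab_spec_CMB (ab_spec_CMB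
    (ab_spec_CMB cg_CMB _ (f4_lt_CMB a.re)) _ (fh_lt_CMB a.im)) _ (f4_lt_CMB c.re))
    _ (fh_lt_CMB c.im)) _ (f2_lt_CMB b.re)) _ (f2_lt_CMB b.im)
  have h2 : tG_CMB (cd_CMB (f4_CMB a.re) (fh_CMB a.im) (f4_CMB c.re) (fh_CMB c.im)
    (f2_CMB b.re) (f2_CMB b.im)) = 1 := h
  rw [h2] at h1
  have h3 := Gb_spec_CMB _ _ _ _ _ _ (show Gb_CMB (f4_CMB a.re) (2 * (fh_CMB a.im))
    (f2_CMB b.re) (f2_CMB b.im) (f4_CMB c.re) (2 * (fh_CMB c.im)) = true by simpa using h1)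
  have key : ∀ z : R, Ev z → z = ⟨(f4_CMB z.re : ℤ), 2 * (fh_CMB z.im : ℤ)⟩ +
      4 * ⟨z.re / 4, (z.im - 2 * (fh_CMB z.im : ℤ)) / 4⟩ := by
    intro z hz
    unfold Ev at hz
    rw [Int.even_iff] at hz
    ext
    · simp [f4_CMB]
      omega
    · simp [fh_CMB]
      omega
  have key2 : ∀ z : R, z = ⟨(f2_CMB z.re : ℤ), (f2_CMB z.im : ℤ)⟩ +
      2 * ⟨z.re / 2, z.im / 2⟩ := by
    intro z
    ext
    · simp [f2_CMB]
      omega
    · simp [f2_CMB]
      omega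
  rw [key a ha, key c hc, key2 b]
  exact Gd_congr_CMB h3

/-! ### The seven vectors -/

theorem Ev_list_CMB (x : Fin 7 → R) (L : List (Fin 7)) : Ev (L.map fun i => x i ^ 2).sum := by
  induction L with
  | nil => simp [Ev]
  | cons i L ih =>
    rw [List.map_cons, List.sum_cons]
    exact (Ev_sq _).add ih

theorem Ch_sound_CMB (x y : Fin 7 → R) (L : List (Fin 7)) :
    Ch_CMB (L.map fun i => ty_CMB (x i) (y i))
      (en_CMB (L.map fun i => x i ^ 2).sum (L.map fun i => x i * y i).sum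
        (L.map fun i => y i ^ 2).sum) := by
  induction L with
  | nil =>
    show en_CMB 0 0 0 = 0
    rfl
  | cons i L ih =>
    simp only [List.map_cons, List.sum_cons]
    show Ch_CMB _ (tT_CMB _ _)
    rw [en_sub_CMB _ _ _ _ _ ((Ev_sq _).add (Ev_list_CMB x L))
      ((Ev_sq _).add (Ev_list_CMB y L)), add_sub_cancel_left, add_sub_cancel_left,
      add_sub_cancel_left]
    exact ih

theorem ty_zero_CMB (x y : R) (h : ty_CMB x y = 0) : 2 ∣ x ∧ 2 ∣ y := by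
  unfold ty_CMB f2_CMB at h
  rw [two_dvd_iff, two_dvd_iff, Int.even_iff, Int.even_iff, Int.even_iff, Int.even_iff]
  omega

theorem p_CMB : T_CMB := by
  intro x y
  by_contra hcon
  push Not at hcon
  obtain ⟨h1, h2⟩ := hcon
  set τ : Fin 7 → ℕ := fun i => ty_CMB (x i) (y i) with hτ
  set σ := Tuple.sort (fun i => OrderDual.toDual (τ i)) with hσd
  have hσ : ∀ i j : Fin 7, i ≤ j → τ (σ j) ≤ τ (σ i) := fun i j hij =>
    Tuple.monotone_sort (fun i => OrderDual.toDual (τ i)) hij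
  set A := ∑ i, x i ^ 2 with hA
  set B := ∑ i, x i * y i with hB
  set C := ∑ i, y i ^ 2 with hC
  have hEA : Ev A := Ev_sum _ _ fun i _ => Ev_sq _
  have hEC : Ev C := Ev_sum _ _ fun i _ => Ev_sq _
  set t := en_CMB A B C with ht
  have htlt : t < 256 := en_lt_CMB A B C
  have hE1 : ∀ i, tT_CMB t (τ i) = en_CMB (A - x i ^ 2) (B - x i * y i) (C - y i ^ 2) :=
    fun i => en_sub_CMB A B C (x i) (y i) hEA hEC
  have hE2 : ∀ i j, tT_CMB (tT_CMB t (τ i)) (τ j) = en_CMB (A - x i ^ 2 - x j ^ 2)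
      (B - x i * y i - x j * y j) (C - y i ^ 2 - y j ^ 2) := by
    intro i j
    rw [hE1 i]
    exact en_sub_CMB _ _ _ (x j) (y j) (hEA.sub (Ev_sq _)) (hEC.sub (Ev_sq _))
  have hg0 : tG_CMB t ≠ 1 := by
    intro h
    exact h2 Finset.univ (by simp) (good_CMB A B C hEA hEC h)
  have hg1 : ∀ i, tG_CMB (tT_CMB t (τ i)) ≠ 1 := by
    intro i h
    rw [hE1 i] at h
    apply h2 (Finset.univ.erase i) (by simp)
    rw [Finset.sum_erase_eq_sub (Finset.mem_univ i), Finset.sum_erase_eq_sub (Finset.mem_univ i),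
      Finset.sum_erase_eq_sub (Finset.mem_univ i)]
    exact good_CMB _ _ _ (hEA.sub (Ev_sq _)) (hEC.sub (Ev_sq _)) h
  have hg2 : ∀ i j, i ≠ j → tG_CMB (tT_CMB (tT_CMB t (τ i)) (τ j)) ≠ 1 := by
    intro i j hij h
    rw [hE2 i j] at h
    have hj : j ∈ Finset.univ.erase i := Finset.mem_erase.2 ⟨hij.symm, Finset.mem_univ j⟩
    apply h2 ((Finset.univ.erase i).erase j)
      (by rw [Finset.card_erase_of_mem hj]; simp)
    rw [Finset.sum_erase_eq_sub hj, Finset.sum_erase_eq_sub hj, Finset.sum_erase_eq_sub hj,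
      Finset.sum_erase_eq_sub (Finset.mem_univ i), Finset.sum_erase_eq_sub (Finset.mem_univ i),
      Finset.sum_erase_eq_sub (Finset.mem_univ i)]
    exact good_CMB _ _ _ ((hEA.sub (Ev_sq _)).sub (Ev_sq _)) ((hEC.sub (Ev_sq _)).sub (Ev_sq _)) h
  have hτlt : ∀ i, τ i < 16 := fun i => ty_lt_CMB _ _
  have hb1 : ∀ i, (tB_CMB t).testBit (τ i) = true := fun i =>
    tB_spec_CMB t (τ i) htlt (hτlt i) (hg1 i)
  have hb2 : ∀ i j, i ≠ j → (tB_CMB (tT_CMB t (τ i))).testBit (τ j) = true := fun i j hij =>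
    tB_spec_CMB _ (τ j) (tT_lt_CMB _ _) (hτlt j) (hg2 i j hij)
  have hpos : 1 ≤ τ (σ 0) := by
    by_contra hcon
    obtain ⟨i, hi⟩ := h1
    have h3 := hσ 0 (σ.symm i) (Fin.zero_le _)
    rw [Equiv.apply_symm_apply] at h3
    have h4 : ty_CMB (x i) (y i) = 0 := by
      show τ i = 0
      omega
    obtain ⟨h5, h6⟩ := ty_zero_CMB _ _ h4
    exact hi h5 h6
  -- the sum of all types
  have hsum : ∀ f : Fin 7 → R, ((List.ofFn σ).map f).sum = ∑ i, f i := by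
    intro f
    rw [List.map_ofFn, List.sum_ofFn]
    exact Equiv.sum_comp σ f
  have hCh := Ch_sound_CMB x y (List.ofFn σ)
  rw [hsum, hsum, hsum] at hCh
  set l : List ℕ := List.ofFn (fun i : Fin 6 => τ (σ i.succ)) with hl
  have hL : (List.ofFn σ).map (fun i => ty_CMB (x i) (y i)) = τ (σ 0) :: l := by
    rw [List.map_ofFn, List.ofFn_succ]
    rfl
  rw [hL] at hCh
  have hCh' : Ch_CMB l (tT_CMB t (τ (σ 0))) := hCh
  have hlen : l.length = 6 := by rw [hl, List.length_ofFn]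
  have hone := one_false_CMB t htlt
  have hbeq : Nat.beq (tG_CMB t) 1 = false := by
    rw [Bool.eq_false_iff]
    intro h
    exact hg0 (Nat.eq_of_beq_eq_true h)
  unfold one_CMB at hone
  rw [hbeq, cond_false] at hone
  have htrue : lp_CMB (sr_CMB t 6) t t 1 16 (tB_CMB t) = true := by
    apply lp_sound_CMB (sr_CMB t 6) t t 1 (τ (σ 0)) 16 _ (tB_lt_CMB t) (hb1 _)
    · calc 1 < 2 ^ 1 := by norm_num
        _ ≤ 2 ^ (τ (σ 0)) := Nat.pow_le_pow_right (by norm_num) hpos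
    · intro m' hm'
      have h4 := sr_sound_CMB t l (m' &&& tB_CMB (tT_CMB t (τ (σ 0)))) (tT_CMB t (τ (σ 0)))
        (lt_of_le_of_lt Nat.and_le_right (tB_lt_CMB _)) (tT_lt_CMB _ _) ?_ ?_ (by rw [hlen])
        hCh'
      · rw [hlen] at h4
        exact h4
      · intro i hi
        rw [hl, List.mem_ofFn] at hi
        obtain ⟨a, rfl⟩ := hi
        refine ⟨hτlt _, ?_⟩
        have hne : σ 0 ≠ σ a.succ := by
          intro h
          exact (Fin.succ_ne_zero a) (σ.injective h).symm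
        rw [Nat.testBit_land, hm' _ (hσ 0 a.succ (Fin.zero_le _)) (hb1 _), hb2 _ _ hne]
        rfl
      · rw [hl, List.pairwise_ofFn]
        intro i j hij
        refine ⟨hσ _ _ (Fin.succ_le_succ_iff.2 hij.le), ?_⟩
        apply hb2
        intro h
        have h5 := σ.injective h
        rw [Fin.succ_inj] at h5
        exact hij.ne h5
  rw [htrue] at hone
  exact Bool.noConfusion hone

end ST6
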