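import Pool.Agent.ST6.Targets

set_option autoImplicit false

/-!
# ST6, COV: covering of `O` by the trace form with positive weights
-/

namespace ST6

/-- One of three values is small. -/
theorem three_COV {n α w1 w2 w3 f1 f2 f3 : ℤ} (hn : 0 < n) (h1 : 0 ≤ w1)
    (h2 : 0 ≤ w2) (h3 : 0 ≤ w3) (hs : w1 + w2 + w3 = n)
    (h : 3 * (w1 * f1 + w2 * f2 + w3 * f3) ≤ n * (α * n ^ 2)) :
    3 * f1 ≤ α * n ^ 2 ∨ 3 * f2 ≤ α * n ^ 2 ∨ 3 * f3 ≤ α * n ^ 2 := by
  by_contra hcon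
  simp only [not_or, not_le] at hcon
  obtain ⟨g1, g2, g3⟩ := hcon
  have e1 : 0 ≤ w1 * (3 * f1 - α * n ^ 2 - 1) := mul_nonneg h1 (by linarith)
  have e2 : 0 ≤ w2 * (3 * f2 - α * n ^ 2 - 1) := mul_nonneg h2 (by linarith)
  have e3 : 0 ≤ w3 * (3 * f3 - α * n ^ 2 - 1) := mul_nonneg h3 (by linarith)
  have e4 : 3 * (w1 * f1 + w2 * f2 + w3 * f3) =
      w1 * (3 * f1 - α * n ^ 2 - 1) + w2 * (3 * f2 - α * n ^ 2 - 1) +
        w3 * (3 * f3 - α * n ^ 2 - 1) + (w1 + w2 + w3) * (α * n ^ 2 + 1) := by ring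
  rw [hs] at e4
  nlinarith

/-- The triangle lemma for reduced numbers. -/
theorem tri0_COV {n α u v l m : ℤ} (hn : 0 < n) (hα : 0 ≤ α) (hu : 0 ≤ u) (hun : u < n)
    (hv : 0 ≤ v) (hvn : v < n) : ∃ p q : ℤ,
    3 * (α * ((u - n * p) ^ 2 - (u - n * p) * (v - n * q) + (v - n * q) ^ 2) +
      l * (u - n * p) + m * (v - n * q)) ≤ α * n ^ 2 := by
  rcases le_total v u with h | h
  · have key := three_COV (n := n) (α := α) (w1 := n - u) (w2 := u - v) (w3 := v)
      (f1 := α * (u ^ 2 - u * v + v ^ 2) + l * u + m * v)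
      (f2 := α * ((u - n) ^ 2 - (u - n) * v + v ^ 2) + l * (u - n) + m * v)
      (f3 := α * ((u - n) ^ 2 - (u - n) * (v - n) + (v - n) ^ 2) + l * (u - n) + m * (v - n))
      hn (by omega) (by omega) hv (by ring) (by
        have h1 : n * (α * n ^ 2) - 3 * ((n - u) * (α * (u ^ 2 - u * v + v ^ 2) + l * u + m * v) +
            (u - v) * (α * ((u - n) ^ 2 - (u - n) * v + v ^ 2) + l * (u - n) + m * v) +
            v * (α * ((u - n) ^ 2 - (u - n) * (v - n) + (v - n) ^ 2) + l * (u - n) +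
              m * (v - n))) =
              n * (α * (n ^ 2 - 3 * n * u + 3 * u ^ 2 - 3 * u * v + 3 * v ^ 2)) := by
          ring
        have h2 : 0 ≤ n ^ 2 - 3 * n * u + 3 * u ^ 2 - 3 * u * v + 3 * v ^ 2 := by
          nlinarith [sq_nonneg (2 * n - 3 * u), sq_nonneg (u - 2 * v)]
        have h3 : 0 ≤ n * (α * (n ^ 2 - 3 * n * u + 3 * u ^ 2 - 3 * u * v + 3 * v ^ 2)) :=
          mul_nonneg hn.le (mul_nonneg hα h2)
        linarith)
    rcases key with k | k | k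
    · exact ⟨0, 0, by simpa using k⟩
    · exact ⟨1, 0, by simpa using k⟩
    · exact ⟨1, 1, by simpa using k⟩
  · have key := three_COV (n := n) (α := α) (w1 := n - v) (w2 := v - u) (w3 := u)
      (f1 := α * (u ^ 2 - u * v + v ^ 2) + l * u + m * v)
      (f2 := α * (u ^ 2 - u * (v - n) + (v - n) ^ 2) + l * u + m * (v - n))
      (f3 := α * ((u - n) ^ 2 - (u - n) * (v - n) + (v - n) ^ 2) + l * (u - n) + m * (v - n))
      hn (by omega) (by omega) hu (by ring) (by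
        have h1 : n * (α * n ^ 2) - 3 * ((n - v) * (α * (u ^ 2 - u * v + v ^ 2) + l * u + m * v) +
            (v - u) * (α * (u ^ 2 - u * (v - n) + (v - n) ^ 2) + l * u + m * (v - n)) +
            u * (α * ((u - n) ^ 2 - (u - n) * (v - n) + (v - n) ^ 2) + l * (u - n) +
              m * (v - n))) =
              n * (α * (n ^ 2 - 3 * n * v + 3 * v ^ 2 - 3 * u * v + 3 * u ^ 2)) := by
          ring
        have h2 : 0 ≤ n ^ 2 - 3 * n * v + 3 * v ^ 2 - 3 * u * v + 3 * u ^ 2 := by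
          nlinarith [sq_nonneg (2 * n - 3 * v), sq_nonneg (v - 2 * u)]
        have h3 : 0 ≤ n * (α * (n ^ 2 - 3 * n * v + 3 * v ^ 2 - 3 * u * v + 3 * u ^ 2)) :=
          mul_nonneg hn.le (mul_nonneg hα h2)
        linarith)
    rcases key with k | k | k
    · exact ⟨0, 0, by simpa using k⟩
    · exact ⟨0, 1, by simpa using k⟩
    · exact ⟨1, 1, by simpa using k⟩

/-- The triangle lemma. -/
theorem tri_COV {n α : ℤ} (hn : 0 < n) (hα : 0 ≤ α) (u v l m : ℤ) : ∃ p q : ℤ,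
    3 * (α * ((u - n * p) ^ 2 - (u - n * p) * (v - n * q) + (v - n * q) ^ 2) +
      l * (u - n * p) + m * (v - n * q)) ≤ α * n ^ 2 := by
  obtain ⟨p, q, h⟩ := tri0_COV (u := u % n) (v := v % n) (l := l) (m := m) hn hα
    (Int.emod_nonneg u hn.ne') (Int.emod_lt_of_pos u hn) (Int.emod_nonneg v hn.ne')
    (Int.emod_lt_of_pos v hn)
  refine ⟨u / n + p, v / n + q, ?_⟩
  have h1 : u - n * (u / n + p) = u % n - n * p := by
    have := Int.emod_add_mul_ediv u n
    linarith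
  have h2 : v - n * (v / n + q) = v % n - n * q := by
    have := Int.emod_add_mul_ediv v n
    linarith
  rw [h1, h2]
  exact h

/-- COV: covering of `O` by the trace form with arbitrary positive weights. -/
theorem p_COV : T_COV := by
  intro a n y ha hn
  have ha0 : 0 < a.re := ha.1
  obtain ⟨q2, q3, h23⟩ := tri_COV (α := 1) hn (by norm_num) (-y.re.im)
    (-2 * y.re.im - y.im.re) 0 0
  obtain ⟨q0, q1, h01⟩ := tri_COV (α := a.re) hn ha0.le (y.re.re + 2 * y.im.im) y.im.im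
    (-3 * a.im * (-2 * y.re.im - y.im.re - n * q3)) (3 * a.im * (-y.re.im - n * q2))
  refine ⟨⟨⟨q0 - 2 * q1, -q2⟩, ⟨-q3 + 2 * q2, q1⟩⟩, ?_⟩
  have hz : y - (n : O) * ⟨⟨q0 - 2 * q1, -q2⟩, ⟨-q3 + 2 * q2, q1⟩⟩ =
      ⟨⟨y.re.re - n * (q0 - 2 * q1), y.re.im - n * -q2⟩,
        ⟨y.im.re - n * (-q3 + 2 * q2), y.im.im - n * q1⟩⟩ := by
    apply QuadraticAlgebra.ext <;> apply Zsqrtd.ext <;> simp
  rw [hz, nm_coord]
  have h4 : a.re * (1 * ((-y.re.im - n * q2) ^ 2 - (-y.re.im - n * q2) *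
      (-2 * y.re.im - y.im.re - n * q3) + (-2 * y.re.im - y.im.re - n * q3) ^ 2) +
      0 * (-y.re.im - n * q2) + 0 * (-2 * y.re.im - y.im.re - n * q3)) * 3 ≤
      a.re * (1 * n ^ 2) := by
    have := mul_le_mul_of_nonneg_left h23 ha0.le
    linarith
  simp only [Zsqrtd.re_mul]
  refine le_trans (le_of_eq ?_) (le_trans (add_le_add h01 h4) (le_of_eq ?_))
  · ring
  · ring

end ST6
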