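import Pool.Agent.ST6.Targets

set_option autoImplicit false

/-!
# ST6, CPL: completion of unimodular vectors to a basis
-/

namespace ST6

open Matrix

theorem pair_CPL (h1 : T_PIR) (b c : R) :
    ∃ g b1 c1 s t : R, b = g * b1 ∧ c = g * c1 ∧ s * b1 + t * c1 = 1 := by
  have : IsPrincipalIdealRing R := h1
  obtain ⟨g, hg⟩ := (IsPrincipalIdealRing.principal (Ideal.span {b, c})).principal
  have hg' : Ideal.span {b, c} = Ideal.span {g} := hg
  have hb : g ∣ b := by
    rw [← Ideal.mem_span_singleton, ← hg']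
    exact Ideal.subset_span (by simp)
  have hc : g ∣ c := by
    rw [← Ideal.mem_span_singleton, ← hg']
    exact Ideal.subset_span (by simp)
  obtain ⟨b1, rfl⟩ := hb
  obtain ⟨c1, rfl⟩ := hc
  by_cases h0 : g = 0
  · exact ⟨0, 1, 0, 1, 0, by rw [h0]; ring, by rw [h0]; ring, by ring⟩
  · have h2 : g ∈ Ideal.span {g * b1, g * c1} := by
      rw [hg']
      exact Ideal.mem_span_singleton_self g
    obtain ⟨s, t, hst⟩ := Ideal.mem_span_pair.1 h2
    refine ⟨g, b1, c1, s, t, rfl, rfl, ?_⟩
    apply mul_left_cancel₀ h0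
    linear_combination hst

/-- CPL: completion of unimodular vectors to a basis. -/
theorem p_CPL (h1 : T_PIR) : T_CPL := by
  constructor
  · intro v u h
    simp only [dotProduct, Fin.sum_univ_two] at h
    refine ⟨!![v 0, -u 1; v 1, u 0], ?_, ?_⟩
    · rw [det_fin_two_of]
      linear_combination h
    · intro i
      fin_cases i <;> rfl
  · intro v u h
    simp only [dotProduct, Fin.sum_univ_three] at h
    obtain ⟨g, b1, c1, s, t, hb, hc, hst⟩ := pair_CPL h1 (v 1) (v 2)
    refine ⟨!![v 0, -(u 1 * b1 + u 2 * c1), 0; v 1, u 0 * b1, -t; v 2, u 0 * c1, s], ?_, ?_⟩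
    · rw [hb, hc] at h
      simp only [det_fin_three, of_apply, cons_val', cons_val_zero, cons_val_one, cons_val,
        cons_val_fin_one]
      rw [hb, hc]
      linear_combination h + (v 0 * u 0 + (u 1 * b1 + u 2 * c1) * g) * hst
    · intro i
      fin_cases i <;> rfl

end ST6
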