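import Pool.Agent.ST6.Targets

set_option autoImplicit false

namespace ST6

open Matrix

theorem cancel_DT2 {n : R} (hn : n ≠ 0) {x y : R} (h : n * x = n * y) : x = y :=
  mul_left_cancel₀ hn h

theorem two_ne_DT2 : (2 : R) ≠ 0 := by
  intro h
  have := congrArg Zsqrtd.re h
  simp at this

theorem three_ne_DT2 : (3 : R) ≠ 0 := by
  intro h
  have := congrArg Zsqrtd.re h
  simp at this

theorem two_DT2 (B C : R) (h : 2 * C - B ^ 2 = 2) (hC : Ev C) :
    ∃ k : R, 2 * k ^ 2 - 2 * B * k + C = 1 := by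
  have hre := congrArg Zsqrtd.re h
  have him := congrArg Zsqrtd.im h
  rw [pow_two] at hre him
  simp at hre him
  unfold Ev at hC
  have hp : Even (B.re * B.im) := by
    obtain ⟨m, hm⟩ := hC
    exact ⟨m, by linarith⟩
  have hs : Even (B.re * B.re + 3 * B.im * B.im) := ⟨C.re - 1, by linarith⟩
  have hb : Even B.re ∧ Even B.im := by
    rw [Int.even_mul] at hp
    rw [Int.even_add, Int.even_mul, Int.even_mul, Int.even_mul] at hs
    have h3 : ¬ Even (3 : ℤ) := by decide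
    tauto
  obtain ⟨k, hk⟩ := (two_dvd_iff B).2 hb
  refine ⟨k, ?_⟩
  have h2 : C = 1 + 2 * k ^ 2 := by
    apply cancel_DT2 two_ne_DT2
    linear_combination h + (B + 2 * k) * hk
  rw [h2, hk]
  ring

theorem three_DT2 (B C : R) (h : 3 * C - B ^ 2 = 2) :
    ∃ k : R, 3 * k ^ 2 - 2 * B * k + C = 1 := by
  have hre := congrArg Zsqrtd.re h
  have him := congrArg Zsqrtd.im h
  rw [pow_two] at hre him
  simp at hre him
  have h1 : (B.re * B.re) % 3 = 1 := by
    have : B.re * B.re = 3 * (C.re - B.im * B.im - 1) + 1 := by linarith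
    omega
  have h2 : (3 : ℤ) ∣ B.im := by
    have h3 : (3 : ℤ) ∣ B.re * B.im := by
      have : 3 * C.im = 2 * (B.re * B.im) := by linarith
      omega
    rcases (Int.prime_three.dvd_mul).1 h3 with h4 | h4
    · exfalso
      have h5 : (3 : ℤ) ∣ B.re * B.re := Dvd.dvd.mul_right h4 _
      omega
    · exact h4
  obtain ⟨n, hn⟩ := h2
  have h4 : B.re % 3 = 1 ∨ B.re % 3 = 2 := by
    have h5 : B.re % 3 = 0 ∨ B.re % 3 = 1 ∨ B.re % 3 = 2 := by omega
    rcases h5 with h5 | h5 | h5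
    · rw [Int.mul_emod, h5] at h1
      norm_num at h1
    · exact Or.inl h5
    · exact Or.inr h5
  have key : ∀ ε : R, ε * ε = 1 → ∀ k : R, B = ε + 3 * k →
      3 * k ^ 2 - 2 * B * k + C = 1 := by
    intro ε hε k hk
    have h2 : C = 1 + 2 * ε * k + 3 * k ^ 2 := by
      apply cancel_DT2 three_ne_DT2
      linear_combination h + (B + ε + 3 * k) * hk + hε
    rw [h2, hk]
    ring
  rcases h4 with h5 | h5
  · refine ⟨⟨B.re / 3, n⟩, key 1 (by ring) _ ?_⟩
    ext
    · simp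
      omega
    · simp
      exact hn
  · refine ⟨⟨B.re / 3 + 1, n⟩, key (-1) (by ring) _ ?_⟩
    ext
    · simp
      omega
    · simp
      exact hn

/-- The value of the form. -/
def qf_DT2 (a b c x y : R) : R := a * x ^ 2 + 2 * b * x * y + c * y ^ 2

theorem Ev_qf_DT2 {a b c : R} (ha : Ev a) (hc : Ev c) (x y : R) : Ev (qf_DT2 a b c x y) := by
  unfold qf_DT2
  refine Ev.add (Ev.add (Ev.mul ha (Ev_sq x)) ?_) (Ev.mul hc (Ev_sq y))
  rw [show 2 * b * x * y = 2 * (b * x * y) by ring]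
  exact Ev_two_mul _

theorem unim_DT2 {a b c : R} (ha : Ev a) (hc : Ev c) (h : a * c - b ^ 2 = 2) (x y p q : R)
    (hpq : p * x + q * y = 1) (hQ : qf_DT2 a b c x y = 2 ∨ qf_DT2 a b c x y = 3) :
    ∃ X Y : R, qf_DT2 a b c X Y = 1 := by
  obtain ⟨A, hA⟩ : ∃ A, qf_DT2 a b c x y = A := ⟨_, rfl⟩
  obtain ⟨C, hC⟩ : ∃ C, qf_DT2 a b c (-q) p = C := ⟨_, rfl⟩
  obtain ⟨B, hB⟩ : ∃ B, a * x * (-q) + b * (x * p + y * (-q)) + c * y * p = B := ⟨_, rfl⟩
  have hCe : Ev C := hC ▸ Ev_qf_DT2 ha hc _ _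
  have hd : A * C - B ^ 2 = 2 := by
    have e1 : A * C - B ^ 2 = (a * c - b ^ 2) * (p * x + q * y) ^ 2 := by
      rw [← hA, ← hB, ← hC]
      unfold qf_DT2
      ring
    rw [e1, h, hpq]
    ring
  have hval : ∀ k : R, qf_DT2 a b c (x * (-k) + (-q)) (y * (-k) + p) =
      A * k ^ 2 - 2 * B * k + C := by
    intro k
    rw [← hA, ← hB, ← hC]
    unfold qf_DT2
    ring
  rcases hQ with hQ | hQ
  · rw [hA] at hQ
    rw [hQ] at hd
    obtain ⟨k, hk⟩ := two_DT2 B C hd hCe
    refine ⟨_, _, (hval k).trans ?_⟩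
    rw [hQ]
    exact hk
  · rw [hA] at hQ
    rw [hQ] at hd
    obtain ⟨k, hk⟩ := three_DT2 B C hd
    refine ⟨_, _, (hval k).trans ?_⟩
    rw [hQ]
    exact hk

theorem gcd_DT2 (h1 : T_PIR) (x y : R) (h : x ≠ 0 ∨ y ≠ 0) :
    ∃ g x1 y1 p q : R, x = g * x1 ∧ y = g * y1 ∧ p * x1 + q * y1 = 1 := by
  haveI : IsPrincipalIdealRing R := h1
  obtain ⟨g, hg⟩ := (IsPrincipalIdealRing.principal (Ideal.span {x, y})).principal
  have hx : x ∈ Ideal.span ({x, y} : Set R) := Ideal.subset_span (by simp)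
  have hy : y ∈ Ideal.span ({x, y} : Set R) := Ideal.subset_span (by simp)
  have hgm : g ∈ Ideal.span ({x, y} : Set R) := by
    rw [hg]
    exact Submodule.mem_span_singleton_self g
  rw [hg] at hx hy
  obtain ⟨x1, hx1⟩ := Submodule.mem_span_singleton.1 hx
  obtain ⟨y1, hy1⟩ := Submodule.mem_span_singleton.1 hy
  obtain ⟨p, q, hpq⟩ := Ideal.mem_span_pair.1 hgm
  rw [smul_eq_mul] at hx1 hy1
  have hg0 : g ≠ 0 := by
    rintro rfl
    rcases h with h | h
    · exact h (by rw [← hx1, mul_zero])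
    · exact h (by rw [← hy1, mul_zero])
  refine ⟨g, x1, y1, p, q, by rw [← hx1, mul_comm], by rw [← hy1, mul_comm], ?_⟩
  apply cancel_DT2 hg0
  rw [← hx1, ← hy1] at hpq
  linear_combination hpq

theorem unit_DT2 (g : R) (h : g.norm ^ 2 = 1) : ∃ u : R, u * g = 1 := by
  refine ⟨star g * g.norm, ?_⟩
  have h1 : g * star g = g.norm := by
    rw [Zsqrtd.norm_eq_mul_conj]
  have h2 : (g.norm : R) * g.norm = 1 := by
    rw [← Int.cast_mul, ← pow_two, h, Int.cast_one]
  linear_combination (g.norm : R) * h1 + h2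

theorem p_DT2 (h1 : T_PIR) (h2 : T_MIN2) (h3 : T_PDS) : T_DT2 := by
  intro a b c ha hc hTp h
  have hdet : (!![a, b; b, c] : Matrix (Fin 2) (Fin 2) R).det = 2 := by
    rw [Matrix.det_fin_two_of]
    linear_combination h
  have hPD : PD !![a, b; b, c] := by
    apply h3.1 a b c hTp
    rw [h]
    constructor <;> simp
  obtain ⟨v, hv0, hv⟩ := h2 _ hPD
  have hQ : v ⬝ᵥ ((!![a, b; b, c] : Matrix (Fin 2) (Fin 2) R) *ᵥ v) =
      qf_DT2 a b c (v 0) (v 1) := by
    unfold qf_DT2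
    simp [Matrix.mulVec, dotProduct, Fin.sum_univ_two]
    ring
  have hpos := hPD.2 v hv0
  rw [hQ] at hpos hv
  rw [hdet] at hv
  obtain ⟨z, hz⟩ : ∃ z, qf_DT2 a b c (v 0) (v 1) = z := ⟨_, rfl⟩
  have hEz : Ev z := hz ▸ Ev_qf_DT2 ha hc _ _
  rw [hz] at hpos hv
  have hn2 : (2 : R).norm = 4 := by
    rw [norm_eq]
    simp
  rw [hn2] at hv
  have hr : z.re ≤ 3 := by
    by_contra hcon
    push Not at hcon
    have h4 : (4 : ℤ) ≤ z.re := hcon
    have h5 : (4 : ℤ) ^ 4 ≤ z.re ^ 4 := pow_le_pow_left₀ (by norm_num) h4 4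
    linarith
  obtain ⟨hp0, hp1⟩ := hpos
  have hs : z.im = 0 := by
    obtain ⟨m, hm⟩ := hEz
    have h5 : z.re ^ 2 ≤ 9 := by nlinarith
    have h6 : z.im ^ 2 < 3 := by linarith
    have h7 : m ^ 2 < 1 := by
      rw [hm] at h6
      nlinarith
    have h8 : m = 0 := by nlinarith
    rw [hm, h8]
    ring
  have hz3 : z = 1 ∨ z = 2 ∨ z = 3 := by
    have : z.re = 1 ∨ z.re = 2 ∨ z.re = 3 := by omega
    rcases this with h5 | h5 | h5
    · left
      ext
      · simpa using h5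
      · simpa using hs
    · right; left
      ext
      · simpa using h5
      · simpa using hs
    · right; right
      ext
      · simpa using h5
      · simpa using hs
  have hv01 : v 0 ≠ 0 ∨ v 1 ≠ 0 := by
    by_contra hcon
    push Not at hcon
    apply hv0
    funext i
    fin_cases i
    · exact hcon.1
    · exact hcon.2
  rcases hz3 with h5 | h5 | h5
  · exact ⟨v 0, v 1, by rw [← h5, ← hz]; rfl⟩
  · obtain ⟨g, x1, y1, p, q, hx, hy, hpq⟩ := gcd_DT2 h1 (v 0) (v 1) hv01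
    obtain ⟨t, ht⟩ : ∃ t, qf_DT2 a b c x1 y1 = t := ⟨_, rfl⟩
    have hEt : Ev t := ht ▸ Ev_qf_DT2 ha hc _ _
    have hgt : g ^ 2 * t = 2 := by
      rw [← h5, ← hz, ← ht, hx, hy]
      unfold qf_DT2
      ring
    have hunit : g.norm ^ 2 = 1 := by
      have hN := congrArg Zsqrtd.norm hgt
      rw [pow_two, Zsqrtd.norm_mul, Zsqrtd.norm_mul, hn2] at hN
      have hre := congrArg Zsqrtd.re hgt
      have him := congrArg Zsqrtd.im hgt
      rw [pow_two] at hre him
      simp at hre him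
      obtain ⟨m, hm⟩ := hEt
      rcases Int.even_or_odd (g.re + g.im) with he | ho
      · exfalso
        obtain ⟨j, hj⟩ := he
        have hgre : g.re = 2 * j - g.im := by linarith
        rw [hgre, hm] at hre
        have : (4 : ℤ) ∣ 2 := ⟨((j - g.im) * j + g.im * g.im) * t.re +
          3 * (2 * j - g.im) * g.im * m, by linear_combination -hre⟩
        omega
      · have hodd : Odd (g.norm) := by
          rw [norm_eq]
          have : g.re ^ 2 - 3 * g.im ^ 2 =
              (g.re + g.im) ^ 2 - 2 * (g.re * g.im + 2 * g.im ^ 2) := by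
            ring
          rw [this]
          exact Odd.sub_even (ho.pow) ⟨g.re * g.im + 2 * g.im ^ 2, by ring⟩
        have hdvd : g.norm ^ 2 ∣ 4 := ⟨t.norm, by rw [← hN]; ring⟩
        have hle : g.norm ^ 2 ≤ 4 := Int.le_of_dvd (by norm_num) hdvd
        have hb1 : g.norm ≤ 2 := by nlinarith
        have hb2 : -2 ≤ g.norm := by nlinarith
        obtain ⟨j, hj⟩ := hodd
        have : g.norm = 1 ∨ g.norm = -1 := by omega
        rcases this with h7 | h7 <;> rw [h7] <;> norm_num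
    obtain ⟨u, hu⟩ := unit_DT2 g hunit
    refine unim_DT2 ha hc h (v 0) (v 1) (p * u) (q * u) ?_ (Or.inl (hz.trans h5))
    rw [hx, hy]
    linear_combination (u * g) * hpq + hu
  · obtain ⟨g, x1, y1, p, q, hx, hy, hpq⟩ := gcd_DT2 h1 (v 0) (v 1) hv01
    obtain ⟨t, ht⟩ : ∃ t, qf_DT2 a b c x1 y1 = t := ⟨_, rfl⟩
    have hgt : g ^ 2 * t = 3 := by
      rw [← h5, ← hz, ← ht, hx, hy]
      unfold qf_DT2
      ring
    have hN := congrArg Zsqrtd.norm hgt
    have hn3 : (3 : R).norm = 9 := by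
      rw [norm_eq]
      simp
    rw [pow_two, Zsqrtd.norm_mul, Zsqrtd.norm_mul, hn3] at hN
    have hdvd : g.norm ^ 2 ∣ 9 := ⟨t.norm, by rw [← hN]; ring⟩
    have hle : g.norm ^ 2 ≤ 9 := Int.le_of_dvd (by norm_num) hdvd
    have hb1 : g.norm ≤ 3 := by nlinarith
    have hb2 : -3 ≤ g.norm := by nlinarith
    have hcases : g.norm ^ 2 = 1 ∨ g.norm = 3 ∨ g.norm = -3 := by
      have h8 : g.norm = -3 ∨ g.norm = -2 ∨ g.norm = -1 ∨ g.norm = 0 ∨ g.norm = 1 ∨
        g.norm = 2 ∨ g.norm = 3 := by omega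
      rcases h8 with h8 | h8 | h8 | h8 | h8 | h8 | h8
      · right; right; exact h8
      · rw [h8] at hN; omega
      · left; rw [h8]; norm_num
      · rw [h8] at hN; omega
      · left; rw [h8]; norm_num
      · rw [h8] at hN; omega
      · right; left; exact h8
    have hrest : g.norm = 3 ∨ g.norm = -3 → ∃ x y : R,
        a * x ^ 2 + 2 * b * x * y + c * y ^ 2 = 1 := by
      intro h9
      have h10 : (3 : ℤ) ∣ g.re := by
        have h11 : (3 : ℤ) ∣ g.re ^ 2 := by
          rw [norm_eq] at h9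
          rcases h9 with h9 | h9
          · exact ⟨g.im ^ 2 + 1, by linarith⟩
          · exact ⟨g.im ^ 2 - 1, by linarith⟩
        exact Int.prime_three.dvd_of_dvd_pow h11
      obtain ⟨j, hj⟩ := h10
      have hg : g = w * ⟨g.im, j⟩ := by
        unfold w
        ext
        · simp
          linarith
        · simp
      refine ⟨⟨g.im, j⟩ * x1, ⟨g.im, j⟩ * y1, ?_⟩
      have e2 : (⟨g.im, j⟩ : R) ^ 2 * t = 1 := by
        apply cancel_DT2 three_ne_DT2
        have h12 : (w * ⟨g.im, j⟩ : R) ^ 2 * t = 3 := by rw [← hg]; exact hgt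
        linear_combination h12 - (⟨g.im, j⟩ : R) ^ 2 * t * w_sq
      rw [← e2, ← ht]
      unfold qf_DT2
      ring
    rcases hcases with h8 | h8
    · obtain ⟨u, hu⟩ := unit_DT2 g h8
      refine unim_DT2 ha hc h (v 0) (v 1) (p * u) (q * u) ?_ (Or.inr (hz.trans h5))
      rw [hx, hy]
      linear_combination (u * g) * hpq + hu
    · exact hrest h8

end ST6
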