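import Pool.Agent.ST6.Targets

set_option autoImplicit false

namespace ST6

open Matrix

theorem pp_eq_GEN : pp = 1 + w := by
  apply Zsqrtd.ext <;> rfl

/-- `y ^ 2 + z ^ 2` is twice a norm if `y` and `z` have the same parity. -/
theorem two_GEN (y z : R) (h : En (y + z)) : ∃ t : O, y ^ 2 + z ^ 2 = 2 * nm t := by
  have hs : nm (⟨y - w * z, 2 * z⟩ : O) = y ^ 2 + z ^ 2 := by
    unfold nm
    show (y - w * z) ^ 2 + w * (y - w * z) * (2 * z) + (2 * z) ^ 2 = y ^ 2 + z ^ 2
    linear_combination (-z ^ 2) * w_sq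
  have hdvd : pO ∣ (⟨y - w * z, 2 * z⟩ : O) := by
    rw [dvd_pO_iff]
    constructor
    · show En (y - w * z)
      rw [En_iff] at h ⊢
      have h1 : y - w * z = (y + z) - pp * z := by
        rw [pp_eq_GEN]
        ring
      rw [h1]
      exact dvd_sub h (Dvd.intro _ rfl)
    · show En (2 * z)
      rw [En_iff]
      exact dvd_trans (dvd_trans (Dvd.intro pp (by rw [pow_two])) ⟨_, two_eq⟩) (Dvd.intro _ rfl)
  obtain ⟨t, ht⟩ := hdvd
  refine ⟨uO * t, ?_⟩
  rw [← hs, ht, nm_mul, nm_mul, nm_uO]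
  unfold pO
  rw [nm_algebraMap, pp_sq]
  ring

/-- A sum of three squares has the required form. -/
theorem three_GEN (x y z : R) : ∃ (β : R) (t : O), x ^ 2 + y ^ 2 + z ^ 2 = β ^ 2 + 2 * nm t := by
  have key : ∀ a b : R, (En a ↔ En b) → En (a + b) := by
    intro a b hab
    unfold En at *
    have h1 : (a + b).re + (a + b).im = (a.re + a.im) + (b.re + b.im) := by
      simp
      ring
    rw [h1, Int.even_add]
    exact hab
  by_cases hx : En x
  · by_cases hy : En y
    · obtain ⟨t, ht⟩ := two_GEN x y (key x y (by tauto))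
      exact ⟨z, t, by rw [ht]; ring⟩
    · by_cases hz : En z
      · obtain ⟨t, ht⟩ := two_GEN x z (key x z (by tauto))
        exact ⟨y, t, by linear_combination ht⟩
      · obtain ⟨t, ht⟩ := two_GEN y z (key y z (by tauto))
        exact ⟨x, t, by linear_combination ht⟩
  · by_cases hy : En y
    · by_cases hz : En z
      · obtain ⟨t, ht⟩ := two_GEN y z (key y z (by tauto))
        exact ⟨x, t, by linear_combination ht⟩
      · obtain ⟨t, ht⟩ := two_GEN x z (key x z (by tauto))
        exact ⟨y, t, by linear_combination ht⟩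
    · obtain ⟨t, ht⟩ := two_GEN x y (key x y (by tauto))
      exact ⟨z, t, by linear_combination ht⟩

theorem adj_G2_GEN : G2.adjugate = !![1, 0, 0; 0, 2, -w; 0, -w, 2] := by
  have h1 : G2.det = 1 := by
    unfold G2
    rw [det_fin_three]
    simp
    linear_combination -w_sq
  have h2 : G2 * !![1, 0, 0; 0, 2, -w; 0, -w, 2] = 1 := by
    unfold G2
    refine Matrix.ext fun i j => ?_
    fin_cases i <;> fin_cases j <;> simp [Matrix.mul_apply, Fin.sum_univ_three]
    · linear_combination -w_sq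
    · ring
    · ring
    · linear_combination -w_sq
  calc G2.adjugate = G2.adjugate * (G2 * !![1, 0, 0; 0, 2, -w; 0, -w, 2]) := by rw [h2, mul_one]
    _ = !![1, 0, 0; 0, 2, -w; 0, -w, 2] := by
      rw [← Matrix.mul_assoc, adjugate_mul, h1, one_smul, one_mul]

theorem p_GEN (h1 : T_CLS3) (h2 : T_PDS) : T_GEN := by
  intro p k m u v d hp hd hEp hEm hEv hpm hdv
  have hdet : (!![p, k, 0; k, m, u; 0, u, v] : Matrix (Fin 3) (Fin 3) R).det = 1 := by
    rw [det_fin_three]
    simp
    linear_combination hdv + v * hpm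
  have hPD : PD !![p, k, 0; k, m, u; 0, u, v] :=
    h2.2 p k 0 m u v hp (by rw [hpm]; exact hd) (by rw [hdet]; exact Tp_one)
  have hadj : (!![p, k, 0; k, m, u; 0, u, v] : Matrix (Fin 3) (Fin 3) R).adjugate 2 2 = d := by
    rw [adjugate_fin_three]
    simp
    linear_combination hpm
  obtain ⟨U, -, hU | hU⟩ := h1 _ hPD hdet (by
    intro i
    fin_cases i
    · exact hEp
    · exact hEm
    · exact hEv)
  · rw [hU, adjugate_mul_distrib, ← adjugate_transpose] at hadj
    obtain ⟨β, t, ht⟩ := three_GEN (U.adjugate 2 0) (U.adjugate 2 1) (U.adjugate 2 2)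
    refine ⟨β, t, ?_⟩
    rw [← ht, ← hadj, Matrix.mul_apply, Fin.sum_univ_three]
    simp only [Matrix.transpose_apply]
    ring
  · rw [hU, adjugate_mul_distrib, adjugate_mul_distrib, ← adjugate_transpose,
      adj_G2_GEN] at hadj
    refine ⟨U.adjugate 2 0, ⟨U.adjugate 2 1, -U.adjugate 2 2⟩, ?_⟩
    rw [← hadj]
    unfold nm
    simp only [Matrix.mul_apply, Fin.sum_univ_three, Matrix.transpose_apply]
    simp
    ring

end ST6
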