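import Pool.Agent.ST6.Targets

set_option autoImplicit false

/-!
# MP_a901ae_nt: HB, binary unimodular Hermitian lattices over `ℤ[ζ₁₂]` have class number one
-/

namespace ST6

open Matrix

/-- the bilinear form of `nm` -/
def B_HB (x y : O) : R := 2 * x.re * y.re + w * (x.re * y.im + x.im * y.re) + 2 * x.im * y.im

theorem inj_HB {x y : R} (h : algebraMap R O x = algebraMap R O y) : x = y := by
  have := congrArg QuadraticAlgebra.re h
  simpa using this

theorem alg_B_HB (x y : O) : algebraMap R O (B_HB x y) = star x * y + star y * x := by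
  apply QuadraticAlgebra.ext
  · simp [B_HB]
    ring
  · simp [B_HB]
    ring

theorem nm_sub_HB (x y : O) : nm (x - y) = nm x + nm y - B_HB x y := by
  simp only [nm, B_HB, QuadraticAlgebra.re_sub, QuadraticAlgebra.im_sub]
  ring

theorem star_alg_HB (a : R) : star (algebraMap R O a) = algebraMap R O a := by
  apply QuadraticAlgebra.ext <;> simp

theorem alg_nm_HB (z : O) : algebraMap R O (nm z) = star z * z := (star_mul_self_eq z).symm

/-- change of the basis by a unit -/
theorem unit_HB (a c : R) (h v vi : O) (hv : v * vi = 1) (z11 z12 z21 z22 : O)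
    (H : HZ (a * nm v) (c * nm vi) (star v * vi * h) z11 z12 z21 z22) :
    HZ a c h (vi * z11) (vi * z12) (v * z21) (v * z22) := by
  obtain ⟨h1, h2, h3⟩ := H
  have hn : nm v * nm vi = 1 := by rw [← nm_mul, hv, nm_one]
  have hs : star v * star vi = 1 := by
    rw [← star_mul', hv, star_one]
  refine ⟨?_, ?_, ?_⟩
  · rw [nm_mul, nm_mul]
    linear_combination nm vi * h1 + a * hn
  · rw [nm_mul, nm_mul]
    linear_combination nm v * h2 + c * hn
  · rw [star_mul', star_mul']
    linear_combination star vi * v * h3 + (v * vi * h) * hs + h * hv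

theorem norm_cases_HB (a : R) (ha : Tp a) (h1 : a.norm ≠ 1) : 4 ≤ a.norm := by
  have h0 := ha.norm_pos
  have h2 : a.norm ≠ 2 := by
    intro h
    rw [norm_eq] at h
    have h3 : a.re ^ 2 % 3 = 2 := by omega
    have h4 := Int.emod_emod_of_dvd (a.re ^ 2) (dvd_refl 3)
    rcases (by omega : a.re % 3 = 0 ∨ a.re % 3 = 1 ∨ a.re % 3 = 2) with h5 | h5 | h5 <;>
      (rw [pow_two, Int.mul_emod, h5] at h3; norm_num at h3)
  have h3 : a.norm ≠ 3 := by
    intro h
    rw [norm_eq] at h
    have h3 : a.re ^ 2 % 3 = 0 := by omega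
    have h5 : a.re % 3 = 0 := by
      rcases (by omega : a.re % 3 = 0 ∨ a.re % 3 = 1 ∨ a.re % 3 = 2) with h5 | h5 | h5
      · exact h5
      · rw [pow_two, Int.mul_emod, h5] at h3
        norm_num at h3
      · rw [pow_two, Int.mul_emod, h5] at h3
        norm_num at h3
    obtain ⟨k, hk⟩ := Int.dvd_of_emod_eq_zero h5
    rw [hk] at h
    have h6 : a.im ^ 2 % 3 = 2 := by
      have : (3 * k) ^ 2 = 9 * k ^ 2 := by ring
      rw [this] at h
      omega
    rcases (by omega : a.im % 3 = 0 ∨ a.im % 3 = 1 ∨ a.im % 3 = 2) with h7 | h7 | h7 <;>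
      (rw [pow_two, Int.mul_emod, h7] at h6; norm_num at h6)
  omega

/-- the reduction step -/
theorem step_HB (a c : R) (h q : O) (hdet : a * c - nm h = 1) :
    a * (c - B_HB h q + a * nm q) = 1 + nm (h - algebraMap R O a * q) := by
  have e1 : nm (h - algebraMap R O a * q) = nm h + a ^ 2 * nm q - a * B_HB h q := by
    rw [nm_sub_HB, nm_mul, nm_algebraMap]
    have : B_HB h (algebraMap R O a * q) = a * B_HB h q := by
      simp only [B_HB]
      simp
      ring
    rw [this]
  rw [e1]
  linear_combination hdet

theorem back_HB (a c : R) (h q z11 z12 z21 z22 : O)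
    (H : HZ (c - B_HB h q + a * nm q) a (star (h - algebraMap R O a * q)) z11 z12 z21 z22) :
    HZ a c h z21 z22 (z11 + q * z21) (z12 + q * z22) := by
  obtain ⟨h1, h2, h3⟩ := H
  have h1' := congrArg (algebraMap R O) h1
  have h2' := congrArg (algebraMap R O) h2
  simp only [map_add, map_sub, map_mul, alg_nm_HB, alg_B_HB] at h1' h2'
  have h3' := congrArg star h3
  simp only [star_add, star_mul', star_star, star_sub, star_alg_HB] at h3 h3'
  refine ⟨h2, ?_, ?_⟩
  · apply inj_HB
    simp only [map_add, alg_nm_HB, star_add, star_mul']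
    linear_combination h1' + (star q * q) * h2' + q * h3 + star q * h3'
  · linear_combination h3' + q * h2'

theorem red_HB (h1 : T_COV) (a c : R) (h : O) (ha : Tp a) (hdet : a * c - nm h = 1)
    (hn : 4 ≤ a.norm) : ∃ q : O, (c - B_HB h q + a * nm q).re < a.re := by
  obtain ⟨q, hq⟩ := h1 a a.norm (algebraMap R O (star a) * h) ha (by omega)
  refine ⟨q, ?_⟩
  have hs := step_HB a c h q hdet
  set c' := c - B_HB h q + a * nm q with hc'
  set g := h - algebraMap R O a * q with hg
  have hN : ((a.norm : ℤ) : R) = a * star a := Zsqrtd.norm_eq_mul_conj a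
  have e1 : algebraMap R O (star a) * h - ((a.norm : ℤ) : O) * q = algebraMap R O (star a) * g := by
    have : ((a.norm : ℤ) : O) = algebraMap R O (((a.norm : ℤ) : R)) := by
      rw [map_intCast]
    rw [this, hN, map_mul, hg]
    ring
  rw [e1, nm_mul, nm_algebraMap] at hq
  have e2 : a * (star a ^ 2 * nm g) = ((a.norm : ℤ) : R) * (star a * nm g) := by
    rw [hN]
    ring
  rw [e2] at hq
  have e3 : ∀ (n : ℤ) (x : R), (((n : ℤ) : R) * x).re = n * x.re := by
    intro n x
    simp
  rw [e3] at hq
  have e4 : ((a.norm : ℤ) : R) * c' = star a * (1 + nm g) := by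
    rw [hN, ← hs]
    ring
  clear_value c' g
  have e5 : a.norm * c'.re = a.re + (star a * nm g).re := by
    have e6 := congrArg Zsqrtd.re e4
    rw [e3] at e6
    rw [e6, mul_add, mul_one, Zsqrtd.re_add, Zsqrtd.re_star]
  have hr := ha.1
  set X := (star a * nm g).re
  set n := a.norm
  have h6 : n * (3 * X) ≤ n * (2 * n * a.re) := by nlinarith
  have h7 : 3 * X ≤ 2 * n * a.re := le_of_mul_le_mul_left h6 (by omega)
  have h8 : n * c'.re < n * a.re := by nlinarith
  exact lt_of_mul_lt_mul_left h8 (by omega)

theorem main_HB (h1 : T_COV) : ∀ (N : ℕ) (a c : R) (h : O), Tp a → a * c - nm h = 1 →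
    a.re < N → ∃ z11 z12 z21 z22 : O, HZ a c h z11 z12 z21 z22 := by
  intro N
  induction N with
  | zero =>
    intro a c h ha _ hN
    have := ha.1
    push_cast at hN
    omega
  | succ N ih =>
    intro a c h ha hdet hN
    push_cast at hN
    by_cases ha1 : a = 1
    · subst ha1
      refine ⟨1, 0, h, 1, ?_, ?_, ?_⟩
      · rw [nm_one, nm_zero, add_zero]
      · rw [nm_one]
        linear_combination -hdet
      · simp
    by_cases hn : a.norm = 1
    · -- a is a unit
      have hdir : ∀ (v vi : O), v * vi = 1 → Tp (nm v) → (a * nm v).re < a.re →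
          ∃ z11 z12 z21 z22 : O, HZ a c h z11 z12 z21 z22 := by
        intro v vi hv hvp hlt
        have hnv : nm v * nm vi = 1 := by rw [← nm_mul, hv, nm_one]
        obtain ⟨z11, z12, z21, z22, H⟩ := ih (a * nm v) (c * nm vi) (star v * vi * h)
          (ha.mul hvp) (by
            rw [nm_mul, nm_mul, nm_star]
            linear_combination (a * c - nm h) * hnv + hdet) (by omega)
        exact ⟨_, _, _, _, unit_HB a c h v vi hv z11 z12 z21 z22 H⟩
      have hre := ha.1
      have hne := norm_eq a
      rw [hn] at hne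
      have him : a.im ≠ 0 := by
        intro h0
        rw [h0] at hne
        have h2 : a.re = 1 := by nlinarith
        exact ha1 (Zsqrtd.ext (by rw [h2]; rfl) (by rw [h0]; rfl))
      have hinv : uO * (star uO * algebraMap R O ⟨2, -1⟩) = 1 := by
        rw [← mul_assoc, mul_comm uO, star_mul_self_eq, ← map_mul, nm_uO]
        have : (⟨2, 1⟩ : R) * ⟨2, -1⟩ = 1 := by ext <;> simp
        rw [this, map_one]
      have hn2 : nm (star uO * algebraMap R O ⟨2, -1⟩) = ⟨2, -1⟩ := by
        rw [nm_mul, nm_star, nm_uO, nm_algebraMap]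
        ext <;> simp [pow_two]
      rcases lt_or_gt_of_ne him with h0 | h0
      · refine hdir uO _ hinv ?_ ?_
        · rw [nm_uO]
          constructor <;> norm_num
        · rw [nm_uO, Zsqrtd.re_mul]
          have : a.re < -3 * a.im := by nlinarith
          simp only
          linarith
      · refine hdir (star uO * algebraMap R O ⟨2, -1⟩) uO (by rw [mul_comm]; exact hinv) ?_ ?_
        · rw [hn2]
          constructor <;> norm_num
        · rw [hn2, Zsqrtd.re_mul]
          have : a.re < 3 * a.im := by nlinarith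
          simp only
          linarith
    · have hn4 := norm_cases_HB a ha hn
      obtain ⟨q, hq⟩ := red_HB h1 a c h ha hdet hn4
      have hs := step_HB a c h q hdet
      have hcp : Tp (c - B_HB h q + a * nm q) := by
        refine Tp.of_mul ha ?_
        rw [hs]
        exact Tp_one.add (Tn_nm _)
      obtain ⟨z11, z12, z21, z22, H⟩ := ih (c - B_HB h q + a * nm q) a
        (star (h - algebraMap R O a * q)) hcp (by
          rw [nm_star]
          linear_combination hs) (by omega)
      exact ⟨_, _, _, _, back_HB a c h q z11 z12 z21 z22 H⟩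

theorem p_HB (h1 : T_COV) : T_HB := by
  intro a c h ha hdet
  refine main_HB h1 (a.re.toNat + 1) a c h ha hdet ?_
  have := ha.1
  push_cast
  omega

end ST6
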