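import Pool.Agent.ST6.Targets

set_option autoImplicit false

/-!
# ST6: totally positive semidefinite Hermitian matrices whose determinant is a norm
-/

namespace ST6

theorem inj_HM {x y : R} (h : algebraMap R O x = algebraMap R O y) : x = y := by
  have := congrArg QuadraticAlgebra.re h
  simpa using this

theorem star_HM (x : R) : star (algebraMap R O x) = algebraMap R O x := by
  apply QuadraticAlgebra.ext
  · simp
  · simp

/-- The change of basis in the prime step. -/
theorem change_HM {a c a1 c1 : R} {h h1 g11 g12 g21 g22 y11 y12 y21 y22 : O}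
    (ha : algebraMap R O a = star g11 * g11 * algebraMap R O a1 + star g11 * g12 * h1 +
      star g12 * g11 * star h1 + star g12 * g12 * algebraMap R O c1)
    (hc : algebraMap R O c = star g21 * g21 * algebraMap R O a1 + star g21 * g22 * h1 +
      star g22 * g21 * star h1 + star g22 * g22 * algebraMap R O c1)
    (hh : h = star g11 * g21 * algebraMap R O a1 + star g11 * g22 * h1 +
      star g12 * g21 * star h1 + star g12 * g22 * algebraMap R O c1)
    (hy : HZ a1 c1 h1 y11 y12 y21 y22) :
    HZ a c h (g11 * y11 + g12 * y21) (g11 * y12 + g12 * y22) (g21 * y11 + g22 * y21)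
      (g21 * y12 + g22 * y22) := by
  obtain ⟨h1a, h1c, h1h⟩ := hy
  have ea : algebraMap R O a1 = star y11 * y11 + star y12 * y12 := by
    rw [star_mul_self_eq, star_mul_self_eq, ← map_add, h1a]
  have ec : algebraMap R O c1 = star y21 * y21 + star y22 * y22 := by
    rw [star_mul_self_eq, star_mul_self_eq, ← map_add, h1c]
  have es : star h1 = star y21 * y11 + star y22 * y12 := by
    rw [← h1h, star_add, star_mul, star_mul, star_star, star_star]
  rw [ea, ec, es, ← h1h] at ha hc hh
  refine ⟨?_, ?_, ?_⟩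
  · apply inj_HM
    rw [map_add, ← star_mul_self_eq, ← star_mul_self_eq, ha]
    simp only [star_add, star_mul]
    ring
  · apply inj_HM
    rw [map_add, ← star_mul_self_eq, ← star_mul_self_eq, hc]
    simp only [star_add, star_mul]
    ring
  · rw [hh]
    simp only [star_add, star_mul]
    ring

/-- The case of a nonzero determinant. -/
theorem pos_HM (h1 : T_HB) (h2 : T_PIO) (h3 : T_HMS) (δ : O) : δ ≠ 0 →
    ∀ (a c : R) (h : O), Tp a → Tp c → a * c - nm h = nm δ →
      ∃ z11 z12 z21 z22 : O, HZ a c h z11 z12 z21 z22 := by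
  have : IsPrincipalIdealRing O := h2
  induction δ using UniqueFactorizationMonoid.induction_on_prime with
  | h₁ => intro h; exact absurd rfl h
  | h₂ δ hu =>
    intro _ a c h ha hc hd
    obtain ⟨ε, hε⟩ := hu.exists_right_inv
    have hn : nm δ * nm ε = 1 := by rw [← nm_mul, hε, nm_one]
    have hd' : a * (c * nm ε) - nm (h * ε) = 1 := by
      rw [nm_mul, ← hn, ← hd]
      ring
    obtain ⟨z11, z12, z21, z22, e1, e2, e3⟩ := h1 a (c * nm ε) (h * ε) ha hd'
    refine ⟨z11, z12, z21 * δ, z22 * δ, e1, ?_, ?_⟩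
    · rw [nm_mul, nm_mul, ← add_mul, e2, mul_assoc, mul_comm (nm ε), hn, mul_one]
    · rw [← mul_assoc, ← mul_assoc, ← add_mul, e3, mul_assoc, mul_comm ε, hε, mul_one]
  | h₃ δ ϖ hδ hϖ ih =>
    intro _ a c h ha hc hd
    obtain ⟨a1, c1, h1', g11, g12, g21, g22, ha1, hc1, hd1, ea, ec, eh⟩ :=
      h3 a c h ϖ δ hϖ hδ ha hc hd
    obtain ⟨y11, y12, y21, y22, hy⟩ := ih hδ a1 c1 h1' ha1 hc1 hd1
    exact ⟨_, _, _, _, change_HM ea ec eh hy⟩

/-- Totally positive numbers are sums of two norms. -/
theorem two_HM (h1 : T_HB) (h2 : T_PIO) (h3 : T_HMS) {γ : R} (hγ : Tp γ) :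
    ∃ p q : O, nm p + nm q = γ := by
  obtain ⟨z11, z12, z21, z22, e1, -, -⟩ := pos_HM h1 h2 h3 (algebraMap R O γ)
    (by
      intro h
      rw [← map_zero (algebraMap R O)] at h
      exact hγ.ne (inj_HM h)) γ γ 0 hγ hγ (by rw [nm_zero, nm_algebraMap, sub_zero, pow_two])
  exact ⟨z11, z12, e1⟩

/-- The case of determinant zero. -/
theorem zero_HM (h1 : T_HB) (h2 : T_PIO) (h3 : T_HMS) {a c : R} {h : O} (ha : Tn a) (hc : Tn c)
    (hd : a * c = nm h) : ∃ z11 z12 z21 z22 : O, HZ a c h z11 z12 z21 z22 := by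
  have : IsPrincipalIdealRing O := h2
  by_cases ha0 : a = 0
  · subst ha0
    rw [zero_mul] at hd
    have hh : h = 0 := (nm_eq_zero_iff h).1 hd.symm
    subst hh
    by_cases hc0 : c = 0
    · subst hc0
      exact ⟨0, 0, 0, 0, by simp [nm_zero], by simp [nm_zero], by simp⟩
    · obtain ⟨p, q, e⟩ := two_HM h1 h2 h3 (Tp.of_ne hc hc0)
      exact ⟨0, 0, p, q, by simp [nm_zero], e, by simp⟩
  · have hap : Tp a := Tp.of_ne ha ha0
    have hA0 : algebraMap R O a ≠ 0 := by
      intro h'
      rw [← map_zero (algebraMap R O)] at h'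
      exact ha0 (inj_HM h')
    -- the gcd
    obtain ⟨g, hg⟩ : ∃ g : O, Ideal.span {algebraMap R O a, h} = Ideal.span {g} :=
      (IsPrincipalIdealRing.principal (Ideal.span {algebraMap R O a, h})).1
    have hga : g ∣ algebraMap R O a := by
      rw [← Ideal.mem_span_singleton, ← hg]
      exact Ideal.subset_span (by simp)
    have hgh : g ∣ h := by
      rw [← Ideal.mem_span_singleton, ← hg]
      exact Ideal.subset_span (by simp)
    obtain ⟨a1, ea⟩ := hga
    obtain ⟨h1', eh⟩ := hgh
    have hg0 : g ≠ 0 := by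
      rintro rfl
      rw [zero_mul] at ea
      exact hA0 ea
    obtain ⟨u, v, huv⟩ : ∃ u v : O, u * algebraMap R O a + v * h = g := by
      rw [← Ideal.mem_span_pair, hg]
      exact Ideal.mem_span_singleton_self g
    have hcop : IsCoprime a1 h1' := by
      refine ⟨u, v, ?_⟩
      apply mul_left_cancel₀ hg0
      calc g * (u * a1 + v * h1') = u * (g * a1) + v * (g * h1') := by ring
        _ = g * 1 := by rw [← ea, ← eh, huv, mul_one]
    have hac : algebraMap R O a * algebraMap R O c = h * star h := by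
      rw [← map_mul, hd, ← star_mul_self_eq, mul_comm]
    have hdv : a1 ∣ star h := by
      apply hcop.dvd_of_dvd_mul_left
      refine ⟨algebraMap R O c, ?_⟩
      apply mul_left_cancel₀ hg0
      calc g * (h1' * star h) = (g * h1') * star h := by ring
        _ = h * star h := by rw [← eh]
        _ = (g * a1) * algebraMap R O c := by rw [← hac, ← ea]
        _ = g * (a1 * algebraMap R O c) := by ring
    have hdv2 : star a1 ∣ h := by
      obtain ⟨k, hk⟩ := hdv
      refine ⟨star k, ?_⟩
      rw [← star_star h, hk, star_mul, mul_comm]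
    have hdv3 : star a1 ∣ algebraMap R O a := by
      refine ⟨star g, ?_⟩
      rw [← star_HM a, ea, star_mul]
    have hdv4 : star a1 ∣ g := by
      rw [← huv]
      exact dvd_add (Dvd.dvd.mul_left hdv3 _) (Dvd.dvd.mul_left hdv2 _)
    obtain ⟨m, hm⟩ := hdv4
    have ea2 : algebraMap R O a = algebraMap R O (nm a1) * m := by
      rw [ea, hm, ← star_mul_self_eq]
      ring
    have hdvR : nm a1 ∣ a := by
      have h5 : algebraMap R O (nm a1) ∣ algebraMap R O a := ⟨m, ea2⟩
      rw [QuadraticAlgebra.algebraMap_dvd_iff] at h5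
      simpa using h5.1
    obtain ⟨γ, hγ⟩ := hdvR
    have hn0 : nm a1 ≠ 0 := by
      intro h'
      rw [h', zero_mul] at hγ
      exact ha0 hγ
    have hmγ : m = algebraMap R O γ := by
      have h6 : algebraMap R O (nm a1) ≠ 0 := by
        intro h'
        rw [← map_zero (algebraMap R O)] at h'
        exact hn0 (inj_HM h')
      apply mul_left_cancel₀ h6
      rw [← ea2, hγ, map_mul]
    have hγp : Tp γ := by
      apply Tp.of_mul (x := nm a1) (Tp.of_ne (Tn_nm a1) hn0)
      rw [← hγ]
      exact hap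
    have eh2 : h = star a1 * h1' * algebraMap R O γ := by
      rw [eh, hm, hmγ]
      ring
    have ec : c = γ * nm h1' := by
      apply mul_left_cancel₀ ha0
      rw [hd, eh2, nm_mul, nm_mul, nm_star, nm_algebraMap, hγ]
      ring
    obtain ⟨p, q, e⟩ := two_HM h1 h2 h3 hγp
    refine ⟨p * a1, q * a1, p * h1', q * h1', ?_, ?_, ?_⟩
    · rw [nm_mul, nm_mul, ← add_mul, e, hγ, mul_comm]
    · rw [nm_mul, nm_mul, ← add_mul, e, ec]
    · rw [eh2, ← e, map_add, ← star_mul_self_eq, ← star_mul_self_eq]
      simp only [star_mul]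
      ring

/-- HM. -/
theorem p_HM (h1 : T_HB) (h2 : T_PIO) (h3 : T_HMS) : T_HM := by
  intro a c h δ ha hc hd
  by_cases hδ : δ = 0
  · subst hδ
    rw [nm_zero, sub_eq_zero] at hd
    exact zero_HM h1 h2 h3 ha hc hd
  · have hδ0 : nm δ ≠ 0 := fun h' => hδ ((nm_eq_zero_iff δ).1 h')
    have hac : Tp (a * c) := by
      have : a * c = nm δ + nm h := by rw [← hd]; ring
      rw [this]
      exact Tp.add (Tp.of_ne (Tn_nm δ) hδ0) (Tn_nm h)
    have ha0 : a ≠ 0 := by
      rintro rfl
      exact hac.ne (zero_mul c)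
    have hc0 : c ≠ 0 := by
      rintro rfl
      exact hac.ne (mul_zero a)
    exact pos_HM h1 h2 h3 δ hδ a c h (Tp.of_ne ha ha0) (Tp.of_ne hc hc0) hd

end ST6
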