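import Pool.Agent.ST6.Targets

set_option autoImplicit false

/-!
# MP_a901ae_nt, target HMS: one step towards a unimodular overlattice
-/

namespace ST6

theorem star_am_HMS (r : R) : star (algebraMap R O r) = algebraMap R O r := by
  apply QuadraticAlgebra.ext
  · simp
  · simp

/-- The conclusion of the target. -/
def Cl_HMS (a c : R) (h δ : O) : Prop :=
  ∃ (a1 c1 : R) (h1 g11 g12 g21 g22 : O), Tp a1 ∧ Tp c1 ∧ a1 * c1 - nm h1 = nm δ ∧
    algebraMap R O a = star g11 * g11 * algebraMap R O a1 + star g11 * g12 * h1 +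
      star g12 * g11 * star h1 + star g12 * g12 * algebraMap R O c1 ∧
    algebraMap R O c = star g21 * g21 * algebraMap R O a1 + star g21 * g22 * h1 +
      star g22 * g21 * star h1 + star g22 * g22 * algebraMap R O c1 ∧
    h = star g11 * g21 * algebraMap R O a1 + star g11 * g22 * h1 +
      star g12 * g21 * star h1 + star g12 * g22 * algebraMap R O c1

theorem swap_HMS {a c : R} {h δ : O} (H : Cl_HMS c a (star h) δ) : Cl_HMS a c h δ := by
  obtain ⟨a1, c1, h1, g11, g12, g21, g22, p1, p2, p3, p4, p5, p6⟩ := H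
  refine ⟨a1, c1, h1, g21, g22, g11, g12, p1, p2, p3, p5, p4, ?_⟩
  have := congrArg star p6
  rw [star_star] at this
  rw [this]
  simp only [star_add, star_mul', star_star, star_am_HMS]
  ring

theorem core_HMS {a c a1 : R} {h ϖ δ t β : O} (hϖ : ϖ ≠ 0) (hδ : δ ≠ 0) (hc : Tp c)
    (hD : a * c - nm h = nm (ϖ * δ)) (h1 : star h + algebraMap R O c * t = ϖ * β)
    (h2 : algebraMap R O a + (h * t + star h * star t) + algebraMap R O c * (star t * t) =
      (star ϖ * ϖ) * algebraMap R O a1) : Cl_HMS a c h δ := by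
  have h1s : h + algebraMap R O c * star t = star ϖ * star β := by
    have := congrArg star h1
    simpa only [star_add, star_mul', star_star, star_am_HMS] using this
  have hDO : algebraMap R O a * algebraMap R O c - star h * h = star (ϖ * δ) * (ϖ * δ) := by
    rw [star_mul_self_eq, star_mul_self_eq, ← hD, map_sub, map_mul]
  have hϖs : star ϖ * ϖ ≠ 0 := by
    rw [star_mul_self_eq]
    intro h0
    have : algebraMap R O (nm ϖ) = algebraMap R O 0 := by rw [h0, map_zero]
    exact hϖ ((nm_eq_zero_iff ϖ).1 (QuadraticAlgebra.algebraMap_injective this))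
  have hdet : a1 * c - nm (star β) = nm δ := by
    apply QuadraticAlgebra.algebraMap_injective (a := (-1 : R)) (b := w)
    change algebraMap R O _ = algebraMap R O _
    rw [map_sub, map_mul, ← star_mul_self_eq, ← star_mul_self_eq, star_star]
    apply mul_left_cancel₀ hϖs
    have e1 : star ϖ * ϖ * (algebraMap R O a1 * algebraMap R O c - β * star β) =
        (star ϖ * ϖ * algebraMap R O a1) * algebraMap R O c - (ϖ * β) * (star ϖ * star β) := by
      ring
    have e2 : star ϖ * ϖ * (star δ * δ) = star (ϖ * δ) * (ϖ * δ) := by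
      rw [star_mul']
      ring
    rw [e1, e2, ← h1, ← h1s, ← h2, ← hDO]
    ring
  have hTp : Tp (nm δ) := by
    apply Tp.of_ne (Tn_nm δ)
    intro h0
    exact hδ ((nm_eq_zero_iff δ).1 h0)
  have ha1 : Tp a1 := by
    apply Tp.of_mul hc
    have : c * a1 = nm δ + nm (star β) := by
      rw [← hdet]
      ring
    rw [this]
    exact Tp.add hTp (Tn_nm _)
  refine ⟨a1, c, star β, ϖ, -t, 0, 1, ha1, hc, hdet, ?_, ?_, ?_⟩
  · rw [star_star, ← h2]
    have e1 : star ϖ * -t * star β = -t * (h + algebraMap R O c * star t) := by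
      rw [h1s]
      ring
    have e2 : star (-t) * ϖ * β = -star t * (star h + algebraMap R O c * t) := by
      rw [h1, star_neg]
      ring
    rw [e1, e2, star_neg]
    ring
  · simp
  · simp only [star_zero, star_one, mul_zero, zero_mul, mul_one, zero_add, add_zero, star_neg]
    rw [← h1s]
    ring

theorem gen1_HMS (hP : T_PIO) {a c a0 : R} {h ϖ δ x y : O} (hϖ : Prime ϖ) (hδ : δ ≠ 0)
    (hc : Tp c) (hD : a * c - nm h = nm (ϖ * δ)) (hx : ¬ ϖ ∣ x)
    (h1 : ϖ ∣ algebraMap R O a * x + h * y) (h2 : ϖ ∣ star h * x + algebraMap R O c * y)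
    (h3 : algebraMap R O a * (star x * x) + (h * y * star x + star h * star y * x) +
      algebraMap R O c * (star y * y) = (star ϖ * ϖ) * algebraMap R O a0) : Cl_HMS a c h δ := by
  have : IsPrincipalIdealRing O := hP
  have hcop : IsCoprime ϖ x := (hϖ.irreducible.coprime_iff_not_dvd).2 hx
  obtain ⟨k, s, hks⟩ := hcop
  obtain ⟨m, hm⟩ := h1
  obtain ⟨m2, hm2⟩ := h2
  have hms : algebraMap R O a * star x + star h * star y = star ϖ * star m := by
    have := congrArg star hm
    simpa only [star_add, star_mul', star_star, star_am_HMS] using this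
  have hkss : star k * star ϖ + star s * star x = 1 := by
    have := congrArg star hks
    simpa only [star_add, star_mul', star_star, star_one] using this
  refine core_HMS (a1 := nm s * a0 + QuadraticAlgebra.trace (star k * (s * m)) + nm k * a)
    (t := s * y) (β := star h * k + s * m2) hϖ.ne_zero hδ hc hD ?_ ?_
  · have : star h = star h * (k * ϖ + s * x) := by rw [hks, mul_one]
    calc star h + algebraMap R O c * (s * y) =
          star h * (k * ϖ + s * x) + algebraMap R O c * (s * y) := by rw [hks, mul_one]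
      _ = star h * k * ϖ + s * (star h * x + algebraMap R O c * y) := by ring
      _ = ϖ * (star h * k + s * m2) := by
        rw [hm2]
        ring
  · have e0 : algebraMap R O (nm s * a0 + QuadraticAlgebra.trace (star k * (s * m)) + nm k * a) =
        star s * s * algebraMap R O a0 + (star k * (s * m) + k * (star s * star m)) +
          star k * k * algebraMap R O a := by
      rw [map_add, map_add, map_mul (algebraMap R O) (nm s) a0,
        map_mul (algebraMap R O) (nm k) a, QuadraticAlgebra.algebraMap_trace_eq_add_star,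
        ← star_mul_self_eq, ← star_mul_self_eq]
      simp only [star_mul', star_star]
    rw [e0]
    have e1 : star ϖ * ϖ * (star s * s * algebraMap R O a0 +
        (star k * (s * m) + k * (star s * star m)) + star k * k * algebraMap R O a) =
        star s * s * (star ϖ * ϖ * algebraMap R O a0) +
        (star ϖ * star k * s * (ϖ * m) + ϖ * k * star s * (star ϖ * star m)) +
        star ϖ * star k * (ϖ * k) * algebraMap R O a := by ring
    rw [e1, ← h3, ← hm, ← hms]
    have e2 : star ϖ * star k = 1 - star s * star x := by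
      rw [← hkss]
      ring
    have e3 : ϖ * k = 1 - s * x := by
      rw [← hks]
      ring
    rw [e2, e3]
    simp only [star_mul']
    ring

theorem gen_HMS (hP : T_PIO) {a c a0 : R} {h ϖ δ x y : O} (hϖ : Prime ϖ) (hδ : δ ≠ 0)
    (ha : Tp a) (hc : Tp c) (hD : a * c - nm h = nm (ϖ * δ)) (hxy : ¬ ϖ ∣ x ∨ ¬ ϖ ∣ y)
    (h1 : ϖ ∣ algebraMap R O a * x + h * y) (h2 : ϖ ∣ star h * x + algebraMap R O c * y)
    (h3 : algebraMap R O a * (star x * x) + (h * y * star x + star h * star y * x) +
      algebraMap R O c * (star y * y) = (star ϖ * ϖ) * algebraMap R O a0) : Cl_HMS a c h δ := by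
  rcases hxy with hx | hy
  · exact gen1_HMS hP hϖ hδ hc hD hx h1 h2 h3
  · apply swap_HMS
    refine gen1_HMS (x := y) (y := x) (a0 := a0) hP hϖ hδ ha ?_ hy ?_ ?_ ?_
    · rw [nm_star, ← hD]
      ring
    · rw [add_comm]
      exact h2
    · rw [star_star, add_comm]
      exact h1
    · rw [← h3, star_star]
      ring

/-- Case (A). -/
theorem caseA_HMS (hP : T_PIO) {a c : R} {h ϖ δ : O} (hϖ : Prime ϖ) (hδ : δ ≠ 0)
    (ha : Tp a) (hc : Tp c) (hD : a * c - nm h = nm (ϖ * δ))
    (hn : ¬ ϖ ∣ algebraMap R O a ∨ ¬ ϖ ∣ algebraMap R O c ∨ ¬ ϖ ∣ h ∨ ¬ ϖ ∣ star h) :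
    Cl_HMS a c h δ := by
  have hDO : algebraMap R O a * algebraMap R O c - star h * h = star (ϖ * δ) * (ϖ * δ) := by
    rw [star_mul_self_eq, star_mul_self_eq, ← hD, map_sub, map_mul]
  have hD1 : ϖ ∣ algebraMap R O a * algebraMap R O c - star h * h := by
    rw [hDO]
    exact ⟨star (ϖ * δ) * δ, by ring⟩
  by_cases hA : ϖ ∣ algebraMap R O c ∧ ϖ ∣ star h
  · refine gen_HMS (x := -h) (y := algebraMap R O a) (a0 := a * nm δ) hP hϖ hδ ha hc hD ?_ ?_
      ?_ ?_
    · rcases hn with h1 | h1 | h1 | h1
      · exact Or.inr h1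
      · exact absurd hA.1 h1
      · left
        rwa [dvd_neg]
      · exact absurd hA.2 h1
    · have : algebraMap R O a * -h + h * algebraMap R O a = 0 := by ring
      rw [this]
      exact dvd_zero _
    · have : star h * -h + algebraMap R O c * algebraMap R O a =
          algebraMap R O a * algebraMap R O c - star h * h := by ring
      rw [this]
      exact hD1
    · rw [map_mul, ← star_mul_self_eq, star_neg, star_am_HMS]
      have e1 : star ϖ * ϖ * (algebraMap R O a * (star δ * δ)) =
          algebraMap R O a * (star (ϖ * δ) * (ϖ * δ)) := by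
        rw [star_mul']
        ring
      rw [e1, ← hDO]
      ring
  · refine gen_HMS (x := algebraMap R O c) (y := -star h) (a0 := c * nm δ) hP hϖ hδ ha hc hD
      ?_ ?_ ?_ ?_
    · rw [not_and_or] at hA
      rcases hA with h1 | h1
      · exact Or.inl h1
      · right
        rwa [dvd_neg]
    · have : algebraMap R O a * algebraMap R O c + h * -star h =
          algebraMap R O a * algebraMap R O c - star h * h := by ring
      rw [this]
      exact hD1
    · have : star h * algebraMap R O c + algebraMap R O c * -star h = 0 := by ring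
      rw [this]
      exact dvd_zero _
    · rw [map_mul, ← star_mul_self_eq, star_neg, star_star, star_am_HMS]
      have e1 : star ϖ * ϖ * (algebraMap R O c * (star δ * δ)) =
          algebraMap R O c * (star (ϖ * δ) * (ϖ * δ)) := by
        rw [star_mul']
        ring
      rw [e1, ← hDO]
      ring

/-- Case (B1). -/
theorem caseB1_HMS {a c : R} {h ϖ δ : O} (hϖ : Prime ϖ) (hδ : δ ≠ 0)
    (hc : Tp c) (hD : a * c - nm h = nm (ϖ * δ)) (hs : ¬ ϖ ∣ star ϖ)
    (h1 : ϖ ∣ algebraMap R O a) (h2 : ϖ ∣ star h) : Cl_HMS a c h δ := by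
  obtain ⟨β, hβ⟩ := h2
  have h3 : star ϖ ∣ algebraMap R O a := by
    obtain ⟨k, hk⟩ := h1
    refine ⟨star k, ?_⟩
    rw [← star_am_HMS, hk, star_mul']
  obtain ⟨k, hk⟩ := h3
  have h4 : ϖ ∣ k := by
    rw [hk] at h1
    rcases hϖ.dvd_or_dvd h1 with h5 | h5
    · exact absurd h5 hs
    · exact h5
  obtain ⟨m, hm⟩ := h4
  have h5 : algebraMap R O (nm ϖ) ∣ algebraMap R O a := by
    refine ⟨m, ?_⟩
    rw [hk, hm, ← star_mul_self_eq]
    ring
  rw [QuadraticAlgebra.algebraMap_dvd_iff_dvd] at h5
  obtain ⟨a1, ha1⟩ := h5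
  refine core_HMS (a1 := a1) (t := 0) (β := β) hϖ.ne_zero hδ hc hD ?_ ?_
  · rw [mul_zero, add_zero, hβ]
  · rw [star_zero, mul_zero, mul_zero, mul_zero, mul_zero, add_zero, add_zero, add_zero, ha1,
      map_mul, star_mul_self_eq]

theorem prime_HMS {ϖ : O} {l : R} (hϖ : Prime ϖ) (hl : Associated ϖ (algebraMap R O l)) :
    Prime l := by
  have hL : Prime (algebraMap R O l) := (hl.prime_iff).1 hϖ
  refine ⟨?_, ?_, ?_⟩
  · rintro rfl
    exact hL.ne_zero (map_zero _)
  · intro h
    exact hL.not_isUnit (h.map (algebraMap R O))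
  · intro r s hrs
    have : algebraMap R O l ∣ algebraMap R O r * algebraMap R O s := by
      rw [← map_mul, QuadraticAlgebra.algebraMap_dvd_iff_dvd]
      exact hrs
    rcases hL.dvd_or_dvd this with h1 | h1
    · left
      rwa [QuadraticAlgebra.algebraMap_dvd_iff_dvd] at h1
    · right
      rwa [QuadraticAlgebra.algebraMap_dvd_iff_dvd] at h1

/-- The vector of case (B2). -/
theorem vec_HMS (hPR : T_PIR) (hN : T_NSJ) {l : R} (hl : Prime l) (a1 c1 : R) (h1 : O) :
    ∃ x y : O, ∃ q : R, (x = 1 ∨ y = 1) ∧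
      algebraMap R O a1 * (star x * x) + (h1 * y * star x + star h1 * star y * x) +
        algebraMap R O c1 * (star y * y) = algebraMap R O l * algebraMap R O q := by
  have : IsPrincipalIdealRing R := hPR
  by_cases hla : l ∣ a1
  · obtain ⟨q, hq⟩ := hla
    refine ⟨1, 0, q, Or.inl rfl, ?_⟩
    rw [hq, map_mul]
    simp
  · obtain ⟨X, hX⟩ := hN l hl (nm h1 - a1 * c1)
    have hcop : IsCoprime l a1 := (hl.irreducible.coprime_iff_not_dvd).2 hla
    obtain ⟨k, b, hkb⟩ := hcop
    have hkbO : algebraMap R O k * algebraMap R O l + algebraMap R O b * algebraMap R O a1 = 1 := by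
      rw [← map_mul, ← map_mul, ← map_add, hkb, map_one]
    obtain ⟨n, hn⟩ := hX
    have hnO : star X * X - (star h1 * h1 - algebraMap R O a1 * algebraMap R O c1) =
        algebraMap R O l * algebraMap R O n := by
      rw [star_mul_self_eq, star_mul_self_eq, ← map_mul, ← map_mul, ← map_sub, ← map_sub, hn]
    obtain ⟨x, hx⟩ : ∃ x : O, x = algebraMap R O b * (X - h1) := ⟨_, rfl⟩
    obtain ⟨Q, hQ⟩ : ∃ Q : R, Q = a1 * nm x + QuadraticAlgebra.trace (h1 * star x) + c1 :=
      ⟨_, rfl⟩
    have hQO : algebraMap R O Q = algebraMap R O a1 * (star x * x) +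
        (h1 * star x + star h1 * x) + algebraMap R O c1 := by
      rw [hQ, map_add, map_add, map_mul (algebraMap R O) a1 (nm x),
        QuadraticAlgebra.algebraMap_trace_eq_add_star,
        ← star_mul_self_eq, star_mul' h1 (star x), star_star]
    have hax : algebraMap R O a1 * x + h1 =
        X - algebraMap R O l * (algebraMap R O k * (X - h1)) := by
      have e1 : algebraMap R O a1 * x = (algebraMap R O b * algebraMap R O a1) * (X - h1) := by
        rw [hx]
        ring
      have e2 : algebraMap R O b * algebraMap R O a1 = 1 - algebraMap R O k * algebraMap R O l := by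
        rw [← hkbO]
        ring
      rw [e1, e2]
      ring
    have haxs : algebraMap R O a1 * star x + star h1 =
        star X - algebraMap R O l * (algebraMap R O k * (star X - star h1)) := by
      have := congrArg star hax
      simpa only [star_add, star_sub, star_mul', star_star, star_am_HMS] using this
    have hdvd : algebraMap R O l ∣ algebraMap R O (a1 * Q) := by
      refine ⟨algebraMap R O n - star X * (algebraMap R O k * (X - h1)) -
        (algebraMap R O k * (star X - star h1)) * X +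
        algebraMap R O l * (algebraMap R O k * (star X - star h1)) *
          (algebraMap R O k * (X - h1)), ?_⟩
      have e1 : algebraMap R O (a1 * Q) = (algebraMap R O a1 * star x + star h1) *
          (algebraMap R O a1 * x + h1) -
            (star h1 * h1 - algebraMap R O a1 * algebraMap R O c1) := by
        rw [map_mul, hQO]
        ring
      rw [e1, hax, haxs]
      linear_combination hnO
    rw [QuadraticAlgebra.algebraMap_dvd_iff_dvd] at hdvd
    rcases hl.dvd_or_dvd hdvd with h2 | h2
    · exact absurd h2 hla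
    · obtain ⟨q, hq⟩ := h2
      refine ⟨x, 1, q, Or.inr rfl, ?_⟩
      rw [← map_mul, ← hq, hQO, star_one]
      ring

/-- Case (B2). -/
theorem caseB2_HMS (hPR : T_PIR) (hPO : T_PIO) (hI : T_INE) (hN : T_NSJ) {a c : R} {h ϖ δ : O}
    (hϖ : Prime ϖ) (hδ : δ ≠ 0) (ha : Tp a) (hc : Tp c) (hD : a * c - nm h = nm (ϖ * δ))
    (hs : ϖ ∣ star ϖ) (h1 : ϖ ∣ algebraMap R O a) (h2 : ϖ ∣ algebraMap R O c) (h3 : ϖ ∣ h)
    (h4 : ϖ ∣ star h) : Cl_HMS a c h δ := by
  obtain ⟨l, hl⟩ := hI ϖ hϖ hs
  have hlp := prime_HMS hϖ hl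
  have k1 : algebraMap R O l ∣ algebraMap R O a := hl.symm.dvd.trans h1
  have k2 : algebraMap R O l ∣ algebraMap R O c := hl.symm.dvd.trans h2
  have k3 : algebraMap R O l ∣ h := hl.symm.dvd.trans h3
  rw [QuadraticAlgebra.algebraMap_dvd_iff_dvd] at k1 k2
  obtain ⟨a1, rfl⟩ := k1
  obtain ⟨c1, rfl⟩ := k2
  obtain ⟨h1', hh⟩ := k3
  obtain ⟨x, y, q, hxy, hq⟩ := vec_HMS hPR hN hlp a1 c1 h1'
  obtain ⟨u, hu⟩ := hl
  have hnu : algebraMap R O l * algebraMap R O l = star ϖ * ϖ * (star (u : O) * (u : O)) := by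
    have : star (algebraMap R O l) = star ϖ * star (u : O) := by
      rw [← hu, star_mul']
    rw [star_am_HMS] at this
    calc algebraMap R O l * algebraMap R O l = (star ϖ * star (u : O)) * (ϖ * (u : O)) := by
          rw [← this, hu]
      _ = _ := by ring
  refine gen_HMS (x := x) (y := y) (a0 := nm (u : O) * q) hPO hϖ hδ ha hc hD ?_ ?_ ?_ ?_
  · rcases hxy with rfl | rfl
    · left
      intro h5
      exact hϖ.not_isUnit (isUnit_of_dvd_one h5)
    · right
      intro h5
      exact hϖ.not_isUnit (isUnit_of_dvd_one h5)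
  · exact dvd_add (Dvd.dvd.mul_right h1 _) (Dvd.dvd.mul_right h3 _)
  · exact dvd_add (Dvd.dvd.mul_right h4 _) (Dvd.dvd.mul_right h2 _)
  · rw [hh, map_mul, map_mul, map_mul, star_mul', star_am_HMS, ← star_mul_self_eq]
    have e1 : star ϖ * ϖ * (star (u : O) * (u : O) * algebraMap R O q) =
        (algebraMap R O l * algebraMap R O l) * algebraMap R O q := by
      rw [hnu]
      ring
    rw [e1]
    linear_combination (algebraMap R O l) * hq

/-- The target HMS. -/
theorem p_HMS (h1 : T_PIR) (h2 : T_PIO) (h3 : T_INE) (h4 : T_NSJ) : T_HMS := by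
  intro a c h ϖ δ hϖ hδ ha hc hD
  by_cases hA : ϖ ∣ algebraMap R O a ∧ ϖ ∣ algebraMap R O c ∧ ϖ ∣ h ∧ ϖ ∣ star h
  · obtain ⟨k1, k2, k3, k4⟩ := hA
    by_cases hs : ϖ ∣ star ϖ
    · exact caseB2_HMS h1 h2 h3 h4 hϖ hδ ha hc hD hs k1 k2 k3 k4
    · exact caseB1_HMS hϖ hδ hc hD hs k1 k4
  · refine caseA_HMS h2 hϖ hδ ha hc hD ?_
    by_contra hcon
    push Not at hcon
    exact hA hcon

end ST6
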