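import Pool.Agent.ST6.Targets

set_option autoImplicit false

/-!
# MP_a901ae_nt, ST6-HMT: Hermite's inequality for integral positive definite matrices
-/

namespace ST6

open Matrix

namespace HMT

/-- The value of a form at a vector, split at the first coordinate. -/
theorem val_cons {n : ℕ} (S : Matrix (Fin (n + 1)) (Fin (n + 1)) ℤ) (hS : Sᵀ = S) (r : ℤ)
    (y : Fin n → ℤ) :
    (Fin.cons r y : Fin (n + 1) → ℤ) ⬝ᵥ (S *ᵥ (Fin.cons r y : Fin (n + 1) → ℤ)) =
      S 0 0 * r ^ 2 + 2 * r * (∑ j, S 0 j.succ * y j) +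
        ∑ i, y i * ∑ j, S i.succ j.succ * y j := by
  have h0 : ∀ i : Fin n, S i.succ 0 = S 0 i.succ := fun i => by
    have := congrFun (congrFun hS 0) i.succ
    rw [Matrix.transpose_apply] at this
    exact this
  simp only [dotProduct, mulVec, Fin.sum_univ_succ, Fin.cons_zero, Fin.cons_succ, h0]
  have h1 : ∑ i, y i * (S 0 i.succ * r + ∑ j, S i.succ j.succ * y j) =
      r * (∑ j, S 0 j.succ * y j) + ∑ i, y i * ∑ j, S i.succ j.succ * y j := by
    rw [Finset.mul_sum, ← Finset.sum_add_distrib]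
    refine Finset.sum_congr rfl fun i _ => ?_
    ring
  rw [h1]
  ring

/-- The condensed matrix. -/
def cond {n : ℕ} (S : Matrix (Fin (n + 1)) (Fin (n + 1)) ℤ) : Matrix (Fin n) (Fin n) ℤ :=
  Matrix.of fun i j => S 0 0 * S i.succ j.succ - S 0 i.succ * S 0 j.succ

theorem cond_symm {n : ℕ} (S : Matrix (Fin (n + 1)) (Fin (n + 1)) ℤ) (hS : Sᵀ = S) :
    (cond S)ᵀ = cond S := by
  ext i j
  have := congrFun (congrFun hS i.succ) j.succ
  rw [Matrix.transpose_apply] at this
  simp only [cond, Matrix.transpose_apply, Matrix.of_apply, this]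
  ring

theorem key {n : ℕ} (S : Matrix (Fin (n + 1)) (Fin (n + 1)) ℤ) (hS : Sᵀ = S) (r : ℤ)
    (y : Fin n → ℤ) :
    S 0 0 * ((Fin.cons r y : Fin (n + 1) → ℤ) ⬝ᵥ (S *ᵥ (Fin.cons r y : Fin (n + 1) → ℤ))) =
      (S 0 0 * r + ∑ j, S 0 j.succ * y j) ^ 2 + y ⬝ᵥ (cond S *ᵥ y) := by
  rw [val_cons S hS]
  have h1 : y ⬝ᵥ (cond S *ᵥ y) = S 0 0 * (∑ i, y i * ∑ j, S i.succ j.succ * y j) -
      (∑ j, S 0 j.succ * y j) ^ 2 := by
    simp only [dotProduct, mulVec, cond, Matrix.of_apply]
    rw [pow_two, Finset.sum_mul, Finset.mul_sum, ← Finset.sum_sub_distrib]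
    refine Finset.sum_congr rfl fun i _ => ?_
    rw [Finset.mul_sum, Finset.mul_sum, Finset.mul_sum, Finset.mul_sum,
      ← Finset.sum_sub_distrib]
    refine Finset.sum_congr rfl fun j _ => ?_
    ring
  rw [h1]
  ring

theorem det_cond {n : ℕ} (S : Matrix (Fin (n + 2)) (Fin (n + 2)) ℤ) (hS : Sᵀ = S)
    (hg : S 0 0 ≠ 0) : (cond S).det = S 0 0 ^ n * S.det := by
  have h0 : ∀ i : Fin (n + 1), S i.succ 0 = S 0 i.succ := fun i => by
    have := congrFun (congrFun hS 0) i.succ
    rw [Matrix.transpose_apply] at this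
    exact this
  let L : Matrix (Fin (n + 2)) (Fin (n + 2)) ℤ := Matrix.of fun i j =>
    Fin.cases (if j = 0 then 1 else 0)
      (fun i' => Fin.cases (-S 0 i'.succ) (fun j' => if i' = j' then S 0 0 else 0) j) i
  have hL00 : ∀ j : Fin (n + 1), L 0 j.succ = 0 := fun j => by simp [L]
  have hL0 : L 0 0 = 1 := by simp [L]
  have hLi : ∀ i : Fin (n + 1), L i.succ 0 = -S 0 i.succ := fun i => by simp [L]
  have hLij : ∀ i j : Fin (n + 1), L i.succ j.succ = if i = j then S 0 0 else 0 := fun i j => by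
    simp [L]
  have hdL : L.det = S 0 0 ^ (n + 1) := by
    rw [Matrix.det_succ_row_zero, Fin.sum_univ_succ]
    simp only [hL00, hL0]
    have : L.submatrix Fin.succ (Fin.succAbove 0) = S 0 0 • (1 : Matrix _ _ ℤ) := by
      ext i j
      simp only [Matrix.submatrix_apply, Fin.zero_succAbove, hLij, Matrix.smul_apply,
        Matrix.one_apply, smul_eq_mul]
      split_ifs <;> simp
    rw [this, Matrix.det_smul]
    simp
  have hM : (L * S).det = S 0 0 * (cond S).det := by
    rw [Matrix.det_succ_column_zero, Fin.sum_univ_succ]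
    have h00 : (L * S) 0 0 = S 0 0 := by
      rw [Matrix.mul_apply, Fin.sum_univ_succ]
      simp [hL00, hL0]
    have hi0 : ∀ i : Fin (n + 1), (L * S) i.succ 0 = 0 := fun i => by
      rw [Matrix.mul_apply, Fin.sum_univ_succ]
      simp only [hLi, hLij, h0]
      rw [Finset.sum_eq_single i]
      · simp
        ring
      · intro j _ hj
        rw [if_neg (Ne.symm hj)]
        simp
      · simp
    have hij : (L * S).submatrix (Fin.succAbove 0) Fin.succ = cond S := by
      ext i j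
      simp only [Matrix.submatrix_apply, Fin.zero_succAbove]
      rw [Matrix.mul_apply, Fin.sum_univ_succ]
      simp only [hLi, hLij, cond, Matrix.of_apply]
      rw [Finset.sum_eq_single i]
      · simp
        ring
      · intro k _ hk
        rw [if_neg (Ne.symm hk)]
        simp
      · simp
    rw [h00, hij]
    simp [hi0]
  rw [Matrix.det_mul, hdL] at hM
  have : S 0 0 * (cond S).det = S 0 0 * (S 0 0 ^ n * S.det) := by
    rw [← hM]
    ring
  exact mul_left_cancel₀ hg this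

/-- The inequality with a vector which is a column of a unimodular matrix. -/
theorem main (n : ℕ) : ∀ S : Matrix (Fin (n + 1)) (Fin (n + 1)) ℤ, Sᵀ = S →
    (∀ v : Fin (n + 1) → ℤ, v ≠ 0 → 0 < v ⬝ᵥ (S *ᵥ v)) →
    ∃ U : Matrix (Fin (n + 1)) (Fin (n + 1)) ℤ, U.det ^ 2 = 1 ∧
      ((fun i => U i 0) ⬝ᵥ (S *ᵥ (fun i => U i 0))) ^ (n + 1) * 3 ^ ((n + 1) * n / 2) ≤
        4 ^ ((n + 1) * n / 2) * S.det := by
  induction n with
  | zero =>
    intro S hS hp
    refine ⟨1, by simp, ?_⟩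
    simp [dotProduct, mulVec]
  | succ n ih =>
    intro S hS hp
    -- minimal first column
    let P : ℕ → Prop := fun m => ∃ U : Matrix (Fin (n + 2)) (Fin (n + 2)) ℤ, U.det ^ 2 = 1 ∧
      (fun i => U i 0) ⬝ᵥ (S *ᵥ (fun i => U i 0)) = (m : ℤ)
    have hcol : ∀ U : Matrix (Fin (n + 2)) (Fin (n + 2)) ℤ, U.det ^ 2 = 1 →
        (fun i => U i 0) ≠ 0 := by
      intro U hU h0
      have : U.det = 0 := Matrix.det_eq_zero_of_column_eq_zero 0 fun i => congrFun h0 i
      rw [this] at hU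
      simp at hU
    have hval : ∀ U : Matrix (Fin (n + 2)) (Fin (n + 2)) ℤ, U.det ^ 2 = 1 →
        0 < (fun i => U i 0) ⬝ᵥ (S *ᵥ (fun i => U i 0)) := fun U hU => hp _ (hcol U hU)
    have hex : ∃ m, P m := by
      refine ⟨((fun i => (1 : Matrix (Fin (n + 2)) (Fin (n + 2)) ℤ) i 0) ⬝ᵥ
        (S *ᵥ (fun i => (1 : Matrix (Fin (n + 2)) (Fin (n + 2)) ℤ) i 0))).toNat, 1, by simp, ?_⟩
      rw [Int.toNat_of_nonneg (hval 1 (by simp)).le]
    classical
    obtain ⟨U, hU, hUm⟩ := Nat.find_spec hex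
    have hmin : ∀ V : Matrix (Fin (n + 2)) (Fin (n + 2)) ℤ, V.det ^ 2 = 1 →
        ((Nat.find hex : ℕ) : ℤ) ≤ (fun i => V i 0) ⬝ᵥ (S *ᵥ (fun i => V i 0)) := by
      intro V hV
      have h1 := hval V hV
      have h2 : P ((fun i => V i 0) ⬝ᵥ (S *ᵥ (fun i => V i 0))).toNat := ⟨V, hV, by
        rw [Int.toNat_of_nonneg h1.le]⟩
      have h3 := Nat.find_min' hex h2
      have h4 : (((fun i => V i 0) ⬝ᵥ (S *ᵥ (fun i => V i 0))).toNat : ℤ) =
        (fun i => V i 0) ⬝ᵥ (S *ᵥ (fun i => V i 0)) := Int.toNat_of_nonneg h1.le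
      rw [← h4]
      exact_mod_cast h3
    let S' := Uᵀ * S * U
    have hS' : S'ᵀ = S' := by
      simp only [S', Matrix.transpose_mul, Matrix.transpose_transpose, hS, Matrix.mul_assoc]
    have hval' : ∀ v : Fin (n + 2) → ℤ, v ⬝ᵥ (S' *ᵥ v) = (U *ᵥ v) ⬝ᵥ (S *ᵥ (U *ᵥ v)) := by
      intro v
      simp only [S']
      rw [Matrix.mul_assoc, ← Matrix.mulVec_mulVec, ← Matrix.mulVec_mulVec,
        Matrix.dotProduct_mulVec, Matrix.vecMul_transpose]
    have hdet' : S'.det = S.det := by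
      simp only [S', Matrix.det_mul, Matrix.det_transpose]
      linear_combination S.det * hU
    have hUne : ∀ v : Fin (n + 2) → ℤ, v ≠ 0 → U *ᵥ v ≠ 0 := by
      intro v hv h0
      apply hv
      exact Matrix.eq_zero_of_mulVec_eq_zero (fun h => by rw [h] at hU; simp at hU) h0
    have hp' : ∀ v : Fin (n + 2) → ℤ, v ≠ 0 → 0 < v ⬝ᵥ (S' *ᵥ v) := by
      intro v hv
      rw [hval']
      exact hp _ (hUne v hv)
    have hcolmul : ∀ V : Matrix (Fin (n + 2)) (Fin (n + 2)) ℤ,
        (fun i => (U * V) i 0) = U *ᵥ (fun i => V i 0) := by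
      intro V
      ext i
      rw [Matrix.mul_apply]
      rfl
    have hg : S' 0 0 = ((Nat.find hex : ℕ) : ℤ) := by
      rw [← hUm]
      have h1 : (fun i => U i 0) =
          U *ᵥ (fun i => (1 : Matrix (Fin (n + 2)) (Fin (n + 2)) ℤ) i 0) := by
        rw [← hcolmul, Matrix.mul_one]
      rw [h1, ← hval']
      simp [dotProduct, mulVec, Matrix.one_apply]
    have hmin' : ∀ V : Matrix (Fin (n + 2)) (Fin (n + 2)) ℤ, V.det ^ 2 = 1 →
        S' 0 0 ≤ (fun i => V i 0) ⬝ᵥ (S' *ᵥ (fun i => V i 0)) := by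
      intro V hV
      rw [hg, hval', ← hcolmul]
      apply hmin
      rw [Matrix.det_mul, mul_pow, hU, hV, one_mul]
    have hgpos : 0 < S' 0 0 := by
      rw [hg, ← hUm]
      exact hval U hU
    -- the condensed matrix
    have hT1 := cond_symm S' hS'
    have hT2 : ∀ y : Fin (n + 1) → ℤ, y ≠ 0 → 0 < y ⬝ᵥ (cond S' *ᵥ y) := by
      intro y hy
      have hk := key S' hS' (-∑ j, S' 0 j.succ * y j) (S' 0 0 • y)
      have h1 : S' 0 0 * (-∑ j, S' 0 j.succ * y j) +
          ∑ j, S' 0 j.succ * (S' 0 0 • y) j = 0 := by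
        rw [mul_neg, Finset.mul_sum, neg_add_eq_zero]
        refine Finset.sum_congr rfl fun j _ => ?_
        simp only [Pi.smul_apply, smul_eq_mul]
        ring
      rw [h1] at hk
      have h2 : (S' 0 0 • y) ⬝ᵥ (cond S' *ᵥ (S' 0 0 • y)) =
          S' 0 0 ^ 2 * (y ⬝ᵥ (cond S' *ᵥ y)) := by
        rw [Matrix.mulVec_smul, smul_dotProduct, dotProduct_smul]
        simp only [smul_eq_mul]
        ring
      rw [h2] at hk
      have h3 : (Fin.cons (-∑ j, S' 0 j.succ * y j) (S' 0 0 • y) : Fin (n + 2) → ℤ) ≠ 0 := by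
        intro h0
        apply hy
        ext j
        have := congrFun h0 j.succ
        rw [Fin.cons_succ] at this
        simp only [Pi.smul_apply, smul_eq_mul, Pi.zero_apply, mul_eq_zero] at this
        rcases this with h | h
        · exact absurd h hgpos.ne'
        · simpa using h
      have h4 := hp' _ h3
      have h5 : 0 < S' 0 0 ^ 2 * (y ⬝ᵥ (cond S' *ᵥ y)) := by
        have h6 := mul_pos hgpos h4
        rw [hk] at h6
        linarith
      exact (mul_pos_iff_of_pos_left (by positivity)).1 h5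
    obtain ⟨W, hW, hWi⟩ := ih (cond S') hT1 hT2
    set x : Fin (n + 1) → ℤ := fun i => W i 0 with hx
    set t := x ⬝ᵥ (cond S' *ᵥ x) with ht
    -- nearest integer
    obtain ⟨r, hr⟩ : ∃ r : ℤ, 4 * (S' 0 0 * r + ∑ j, S' 0 j.succ * x j) ^ 2 ≤ S' 0 0 ^ 2 := by
      generalize (∑ j, S' 0 j.succ * x j) = B
      generalize S' 0 0 = g at hgpos
      refine ⟨-((2 * B + g) / (2 * g)), ?_⟩
      have h1 := Int.emod_add_mul_ediv (2 * B + g) (2 * g)
      have h2 := Int.emod_nonneg (2 * B + g) (b := 2 * g) (by omega)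
      have h3 := Int.emod_lt_of_pos (2 * B + g) (b := 2 * g) (by omega)
      generalize (2 * B + g) / (2 * g) = k at h1
      generalize (2 * B + g) % (2 * g) = m at h1 h2 h3
      have h4 : 2 * (g * -k + B) = m - g := by linarith
      have h5 : (2 * (g * -k + B)) ^ 2 ≤ g ^ 2 := by
        rw [h4]
        nlinarith
      nlinarith
    -- the unimodular matrix with first column (r, x)
    let V0 : Matrix (Fin (n + 2)) (Fin (n + 2)) ℤ := Matrix.of fun i j =>
      Fin.cases (if j = 0 then 1 else if j = 1 then r else 0)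
        (fun i' => Fin.cases 0 (fun j' => W i' j') j) i
    have hV0 : V0.det = W.det := by
      rw [Matrix.det_succ_column_zero, Fin.sum_univ_succ]
      have h1 : V0 0 0 = 1 := by simp [V0]
      have h2 : ∀ i : Fin (n + 1), V0 i.succ 0 = 0 := fun i => by simp [V0]
      have h3 : V0.submatrix (Fin.succAbove 0) Fin.succ = W := by
        ext i j
        simp [V0]
      rw [h3, h1]
      simp [h2]
    let V := V0.submatrix id (Equiv.swap (0 : Fin (n + 2)) 1)
    have hV : V.det ^ 2 = 1 := by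
      simp only [V]
      rw [Matrix.det_permute', mul_pow, hV0, hW, mul_one]
      rcases Int.units_eq_one_or (Equiv.Perm.sign (Equiv.swap (0 : Fin (n + 2)) 1)) with h | h <;>
        simp [h]
    have hVc : (fun i => V i 0) = (Fin.cons r x : Fin (n + 2) → ℤ) := by
      ext i
      refine Fin.cases ?_ (fun i' => ?_) i
      · simp [V, V0]
      · simp only [V, V0, Matrix.submatrix_apply, id, Equiv.swap_apply_left, Matrix.of_apply,
          Fin.cases_succ, Fin.cons_succ, hx]
        have : (1 : Fin (n + 2)) = Fin.succ 0 := rfl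
        rw [this, Fin.cases_succ]
    have hmv := hmin' V hV
    rw [hVc] at hmv
    have hk := key S' hS' r x
    rw [← ht] at hk
    have h3g : 3 * S' 0 0 ^ 2 ≤ 4 * t := by nlinarith
    have hd := det_cond S' hS' hgpos.ne'
    rw [hd, hdet'] at hWi
    refine ⟨U, hU, ?_⟩
    rw [hUm, ← hg]
    generalize S' 0 0 = g at hgpos h3g hWi
    have hE : (n + 1 + 1) * (n + 1) / 2 = (n + 1) * n / 2 + (n + 1) := by
      have : (n + 1 + 1) * (n + 1) = (n + 1) * n + 2 * (n + 1) := by ring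
      rw [this, Nat.add_mul_div_left _ _ (by norm_num)]
    rw [hE]
    generalize (n + 1) * n / 2 = E at hWi
    have h1 : (3 * g ^ 2) ^ (n + 1) ≤ (4 * t) ^ (n + 1) := pow_le_pow_left₀ (by positivity) h3g _
    have h2 : (3 * g ^ 2) ^ (n + 1) * 3 ^ E ≤ 4 ^ (n + 1) * (4 ^ E * (g ^ n * S.det)) := by
      calc (3 * g ^ 2) ^ (n + 1) * 3 ^ E ≤ (4 * t) ^ (n + 1) * 3 ^ E :=
            mul_le_mul_of_nonneg_right h1 (by positivity)
        _ = 4 ^ (n + 1) * (t ^ (n + 1) * 3 ^ E) := by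
            rw [mul_pow]
            ring
        _ ≤ 4 ^ (n + 1) * (4 ^ E * (g ^ n * S.det)) :=
            mul_le_mul_of_nonneg_left hWi (by positivity)
    have h3 : g ^ n * (g ^ (n + 1 + 1) * 3 ^ (E + (n + 1))) ≤
        g ^ n * (4 ^ (E + (n + 1)) * S.det) := by
      have e1 : g ^ n * (g ^ (n + 1 + 1) * 3 ^ (E + (n + 1))) = (3 * g ^ 2) ^ (n + 1) * 3 ^ E := by
        rw [mul_pow, ← pow_mul]
        ring
      have e2 : g ^ n * (4 ^ (E + (n + 1)) * S.det) =
          4 ^ (n + 1) * (4 ^ E * (g ^ n * S.det)) := by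
        ring
      rw [e1, e2]
      exact h2
    exact le_of_mul_le_mul_left h3 (by positivity)

end HMT

theorem p_HMT : T_HMT := by
  intro n S hS hp
  obtain ⟨U, hU, h⟩ := HMT.main n S hS hp
  refine ⟨fun i => U i 0, ?_, h⟩
  intro h0
  have : U.det = 0 := Matrix.det_eq_zero_of_column_eq_zero 0 fun i => congrFun h0 i
  rw [this] at hU
  simp at hU

end ST6
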