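import Pool.Agent.ST6.Targets

set_option autoImplicit false

/-!
# MP_a901ae_nt, target INE: an inert prime has a rational generator
-/

namespace ST6

/-- An element fixed by `star` is rational. -/
theorem fixed_INE (z : O) (h : star z = z) : algebraMap R O z.re = z := by
  have h1 : (star z).im = z.im := by rw [h]
  rw [QuadraticAlgebra.im_star] at h1
  have h2 : z.im = 0 := by
    have h3 : z.im.re = 0 := by
      have := congrArg Zsqrtd.re h1
      rw [Zsqrtd.re_neg] at this
      omega
    have h4 : z.im.im = 0 := by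
      have := congrArg Zsqrtd.im h1
      rw [Zsqrtd.im_neg] at this
      omega
    exact Zsqrtd.ext h3 h4
  apply QuadraticAlgebra.ext
  · simp
  · rw [h2]
    simp

/-- `ζ`. -/
def zeta_INE : O := ⟨0, 1⟩

theorem zeta_star_INE : zeta_INE - star zeta_INE = iO := by
  apply QuadraticAlgebra.ext <;> (apply Zsqrtd.ext <;> rfl)

theorem p_INE (h1 : T_PIR) : T_INE := by
  intro p hp hps
  obtain ⟨m, hm⟩ := hps
  have hp0 : p ≠ 0 := hp.ne_zero
  -- `m` is a unit
  have hmm : m * star m = 1 := by
    have e1 : star (star p) = star m * star p := by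
      have e0 : star (star p) = star (p * m) := by rw [← hm]
      rw [e0, star_mul, mul_comm]
    rw [star_star, hm] at e1
    have e2 : p * (m * star m) = p * 1 := by
      rw [mul_one]
      calc p * (m * star m) = star m * (p * m) := by ring
        _ = p := e1.symm
    exact mul_left_cancel₀ hp0 e2
  have hmu : IsUnit m := IsUnit.of_mul_eq_one _ hmm
  -- choice of `t`
  obtain ⟨t, ht⟩ : ∃ t : O, ¬ p ∣ t + star m * star t := by
    by_contra hcon
    push Not at hcon
    have d1 := hcon 1
    have d2 := hcon zeta_INE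
    rw [star_one, mul_one] at d1
    have d3 : p ∣ (zeta_INE + star m * star zeta_INE) - star zeta_INE * (1 + star m) :=
      dvd_sub d2 (Dvd.dvd.mul_left d1 _)
    have d4 : (zeta_INE + star m * star zeta_INE) - star zeta_INE * (1 + star m) = iO := by
      rw [← zeta_star_INE]
      ring
    rw [d4] at d3
    have d5 : p ∣ iO * iO := Dvd.dvd.mul_left d3 _
    rw [iO_sq, dvd_neg] at d5
    exact hp.not_isUnit (isUnit_of_dvd_one d5)
  set g : O := t + star m * star t with hg
  have hgs : star g = m * g := by
    rw [hg, star_add, star_mul, star_star, star_star, mul_add, ← mul_assoc, hmm, one_mul]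
    ring
  have hr : star (p * m * g) = p * m * g := by
    rw [← hm, star_mul, star_star, hgs]
    rw [hm]
    ring
  set r0 : R := (p * m * g).re with hr0
  have hr1 : algebraMap R O r0 = p * m * g := fixed_INE _ hr
  have hn1 : algebraMap R O (nm p) = m * p ^ 2 := by
    rw [← star_mul_self_eq, hm]
    ring
  -- the generator
  have : IsPrincipalIdealRing R := h1
  obtain ⟨l, hl⟩ := (IsPrincipalIdealRing.principal (Ideal.span {r0, nm p})).principal
  have hl1 : l ∣ r0 := by
    rw [← Ideal.mem_span_singleton]
    have : r0 ∈ Ideal.span {r0, nm p} := Ideal.subset_span (by simp)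
    rw [hl] at this
    exact this
  have hl2 : l ∣ nm p := by
    rw [← Ideal.mem_span_singleton]
    have : nm p ∈ Ideal.span {r0, nm p} := Ideal.subset_span (by simp)
    rw [hl] at this
    exact this
  obtain ⟨x, y, hxy⟩ : ∃ x y, x * r0 + y * nm p = l := by
    have : l ∈ Ideal.span {r0, nm p} := by
      rw [hl]
      exact Ideal.mem_span_singleton_self l
    rw [Ideal.mem_span_pair] at this
    exact this
  refine ⟨l, ?_⟩
  obtain ⟨k, hk⟩ : p ∣ algebraMap R O l := by
    rw [← hxy, map_add, map_mul, map_mul, hr1, hn1]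
    exact dvd_add ⟨algebraMap R O x * m * g, by ring⟩ ⟨algebraMap R O y * m * p, by ring⟩
  have hk1 : k ∣ m * p := by
    obtain ⟨s, hs⟩ := map_dvd (algebraMap R O) hl2
    rw [hn1, hk] at hs
    refine ⟨s, mul_left_cancel₀ hp0 ?_⟩
    calc p * (m * p) = m * p ^ 2 := by ring
      _ = p * k * s := hs
      _ = p * (k * s) := by ring
  have hk2 : k ∣ m * g := by
    obtain ⟨s, hs⟩ := map_dvd (algebraMap R O) hl1
    rw [hr1, hk] at hs
    refine ⟨s, mul_left_cancel₀ hp0 ?_⟩
    calc p * (m * g) = p * m * g := by ring
      _ = p * k * s := hs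
      _ = p * (k * s) := by ring
  have hk1' : k ∣ p := (IsUnit.dvd_mul_left hmu).1 hk1
  have hk2' : k ∣ g := (IsUnit.dvd_mul_left hmu).1 hk2
  obtain ⟨s, hs⟩ := hk1'
  rcases hp.irreducible.isUnit_or_isUnit hs with h | h
  · rw [hk]
    exact associated_mul_unit_right p k h
  · exfalso
    have h2 : p ∣ k := by
      rw [hs]
      exact (IsUnit.mul_right_dvd h).2 dvd_rfl
    exact ht (h2.trans hk2')

end ST6
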