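import Pool.Agent.ST6.Targets

/-!
# ST6, KEV: the even case
-/

set_option autoImplicit false

namespace ST6

open Matrix

theorem bil_KEV {X U : Matrix (Fin 3) (Fin 3) R} (h : X = Uᵀ * G2 * U) (a b : Fin 3 → R) :
    a ⬝ᵥ (X *ᵥ b) = (U *ᵥ a) ⬝ᵥ (G2 *ᵥ (U *ᵥ b)) := by
  rw [h, ← mulVec_mulVec, ← mulVec_mulVec, dotProduct_mulVec, vecMul_transpose]

theorem g2_KEV (a b : Fin 3 → R) : a ⬝ᵥ (G2 *ᵥ b) =
    a 0 * b 0 + a 1 * (2 * b 1 + w * b 2) + a 2 * (w * b 1 + 2 * b 2) := by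
  simp [G2, dotProduct, mulVec, Fin.sum_univ_three]

theorem det_KEV : G2.det = 1 := by
  have h := w_sq
  rw [det_fin_three]
  simp [G2]
  linear_combination -h

theorem odd_KEV {x y : R} (h : En ((2 * x + w * y) ^ 2)) : En y := by
  rw [En_sq] at h
  unfold En at *
  have e : (2 * x + w * y).re + (2 * x + w * y).im = 2 * (x.re + x.im) + (3 * y.im + y.re) := by
    simp [w]
    ring
  rw [e] at h
  rw [Int.even_iff] at *
  omega

theorem tail_KEV {β z1 z2 : R} (h1 : En z1) (h2 : En z2) :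
    ∃ z : O, β ^ 2 + 2 * (z1 ^ 2 + w * z1 * z2 + z2 ^ 2) = β ^ 2 + 4 * nm z := by
  rw [En_iff] at h1 h2
  obtain ⟨t1, rfl⟩ := h1
  obtain ⟨t2, rfl⟩ := h2
  refine ⟨uO * ⟨t1, t2⟩, ?_⟩
  rw [nm_mul, nm_uO]
  have h := pp_sq
  unfold nm
  linear_combination (2 * (t1 ^ 2 + w * t1 * t2 + t2 ^ 2)) * h

/-- KEV: the even case. -/
theorem p_KEV : T_KEV := by
  intro X U hX hU hE
  have hdX : X.det = 1 := by
    rw [hX, det_mul, det_mul, det_transpose, det_KEV]
    linear_combination hU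
  set x : Fin 3 → R := fun i => X.adjugate i 2 with hx
  have hXx : X *ᵥ x = Pi.single 2 1 := by
    have h := mul_adjugate X
    rw [hdX, one_smul] at h
    ext1 i
    have h2 : (X * X.adjugate) i 2 = (1 : Matrix (Fin 3) (Fin 3) R) i 2 := by rw [h]
    rw [mul_apply] at h2
    have h3 : (X *ᵥ x) i = ∑ j, X i j * X.adjugate j 2 := rfl
    rw [h3, h2, one_apply, Pi.single_apply]
  have hv2 : ∀ v : Fin 3 → R, v ⬝ᵥ (X *ᵥ x) = v 2 := by
    intro v
    rw [hXx, dotProduct_single, mul_one]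
  set z : Fin 3 → R := U *ᵥ x with hz
  -- the inverse of U
  have hinv : ∀ y : Fin 3 → R, ∃ v : Fin 3 → R, U *ᵥ v = y := by
    intro y
    refine ⟨(U.det • U.adjugate) *ᵥ y, ?_⟩
    rw [mulVec_mulVec, mul_smul_comm, mul_adjugate, smul_smul, ← pow_two, hU, one_smul,
      one_mulVec]
  have hQx : X.adjugate 2 2 = z 0 ^ 2 + 2 * (z 1 ^ 2 + w * z 1 * z 2 + z 2 ^ 2) := by
    have h1 := hv2 x
    rw [bil_KEV hX, g2_KEV] at h1
    have h2 : x 2 = X.adjugate 2 2 := rfl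
    rw [← h2, ← h1]
    ring
  have key : ∀ y : Fin 3 → R,
      y 0 * z 0 + y 1 * (2 * z 1 + w * z 2) + y 2 * (w * z 1 + 2 * z 2) = 0 →
      En (y 0 * y 0 + y 1 * (2 * y 1 + w * y 2) + y 2 * (w * y 1 + 2 * y 2)) := by
    intro y hy
    obtain ⟨v, hv⟩ := hinv y
    have h1 : v 2 = 0 := by
      rw [← hv2 v, bil_KEV hX, g2_KEV, hv]
      exact hy
    have h2 := hE v h1
    rw [bil_KEV hX, g2_KEV, hv] at h2
    exact h2
  have ev2 : ∀ a : R, En (2 * a) := by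
    intro a
    unfold En
    simp only [Zsqrtd.re_mul, Zsqrtd.im_mul, Zsqrtd.re_ofNat, Zsqrtd.im_ofNat]
    simp
    exact ⟨a.re + a.im, by ring⟩
  have cancel : ∀ a b : R, En (a + 2 * b) → En a := by
    intro a b h
    have h1 := (h.add (ev2 (-b)))
    have h2 : a + 2 * b + 2 * -b = a := by ring
    rwa [h2] at h1
  have hz2 : En (z 2) := by
    have h1 := key ![-(2 * z 1 + w * z 2), z 0, 0] (by simp; ring)
    simp only [cons_val_zero, cons_val_one, cons_val] at h1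
    apply odd_KEV (x := z 1)
    apply cancel _ (z 0 ^ 2)
    convert h1 using 1
    ring
  have hz1 : En (z 1) := by
    have h1 := key ![-(w * z 1 + 2 * z 2), 0, z 0] (by simp; ring)
    simp only [cons_val_zero, cons_val_one, cons_val] at h1
    apply odd_KEV (x := z 2)
    apply cancel _ (z 0 ^ 2)
    convert h1 using 1
    ring
  obtain ⟨t, ht⟩ := tail_KEV (β := z 0) hz1 hz2
  exact ⟨z 0, t, by rw [hQx, ht]⟩

end ST6
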