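import Pool.Agent.ST6.Targets

set_option autoImplicit false

/-!
# MP_a901ae_nt, ST6: LEMR
-/

namespace ST6

open Matrix

/-- The symmetric matrix of rank one attached to a matrix and a number. -/
def PM_LEMR (a b c d e f g h i q : R) : Matrix (Fin 4) (Fin 4) R :=
  !![q + a + e + i, h - f, c - g, d - b;
     h - f, q + a - e - i, b + d, c + g;
     c - g, b + d, q - a + e - i, f + h;
     d - b, c + g, f + h, q - a - e + i]

/-- The relations. -/
structure Rel_LEMR (a b c d e f g h i q : R) : Prop where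
  c11 : a * a + d * d + g * g - q * q = 0
  c22 : b * b + e * e + h * h - q * q = 0
  c33 : c * c + f * f + i * i - q * q = 0
  c12 : a * b + d * e + g * h = 0
  c13 : a * c + d * f + g * i = 0
  c23 : b * c + e * f + h * i = 0
  r11 : a * a + b * b + c * c - q * q = 0
  r22 : d * d + e * e + f * f - q * q = 0
  r33 : g * g + h * h + i * i - q * q = 0
  r12 : a * d + b * e + c * f = 0
  r13 : a * g + b * h + c * i = 0
  r23 : d * g + e * h + f * i = 0
  k11 : e * i - f * h - q * a = 0
  k12 : f * g - d * i - q * b = 0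
  k13 : d * h - e * g - q * c = 0
  k21 : h * c - i * b - q * d = 0
  k22 : i * a - g * c - q * e = 0
  k23 : g * b - h * a - q * f = 0
  k31 : b * f - c * e - q * g = 0
  k32 : c * d - a * f - q * h = 0
  k33 : a * e - b * d - q * i = 0

theorem rk0_LEMR {a b c d e f g h i q : R} (H : Rel_LEMR a b c d e f g h i q) (j k : Fin 4) :
    PM_LEMR a b c d e f g h i q 0 0 * PM_LEMR a b c d e f g h i q j k =
      PM_LEMR a b c d e f g h i q 0 j * PM_LEMR a b c d e f g h i q 0 k := by
  obtain ⟨c11, c22, c33, c12, c13, c23, r11, r22, r33, r12, r13, r23, k11, k12, k13, k21, k22,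
    k23, k31, k32, k33⟩ := H
  fin_cases j <;> fin_cases k
  · show (q + a + e + i) * (q + a + e + i) =
      (q + a + e + i) * (q + a + e + i)
    ring
  · show (q + a + e + i) * (h - f) =
      (q + a + e + i) * (h - f)
    ring
  · show (q + a + e + i) * (c - g) =
      (q + a + e + i) * (c - g)
    ring
  · show (q + a + e + i) * (d - b) =
      (q + a + e + i) * (d - b)
    ring
  · show (q + a + e + i) * (h - f) =
      (h - f) * (q + a + e + i)
    ring
  · show (q + a + e + i) * (q + a - e - i) =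
      (h - f) * (h - f)
    linear_combination r11 - c22 - c33 + (-2) * k11
  · show (q + a + e + i) * (b + d) =
      (h - f) * (c - g)
    linear_combination c12 + r12 - k12 - k21
  · show (q + a + e + i) * (c + g) =
      (h - f) * (d - b)
    linear_combination c13 + r13 - k13 - k31
  · show (q + a + e + i) * (c - g) =
      (c - g) * (q + a + e + i)
    ring
  · show (q + a + e + i) * (b + d) =
      (c - g) * (h - f)
    linear_combination c12 + r12 - k12 - k21
  · show (q + a + e + i) * (q - a + e - i) =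
      (c - g) * (c - g)
    linear_combination -c11 + r22 - c33 + (-2) * k22
  · show (q + a + e + i) * (f + h) =
      (c - g) * (d - b)
    linear_combination c23 + r23 - k23 - k32
  · show (q + a + e + i) * (d - b) =
      (d - b) * (q + a + e + i)
    ring
  · show (q + a + e + i) * (c + g) =
      (d - b) * (h - f)
    linear_combination c13 + r13 - k13 - k31
  · show (q + a + e + i) * (f + h) =
      (d - b) * (c - g)
    linear_combination c23 + r23 - k23 - k32
  · show (q + a + e + i) * (q - a - e + i) =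
      (d - b) * (d - b)
    linear_combination -r11 - r22 + c33 + (-2) * k33

theorem rk1_LEMR {a b c d e f g h i q : R} (H : Rel_LEMR a b c d e f g h i q) (j k : Fin 4) :
    PM_LEMR a b c d e f g h i q 1 1 * PM_LEMR a b c d e f g h i q j k =
      PM_LEMR a b c d e f g h i q 1 j * PM_LEMR a b c d e f g h i q 1 k := by
  obtain ⟨c11, c22, c33, c12, c13, c23, r11, r22, r33, r12, r13, r23, k11, k12, k13, k21, k22,
    k23, k31, k32, k33⟩ := H
  fin_cases j <;> fin_cases k
  · show (q + a - e - i) * (q + a + e + i) =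
      (h - f) * (h - f)
    linear_combination r11 - c22 - c33 + (-2) * k11
  · show (q + a - e - i) * (h - f) =
      (h - f) * (q + a - e - i)
    ring
  · show (q + a - e - i) * (c - g) =
      (h - f) * (b + d)
    linear_combination c13 - r13 - k13 + k31
  · show (q + a - e - i) * (d - b) =
      (h - f) * (c + g)
    linear_combination -c12 + r12 + k12 - k21
  · show (q + a - e - i) * (h - f) =
      (q + a - e - i) * (h - f)
    ring
  · show (q + a - e - i) * (q + a - e - i) =
      (q + a - e - i) * (q + a - e - i)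
    ring
  · show (q + a - e - i) * (b + d) =
      (q + a - e - i) * (b + d)
    ring
  · show (q + a - e - i) * (c + g) =
      (q + a - e - i) * (c + g)
    ring
  · show (q + a - e - i) * (c - g) =
      (b + d) * (h - f)
    linear_combination c13 - r13 - k13 + k31
  · show (q + a - e - i) * (b + d) =
      (b + d) * (q + a - e - i)
    ring
  · show (q + a - e - i) * (q - a + e - i) =
      (b + d) * (b + d)
    linear_combination -r11 - r22 + c33 + (2) * k33
  · show (q + a - e - i) * (f + h) =
      (b + d) * (c + g)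
    linear_combination -c23 - r23 - k23 - k32
  · show (q + a - e - i) * (d - b) =
      (c + g) * (h - f)
    linear_combination -c12 + r12 + k12 - k21
  · show (q + a - e - i) * (c + g) =
      (c + g) * (q + a - e - i)
    ring
  · show (q + a - e - i) * (f + h) =
      (c + g) * (b + d)
    linear_combination -c23 - r23 - k23 - k32
  · show (q + a - e - i) * (q - a - e + i) =
      (c + g) * (c + g)
    linear_combination -c11 + r22 - c33 + (2) * k22

theorem rk2_LEMR {a b c d e f g h i q : R} (H : Rel_LEMR a b c d e f g h i q) (j k : Fin 4) :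
    PM_LEMR a b c d e f g h i q 2 2 * PM_LEMR a b c d e f g h i q j k =
      PM_LEMR a b c d e f g h i q 2 j * PM_LEMR a b c d e f g h i q 2 k := by
  obtain ⟨c11, c22, c33, c12, c13, c23, r11, r22, r33, r12, r13, r23, k11, k12, k13, k21, k22,
    k23, k31, k32, k33⟩ := H
  fin_cases j <;> fin_cases k
  · show (q - a + e - i) * (q + a + e + i) =
      (c - g) * (c - g)
    linear_combination -c11 + r22 - c33 + (-2) * k22
  · show (q - a + e - i) * (h - f) =
      (c - g) * (b + d)
    linear_combination -c23 + r23 + k23 - k32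
  · show (q - a + e - i) * (c - g) =
      (c - g) * (q - a + e - i)
    ring
  · show (q - a + e - i) * (d - b) =
      (c - g) * (f + h)
    linear_combination c12 - r12 + k12 - k21
  · show (q - a + e - i) * (h - f) =
      (b + d) * (c - g)
    linear_combination -c23 + r23 + k23 - k32
  · show (q - a + e - i) * (q + a - e - i) =
      (b + d) * (b + d)
    linear_combination -r11 - r22 + c33 + (2) * k33
  · show (q - a + e - i) * (b + d) =
      (b + d) * (q - a + e - i)
    ring
  · show (q - a + e - i) * (c + g) =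
      (b + d) * (f + h)
    linear_combination -c13 - r13 - k13 - k31
  · show (q - a + e - i) * (c - g) =
      (q - a + e - i) * (c - g)
    ring
  · show (q - a + e - i) * (b + d) =
      (q - a + e - i) * (b + d)
    ring
  · show (q - a + e - i) * (q - a + e - i) =
      (q - a + e - i) * (q - a + e - i)
    ring
  · show (q - a + e - i) * (f + h) =
      (q - a + e - i) * (f + h)
    ring
  · show (q - a + e - i) * (d - b) =
      (f + h) * (c - g)
    linear_combination c12 - r12 + k12 - k21
  · show (q - a + e - i) * (c + g) =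
      (f + h) * (b + d)
    linear_combination -c13 - r13 - k13 - k31
  · show (q - a + e - i) * (f + h) =
      (f + h) * (q - a + e - i)
    ring
  · show (q - a + e - i) * (q - a - e + i) =
      (f + h) * (f + h)
    linear_combination r11 - c22 - c33 + (2) * k11

theorem rk3_LEMR {a b c d e f g h i q : R} (H : Rel_LEMR a b c d e f g h i q) (j k : Fin 4) :
    PM_LEMR a b c d e f g h i q 3 3 * PM_LEMR a b c d e f g h i q j k =
      PM_LEMR a b c d e f g h i q 3 j * PM_LEMR a b c d e f g h i q 3 k := by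
  obtain ⟨c11, c22, c33, c12, c13, c23, r11, r22, r33, r12, r13, r23, k11, k12, k13, k21, k22,
    k23, k31, k32, k33⟩ := H
  fin_cases j <;> fin_cases k
  · show (q - a - e + i) * (q + a + e + i) =
      (d - b) * (d - b)
    linear_combination -r11 - r22 + c33 + (-2) * k33
  · show (q - a - e + i) * (h - f) =
      (d - b) * (c + g)
    linear_combination c23 - r23 + k23 - k32
  · show (q - a - e + i) * (c - g) =
      (d - b) * (f + h)
    linear_combination -c13 + r13 - k13 + k31
  · show (q - a - e + i) * (d - b) =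
      (d - b) * (q - a - e + i)
    ring
  · show (q - a - e + i) * (h - f) =
      (c + g) * (d - b)
    linear_combination c23 - r23 + k23 - k32
  · show (q - a - e + i) * (q + a - e - i) =
      (c + g) * (c + g)
    linear_combination -c11 + r22 - c33 + (2) * k22
  · show (q - a - e + i) * (b + d) =
      (c + g) * (f + h)
    linear_combination -c12 - r12 - k12 - k21
  · show (q - a - e + i) * (c + g) =
      (c + g) * (q - a - e + i)
    ring
  · show (q - a - e + i) * (c - g) =
      (f + h) * (d - b)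
    linear_combination -c13 + r13 - k13 + k31
  · show (q - a - e + i) * (b + d) =
      (f + h) * (c + g)
    linear_combination -c12 - r12 - k12 - k21
  · show (q - a - e + i) * (q - a + e - i) =
      (f + h) * (f + h)
    linear_combination r11 - c22 - c33 + (2) * k11
  · show (q - a - e + i) * (f + h) =
      (f + h) * (q - a - e + i)
    ring
  · show (q - a - e + i) * (d - b) =
      (q - a - e + i) * (d - b)
    ring
  · show (q - a - e + i) * (c + g) =
      (q - a - e + i) * (c + g)
    ring
  · show (q - a - e + i) * (f + h) =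
      (q - a - e + i) * (f + h)
    ring
  · show (q - a - e + i) * (q - a - e + i) =
      (q - a - e + i) * (q - a - e + i)
    ring

/-- A nonzero symmetric matrix of rank one over a principal ideal ring. -/
theorem rank1_LEMR (h1 : T_PIR) (P : Matrix (Fin 4) (Fin 4) R) (i : Fin 4)
    (hP : ∀ j k, P i i * P j k = P i j * P i k) (hi : P i i ≠ 0) :
    ∃ (τ : R) (α r : Fin 4 → R), ∑ j, r j * α j = 1 ∧ ∀ j k, P j k = τ * α j * α k := by
  have : IsPrincipalIdealRing R := h1
  obtain ⟨g, hg⟩ := (IsPrincipalIdealRing.principal (Ideal.span (Set.range (P i)))).principal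
  have hmem : ∀ j, g ∣ P i j := fun j => by
    have : P i j ∈ Ideal.span (Set.range (P i)) := Ideal.subset_span ⟨j, rfl⟩
    rw [hg] at this
    exact Ideal.mem_span_singleton.1 this
  choose α hα using hmem
  have hg' : g ∈ Ideal.span (Set.range (P i)) := by
    rw [hg]
    exact Submodule.mem_span_singleton_self g
  rw [Ideal.mem_span_range_iff_exists_fun] at hg'
  obtain ⟨r, hr⟩ := hg'
  have hg0 : g ≠ 0 := by
    intro h0
    apply hi
    rw [hα i, h0, zero_mul]
  have hsum : ∑ j, r j * α j = 1 := by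
    apply mul_left_cancel₀ hg0
    rw [mul_one, Finset.mul_sum]
    conv_rhs => rw [← hr]
    refine Finset.sum_congr rfl fun j _ => ?_
    rw [hα j]
    ring
  have hai : α i ≠ 0 := by
    intro h
    apply hi
    rw [hα i, h, mul_zero]
  have key : ∀ j k, α i * P j k = g * α j * α k := by
    intro j k
    apply mul_left_cancel₀ hg0
    have := hP j k
    rw [hα i, hα j, hα k] at this
    linear_combination this
  have hgt : g = α i * ∑ j, ∑ k, r j * r k * P j k := by
    calc g = g * (∑ j, r j * α j) * (∑ k, r k * α k) := by rw [hsum]; ring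
      _ = ∑ j, ∑ k, r j * r k * (g * α j * α k) := by
        rw [mul_assoc, Finset.sum_mul_sum, Finset.mul_sum]
        refine Finset.sum_congr rfl fun j _ => ?_
        rw [Finset.mul_sum]
        refine Finset.sum_congr rfl fun k _ => ?_
        ring
      _ = α i * ∑ j, ∑ k, r j * r k * P j k := by
        rw [Finset.mul_sum]
        refine Finset.sum_congr rfl fun j _ => ?_
        rw [Finset.mul_sum]
        refine Finset.sum_congr rfl fun k _ => ?_
        rw [← key]
        ring
  refine ⟨∑ j, ∑ k, r j * r k * P j k, α, r, hsum, fun j k => ?_⟩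
  apply mul_left_cancel₀ hai
  rw [key]
  conv_lhs => rw [hgt]
  ring

theorem neg1_LEMR (x y : ℤ) : x ^ 2 - 3 * y ^ 2 ≠ -1 := by
  intro h
  rcases Int.even_or_odd' x with ⟨k, hk | hk⟩ <;> rcases Int.even_or_odd' y with ⟨l, hl | hl⟩ <;>
    subst hk <;> subst hl <;> ring_nf at h <;> omega

theorem neg4_LEMR (x y : ℤ) : x ^ 2 - 3 * y ^ 2 ≠ -4 := by
  intro h
  rcases Int.even_or_odd' x with ⟨k, hk | hk⟩ <;> rcases Int.even_or_odd' y with ⟨l, hl | hl⟩
  · apply neg1_LEMR k l
    subst hk
    subst hl
    linarith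
  · subst hk
    subst hl
    ring_nf at h
    omega
  · subst hk
    subst hl
    ring_nf at h
    omega
  · have h1 : k ^ 2 + k = 2 * (k * (k + 1) / 2) := by
      have := Int.even_mul_succ_self k
      rw [Int.mul_ediv_cancel' this.two_dvd]
      ring
    have h2 : l ^ 2 + l = 2 * (l * (l + 1) / 2) := by
      have := Int.even_mul_succ_self l
      rw [Int.mul_ediv_cancel' this.two_dvd]
      ring
    have h3 : 4 * (k ^ 2 + k) - 12 * (l ^ 2 + l) = -2 := by
      subst hk
      subst hl
      linarith
    rw [h1, h2] at h3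
    omega

theorem neg16_LEMR (x y : ℤ) : x ^ 2 - 3 * y ^ 2 ≠ -16 := by
  intro h
  rcases Int.even_or_odd' x with ⟨k, hk | hk⟩ <;> rcases Int.even_or_odd' y with ⟨l, hl | hl⟩
  · apply neg4_LEMR k l
    subst hk
    subst hl
    linarith
  · subst hk
    subst hl
    ring_nf at h
    omega
  · subst hk
    subst hl
    ring_nf at h
    omega
  · have h1 : k ^ 2 + k = 2 * (k * (k + 1) / 2) := by
      have := Int.even_mul_succ_self k
      rw [Int.mul_ediv_cancel' this.two_dvd]
      ring
    have h2 : l ^ 2 + l = 2 * (l * (l + 1) / 2) := by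
      have := Int.even_mul_succ_self l
      rw [Int.mul_ediv_cancel' this.two_dvd]
      ring
    have h3 : 4 * (k ^ 2 + k) - 12 * (l ^ 2 + l) = -14 := by
      subst hk
      subst hl
      linarith
    rw [h1, h2] at h3
    omega

/-- The reduction modulo `1 + √3`. -/
def ph_LEMR : R →+* ZMod 2 := Zsqrtd.lift ⟨1, by decide⟩

theorem ph_eq_LEMR (x : R) : ph_LEMR x = ((x.re + x.im : ℤ) : ZMod 2) := by
  simp [ph_LEMR, Zsqrtd.lift]

theorem ph_norm_LEMR (x : R) : ((x.norm : ℤ) : ZMod 2) = ph_LEMR x := by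
  rw [ph_eq_LEMR, norm_eq]
  push_cast
  generalize (x.re : ZMod 2) = a
  generalize (x.im : ZMod 2) = b
  revert a b
  decide

theorem ph_zero_LEMR {x : R} (h : Even x.norm) : ph_LEMR x = 0 := by
  rw [← ph_norm_LEMR]
  exact (ZMod.intCast_zmod_eq_zero_iff_dvd _ 2).2 (by exact_mod_cast h.two_dvd)

theorem ph_one_LEMR {x : R} (h : ph_LEMR x = 1) : Odd (x.re + x.im) := by
  rw [ph_eq_LEMR] at h
  rw [← Int.not_even_iff_odd]
  intro h'
  have := (ZMod.intCast_zmod_eq_zero_iff_dvd (x.re + x.im) 2).2 (by exact_mod_cast h'.two_dvd)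
  rw [h] at this
  exact absurd this (by decide)

theorem cmb_LEMR : ∀ a0 a1 a2 a3 : ZMod 2, a0 * a1 + a2 * a3 = 0 → a0 * a2 + a1 * a3 = 0 →
    a0 * a3 + a1 * a2 = 0 → a0 ^ 2 + a1 ^ 2 + a2 ^ 2 + a3 ^ 2 = 0 →
    (a0 = 0 ∧ a1 = 0 ∧ a2 = 0 ∧ a3 = 0) ∨ (a0 = 1 ∧ a1 = 1 ∧ a2 = 1 ∧ a3 = 1) := by
  decide

theorem sq_odd_LEMR {x : R} (h : Odd (x.re + x.im)) :
    Odd (x ^ 2).re ∧ 4 ∣ (x ^ 2).im := by
  have h1 : (x ^ 2).re = x.re ^ 2 + 3 * x.im ^ 2 := by
    rw [pow_two]
    simp
    ring
  have h2 : (x ^ 2).im = 2 * (x.re * x.im) := by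
    rw [pow_two]
    simp
    ring
  rw [h1, h2]
  have h3 : Odd (x.re + x.im) := h
  rcases Int.even_or_odd' x.re with ⟨k, hk | hk⟩ <;>
    rcases Int.even_or_odd' x.im with ⟨l, hl | hl⟩
  · exfalso
    rw [← Int.not_even_iff_odd] at h3
    exact h3 ⟨k + l, by rw [hk, hl]; ring⟩
  · rw [hk, hl]
    exact ⟨⟨2 * k ^ 2 + 6 * l ^ 2 + 6 * l + 1, by ring⟩, ⟨k * (2 * l + 1), by ring⟩⟩
  · rw [hk, hl]
    exact ⟨⟨2 * k ^ 2 + 2 * k + 6 * l ^ 2, by ring⟩, ⟨(2 * k + 1) * l, by ring⟩⟩
  · exfalso
    rw [← Int.not_even_iff_odd] at h3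
    exact h3 ⟨k + l + 1, by rw [hk, hl]; ring⟩

theorem p_LEMR (h1 : T_PIR) : T_LEMR := by
  intro M q hq hodd hneg hM hdet
  have hq0 : q ≠ 0 := hq.ne_zero
  have hadj : M.adjugate = q • Mᵀ := by
    have e1 : Mᵀ * M * M.adjugate = q ^ 3 • Mᵀ := by
      rw [Matrix.mul_assoc, Matrix.mul_adjugate, hdet, Matrix.mul_smul, Matrix.mul_one]
    rw [hM, Matrix.smul_mul, Matrix.one_mul] at e1
    refine Matrix.ext fun i j => ?_
    have := congrFun (congrFun e1 i) j
    simp only [Matrix.smul_apply, smul_eq_mul] at this ⊢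
    apply mul_left_cancel₀ (pow_ne_zero 2 hq0)
    linear_combination this
  have hM' : M * Mᵀ = q ^ 2 • (1 : Matrix (Fin 3) (Fin 3) R) := by
    have e2 : M * M.adjugate = q ^ 3 • (1 : Matrix (Fin 3) (Fin 3) R) := by
      rw [Matrix.mul_adjugate, hdet]
    rw [hadj, Matrix.mul_smul] at e2
    refine Matrix.ext fun i j => ?_
    have := congrFun (congrFun e2 i) j
    simp only [Matrix.smul_apply, smul_eq_mul] at this ⊢
    apply mul_left_cancel₀ hq0
    linear_combination this
  have H : Rel_LEMR (M 0 0) (M 0 1) (M 0 2) (M 1 0) (M 1 1) (M 1 2) (M 2 0) (M 2 1) (M 2 2) q := by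
    have hC : ∀ x y, M 0 x * M 0 y + M 1 x * M 1 y + M 2 x * M 2 y =
        q ^ 2 * (1 : Matrix (Fin 3) (Fin 3) R) x y := by
      intro x y
      have := congrFun (congrFun hM x) y
      rw [Matrix.mul_apply, Fin.sum_univ_three] at this
      simpa only [Matrix.transpose_apply, Matrix.smul_apply, smul_eq_mul] using this
    have hR : ∀ x y, M x 0 * M y 0 + M x 1 * M y 1 + M x 2 * M y 2 =
        q ^ 2 * (1 : Matrix (Fin 3) (Fin 3) R) x y := by
      intro x y
      have := congrFun (congrFun hM' x) y
      rw [Matrix.mul_apply, Fin.sum_univ_three] at this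
      simpa only [Matrix.transpose_apply, Matrix.smul_apply, smul_eq_mul] using this
    have hK : ∀ x y, M.adjugate x y = q * M y x := by
      intro x y
      rw [hadj]
      rfl
    rw [Matrix.adjugate_fin_three] at hK
    constructor
    · have := hC 0 0; rw [Matrix.one_apply_eq] at this; linear_combination this
    · have := hC 1 1; rw [Matrix.one_apply_eq] at this; linear_combination this
    · have := hC 2 2; rw [Matrix.one_apply_eq] at this; linear_combination this
    · have := hC 0 1; rw [Matrix.one_apply_ne (by decide)] at this; linear_combination this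
    · have := hC 0 2; rw [Matrix.one_apply_ne (by decide)] at this; linear_combination this
    · have := hC 1 2; rw [Matrix.one_apply_ne (by decide)] at this; linear_combination this
    · have := hR 0 0; rw [Matrix.one_apply_eq] at this; linear_combination this
    · have := hR 1 1; rw [Matrix.one_apply_eq] at this; linear_combination this
    · have := hR 2 2; rw [Matrix.one_apply_eq] at this; linear_combination this
    · have := hR 0 1; rw [Matrix.one_apply_ne (by decide)] at this; linear_combination this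
    · have := hR 0 2; rw [Matrix.one_apply_ne (by decide)] at this; linear_combination this
    · have := hR 1 2; rw [Matrix.one_apply_ne (by decide)] at this; linear_combination this
    · have := hK 0 0; simp at this; linear_combination this
    · have := hK 1 0; simp at this; linear_combination this
    · have := hK 2 0; simp at this; linear_combination this
    · have := hK 0 1; simp at this; linear_combination this
    · have := hK 1 1; simp at this; linear_combination this
    · have := hK 2 1; simp at this; linear_combination this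
    · have := hK 0 2; simp at this; linear_combination this
    · have := hK 1 2; simp at this; linear_combination this
    · have := hK 2 2; simp at this; linear_combination this
  have hnu : q.norm.natAbs ≠ 1 := fun h => hq.not_isUnit (Zsqrtd.norm_eq_one_iff.1 h)
  have hq2 : ¬ q ∣ 2 := by
    rintro ⟨s, hs⟩
    have h4 : q.norm * s.norm = 4 := by
      rw [← Zsqrtd.norm_mul, ← hs]
      rfl
    have h5 : q.norm.natAbs ∣ 4 := by
      have : q.norm ∣ 4 := ⟨s.norm, h4.symm⟩
      exact Int.natAbs_dvd_natAbs.2 this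
    have h6 : Odd q.norm.natAbs := Int.natAbs_odd.2 hodd
    have h7 : q.norm.natAbs ≤ 4 := Nat.le_of_dvd (by norm_num) h5
    generalize q.norm.natAbs = m at h5 h6 h7 hnu
    interval_cases m <;> revert h5 h6 hnu <;> decide
  have hd2 : ∀ x : R, q ∣ 2 * x → q ∣ x := fun x hx => (hq.dvd_or_dvd hx).resolve_left hq2
  have htr : PM_LEMR (M 0 0) (M 0 1) (M 0 2) (M 1 0) (M 1 1) (M 1 2) (M 2 0) (M 2 1) (M 2 2) q 0 0 +
      PM_LEMR (M 0 0) (M 0 1) (M 0 2) (M 1 0) (M 1 1) (M 1 2) (M 2 0) (M 2 1) (M 2 2) q 1 1 +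
      PM_LEMR (M 0 0) (M 0 1) (M 0 2) (M 1 0) (M 1 1) (M 1 2) (M 2 0) (M 2 1) (M 2 2) q 2 2 +
      PM_LEMR (M 0 0) (M 0 1) (M 0 2) (M 1 0) (M 1 1) (M 1 2) (M 2 0) (M 2 1) (M 2 2) q 3 3 =
      4 * q := by
    show (q + M 0 0 + M 1 1 + M 2 2) + (q + M 0 0 - M 1 1 - M 2 2) +
      (q - M 0 0 + M 1 1 - M 2 2) + (q - M 0 0 - M 1 1 + M 2 2) = 4 * q
    ring
  have hrk : ∃ (τ : R) (α r : Fin 4 → R), ∑ j, r j * α j = 1 ∧ ∀ j k,
      PM_LEMR (M 0 0) (M 0 1) (M 0 2) (M 1 0) (M 1 1) (M 1 2) (M 2 0) (M 2 1) (M 2 2) q j k =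
      τ * α j * α k := by
    by_cases c0 : PM_LEMR (M 0 0) (M 0 1) (M 0 2) (M 1 0) (M 1 1) (M 1 2) (M 2 0) (M 2 1) (M 2 2)
        q 0 0 = 0
    · by_cases c1 : PM_LEMR (M 0 0) (M 0 1) (M 0 2) (M 1 0) (M 1 1) (M 1 2) (M 2 0) (M 2 1)
          (M 2 2) q 1 1 = 0
      · by_cases c2 : PM_LEMR (M 0 0) (M 0 1) (M 0 2) (M 1 0) (M 1 1) (M 1 2) (M 2 0) (M 2 1)
            (M 2 2) q 2 2 = 0
        · by_cases c3 : PM_LEMR (M 0 0) (M 0 1) (M 0 2) (M 1 0) (M 1 1) (M 1 2) (M 2 0) (M 2 1)
              (M 2 2) q 3 3 = 0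
          · exfalso
            rw [c0, c1, c2, c3] at htr
            apply hq0
            have h4 : (4 : R) * q = 0 := by rw [← htr]; ring
            rcases mul_eq_zero.1 h4 with h | h
            · exact absurd h (by decide)
            · exact h
          · exact rank1_LEMR h1 _ 3 (rk3_LEMR H) c3
        · exact rank1_LEMR h1 _ 2 (rk2_LEMR H) c2
      · exact rank1_LEMR h1 _ 1 (rk1_LEMR H) c1
    · exact rank1_LEMR h1 _ 0 (rk0_LEMR H) c0
  obtain ⟨τ, α, r, hr, hα⟩ := hrk
  have p00 : q + M 0 0 + M 1 1 + M 2 2 = τ * α 0 * α 0 := hα 0 0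
  have p11 : q + M 0 0 - M 1 1 - M 2 2 = τ * α 1 * α 1 := hα 1 1
  have p22 : q - M 0 0 + M 1 1 - M 2 2 = τ * α 2 * α 2 := hα 2 2
  have p33 : q - M 0 0 - M 1 1 + M 2 2 = τ * α 3 * α 3 := hα 3 3
  have p01 : M 2 1 - M 1 2 = τ * α 0 * α 1 := hα 0 1
  have p02 : M 0 2 - M 2 0 = τ * α 0 * α 2 := hα 0 2
  have p03 : M 1 0 - M 0 1 = τ * α 0 * α 3 := hα 0 3
  have p12 : M 0 1 + M 1 0 = τ * α 1 * α 2 := hα 1 2
  have p13 : M 0 2 + M 2 0 = τ * α 1 * α 3 := hα 1 3
  have p23 : M 1 2 + M 2 1 = τ * α 2 * α 3 := hα 2 3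
  have hn : τ * (α 0 ^ 2 + α 1 ^ 2 + α 2 ^ 2 + α 3 ^ 2) = 4 * q := by
    linear_combination -p00 - p11 - p22 - p33
  by_cases hqt : q ∣ τ
  · obtain ⟨t, rfl⟩ := hqt
    have hall : ∀ x y, q ∣ M x y := by
      intro x y
      fin_cases x <;> fin_cases y
      · exact hd2 _ (hd2 _ ⟨t * (α 0 ^ 2 + α 1 ^ 2 - α 2 ^ 2 - α 3 ^ 2), by
          show 2 * (2 * M 0 0) = _
          linear_combination p00 + p11 - p22 - p33⟩)
      · exact hd2 _ ⟨t * (α 1 * α 2 - α 0 * α 3), by
          show 2 * M 0 1 = _
          linear_combination p12 - p03⟩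
      · exact hd2 _ ⟨t * (α 1 * α 3 + α 0 * α 2), by
          show 2 * M 0 2 = _
          linear_combination p13 + p02⟩
      · exact hd2 _ ⟨t * (α 1 * α 2 + α 0 * α 3), by
          show 2 * M 1 0 = _
          linear_combination p12 + p03⟩
      · exact hd2 _ (hd2 _ ⟨t * (α 0 ^ 2 - α 1 ^ 2 + α 2 ^ 2 - α 3 ^ 2), by
          show 2 * (2 * M 1 1) = _
          linear_combination p00 - p11 + p22 - p33⟩)
      · exact hd2 _ ⟨t * (α 2 * α 3 - α 0 * α 1), by
          show 2 * M 1 2 = _
          linear_combination p23 - p01⟩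
      · exact hd2 _ ⟨t * (α 1 * α 3 - α 0 * α 2), by
          show 2 * M 2 0 = _
          linear_combination p13 - p02⟩
      · exact hd2 _ ⟨t * (α 2 * α 3 + α 0 * α 1), by
          show 2 * M 2 1 = _
          linear_combination p23 + p01⟩
      · exact hd2 _ (hd2 _ ⟨t * (α 0 ^ 2 - α 1 ^ 2 - α 2 ^ 2 + α 3 ^ 2), by
          show 2 * (2 * M 2 2) = _
          linear_combination p00 - p11 - p22 + p33⟩)
    choose N hN using hall
    refine ⟨Matrix.of N, ?_⟩
    ext1 x y
    rw [hN x y]
    rfl
  · exfalso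
    set n : R := α 0 ^ 2 + α 1 ^ 2 + α 2 ^ 2 + α 3 ^ 2 with hnd
    have hqn : q ∣ n := by
      have : q ∣ τ * n := ⟨4, by rw [hn]; ring⟩
      exact (hq.dvd_or_dvd this).resolve_left hqt
    have hTn : Tn n := ((Tn_sq _).add (Tn_sq _)).add (Tn_sq _) |>.add (Tn_sq _)
    have hn0 : n ≠ 0 := by
      intro h0
      rw [h0, mul_zero] at hn
      rcases mul_eq_zero.1 hn.symm with h | h
      · exact absurd h (by decide)
      · exact hq0 h
    have hnpos : 0 < n.norm := (Tp.of_ne hTn hn0).norm_pos
    have hEv : Ev n := ((Ev_sq _).add (Ev_sq _)).add (Ev_sq _) |>.add (Ev_sq _)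
    obtain ⟨n1, hn1⟩ := hqn
    have ht4 : τ * n1 = 4 := by
      apply mul_left_cancel₀ hq0
      rw [hn1] at hn
      linear_combination hn
    have hN16 : τ.norm * n1.norm = 16 := by
      rw [← Zsqrtd.norm_mul, ht4]
      rfl
    have hNn : n.norm = q.norm * n1.norm := by rw [hn1, Zsqrtd.norm_mul]
    have hn1neg : n1.norm < 0 := by
      by_contra hcon
      push Not at hcon
      have : q.norm * n1.norm ≤ 0 := mul_nonpos_of_nonpos_of_nonneg hneg.le hcon
      omega
    have hτneg : τ.norm < 0 := by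
      by_contra hcon
      push Not at hcon
      have : τ.norm * n1.norm ≤ 0 := mul_nonpos_of_nonneg_of_nonpos hcon hn1neg.le
      omega
    have hlow : -16 ≤ n1.norm := by nlinarith
    have hne1 : n1.norm ≠ -1 := by rw [norm_eq]; exact neg1_LEMR _ _
    have hne4 : n1.norm ≠ -4 := by rw [norm_eq]; exact neg4_LEMR _ _
    have hne16 : n1.norm ≠ -16 := by rw [norm_eq]; exact neg16_LEMR _ _
    obtain ⟨s, hs⟩ := hEv
    obtain ⟨k, hk⟩ := hodd
    have hcase : n1.norm = -2 ∨ (n1.norm = -8 ∧ τ.norm = -2) := by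
      generalize n1.norm = N1 at *
      generalize τ.norm = T1 at *
      interval_cases N1 <;> omega
    rw [norm_eq] at hNn
    rcases hcase with hc | ⟨hc, hc'⟩
    · rw [hc, hs, hk] at hNn
      rcases Int.even_or_odd' n.re with ⟨u, hu | hu⟩
      · rw [hu] at hNn
        ring_nf at hNn
        omega
      · rw [hu] at hNn
        ring_nf at hNn
        omega
    · have hpar : ∀ x y : R, 2 * y = τ * x → ph_LEMR x = 0 := by
        intro x y hxy
        apply ph_zero_LEMR
        have h := congrArg Zsqrtd.norm hxy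
        rw [Zsqrtd.norm_mul, Zsqrtd.norm_mul, hc'] at h
        have h2 : (2 : R).norm = 4 := rfl
        rw [h2] at h
        exact ⟨-y.norm, by linarith⟩
      have q1 := hpar (α 0 * α 1 + α 2 * α 3) (M 2 1) (by linear_combination p01 + p23)
      have q2 := hpar (α 0 * α 2 + α 1 * α 3) (M 0 2) (by linear_combination p02 + p13)
      have q3 := hpar (α 0 * α 3 + α 1 * α 2) (M 1 0) (by linear_combination p03 + p12)
      have q4 : ph_LEMR n = 0 := by
        apply ph_zero_LEMR
        rw [norm_eq, hNn, hc]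
        exact ⟨-4 * q.norm, by ring⟩
      rw [hnd] at q4
      simp only [map_add, map_mul, map_pow] at q1 q2 q3 q4
      have hones : ∀ j, ph_LEMR (α j) = 1 := by
        rcases cmb_LEMR _ _ _ _ q1 q2 q3 q4 with ⟨a0, a1, a2, a3⟩ | ⟨a0, a1, a2, a3⟩
        · exfalso
          have := congrArg ph_LEMR hr
          rw [Fin.sum_univ_four] at this
          simp only [map_add, map_mul, map_one, a0, a1, a2, a3, mul_zero, add_zero] at this
          exact absurd this (by decide)
        · intro j
          fin_cases j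
          · exact a0
          · exact a1
          · exact a2
          · exact a3
      obtain ⟨⟨u0, hu0⟩, ⟨v0, hv0⟩⟩ := sq_odd_LEMR (ph_one_LEMR (hones 0))
      obtain ⟨⟨u1, hu1⟩, ⟨v1, hv1⟩⟩ := sq_odd_LEMR (ph_one_LEMR (hones 1))
      obtain ⟨⟨u2, hu2⟩, ⟨v2, hv2⟩⟩ := sq_odd_LEMR (ph_one_LEMR (hones 2))
      obtain ⟨⟨u3, hu3⟩, ⟨v3, hv3⟩⟩ := sq_odd_LEMR (ph_one_LEMR (hones 3))
      have hre : n.re = 2 * (u0 + u1 + u2 + u3 + 2) := by
        rw [hnd]
        simp only [Zsqrtd.re_add]
        rw [hu0, hu1, hu2, hu3]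
        ring
      have him : n.im = 4 * (v0 + v1 + v2 + v3) := by
        rw [hnd]
        simp only [Zsqrtd.im_add]
        rw [hv0, hv1, hv2, hv3]
        ring
      rw [hc, hk, hre, him] at hNn
      generalize u0 + u1 + u2 + u3 + 2 = U at hNn
      generalize v0 + v1 + v2 + v3 = W at hNn
      rcases Int.even_or_odd' U with ⟨u, hu | hu⟩
      · rw [hu] at hNn
        ring_nf at hNn
        omega
      · rw [hu] at hNn
        ring_nf at hNn
        omega

end ST6
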