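import Pool.Agent.ST6.Targets

/-!
# MP_a901ae_nt: a form that needs six squares
-/

set_option autoImplicit false

namespace ST6

open Matrix

theorem cs_LOW (f g : Fin 5 → ℤ) : (f ⬝ᵥ g) ^ 2 ≤ (f ⬝ᵥ f) * (g ⬝ᵥ g) := by
  have h := Finset.sum_mul_sq_le_sq_mul_sq Finset.univ f g
  simpa only [dotProduct, pow_two] using h

theorem eq_LOW {f g : Fin 5 → ℤ} (hf : f ⬝ᵥ f = 1) (hg : g ⬝ᵥ g = 1) (h : f ⬝ᵥ g = 1) :
    f = g := by
  have h1 : (f - g) ⬝ᵥ (f - g) = 0 := by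
    rw [dotProduct_sub, sub_dotProduct, sub_dotProduct, dotProduct_comm g f, hf, hg, h]
    norm_num
  exact sub_eq_zero.1 (dotProduct_self_eq_zero.1 h1)

theorem abs_LOW {a : ℤ} (h : a ^ 2 ≤ 3) : -1 ≤ a ∧ a ≤ 1 := by
  constructor <;> nlinarith

theorem unit_LOW {f : Fin 5 → ℤ} (h : f ⬝ᵥ f = 1) :
    ∃ i, f i * f i = 1 ∧ ∀ k, k ≠ i → f k = 0 := by
  have h1 : ∃ i, f i ≠ 0 := by
    by_contra hne
    push Not at hne
    have : f ⬝ᵥ f = 0 := Finset.sum_eq_zero fun i _ => by rw [hne i, zero_mul]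
    omega
  obtain ⟨i, hi⟩ := h1
  have h2 : 1 ≤ f i * f i := by
    have := mul_self_pos.2 hi
    omega
  have h3 : f i * f i + ∑ k ∈ Finset.univ.erase i, f k * f k = 1 := by
    rw [← h, dotProduct]
    exact Finset.add_sum_erase Finset.univ (fun k => f k * f k) (Finset.mem_univ i)
  have h4 : 0 ≤ ∑ k ∈ Finset.univ.erase i, f k * f k :=
    Finset.sum_nonneg fun k _ => mul_self_nonneg _
  refine ⟨i, by omega, fun k hk => ?_⟩
  have h5 : ∑ k ∈ Finset.univ.erase i, f k * f k = 0 := by omega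
  have h6 := (Finset.sum_eq_zero_iff_of_nonneg fun k _ => mul_self_nonneg (f k)).1 h5 k
    (Finset.mem_erase.2 ⟨hk, Finset.mem_univ k⟩)
  exact mul_self_eq_zero.1 h6

theorem unit_dot_LOW {f g : Fin 5 → ℤ} {i : Fin 5} (h : ∀ k, k ≠ i → f k = 0) :
    g ⬝ᵥ f = g i * f i :=
  Finset.sum_eq_single i (fun k _ hk => by rw [h k hk, mul_zero])
    fun h' => absurd (Finset.mem_univ i) h'

theorem aa_LOW {u v q s : Fin 5 → ℤ} (huu : u ⬝ᵥ u = 3) (hvv : v ⬝ᵥ v = 3) (hqq : q ⬝ᵥ q = 1)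
    (hss : s ⬝ᵥ s = 1) (huq : u ⬝ᵥ q = 0) (hvs : v ⬝ᵥ s = 0) (hqs : q ⬝ᵥ s = 0)
    (hus : u ⬝ᵥ s = -1) (hvq : v ⬝ᵥ q = 0) (huv : u ⬝ᵥ v = 1) : False := by
  obtain ⟨i, hi1, hi2⟩ := unit_LOW hqq
  obtain ⟨j, hj1, hj2⟩ := unit_LOW hss
  have hqi : q i ≠ 0 := fun h => by rw [h] at hi1; omega
  have hsj : s j ≠ 0 := fun h => by rw [h] at hj1; omega
  have hsi : s i = 0 := by
    have h1 := hqs
    rw [dotProduct_comm, unit_dot_LOW hi2] at h1
    exact (mul_eq_zero.1 h1).resolve_right hqi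
  have hqj : q j = 0 := by
    have h1 := hqs
    rw [unit_dot_LOW hj2] at h1
    exact (mul_eq_zero.1 h1).resolve_right hsj
  have hvi : v i = 0 := by
    rw [unit_dot_LOW hi2] at hvq
    exact (mul_eq_zero.1 hvq).resolve_right hqi
  have hvj : v j = 0 := by
    rw [unit_dot_LOW hj2] at hvs
    exact (mul_eq_zero.1 hvs).resolve_right hsj
  have hui : u i = 0 := by
    rw [unit_dot_LOW hi2] at huq
    exact (mul_eq_zero.1 huq).resolve_right hqi
  have huj : u j * s j = -1 := by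
    rw [unit_dot_LOW hj2] at hus
    exact hus
  have h1 : ∀ k, 0 ≤ 1 - q k * q k - s k * s k - v k * v k := by
    intro k
    by_cases hki : k = i
    · rw [hki, hsi, hvi, hi1]
      norm_num
    · by_cases hkj : k = j
      · rw [hkj, hqj, hvj, hj1]
        norm_num
      · rw [hi2 k hki, hj2 k hkj]
        have h2 : v k * v k ≤ 3 := by
          rw [← hvv]
          exact Finset.single_le_sum (f := fun k => v k * v k)
            (fun k _ => mul_self_nonneg (v k)) (Finset.mem_univ k)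
        have h3 := abs_LOW (a := v k) (by rw [pow_two]; exact h2)
        nlinarith [h3.1, h3.2]
  have h2 : ∑ k, (1 - q k * q k - s k * s k - v k * v k) = 0 := by
    rw [Finset.sum_sub_distrib, Finset.sum_sub_distrib, Finset.sum_sub_distrib]
    unfold dotProduct at hqq hss hvv
    rw [hqq, hss, hvv]
    norm_num
  have h3 : ∀ k, v k * v k = 1 - q k * q k - s k * s k := by
    intro k
    have := (Finset.sum_eq_zero_iff_of_nonneg fun k _ => h1 k).1 h2 k (Finset.mem_univ k)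
    omega
  -- the sum of u k * v k + (u k * v k) ^ 2 is even
  have h4 : ∑ k, (u k * v k) * (u k * v k) = 2 := by
    have h5 : ∀ k, (u k * v k) * (u k * v k) = u k * u k - (u k * q k) * (u k * q k) -
        (u k * s k) * (u k * s k) := by
      intro k
      have := h3 k
      linear_combination (u k * u k) * this
    rw [Finset.sum_congr rfl fun k _ => h5 k, Finset.sum_sub_distrib, Finset.sum_sub_distrib]
    have h6 : ∑ k, (u k * q k) * (u k * q k) = 0 := by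
      refine Finset.sum_eq_zero fun k _ => ?_
      by_cases hki : k = i
      · rw [hki, hui]
        norm_num
      · rw [hi2 k hki]
        norm_num
    have h7 : ∑ k, (u k * s k) * (u k * s k) = 1 := by
      rw [Finset.sum_eq_single j (fun k _ hk => by rw [hj2 k hk]; norm_num)
        fun h' => absurd (Finset.mem_univ j) h', huj]
      norm_num
    unfold dotProduct at huu
    rw [h6, h7, huu]
    norm_num
  have h8 : (2 : ℤ) ∣ ∑ k, ((u k * v k) * (u k * v k) + u k * v k) := by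
    refine Finset.dvd_sum fun k _ => ?_
    have := Int.even_mul_succ_self (u k * v k)
    rw [mul_add, mul_one] at this
    exact even_iff_two_dvd.1 this
  unfold dotProduct at huv
  rw [Finset.sum_add_distrib, h4, huv] at h8
  omega

/-- the case of one vector with two irrational entries and one with one -/
theorem ba_LOW {p q r s : Fin 5 → ℤ} (hpp : p ⬝ᵥ p = 1) (hqq : q ⬝ᵥ q = 2) (hpq : p ⬝ᵥ q = -1)
    (hrr : r ⬝ᵥ r = 4) (hss : s ⬝ᵥ s = 1) (hrs : r ⬝ᵥ s = -1)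
    (h5 : p ⬝ᵥ r + 3 * (q ⬝ᵥ s) = 2) (h6 : p ⬝ᵥ s + q ⬝ᵥ r = -1) : False := by
  have hqp : q ⬝ᵥ p = -1 := by rw [dotProduct_comm, hpq]
  have hsr : s ⬝ᵥ r = -1 := by rw [dotProduct_comm, hrs]
  -- u = p + q, v = r + s
  have huu : (p + q) ⬝ᵥ (p + q) = 1 := by
    rw [dotProduct_add, add_dotProduct, add_dotProduct, hpp, hqq, hpq, hqp]
    norm_num
  have hvv : (r + s) ⬝ᵥ (r + s) = 3 := by
    rw [dotProduct_add, add_dotProduct, add_dotProduct, hrr, hss, hrs, hsr]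
    norm_num
  have hvs : s ⬝ᵥ (r + s) = 0 := by
    rw [dotProduct_add, hsr, hss]
    norm_num
  have hc := cs_LOW p (r + s)
  have ha := cs_LOW p s
  have hb := cs_LOW (p + q) s
  have hab := cs_LOW (p + (p + q)) s
  have hab' := cs_LOW (p - (p + q)) s
  have e1 : (p + (p + q)) ⬝ᵥ (p + (p + q)) = 2 := by
    simp only [dotProduct_add, add_dotProduct, hpp, hqq, hpq, hqp]
    norm_num
  have e2 : (p - (p + q)) ⬝ᵥ (p - (p + q)) = 2 := by
    simp only [dotProduct_sub, sub_dotProduct, dotProduct_add, add_dotProduct, hpp, hqq, hpq,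
      hqp]
    norm_num
  rw [e1, hss, add_dotProduct, add_dotProduct] at hab
  rw [e2, hss, sub_dotProduct, add_dotProduct] at hab'
  rw [hpp, hvv, dotProduct_add] at hc
  rw [hpp, hss] at ha
  rw [huu, hss, add_dotProduct] at hb
  have h7 : q ⬝ᵥ s = 1 - p ⬝ᵥ s ∧ p ⬝ᵥ s = 0 := by
    generalize p ⬝ᵥ s = a at *
    generalize q ⬝ᵥ s = b at *
    generalize p ⬝ᵥ r = c at *
    have k1 := abs_LOW (a := a) (by omega)
    have k2 := abs_LOW (a := a + b) (by omega)
    have k3 := abs_LOW (a := a + (a + b)) (by omega)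
    have k4 := abs_LOW (a := a - (a + b)) (by omega)
    have k5 := abs_LOW (a := c + a) (by omega)
    omega
  have h8 : (p + q) ⬝ᵥ s = 1 := by
    rw [add_dotProduct]
    omega
  have h9 := eq_LOW huu hss h8
  rw [← h9, add_dotProduct, dotProduct_add, dotProduct_add] at hvs
  have h10 : (p + q) ⬝ᵥ (p + q) = 1 := huu
  rw [h9] at h10
  have h11 : s ⬝ᵥ r = p ⬝ᵥ r + q ⬝ᵥ r := by
    rw [← h9, add_dotProduct]
  omega

theorem five_LOW (p q r s : Fin 5 → ℤ) (h1 : p ⬝ᵥ p + 3 * (q ⬝ᵥ q) = 7) (hpq : p ⬝ᵥ q = -1)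
    (h3 : r ⬝ᵥ r + 3 * (s ⬝ᵥ s) = 7) (hrs : r ⬝ᵥ s = -1)
    (h5 : p ⬝ᵥ r + 3 * (q ⬝ᵥ s) = 2) (h6 : p ⬝ᵥ s + q ⬝ᵥ r = -1) : False := by
  have key : ∀ p q : Fin 5 → ℤ, p ⬝ᵥ p + 3 * (q ⬝ᵥ q) = 7 → p ⬝ᵥ q = -1 →
      (p ⬝ᵥ p = 4 ∧ q ⬝ᵥ q = 1) ∨ (p ⬝ᵥ p = 1 ∧ q ⬝ᵥ q = 2) := by
    intro p q h1 h2
    have h3 : 0 ≤ p ⬝ᵥ p := Finset.sum_nonneg fun k _ => mul_self_nonneg _
    have h4 : 0 ≤ q ⬝ᵥ q := Finset.sum_nonneg fun k _ => mul_self_nonneg _
    have h5 : q ⬝ᵥ q ≠ 0 := by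
      intro h
      rw [dotProduct_self_eq_zero.1 h, dotProduct_zero] at h2
      omega
    omega
  have hqp : q ⬝ᵥ p = -1 := by rw [dotProduct_comm, hpq]
  have hsr : s ⬝ᵥ r = -1 := by rw [dotProduct_comm, hrs]
  rcases key p q h1 hpq with ⟨hpp, hqq⟩ | ⟨hpp, hqq⟩ <;>
    rcases key r s h3 hrs with ⟨hrr, hss⟩ | ⟨hrr, hss⟩
  · -- both with one irrational entry
    have hqs := cs_LOW q s
    rw [hqq, hss] at hqs
    have hqs0 : q ⬝ᵥ s = 0 := by
      have k1 := abs_LOW (a := q ⬝ᵥ s) (by omega)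
      by_contra hne
      have h7 : q ⬝ᵥ s = 1 ∨ q ⬝ᵥ s = -1 := by omega
      rcases h7 with h7 | h7
      · have h8 := eq_LOW hqq hss h7
        rw [← h8, hpq] at h6
        rw [h8, hsr] at h6
        omega
      · have h8 : q = -s := eq_LOW hqq (by rw [neg_dotProduct_neg, hss])
          (by rw [dotProduct_neg, h7]; norm_num)
        have h9 : s = -q := by rw [h8, neg_neg]
        rw [h9, dotProduct_neg, hpq, h8, neg_dotProduct, hsr] at h6
        omega
    have huu : (p + q) ⬝ᵥ (p + q) = 3 := by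
      rw [dotProduct_add, add_dotProduct, add_dotProduct, hpp, hqq, hpq, hqp]
      norm_num
    have hvv : (r + s) ⬝ᵥ (r + s) = 3 := by
      rw [dotProduct_add, add_dotProduct, add_dotProduct, hrr, hss, hrs, hsr]
      norm_num
    have huq : (p + q) ⬝ᵥ q = 0 := by
      rw [add_dotProduct, hpq, hqq]
      norm_num
    have hvs : (r + s) ⬝ᵥ s = 0 := by
      rw [add_dotProduct, hrs, hss]
      norm_num
    have hus : (p + q) ⬝ᵥ s = p ⬝ᵥ s := by
      rw [add_dotProduct, hqs0, add_zero]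
    have hvq : (r + s) ⬝ᵥ q = q ⬝ᵥ r := by
      rw [add_dotProduct, dotProduct_comm s q, hqs0, add_zero, dotProduct_comm]
    have huv : (p + q) ⬝ᵥ (r + s) = 1 := by
      rw [dotProduct_add, add_dotProduct, add_dotProduct, hqs0]
      omega
    have k1 := cs_LOW (p + q) s
    have k2 := cs_LOW (r + s) q
    rw [huu, hss, hus] at k1
    rw [hvv, hqq, hvq] at k2
    have k3 := abs_LOW (a := p ⬝ᵥ s) (by omega)
    have k4 := abs_LOW (a := q ⬝ᵥ r) (by omega)
    have k5 : (p ⬝ᵥ s = -1 ∧ q ⬝ᵥ r = 0) ∨ (p ⬝ᵥ s = 0 ∧ q ⬝ᵥ r = -1) := by omega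
    rcases k5 with ⟨k5, k6⟩ | ⟨k5, k6⟩
    · exact aa_LOW huu hvv hqq hss huq hvs hqs0 (by rw [hus, k5]) (by rw [hvq, k6]) huv
    · exact aa_LOW hvv huu hss hqq hvs huq (by rw [dotProduct_comm, hqs0]) (by rw [hvq, k6])
        (by rw [hus, k5]) (by rw [dotProduct_comm, huv])
  · exact ba_LOW hrr hss hrs hpp hqq hpq
      (by rw [dotProduct_comm r p, dotProduct_comm s q]; exact h5)
      (by rw [dotProduct_comm r q, dotProduct_comm s p, add_comm]; exact h6)
  · exact ba_LOW hpp hqq hpq hrr hss hrs h5 h6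
  · have huu : (p + q) ⬝ᵥ (p + q) = 1 := by
      rw [dotProduct_add, add_dotProduct, add_dotProduct, hpp, hqq, hpq, hqp]
      norm_num
    have hvv : (r + s) ⬝ᵥ (r + s) = 1 := by
      rw [dotProduct_add, add_dotProduct, add_dotProduct, hrr, hss, hrs, hsr]
      norm_num
    have k1 := cs_LOW p r
    have k2 := cs_LOW (p + q) (r + s)
    rw [hpp, hrr] at k1
    rw [huu, hvv, dotProduct_add, add_dotProduct, add_dotProduct] at k2
    have k3 := abs_LOW (a := p ⬝ᵥ r) (by omega)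
    have k4 : p ⬝ᵥ r = -1 := by omega
    have k5 : p = -r := eq_LOW hpp (by rw [neg_dotProduct_neg, hrr])
      (by rw [dotProduct_neg, k4]; norm_num)
    have k6 : (p + q) ⬝ᵥ (r + s) = -1 := by
      rw [dotProduct_add, add_dotProduct, add_dotProduct]
      omega
    have k7 : p + q = -(r + s) := eq_LOW huu (by rw [neg_dotProduct_neg, hvv])
      (by rw [dotProduct_neg, k6]; norm_num)
    have k8 : q = -s := by
      rw [k5, neg_add] at k7
      exact add_left_cancel k7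
    have k9 : q ⬝ᵥ s = -2 := by
      rw [k8, neg_dotProduct, hss]
    omega

/-- LOW. -/
theorem p_LOW : T_LOW := by
  refine ⟨⟨![⟨1, -1⟩, 1, 1, 1, 0, 0], ![0, ⟨1, -1⟩, 1, 0, 1, 1], ?_, ?_, ?_⟩, ?_⟩
  · rw [Fin.sum_univ_six]
    apply Zsqrtd.ext <;> simp [pow_two]
  · rw [Fin.sum_univ_six]
    apply Zsqrtd.ext <;> simp
  · rw [Fin.sum_univ_six]
    apply Zsqrtd.ext <;> simp [pow_two]
  · rintro ⟨x, y, h1, h2, h3⟩
    have a1 := congrArg Zsqrtd.re h1
    have a2 := congrArg Zsqrtd.im h1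
    have b1 := congrArg Zsqrtd.re h2
    have b2 := congrArg Zsqrtd.im h2
    have c1 := congrArg Zsqrtd.re h3
    have c2 := congrArg Zsqrtd.im h3
    simp only [Fin.sum_univ_five, Zsqrtd.re_add, Zsqrtd.im_add, Zsqrtd.re_mul, Zsqrtd.im_mul,
      pow_two] at a1 a2 b1 b2 c1 c2
    refine five_LOW (fun i => (x i).re) (fun i => (x i).im) (fun i => (y i).re)
      (fun i => (y i).im) ?_ ?_ ?_ ?_ ?_ ?_ <;>
      simp only [dotProduct, Fin.sum_univ_five] <;> linarith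

end ST6
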