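import Pool.Agent.ST6.Targets

set_option autoImplicit false

/-!
# ST6: target MIN3, short vectors of unimodular ternary forms
-/

namespace ST6

open Matrix

/-- The trace form. -/
def tf_MIN3 (X : Matrix (Fin 3) (Fin 3) R) : Matrix (Fin 3 ⊕ Fin 3) (Fin 3 ⊕ Fin 3) ℤ :=
  fromBlocks (X.map fun x => 2 * x.re) (X.map fun x => 6 * x.im)
    (X.map fun x => 6 * x.im) (X.map fun x => 6 * x.re)

theorem val_MIN3 (X : Matrix (Fin 3) (Fin 3) R) (u : Fin 3 ⊕ Fin 3 → ℤ) :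
    u ⬝ᵥ (tf_MIN3 X *ᵥ u) =
      2 * ((fun i => (⟨u (Sum.inl i), u (Sum.inr i)⟩ : R)) ⬝ᵥ
        (X *ᵥ (fun i => (⟨u (Sum.inl i), u (Sum.inr i)⟩ : R)))).re := by
  simp only [tf_MIN3, dotProduct, mulVec, Fintype.sum_sum_type, Fin.sum_univ_three,
    fromBlocks_apply₁₁, fromBlocks_apply₁₂, fromBlocks_apply₂₁, fromBlocks_apply₂₂, map_apply,
    Zsqrtd.re_mul, Zsqrtd.re_add, Zsqrtd.im_mul, Zsqrtd.im_add]
  ring

theorem symm_MIN3 {X : Matrix (Fin 3) (Fin 3) R} (hX : Xᵀ = X) : (tf_MIN3 X)ᵀ = tf_MIN3 X := by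
  have h : ∀ i j, X j i = X i j := fun i j => congrFun (congrFun hX i) j
  rw [tf_MIN3, fromBlocks_transpose]
  congr 1 <;> (ext i j; simp only [transpose_apply, map_apply, h])

theorem p_MIN3 (h1 : T_HMT) (h2 : T_TRD) : T_MIN3 := by
  intro X hX hdet
  obtain ⟨hs, hp⟩ := hX
  set e : Fin 3 ⊕ Fin 3 ≃ Fin (5 + 1) := finSumFinEquiv with he
  set S : Matrix (Fin (5 + 1)) (Fin (5 + 1)) ℤ := (tf_MIN3 X).submatrix e.symm e.symm with hS
  have hval : ∀ v : Fin (5 + 1) → ℤ, v ⬝ᵥ (S *ᵥ v) =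
      2 * ((fun i => (⟨v (e (Sum.inl i)), v (e (Sum.inr i))⟩ : R)) ⬝ᵥ
        (X *ᵥ (fun i => (⟨v (e (Sum.inl i)), v (e (Sum.inr i))⟩ : R)))).re := by
    intro v
    refine Eq.trans ?_ (val_MIN3 X (v ∘ e))
    rw [hS, submatrix_mulVec_equiv, Equiv.symm_symm]
    simp only [dotProduct]
    refine (Fintype.sum_equiv e _ _ fun i => ?_).symm
    simp
  have hne : ∀ v : Fin (5 + 1) → ℤ, v ≠ 0 →
      (fun i => (⟨v (e (Sum.inl i)), v (e (Sum.inr i))⟩ : R)) ≠ 0 := by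
    intro v hv h0
    apply hv
    funext k
    obtain ⟨s, rfl⟩ := e.surjective k
    rcases s with i | i
    · exact congrArg Zsqrtd.re (congrFun h0 i)
    · exact congrArg Zsqrtd.im (congrFun h0 i)
  obtain ⟨v, hv, hv2⟩ := h1 5 S (by rw [hS, transpose_submatrix, symm_MIN3 hs]) (by
    intro v hv
    rw [hval]
    have := (hp _ (hne v hv)).1
    linarith)
  refine ⟨_, hne v hv, ?_⟩
  have hd : S.det = 1728 := by
    rw [hS, det_submatrix_equiv_self]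
    have := h2 3 X
    rw [hdet] at this
    rw [tf_MIN3, this]
    simp
  rw [hval, hd] at hv2
  generalize ((fun i => (⟨v (e (Sum.inl i)), v (e (Sum.inr i))⟩ : R)) ⬝ᵥ
        (X *ᵥ (fun i => (⟨v (e (Sum.inl i)), v (e (Sum.inr i))⟩ : R)))).re = r at hv2 ⊢
  by_contra hr
  push Not at hr
  have h4 : (4 : ℤ) ≤ r := hr
  have h5 : (4 : ℤ) ^ 6 ≤ r ^ 6 := pow_le_pow_left₀ (by norm_num) h4 6
  norm_num at hv2
  nlinarith

end ST6
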