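import Pool.Agent.ST6.Targets

/-!
# ST6, NSJ: every residue class modulo a prime of `R` contains a norm
-/

set_option autoImplicit false

namespace ST6

open Matrix

theorem decomp_NSJ (x : R) : x = (x.re : R) + (x.im : R) * w := by
  ext <;> simp [w]

/-- The quotient of `R` by a nonzero ideal is finite. -/
theorem finite_NSJ {l : R} (hl : l ≠ 0) : Finite (R ⧸ Ideal.span {l}) := by
  set I : Ideal R := Ideal.span {l} with hI
  have hn : l.norm ≠ 0 := fun h => hl ((norm_eq_zero_iff l).1 h)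
  have hN : ((l.norm : ℤ) : R) ∈ I := by
    rw [hI, Ideal.mem_span_singleton, Zsqrtd.norm_eq_mul_conj]
    exact dvd_mul_right _ _
  set N : ℤ := l.norm with hNdef
  have hred : ∀ a : ℤ, ((a : R) - ((a % N : ℤ) : R)) ∈ I := by
    intro a
    have e : (a : R) - ((a % N : ℤ) : R) = ((a / N : ℤ) : R) * ((N : ℤ) : R) := by
      rw [← Int.cast_sub, ← Int.cast_mul]
      congr 1
      have := Int.emod_add_mul_ediv a N
      linarith
    rw [e]
    exact I.mul_mem_left _ hN
  have hfin : Finite (Set.Ico (0 : ℤ) |N| × Set.Ico (0 : ℤ) |N|) := inferInstance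
  refine Finite.of_surjective (fun p : Set.Ico (0 : ℤ) |N| × Set.Ico (0 : ℤ) |N| =>
    Ideal.Quotient.mk I (((p.1 : ℤ) : R) + ((p.2 : ℤ) : R) * w)) ?_
  intro y
  obtain ⟨x, rfl⟩ := Ideal.Quotient.mk_surjective y
  have hm : ∀ a : ℤ, a % N ∈ Set.Ico (0 : ℤ) |N| := fun a =>
    ⟨Int.emod_nonneg _ hn, Int.emod_lt_abs _ hn⟩
  refine ⟨(⟨x.re % N, hm _⟩, ⟨x.im % N, hm _⟩), ?_⟩
  refine (Ideal.Quotient.eq.2 ?_).symm
  have e : x - (((x.re % N : ℤ) : R) + ((x.im % N : ℤ) : R) * w) =
      ((x.re : R) - ((x.re % N : ℤ) : R)) + w * ((x.im : R) - ((x.im % N : ℤ) : R)) := by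
    have h := decomp_NSJ x
    linear_combination h
  show x - (((x.re % N : ℤ) : R) + ((x.im % N : ℤ) : R) * w) ∈ I
  rw [e]
  exact I.add_mem (hred _) (I.mul_mem_left _ (hred _))

theorem nm_xy_NSJ (x y : R) : nm (⟨x - w * y, 2 * y⟩ : O) = x ^ 2 + y ^ 2 := by
  have h := w_sq
  unfold nm
  linear_combination (-y ^ 2) * h

/-- NSJ. -/
theorem p_NSJ : T_NSJ := by
  intro l hl r
  set I : Ideal R := Ideal.span {l} with hI
  have hfin : Finite (R ⧸ I) := finite_NSJ hl.ne_zero
  have hprime : I.IsPrime := (Ideal.span_singleton_prime hl.ne_zero).2 hl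
  have hdom : IsDomain (R ⧸ I) := Ideal.Quotient.isDomain I
  have hft : Fintype (R ⧸ I) := Fintype.ofFinite _
  rcases Nat.mod_two_eq_zero_or_one (Fintype.card (R ⧸ I)) with hc | hc
  · -- the prime above two
    have h2 : 2 ∣ Fintype.card (R ⧸ I) := Nat.dvd_of_mod_eq_zero hc
    have hp : Fact (Nat.Prime 2) := ⟨Nat.prime_two⟩
    obtain ⟨x, hx⟩ := exists_prime_addOrderOf_dvd_card 2 h2
    have hx0 : x ≠ 0 := by
      rintro rfl
      simp at hx
    have hx2 : (2 : R ⧸ I) * x = 0 := by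
      have h3 := addOrderOf_nsmul_eq_zero x
      rw [hx, nsmul_eq_mul] at h3
      exact_mod_cast h3
    have h20 : (2 : R ⧸ I) = 0 := (mul_eq_zero.1 hx2).resolve_right hx0
    have hl2 : l ∣ 2 := by
      rw [← Ideal.mem_span_singleton, ← hI, ← Ideal.Quotient.eq_zero_iff_mem]
      rw [← h20]
      rfl
    rw [two_eq] at hl2
    have hlp : l ∣ pp := by
      rcases hl.dvd_or_dvd hl2 with h | h
      · exact hl.dvd_of_dvd_pow h
      · exfalso
        apply hl.not_isUnit
        apply isUnit_of_dvd_one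
        refine h.trans ⟨⟨2, 1⟩, ?_⟩
        ext <;> simp
    by_cases hr : En r
    · refine ⟨0, ?_⟩
      rw [nm_zero, zero_sub, dvd_neg]
      exact hlp.trans ((En_iff r).1 hr)
    · refine ⟨1, ?_⟩
      rw [nm_one]
      refine hlp.trans ((En_iff _).1 ?_)
      have h3 := (Od_iff_not r).2 hr
      unfold Od at h3
      unfold En
      have e : (1 - r).re + (1 - r).im = 1 - (r.re + r.im) := by
        simp
        ring
      rw [e]
      exact Odd.sub_odd odd_one h3
  · -- odd characteristic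
    obtain ⟨a, b, hab⟩ := FiniteField.exists_root_sum_quadratic
      (f := (Polynomial.X ^ 2 : Polynomial (R ⧸ I)))
      (g := Polynomial.X ^ 2 - Polynomial.C (Ideal.Quotient.mk I r))
      (by simp) (Polynomial.degree_X_pow_sub_C (by norm_num) _) hc
    obtain ⟨x, rfl⟩ := Ideal.Quotient.mk_surjective a
    obtain ⟨y, rfl⟩ := Ideal.Quotient.mk_surjective b
    refine ⟨⟨x - w * y, 2 * y⟩, ?_⟩
    rw [nm_xy_NSJ, ← Ideal.mem_span_singleton, ← hI, ← Ideal.Quotient.eq_zero_iff_mem]
    simp only [Polynomial.eval_pow, Polynomial.eval_X, Polynomial.eval_sub,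
      Polynomial.eval_C] at hab
    rw [map_sub, map_add, map_pow, map_pow, ← hab]
    ring

end ST6
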