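import Pool.Agent.ST6.Targets

set_option autoImplicit false

/-!
# MP_a901ae_nt, ST6-OK: the Pythagoras number of the biquadratic fields that contain `√3`
-/

open scoped NumberField

namespace ST6

open Matrix

namespace OKP

theorem mono {A : Type*} [CommRing A] {n : ℕ} {α : A} (h : P7.SumSq A n α) :
    P7.SumSq A (n + 1) α := by
  obtain ⟨f, hf⟩ := h
  refine ⟨Fin.cons 0 f, ?_⟩
  rw [Fin.sum_univ_succ]
  simp [hf]

/-- The field generated by a square root has degree at most two. -/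
theorem finrank_sqrt (x : ℝ) (n : ℕ) (hx : x ^ 2 = n) :
    FiniteDimensional ℚ (IntermediateField.adjoin ℚ {x}) ∧
      Module.finrank ℚ (IntermediateField.adjoin ℚ {x}) ≤ 2 := by
  have hm : (Polynomial.X ^ 2 - Polynomial.C (n : ℚ)).Monic :=
    Polynomial.monic_X_pow_sub_C _ (by norm_num)
  have hr : Polynomial.aeval x (Polynomial.X ^ 2 - Polynomial.C (n : ℚ)) = 0 := by
    simp [hx]
  have hi : IsIntegral ℚ x := ⟨_, hm, hr⟩
  refine ⟨IntermediateField.adjoin.finiteDimensional hi, ?_⟩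
  rw [IntermediateField.adjoin.finrank hi]
  have h1 := minpoly.min ℚ x hm hr
  have h2 := Polynomial.natDegree_le_natDegree h1
  rwa [Polynomial.natDegree_X_pow_sub_C] at h2

theorem finrank_biquad (p q : ℕ) : FiniteDimensional ℚ (P7.biquad p q) ∧
    Module.finrank ℚ (P7.biquad p q) ≤ 4 := by
  obtain ⟨h1, h2⟩ := finrank_sqrt (√(p : ℝ)) p (Real.sq_sqrt (Nat.cast_nonneg _))
  obtain ⟨h3, h4⟩ := finrank_sqrt (√(q : ℝ)) q (Real.sq_sqrt (Nat.cast_nonneg _))
  have h : P7.biquad p q = IntermediateField.adjoin ℚ {√(p : ℝ)} ⊔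
      IntermediateField.adjoin ℚ {√(q : ℝ)} := by
    unfold P7.biquad
    rw [← IntermediateField.adjoin_union]
    rfl
  rw [h]
  refine ⟨inferInstance, (IntermediateField.finrank_sup_le _ _).trans ?_⟩
  calc _ ≤ 2 * 2 := Nat.mul_le_mul h2 h4
    _ = 4 := rfl

/-- Coordinates of `R` over `ℤ`. -/
def coordR : R ≃ₗ[ℤ] (Fin 2 → ℤ) where
  toFun x := ![x.re, x.im]
  invFun v := ⟨v 0, v 1⟩
  map_add' x y := by
    ext i
    fin_cases i <;> simp
  map_smul' m x := by
    ext i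
    fin_cases i <;> simp
  left_inv x := by
    ext <;> simp
  right_inv v := by
    ext i
    fin_cases i <;> simp

theorem free_R : Module.Free ℤ R := Module.Free.of_equiv coordR.symm

theorem finrank_R : Module.finrank ℤ R = 2 := by
  rw [coordR.finrank_eq]
  simp

end OKP

open OKP in
theorem p_OK (h1 : T_PIR) (h2 : T_SIX) : T_OK := by
  intro K hK h3K
  have hfd : FiniteDimensional ℚ K ∧ Module.finrank ℚ K ≤ 4 := by
    obtain ⟨p, q, -, -, -, -, -, rfl⟩ := hK
    exact finrank_biquad p q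
  have := hfd.1
  have : NumberField K := ⟨⟩
  have : IsPrincipalIdealRing R := h1
  -- the square root of three
  have hinj : Function.Injective (algebraMap K ℝ) := (algebraMap K ℝ).injective
  have hint : IsIntegral ℤ (⟨√(3 : ℝ), h3K⟩ : K) := by
    refine (isIntegral_algebraMap_iff hinj).1 ?_
    refine ⟨Polynomial.X ^ 2 - Polynomial.C 3, Polynomial.monic_X_pow_sub_C _ (by norm_num), ?_⟩
    simp
  let s : 𝓞 K := ⟨⟨√(3 : ℝ), h3K⟩, hint⟩
  let ψ : 𝓞 K →+* ℝ := (algebraMap K ℝ).comp (algebraMap (𝓞 K) K)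
  have hψinj : Function.Injective ψ := hinj.comp NumberField.RingOfIntegers.coe_injective
  have hψs : ψ s = √(3 : ℝ) := rfl
  have hs : s * s = ((3 : ℤ) : 𝓞 K) := by
    apply hψinj
    rw [map_mul, map_intCast, hψs]
    norm_num
  let φ : R →+* 𝓞 K := Zsqrtd.lift ⟨s, hs⟩
  let : Algebra R (𝓞 K) := φ.toAlgebra
  have hφ : ∀ r : R, algebraMap R (𝓞 K) r = φ r := fun r => rfl
  have hψ : ∀ r : R, ψ (φ r) = e1 r := by
    intro r
    rw [e1_eq]
    have : φ r = (r.re : 𝓞 K) + (r.im : 𝓞 K) * s := rfl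
    rw [this, map_add, map_mul, map_intCast, map_intCast, hψs]
  have hφinj : Function.Injective φ := by
    rw [injective_iff_map_eq_zero]
    intro r hr
    apply e1_inj
    rw [← hψ, hr, map_zero]
  have : Module.Finite R (𝓞 K) := Module.Finite.of_restrictScalars_finite ℤ R (𝓞 K)
  have : Module.IsTorsionFree R (𝓞 K) := by
    rw [Module.isTorsionFree_iff_faithfulSMul, faithfulSMul_iff_algebraMap_injective]
    exact hφinj
  have : Module.Free R (𝓞 K) := inferInstance
  have := free_R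
  have hrank : Module.finrank R (𝓞 K) ≤ 2 := by
    have h := Module.finrank_mul_finrank ℤ R (𝓞 K)
    rw [finrank_R, NumberField.RingOfIntegers.rank] at h
    have := hfd.2
    omega
  -- two generators
  obtain ⟨ω1, ω2, hω⟩ : ∃ ω1 ω2 : 𝓞 K, ∀ x : 𝓞 K, ∃ r t : R, x = φ r * ω1 + φ t * ω2 := by
    have b := Module.finBasis R (𝓞 K)
    generalize Module.finrank R (𝓞 K) = m at hrank b
    have hb : ∀ x : 𝓞 K, x = ∑ i, φ (b.repr x i) * b i := by
      intro x
      have := (b.sum_repr x).symm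
      simpa only [Algebra.smul_def, hφ] using this
    interval_cases m
    · refine ⟨0, 0, fun x => ⟨0, 0, ?_⟩⟩
      rw [hb x]
      simp
    · refine ⟨b 0, 0, fun x => ⟨b.repr x 0, 0, ?_⟩⟩
      conv_lhs => rw [hb x]
      simp
    · refine ⟨b 0, b 1, fun x => ⟨b.repr x 0, b.repr x 1, ?_⟩⟩
      conv_lhs => rw [hb x]
      simp [Fin.sum_univ_two]
  -- the expansion of a sum of squares
  have hexp : ∀ (n : ℕ) (x y : Fin n → R), ∑ i, (φ (x i) * ω1 + φ (y i) * ω2) ^ 2 =
      φ (∑ i, x i ^ 2) * ω1 ^ 2 + 2 * φ (∑ i, x i * y i) * (ω1 * ω2) +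
        φ (∑ i, y i ^ 2) * ω2 ^ 2 := by
    intro n x y
    simp only [map_sum, map_mul, map_pow, Finset.sum_mul, Finset.mul_sum]
    rw [← Finset.sum_add_distrib, ← Finset.sum_add_distrib]
    refine Finset.sum_congr rfl fun i _ => ?_
    ring
  have hsix : ∀ (n : ℕ) (α : 𝓞 K), P7.SumSq (𝓞 K) n α → P7.SumSq (𝓞 K) 6 α := by
    rintro n α ⟨f, hf⟩
    choose x y hxy using fun i => hω (f i)
    obtain ⟨x', y', ha, hb, hc⟩ := h2 n _ _ _ ⟨x, y, rfl, rfl, rfl⟩
    refine ⟨fun i => φ (x' i) * ω1 + φ (y' i) * ω2, ?_⟩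
    rw [hexp, ha, hb, hc, ← hexp, hf]
    exact Finset.sum_congr rfl fun i _ => by rw [hxy i]
  unfold P7.pythagorasNumber
  apply iSup_le
  rintro ⟨α, n, hα⟩
  have h6 := hsix n α hα
  have : P7.len (𝓞 K) α ≤ 6 := Nat.sInf_le h6
  exact_mod_cast this

end ST6
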