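import Pool.Agent.ST6.Targets

set_option autoImplicit false

/-!
# MP_a901ae_nt: a totally positive unimodular even-coefficient ternary form represents `1`
-/

namespace ST6

open Matrix

/-- A nonzero vector is a multiple of a unimodular vector. -/
theorem gcd_ONE (h1 : T_PIR) (v : Fin 3 → R) (hv : v ≠ 0) :
    ∃ (g : R) (v1 u : Fin 3 → R), g ≠ 0 ∧ v = g • v1 ∧ u ⬝ᵥ v1 = 1 := by
  have : IsPrincipalIdealRing R := h1
  obtain ⟨g, hg⟩ := (IsPrincipalIdealRing.principal (Ideal.span (Set.range v))).principal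
  have hmem : ∀ i, ∃ c, v i = g * c := by
    intro i
    have h : v i ∈ Ideal.span (Set.range v) := Ideal.subset_span ⟨i, rfl⟩
    have h2 : v i ∈ Ideal.span {g} := by
      rw [hg] at h
      exact h
    obtain ⟨c, hc⟩ := Ideal.mem_span_singleton'.1 h2
    exact ⟨c, by rw [← hc, mul_comm]⟩
  choose v1 hv1 using hmem
  have hgm : g ∈ Ideal.span (Set.range v) := by
    rw [hg]
    exact Submodule.mem_span_singleton_self g
  obtain ⟨u, hu⟩ := Ideal.mem_span_range_iff_exists_fun.1 hgm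
  have hg0 : g ≠ 0 := by
    rintro rfl
    apply hv
    funext i
    simp [hv1 i]
  refine ⟨g, v1, u, hg0, ?_, ?_⟩
  · funext i
    simp [hv1 i]
  · apply mul_left_cancel₀ hg0
    rw [mul_one]
    conv_rhs => rw [← hu]
    rw [dotProduct, Finset.mul_sum]
    apply Finset.sum_congr rfl
    intro i _
    rw [hv1 i]
    ring

/-- The value of the ternary form in coordinates. -/
theorem Q3_ONE (a b c d e f x y z : R) :
    ![x, y, z] ⬝ᵥ (!![a, b, c; b, d, e; c, e, f] *ᵥ ![x, y, z]) =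
      a * x ^ 2 + d * y ^ 2 + f * z ^ 2 + 2 * (b * x * y + c * x * z + e * y * z) := by
  simp [dotProduct, mulVec, Fin.sum_univ_three]
  ring

/-- A symmetric matrix in coordinates. -/
theorem eta_ONE (X : Matrix (Fin 3) (Fin 3) R) (h : Xᵀ = X) :
    X = !![X 0 0, X 0 1, X 0 2; X 0 1, X 1 1, X 1 2; X 0 2, X 1 2, X 2 2] := by
  have h10 : X 1 0 = X 0 1 := by conv_rhs => rw [← h, transpose_apply]
  have h20 : X 2 0 = X 0 2 := by conv_rhs => rw [← h, transpose_apply]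
  have h21 : X 2 1 = X 1 2 := by conv_rhs => rw [← h, transpose_apply]
  apply Matrix.ext
  intro i j
  fin_cases i <;> fin_cases j <;> simp [h10, h20, h21]

/-- All values are `Ev`. -/
theorem Ev_ONE (X : Matrix (Fin 3) (Fin 3) R) (h : Xᵀ = X) (hE : ∀ i, Ev (X i i))
    (v : Fin 3 → R) : Ev (v ⬝ᵥ (X *ᵥ v)) := by
  have hv : v = ![v 0, v 1, v 2] := by
    funext i
    fin_cases i <;> rfl
  rw [hv, eta_ONE X h, Q3_ONE]
  exact Ev.add (Ev.add (Ev.add ((hE 0).mul (Ev_sq _)) ((hE 1).mul (Ev_sq _)))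
    ((hE 2).mul (Ev_sq _))) (Ev_two_mul _)

/-- `Tp` and `Ev` numbers with small trace. -/
theorem small_ONE {x : R} (hT : Tp x) (hE : Ev x) (h : x.re ≤ 3) : x = ⟨x.re, 0⟩ := by
  obtain ⟨h0, h1⟩ := hT
  obtain ⟨k, hk⟩ := hE
  have hk0 : k = 0 := by
    have h2 : 3 * x.im ^ 2 < 9 := by nlinarith
    rw [hk] at h2
    have h3 : k ^ 2 < 1 := by nlinarith
    have h4 : k ^ 2 = 0 := by
      have := sq_nonneg k
      omega
    exact pow_eq_zero_iff (by norm_num) |>.1 h4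
  apply Zsqrtd.ext
  · rfl
  · rw [hk, hk0]
    rfl

/-- Base change. -/
theorem base_ONE (X U : Matrix (Fin 3) (Fin 3) R) (v : Fin 3 → R) :
    v ⬝ᵥ ((Uᵀ * X * U) *ᵥ v) = (U *ᵥ v) ⬝ᵥ (X *ᵥ (U *ᵥ v)) := by
  rw [← mulVec_mulVec, ← mulVec_mulVec, dotProduct_mulVec, vecMul_transpose]

theorem PDbase_ONE (X U : Matrix (Fin 3) (Fin 3) R) (hX : PD X) (hU : U.det = 1) :
    PD (Uᵀ * X * U) := by
  refine ⟨?_, ?_⟩
  · rw [transpose_mul, transpose_mul, transpose_transpose, hX.1, Matrix.mul_assoc]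
  · intro v hv
    rw [base_ONE]
    apply hX.2
    intro h0
    apply hv
    have : U.adjugate *ᵥ (U *ᵥ v) = v := by
      rw [mulVec_mulVec, adjugate_mul, hU, one_smul, one_mulVec]
    rw [← this, h0, mulVec_zero]

theorem detbase_ONE (X U : Matrix (Fin 3) (Fin 3) R) (hX : X.det = 1) (hU : U.det = 1) :
    (Uᵀ * X * U).det = 1 := by
  rw [det_mul, det_mul, det_transpose, hX, hU]
  ring

theorem Evbase_ONE (X U : Matrix (Fin 3) (Fin 3) R) (hX : PD X) (hE : ∀ i, Ev (X i i))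
    (i : Fin 3) : Ev ((Uᵀ * X * U) i i) := by
  have h : (Uᵀ * X * U) i i =
      Pi.single i (1 : R) ⬝ᵥ ((Uᵀ * X * U) *ᵥ Pi.single i (1 : R)) := by
    simp
  rw [h, base_ONE]
  exact Ev_ONE X hX.1 hE _

/-- The first diagonal entry after a base change. -/
theorem zero_ONE (X U : Matrix (Fin 3) (Fin 3) R) (v : Fin 3 → R) (hU : ∀ i, U i 0 = v i) :
    (Uᵀ * X * U) 0 0 = v ⬝ᵥ (X *ᵥ v) := by
  have h : (Uᵀ * X * U) 0 0 =
      Pi.single 0 (1 : R) ⬝ᵥ ((Uᵀ * X * U) *ᵥ Pi.single 0 (1 : R)) := by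
    simp
  rw [h, base_ONE]
  have : U *ᵥ Pi.single 0 (1 : R) = v := by
    funext i
    simp [hU i]
  rw [this]

/-- The last step: the span of two vectors is `(2, w; w, 2)`. -/
theorem last_ONE (X : Matrix (Fin 3) (Fin 3) R) (hX : Xᵀ = X) (hd : X.det = 1)
    (h00 : X 0 0 = 2) (h01 : X 0 1 = w) (h11 : X 1 1 = 2) :
    ∃ v : Fin 3 → R, v ⬝ᵥ (X *ᵥ v) = 1 := by
  rw [eta_ONE X hX] at hd ⊢
  generalize X 0 2 = α at *
  generalize X 1 2 = β at *
  generalize X 2 2 = γ at *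
  rw [h00, h01, h11] at hd ⊢
  refine ⟨![-(2 * α - w * β), -(2 * β - w * α), 1], ?_⟩
  rw [Q3_ONE]
  rw [det_fin_three] at hd
  simp at hd
  have hw := w_sq
  linear_combination hd + (γ - 2 * α ^ 2 - 2 * β ^ 2 + 2 * w * α * β) * hw

theorem Tp_two_ONE : Tp (2 : R) := by
  constructor <;> simp

theorem Tp_three_ONE : Tp (3 : R) := by
  constructor <;> simp

/-- The case of a basis vector with value `2`. -/
theorem case2_ONE (h4 : T_DT2) (h5 : T_CPL) (X : Matrix (Fin 3) (Fin 3) R) (hX : PD X)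
    (hd : X.det = 1) (h00 : X 0 0 = 2) :
    ∃ v : Fin 3 → R, v ⬝ᵥ (X *ᵥ v) = 1 := by
  have hXe := eta_ONE X hX.1
  obtain ⟨b1, hb1⟩ : ∃ b1, b1 = X 0 1 := ⟨_, rfl⟩
  obtain ⟨b2, hb2⟩ : ∃ b2, b2 = X 0 2 := ⟨_, rfl⟩
  obtain ⟨p, hp⟩ : ∃ p, p = X 1 1 := ⟨_, rfl⟩
  obtain ⟨r, hr⟩ : ∃ r, r = X 1 2 := ⟨_, rfl⟩
  obtain ⟨s, hs⟩ : ∃ s, s = X 2 2 := ⟨_, rfl⟩
  rw [← hb1, ← hb2, ← hp, ← hr, ← hs, h00] at hXe
  have hd' : 2 * p * s - 2 * r * r - b1 * b1 * s + b1 * r * b2 + b2 * b1 * r - b2 * p * b2 = 1 := by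
    rw [hXe, det_fin_three] at hd
    simpa using hd
  have hQ : ∀ x y z : R, ![x, y, z] ⬝ᵥ (X *ᵥ ![x, y, z]) =
      2 * x ^ 2 + p * y ^ 2 + s * z ^ 2 + 2 * (b1 * x * y + b2 * x * z + r * y * z) := by
    intro x y z
    rw [hXe, Q3_ONE]
  have hS00 : Tp (2 * p - b1 ^ 2) := by
    have h := hX.2 ![-b1, 2, 0] (by
      intro h0
      have := congrFun h0 1
      simp at this)
    rw [hQ] at h
    apply Tp.of_mul Tp_two_ONE
    convert h using 1
    ring
  obtain ⟨x, y, hxy⟩ := h4 (2 * p - b1 ^ 2) (2 * r - b1 * b2) (2 * s - b2 ^ 2)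
    ((Ev_two_mul _).sub (Ev_sq _)) ((Ev_two_mul _).sub (Ev_sq _)) hS00
    (by linear_combination 2 * hd')
  have hkey : ∀ t : R, 2 * (![t, x, y] ⬝ᵥ (X *ᵥ ![t, x, y])) =
      1 + (2 * t + (b1 * x + b2 * y)) ^ 2 := by
    intro t
    rw [hQ]
    linear_combination hxy
  have hodd : Od (b1 * x + b2 * y) := by
    rw [Od_iff_not]
    intro hen
    have h := hkey 0
    have h1 : En (1 : R) := by
      have h2 : (1 : R) = 2 * (![0, x, y] ⬝ᵥ (X *ᵥ ![0, x, y])) +
          -(b1 * x + b2 * y) * (b1 * x + b2 * y) := by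
        rw [h]
        ring
      rw [h2]
      apply En.add
      · rw [mul_comm]
        apply En.mul_left
        unfold En
        simp
      · exact En.mul_left _ hen
    unfold En at h1
    simp at h1
  obtain ⟨t, ht⟩ : ∃ t : R, 2 * t + (b1 * x + b2 * y) = 1 ∨ 2 * t + (b1 * x + b2 * y) = w := by
    generalize b1 * x + b2 * y = c at hodd
    unfold Od at hodd
    rcases Int.even_or_odd' c.re with ⟨k, hk | hk⟩ <;>
      rcases Int.even_or_odd' c.im with ⟨l, hl | hl⟩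
    · exfalso
      rw [hk, hl] at hodd
      obtain ⟨m, hm⟩ := hodd
      omega
    · refine ⟨⟨-k, -l⟩, Or.inr ?_⟩
      apply Zsqrtd.ext
      · simp [w, hk]
      · simp [w, hl]
    · refine ⟨⟨-k, -l⟩, Or.inl ?_⟩
      apply Zsqrtd.ext
      · simp [hk]
      · simp [hl]
    · exfalso
      rw [hk, hl] at hodd
      obtain ⟨m, hm⟩ := hodd
      omega
  have htwo : (2 : R) ≠ 0 := Tp_two_ONE.ne
  rcases ht with ht | ht
  · refine ⟨![t, x, y], ?_⟩
    apply mul_left_cancel₀ htwo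
    rw [hkey, ht]
    ring
  · have hQ2 : ![t, x, y] ⬝ᵥ (X *ᵥ ![t, x, y]) = 2 := by
      apply mul_left_cancel₀ htwo
      rw [hkey, ht]
      linear_combination w_sq
    obtain ⟨W, hW, hWi⟩ := h5.1 ![x, y]
      ![(2 * p - b1 ^ 2) * x + 2 * (2 * r - b1 * b2) * y, (2 * s - b2 ^ 2) * y] (by
        simp [dotProduct, Fin.sum_univ_two]
        linear_combination hxy)
    have hW0 : W 0 0 = x := by simpa using hWi 0
    have hW1 : W 1 0 = y := by simpa using hWi 1
    rw [det_fin_two, hW0, hW1] at hW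
    have hU : (!![1, t, 0; 0, x, W 0 1; 0, y, W 1 1]).det = 1 := by
      rw [det_fin_three]
      simp
      linear_combination hW
    obtain ⟨v, hv⟩ := last_ONE (!![1, t, 0; 0, x, W 0 1; 0, y, W 1 1]ᵀ * X *
      !![1, t, 0; 0, x, W 0 1; 0, y, W 1 1]) (PDbase_ONE X _ hX hU).1
      (detbase_ONE X _ hd hU) (by
        rw [hXe]
        simp [Matrix.mul_apply, Fin.sum_univ_three]) (by
        rw [hXe]
        simp [Matrix.mul_apply, Fin.sum_univ_three]
        linear_combination ht) (by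
        rw [hQ] at hQ2
        rw [hXe]
        simp [Matrix.mul_apply, Fin.sum_univ_three]
        linear_combination hQ2)
    exact ⟨_, by rw [← hv, base_ONE]⟩

/-- The case of a basis vector with value `3`. -/
theorem case3_ONE (h3 : T_MIN2) (X : Matrix (Fin 3) (Fin 3) R) (hX : PD X)
    (hd : X.det = 1) (h00 : X 0 0 = 3) :
    ∃ v : Fin 3 → R, v ≠ 0 ∧ (v ⬝ᵥ (X *ᵥ v)).re ≤ 2 := by
  have hXe := eta_ONE X hX.1
  obtain ⟨b1, hb1⟩ : ∃ b1, b1 = X 0 1 := ⟨_, rfl⟩
  obtain ⟨b2, hb2⟩ : ∃ b2, b2 = X 0 2 := ⟨_, rfl⟩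
  obtain ⟨p, hp⟩ : ∃ p, p = X 1 1 := ⟨_, rfl⟩
  obtain ⟨r, hr⟩ : ∃ r, r = X 1 2 := ⟨_, rfl⟩
  obtain ⟨s, hs⟩ : ∃ s, s = X 2 2 := ⟨_, rfl⟩
  rw [← hb1, ← hb2, ← hp, ← hr, ← hs, h00] at hXe
  have hd' : 3 * p * s - 3 * r * r - b1 * b1 * s + b1 * r * b2 + b2 * b1 * r - b2 * p * b2 = 1 := by
    rw [hXe, det_fin_three] at hd
    simpa using hd
  have hQ : ∀ x y z : R, ![x, y, z] ⬝ᵥ (X *ᵥ ![x, y, z]) =
      3 * x ^ 2 + p * y ^ 2 + s * z ^ 2 + 2 * (b1 * x * y + b2 * x * z + r * y * z) := by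
    intro x y z
    rw [hXe, Q3_ONE]
  have hthree : (3 : R) ≠ 0 := Tp_three_ONE.ne
  have hSv : ∀ v : Fin 2 → R, v ⬝ᵥ (!![3 * p - b1 ^ 2, 3 * r - b1 * b2;
      3 * r - b1 * b2, 3 * s - b2 ^ 2] *ᵥ v) = (3 * p - b1 ^ 2) * v 0 ^ 2 +
        2 * (3 * r - b1 * b2) * v 0 * v 1 + (3 * s - b2 ^ 2) * v 1 ^ 2 := by
    intro v
    simp [dotProduct, mulVec, Fin.sum_univ_two]
    ring
  have hS : PD !![3 * p - b1 ^ 2, 3 * r - b1 * b2; 3 * r - b1 * b2, 3 * s - b2 ^ 2] := by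
    refine ⟨?_, ?_⟩
    · apply Matrix.ext
      intro i j
      fin_cases i <;> fin_cases j <;> simp
    · intro v hv
      have h := hX.2 ![-(b1 * v 0 + b2 * v 1), 3 * v 0, 3 * v 1] (by
        intro h0
        apply hv
        have h01 := congrFun h0 1
        have h02 := congrFun h0 2
        simp at h01 h02
        funext i
        fin_cases i
        · exact h01
        · exact h02)
      rw [hQ] at h
      apply Tp.of_mul Tp_three_ONE
      rw [hSv]
      convert h using 1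
      ring
  obtain ⟨v, hv0, hv⟩ := h3 _ hS
  have hdS : (!![3 * p - b1 ^ 2, 3 * r - b1 * b2; 3 * r - b1 * b2, 3 * s - b2 ^ 2]).det = 3 := by
    rw [det_fin_two]
    simp
    linear_combination 3 * hd'
  have hn3 : (3 : R).norm = 9 := by
    rw [norm_eq]
    simp
  rw [hdS, hn3] at hv
  have hpos := (hS.2 v hv0).1
  rw [hSv] at hv hpos
  obtain ⟨σ, hσ⟩ : ∃ σ, σ = (3 * p - b1 ^ 2) * v 0 ^ 2 +
    2 * (3 * r - b1 * b2) * v 0 * v 1 + (3 * s - b2 ^ 2) * v 1 ^ 2 := ⟨_, rfl⟩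
  rw [← hσ] at hv hpos
  have hr4 : σ.re ≤ 4 := by
    by_contra hcon
    have h5 : 5 ≤ σ.re := by omega
    have h6 : 5 ^ 4 ≤ σ.re ^ 4 := pow_le_pow_left₀ (by norm_num) h5 4
    norm_num at h6
    omega
  obtain ⟨c, hc⟩ : ∃ c, c = b1 * v 0 + b2 * v 1 := ⟨_, rfl⟩
  have hkey : ∀ t : R, 3 * (![t, v 0, v 1] ⬝ᵥ (X *ᵥ ![t, v 0, v 1])) =
      σ + (3 * t + c) ^ 2 := by
    intro t
    rw [hQ, hσ, hc]
    ring
  refine ⟨![⟨-((c.re + 1) / 3), -((c.im + 1) / 3)⟩, v 0, v 1], ?_, ?_⟩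
  · intro h0
    apply hv0
    have h01 := congrFun h0 1
    have h02 := congrFun h0 2
    simp at h01 h02
    funext i
    fin_cases i
    · exact h01
    · exact h02
  · have hk := congrArg Zsqrtd.re (hkey ⟨-((c.re + 1) / 3), -((c.im + 1) / 3)⟩)
    have hl : (3 * (![⟨-((c.re + 1) / 3), -((c.im + 1) / 3)⟩, v 0, v 1] ⬝ᵥ
        (X *ᵥ ![⟨-((c.re + 1) / 3), -((c.im + 1) / 3)⟩, v 0, v 1]))).re =
        3 * (![⟨-((c.re + 1) / 3), -((c.im + 1) / 3)⟩, v 0, v 1] ⬝ᵥ
        (X *ᵥ ![⟨-((c.re + 1) / 3), -((c.im + 1) / 3)⟩, v 0, v 1])).re := by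
      simp
    rw [hl] at hk
    obtain ⟨e, he⟩ : ∃ e : R, e = 3 * ⟨-((c.re + 1) / 3), -((c.im + 1) / 3)⟩ + c := ⟨_, rfl⟩
    rw [← he] at hk
    have her : e.re = c.re - 3 * ((c.re + 1) / 3) := by
      rw [he]
      simp
      ring
    have hei : e.im = c.im - 3 * ((c.im + 1) / 3) := by
      rw [he]
      simp
      ring
    have h1 : -1 ≤ e.re ∧ e.re ≤ 1 := by omega
    have h2 : -1 ≤ e.im ∧ e.im ≤ 1 := by omega
    have h3 : (σ + e ^ 2).re = σ.re + (e.re ^ 2 + 3 * e.im ^ 2) := by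
      simp [pow_two]
      ring
    rw [h3] at hk
    have h4 : e.re ^ 2 ≤ 1 := by nlinarith [h1.1, h1.2]
    have h5 : e.im ^ 2 ≤ 1 := by nlinarith [h2.1, h2.2]
    omega

/-- The norm of the square times a totally positive number. -/
theorem normsq_ONE {g q n : R} (h : g ^ 2 * q = n) :
    g.norm ^ 2 * q.norm = n.norm := by
  rw [← h, Zsqrtd.norm_mul, pow_two g, Zsqrtd.norm_mul, pow_two]

/-- The values at multiples. -/
theorem smul_ONE (X : Matrix (Fin 3) (Fin 3) R) (g : R) (v : Fin 3 → R) :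
    (g • v) ⬝ᵥ (X *ᵥ (g • v)) = g ^ 2 * (v ⬝ᵥ (X *ᵥ v)) := by
  rw [mulVec_smul, smul_dotProduct, dotProduct_smul, smul_eq_mul, smul_eq_mul, pow_two, mul_assoc]

/-- A multiple of a unimodular vector by a unit is unimodular. -/
theorem unit_ONE {g : R} {v1 u : Fin 3 → R} (hg : g.norm = 1 ∨ g.norm = -1)
    (hu : u ⬝ᵥ v1 = 1) : ∃ u' : Fin 3 → R, u' ⬝ᵥ (g • v1) = 1 := by
  have hU : IsUnit g := by
    rw [Zsqrtd.isUnit_iff_norm_isUnit]
    rcases hg with h | h
    · rw [h]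
      exact isUnit_one
    · rw [h]
      exact isUnit_one.neg
  obtain ⟨k, hk⟩ := hU.exists_left_inv
  refine ⟨k • u, ?_⟩
  rw [smul_dotProduct, dotProduct_smul, hu, smul_eq_mul, smul_eq_mul, mul_one, hk]

/-- The small values of squares. -/
theorem sqcases_ONE {n m : ℤ} (hm : 0 < m) {N : ℤ} (hN : N ≤ 9) (hn : n ^ 2 * m = N) :
    -3 ≤ n ∧ n ≤ 3 := by
  have h1 : n ^ 2 ≤ 9 := by nlinarith [sq_nonneg n]
  constructor <;> nlinarith

/-- ONE: a unimodular ternary form represents `1`. -/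
theorem p_ONE (h1 : T_PIR) (h2 : T_MIN3) (h3 : T_MIN2) (h4 : T_DT2) (h5 : T_CPL) : T_ONE := by
  intro X hX hd hE
  by_cases hsmall : ∃ v : Fin 3 → R, v ≠ 0 ∧ (v ⬝ᵥ (X *ᵥ v)).re ≤ 2
  · obtain ⟨v, hv0, hv⟩ := hsmall
    have hT := hX.2 v hv0
    have hEv := Ev_ONE X hX.1 hE v
    have hs := small_ONE hT hEv (by omega)
    have hpos := hT.1
    have hre : (v ⬝ᵥ (X *ᵥ v)).re = 1 ∨ (v ⬝ᵥ (X *ᵥ v)).re = 2 := by omega
    rcases hre with hre | hre
    · refine ⟨v, ?_⟩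
      rw [hs, hre]
      rfl
    · rw [hre] at hs
      have hs2 : v ⬝ᵥ (X *ᵥ v) = 2 := by
        rw [hs]
        rfl
      obtain ⟨g, v1, u, hg0, hvg, hu⟩ := gcd_ONE h1 v hv0
      rw [hvg, smul_ONE] at hs2
      have hv10 : v1 ≠ 0 := by
        rintro rfl
        simp at hu
      have hT1 := hX.2 v1 hv10
      have hE1 := Ev_ONE X hX.1 hE v1
      obtain ⟨q, hq⟩ : ∃ q, q = v1 ⬝ᵥ (X *ᵥ v1) := ⟨_, rfl⟩
      rw [← hq] at hs2 hT1 hE1
      have hN := normsq_ONE hs2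
      have hn2 : (2 : R).norm = 4 := by
        rw [norm_eq]
        simp
      rw [hn2] at hN
      have hqn := hT1.norm_pos
      obtain ⟨hg1, hg2⟩ := sqcases_ONE hqn (by norm_num) hN
      have hne0 : g.norm ≠ 0 := fun h => hg0 ((norm_eq_zero_iff g).1 h)
      have hu1 : g.norm = 1 ∨ g.norm = -1 := by
        by_contra hcon
        push Not at hcon
        have hev : g.norm = 2 ∨ g.norm = -2 ∨ g.norm = 3 ∨ g.norm = -3 := by omega
        have hgn := norm_eq g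
        have hsre := congrArg Zsqrtd.re hs2
        have hre2 : (g ^ 2 * q).re = (g.re ^ 2 + 3 * g.im ^ 2) * q.re +
            3 * (2 * (g.re * g.im)) * q.im := by
          simp [pow_two]
          ring
        have hr2 : (2 : R).re = 2 := by simp
        rw [hre2, hr2] at hsre
        obtain ⟨m, hm⟩ := hE1
        rcases hev with h | h | h | h
        · exfalso
          rw [h] at hgn
          have h3 : (g.re ^ 2) % 3 = 2 := by omega
          rcases (by omega : g.re % 3 = 0 ∨ g.re % 3 = 1 ∨ g.re % 3 = 2) with h4 | h4 | h4 <;>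
            simp [pow_two, Int.mul_emod, h4] at h3
        · rw [h] at hgn
          have hmod : (g.re ^ 2 + 3 * g.im ^ 2) % 4 = 0 := by
            rcases Int.even_or_odd' g.re with ⟨k, hk | hk⟩ <;>
            rcases Int.even_or_odd' g.im with ⟨l, hl | hl⟩
            · exfalso
              rw [hk, hl] at hgn
              ring_nf at hgn
              omega
            · exfalso
              rw [hk, hl] at hgn
              ring_nf at hgn
              omega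
            · exfalso
              rw [hk, hl] at hgn
              ring_nf at hgn
              omega
            · rw [hk, hl]
              ring_nf
              omega
          obtain ⟨j, hj⟩ := Int.dvd_of_emod_eq_zero hmod
          rw [hj, hm] at hsre
          have : 4 * (j * q.re + 3 * (g.re * g.im * m)) = 2 := by linarith
          omega
        · rw [h] at hN
          omega
        · rw [h] at hN
          omega
      obtain ⟨u', hu'⟩ := unit_ONE hu1 hu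
      rw [← hvg] at hu'
      obtain ⟨U, hU, hUi⟩ := h5.2 v u' hu'
      obtain ⟨z, hz⟩ := case2_ONE h4 h5 (Uᵀ * X * U) (PDbase_ONE X U hX hU)
        (detbase_ONE X U hd hU) (by
          rw [zero_ONE X U v hUi, hvg, smul_ONE, ← hq, hs2])
      exact ⟨_, by rw [← hz, base_ONE]⟩
  · exfalso
    push Not at hsmall
    obtain ⟨v, hv0, hv⟩ := h2 X hX hd
    have hT := hX.2 v hv0
    have hEv := Ev_ONE X hX.1 hE v
    have hs := small_ONE hT hEv hv
    have hre : (v ⬝ᵥ (X *ᵥ v)).re = 3 := by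
      have := hsmall v hv0
      omega
    rw [hre] at hs
    have hs2 : v ⬝ᵥ (X *ᵥ v) = 3 := by
      rw [hs]
      rfl
    obtain ⟨g, v1, u, hg0, hvg, hu⟩ := gcd_ONE h1 v hv0
    rw [hvg, smul_ONE] at hs2
    have hv10 : v1 ≠ 0 := by
      rintro rfl
      simp at hu
    have hT1 := hX.2 v1 hv10
    obtain ⟨q, hq⟩ : ∃ q, q = v1 ⬝ᵥ (X *ᵥ v1) := ⟨_, rfl⟩
    rw [← hq] at hs2 hT1
    have hN := normsq_ONE hs2
    have hn3 : (3 : R).norm = 9 := by
      rw [norm_eq]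
      simp
    rw [hn3] at hN
    have hqn := hT1.norm_pos
    obtain ⟨hg1, hg2⟩ := sqcases_ONE hqn (by norm_num) hN
    have hne0 : g.norm ≠ 0 := fun h => hg0 ((norm_eq_zero_iff g).1 h)
    have hu1 : g.norm = 1 ∨ g.norm = -1 := by
      by_contra hcon
      push Not at hcon
      have hev : g.norm = 2 ∨ g.norm = -2 ∨ g.norm = 3 ∨ g.norm = -3 := by omega
      have hgn := norm_eq g
      have hgre : g.norm = 3 ∨ g.norm = -3 := by
        rcases hev with h | h | h | h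
        · rw [h] at hN
          omega
        · rw [h] at hN
          omega
        · exact Or.inl h
        · exact Or.inr h
      have h3 : (g.re ^ 2) % 3 = 0 := by omega
      have h4 : g.re % 3 = 0 := by
        rcases (by omega : g.re % 3 = 0 ∨ g.re % 3 = 1 ∨ g.re % 3 = 2) with h4 | h4 | h4
        · exact h4
        · simp [pow_two, Int.mul_emod, h4] at h3
        · simp [pow_two, Int.mul_emod, h4] at h3
      obtain ⟨a, ha⟩ := Int.dvd_of_emod_eq_zero h4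
      have hgη : g = w * ⟨g.im, a⟩ := by
        apply Zsqrtd.ext
        · simp [w, ha]
        · simp [w]
      have hη : (⟨g.im, a⟩ : R) ^ 2 * q = 1 := by
        apply mul_left_cancel₀ Tp_three_ONE.ne
        have h5' := hs2
        rw [hgη] at h5'
        linear_combination h5' - ((⟨g.im, a⟩ : R) ^ 2 * q) * w_sq
      have hη0 : (⟨g.im, a⟩ : R) • v1 ≠ 0 := by
        intro h0
        rcases smul_eq_zero.1 h0 with h | h
        · rw [h] at hη
          simp at hη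
        · exact hv10 h
      have := hsmall _ hη0
      rw [smul_ONE, ← hq, hη] at this
      simp at this
    obtain ⟨u', hu'⟩ := unit_ONE hu1 hu
    rw [← hvg] at hu'
    obtain ⟨U, hU, hUi⟩ := h5.2 v u' hu'
    obtain ⟨z, hz0, hz⟩ := case3_ONE h3 (Uᵀ * X * U) (PDbase_ONE X U hX hU)
      (detbase_ONE X U hd hU) (by
        rw [zero_ONE X U v hUi, hvg, smul_ONE, ← hq, hs2])
    rw [base_ONE] at hz
    have hUz : U *ᵥ z ≠ 0 := by
      intro h0
      apply hz0
      have : U.adjugate *ᵥ (U *ᵥ z) = z := by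
        rw [mulVec_mulVec, adjugate_mul, hU, one_smul, one_mulVec]
      rw [← this, h0, mulVec_zero]
    have := hsmall _ hUz
    omega

end ST6
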