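import Pool.Agent.ST6.Targets

/-!
# ST6: the criterion of Sylvester
-/

set_option autoImplicit false

namespace ST6

open Matrix

theorem bin_PDS (a b c : R) (ha : Tp a) (hd : Tp (a * c - b ^ 2)) (x y : R)
    (h : ¬(x = 0 ∧ y = 0)) : Tp (a * x ^ 2 + 2 * b * x * y + c * y ^ 2) := by
  apply Tp.of_mul ha
  by_cases hy : y = 0
  · have hx : x ≠ 0 := fun hx => h ⟨hx, hy⟩
    have e : a * (a * x ^ 2 + 2 * b * x * y + c * y ^ 2) = (a * x) ^ 2 := by
      rw [hy]
      ring
    rw [e]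
    exact Tp_sq (mul_ne_zero ha.ne hx)
  · have e : a * (a * x ^ 2 + 2 * b * x * y + c * y ^ 2) =
        (a * c - b ^ 2) * y ^ 2 + (a * x + b * y) ^ 2 := by ring
    rw [e]
    exact Tp.add (Tp.mul hd (Tp_sq hy)) (Tn_sq _)

theorem tern_PDS (a b c d e f : R) (ha : Tp a) (hd : Tp (a * d - b ^ 2))
    (hD : Tp (a * d * f + 2 * b * c * e - a * e ^ 2 - b ^ 2 * f - c ^ 2 * d)) (x y z : R)
    (h : ¬(x = 0 ∧ y = 0 ∧ z = 0)) :
    Tp (a * x ^ 2 + d * y ^ 2 + f * z ^ 2 + 2 * b * x * y + 2 * c * x * z + 2 * e * y * z) := by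
  apply Tp.of_mul ha
  by_cases hyz : y = 0 ∧ z = 0
  · have hx : x ≠ 0 := fun hx => h ⟨hx, hyz⟩
    have e' : a * (a * x ^ 2 + d * y ^ 2 + f * z ^ 2 + 2 * b * x * y + 2 * c * x * z +
        2 * e * y * z) = (a * x) ^ 2 := by
      rw [hyz.1, hyz.2]
      ring
    rw [e']
    exact Tp_sq (mul_ne_zero ha.ne hx)
  · have e' : a * (a * x ^ 2 + d * y ^ 2 + f * z ^ 2 + 2 * b * x * y + 2 * c * x * z +
        2 * e * y * z) = ((a * d - b ^ 2) * y ^ 2 + 2 * (a * e - b * c) * y * z +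
          (a * f - c ^ 2) * z ^ 2) + (a * x + b * y + c * z) ^ 2 := by ring
    rw [e']
    refine Tp.add (bin_PDS _ _ _ hd ?_ y z hyz) (Tn_sq _)
    have e2 : (a * d - b ^ 2) * (a * f - c ^ 2) - (a * e - b * c) ^ 2 =
        a * (a * d * f + 2 * b * c * e - a * e ^ 2 - b ^ 2 * f - c ^ 2 * d) := by ring
    rw [e2]
    exact Tp.mul ha hD

theorem p_PDS : T_PDS := by
  refine ⟨?_, ?_⟩
  · intro a b c ha hd
    refine ⟨?_, ?_⟩
    · apply Matrix.ext
      intro i j
      fin_cases i <;> fin_cases j <;> rfl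
    · intro v hv
      have e : v ⬝ᵥ (!![a, b; b, c] *ᵥ v) =
          a * v 0 ^ 2 + 2 * b * v 0 * v 1 + c * v 1 ^ 2 := by
        simp [Matrix.mulVec, dotProduct, Fin.sum_univ_two]
        ring
      rw [e]
      apply bin_PDS a b c ha hd
      rintro ⟨h0, h1⟩
      apply hv
      funext i
      fin_cases i
      · exact h0
      · exact h1
  · intro a b c d e f ha hd hD
    refine ⟨?_, ?_⟩
    · apply Matrix.ext
      intro i j
      fin_cases i <;> fin_cases j <;> rfl
    · intro v hv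
      have e' : v ⬝ᵥ (!![a, b, c; b, d, e; c, e, f] *ᵥ v) =
          a * v 0 ^ 2 + d * v 1 ^ 2 + f * v 2 ^ 2 + 2 * b * v 0 * v 1 + 2 * c * v 0 * v 2 +
            2 * e * v 1 * v 2 := by
        simp [Matrix.mulVec, dotProduct, Fin.sum_univ_three]
        ring
      rw [e']
      have hD' : (!![a, b, c; b, d, e; c, e, f]).det =
          a * d * f + 2 * b * c * e - a * e ^ 2 - b ^ 2 * f - c ^ 2 * d := by
        rw [Matrix.det_fin_three]
        simp
        ring
      rw [hD'] at hD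
      apply tern_PDS a b c d e f ha hd hD
      rintro ⟨h0, h1, h2⟩
      apply hv
      funext i
      fin_cases i
      · exact h0
      · exact h1
      · exact h2

end ST6
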