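import Pool.Agent.ST6.Targets

set_option autoImplicit false

/-!
# MP_a901ae_nt, target PIO: `ℤ[ζ₁₂]` is a principal ideal ring
-/

namespace ST6

theorem nonneg_PIO (z : O) : 0 ≤ (nm z).norm := by
  rw [norm_eq]
  linarith [(Tn_nm z).2]

theorem zero_PIO (z : O) : (nm z).norm = 0 ↔ z = 0 := by
  rw [norm_eq_zero_iff, nm_eq_zero_iff]

theorem mul_PIO (y z : O) : (nm (y * z)).norm = (nm y).norm * (nm z).norm := by
  rw [nm_mul, Zsqrtd.norm_mul]

theorem div_PIO (h1 : T_COV) (x y : O) (hy : y ≠ 0) :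
    ∃ q : O, (nm (x - y * q)).norm < (nm y).norm := by
  obtain ⟨n, hn⟩ : ∃ n : ℤ, n = (nm y).norm := ⟨_, rfl⟩
  have hn0 : 0 < n := by
    rw [hn]
    exact lt_of_le_of_ne (nonneg_PIO y) fun h => hy ((zero_PIO y).1 h.symm)
  obtain ⟨q, hq⟩ := h1 1 n (x * star y * algebraMap R O (star (nm y))) Tp_one hn0
  refine ⟨q, ?_⟩
  have hN : (n : O) = y * star y * algebraMap R O (star (nm y)) := by
    rw [mul_comm y (star y), star_mul_self_eq, ← map_mul, ← Zsqrtd.norm_eq_mul_conj, ← hn,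
      map_intCast]
  have hz : x * star y * algebraMap R O (star (nm y)) - (n : O) * q =
      (x - y * q) * (star y * algebraMap R O (star (nm y))) := by
    rw [hN]
    ring
  rw [hz, one_mul] at hq
  have hNz : (nm ((x - y * q) * (star y * algebraMap R O (star (nm y))))).norm =
      (nm (x - y * q)).norm * n ^ 3 := by
    rw [mul_PIO, mul_PIO, nm_star, nm_algebraMap, pow_two, Zsqrtd.norm_mul, Zsqrtd.norm_conj,
      ← hn]
    ring
  have hT := Tn_nm ((x - y * q) * (star y * algebraMap R O (star (nm y))))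
  generalize nm ((x - y * q) * (star y * algebraMap R O (star (nm y)))) = Z at hq hNz hT
  generalize (nm (x - y * q)).norm = m at hNz
  rw [← hn]
  have h2 : Z.norm ≤ Z.re ^ 2 := by
    rw [norm_eq]
    nlinarith [sq_nonneg Z.im]
  have h3 : 3 * Z.re ≤ 2 * n ^ 2 := by
    have h4 : (1 : R).re = 1 := rfl
    rw [h4] at hq
    linarith
  have h5 : (3 * Z.re) ^ 2 ≤ (2 * n ^ 2) ^ 2 :=
    pow_le_pow_left₀ (by linarith [hT.1]) h3 2
  have h6 : 9 * (m * n ^ 3) ≤ 4 * n * n ^ 3 := by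
    rw [← hNz]
    nlinarith
  have h7 : 0 < n ^ 3 := pow_pos hn0 3
  have h8 : 9 * m ≤ 4 * n := by
    by_contra hcon
    push Not at hcon
    nlinarith
  by_contra hcon
  push Not at hcon
  linarith

theorem p_PIO (h1 : T_COV) : T_PIO := by
  classical
  refine ⟨fun I => ?_⟩
  by_cases hI : I = ⊥
  · exact ⟨⟨0, by rw [hI]; simp⟩⟩
  · obtain ⟨y0, hy0, hy0'⟩ := Submodule.exists_mem_ne_zero_of_ne_bot hI
    have hex : ∃ m : ℕ, ∃ y : O, y ∈ I ∧ y ≠ 0 ∧ (nm y).norm = m :=
      ⟨(nm y0).norm.toNat, y0, hy0, hy0', (Int.toNat_of_nonneg (nonneg_PIO y0)).symm⟩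
    obtain ⟨y, hyI, hy, hm⟩ := Nat.find_spec hex
    have hmin : ∀ z : O, z ∈ I → z ≠ 0 → (nm y).norm ≤ (nm z).norm := by
      intro z hz hz'
      have h2 := Nat.find_min' hex
        ⟨z, hz, hz', (Int.toNat_of_nonneg (nonneg_PIO z)).symm⟩
      rw [hm]
      have h3 := nonneg_PIO z
      omega
    refine ⟨⟨y, le_antisymm (fun x hx => ?_) ?_⟩⟩
    · obtain ⟨q, hq⟩ := div_PIO h1 x y hy
      have h4 : x - y * q ∈ I := I.sub_mem hx (I.mul_mem_right q hyI)
      have h5 : x - y * q = 0 := by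
        by_contra h6
        have := hmin _ h4 h6
        linarith
      rw [Ideal.submodule_span_eq, Ideal.mem_span_singleton]
      exact ⟨q, by linear_combination h5⟩
    · rw [Ideal.submodule_span_eq, Ideal.span_singleton_le_iff_mem]
      exact hyI

end ST6
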