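import Pool.Agent.ST6.Targets

set_option autoImplicit false

namespace ST6

theorem round_PIR (a N : ℤ) (hN : N ≠ 0) : ∃ q : ℤ, 2 * |a - N * q| ≤ |N| := by
  refine ⟨round ((a : ℚ) / N), ?_⟩
  have h := abs_sub_round ((a : ℚ) / N)
  have hN' : (N : ℚ) ≠ 0 := by exact_mod_cast hN
  have hp : 0 < |(N : ℚ)| := abs_pos.2 hN'
  have h2 : |(a : ℚ) - N * (round ((a : ℚ) / N) : ℤ)| =
      |(a : ℚ) / N - (round ((a : ℚ) / N) : ℤ)| * |(N : ℚ)| := by
    rw [← abs_mul]
    congr 1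
    field_simp
  have h3 : 2 * |(a : ℚ) - N * (round ((a : ℚ) / N) : ℤ)| ≤ |(N : ℚ)| := by
    rw [h2]
    nlinarith
  exact_mod_cast h3

theorem div_PIR (x y : R) (hy : y ≠ 0) : ∃ q : R, |(x - y * q).norm| < |y.norm| := by
  have hN : y.norm ≠ 0 := fun h => hy ((norm_eq_zero_iff y).1 h)
  obtain ⟨q1, h1⟩ := round_PIR (x * star y).re y.norm hN
  obtain ⟨q2, h2⟩ := round_PIR (x * star y).im y.norm hN
  refine ⟨⟨q1, q2⟩, ?_⟩
  have hre : ((x - y * ⟨q1, q2⟩) * star y).re = (x * star y).re - y.norm * q1 := by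
    simp only [norm_eq, Zsqrtd.re_mul, Zsqrtd.re_sub, Zsqrtd.im_sub, Zsqrtd.im_mul,
      Zsqrtd.re_star, Zsqrtd.im_star]
    ring
  have him : ((x - y * ⟨q1, q2⟩) * star y).im = (x * star y).im - y.norm * q2 := by
    simp only [norm_eq, Zsqrtd.re_mul, Zsqrtd.re_sub, Zsqrtd.im_sub, Zsqrtd.im_mul,
      Zsqrtd.re_star, Zsqrtd.im_star]
    ring
  have hn : (x - y * ⟨q1, q2⟩).norm * y.norm =
      ((x * star y).re - y.norm * q1) ^ 2 - 3 * ((x * star y).im - y.norm * q2) ^ 2 := by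
    rw [← hre, ← him, ← norm_eq, Zsqrtd.norm_mul, Zsqrtd.norm_conj]
  set s := (x * star y).re - y.norm * q1
  set t := (x * star y).im - y.norm * q2
  set N := y.norm
  set r := (x - y * ⟨q1, q2⟩).norm
  have hNp : 0 < |N| := abs_pos.2 hN
  have hs : 4 * s ^ 2 ≤ N ^ 2 := by
    have := mul_self_le_mul_self (by positivity) h1
    rw [abs_mul_abs_self] at this
    nlinarith [abs_mul_abs_self s]
  have ht : 4 * t ^ 2 ≤ N ^ 2 := by
    have := mul_self_le_mul_self (by positivity) h2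
    rw [abs_mul_abs_self] at this
    nlinarith [abs_mul_abs_self t]
  have hb : 4 * |r * N| ≤ 3 * N ^ 2 := by
    rw [hn]
    have h3 : |s ^ 2 - 3 * t ^ 2| ≤ max (s ^ 2) (3 * t ^ 2) := by
      rw [abs_le]
      constructor
      · have := le_max_right (s ^ 2) (3 * t ^ 2)
        nlinarith [sq_nonneg s]
      · have := le_max_left (s ^ 2) (3 * t ^ 2)
        nlinarith [sq_nonneg t]
    rcases max_cases (s ^ 2) (3 * t ^ 2) with ⟨h4, -⟩ | ⟨h4, -⟩
    · rw [h4] at h3
      nlinarith [sq_nonneg N]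
    · rw [h4] at h3
      nlinarith
  rw [abs_mul] at hb
  have hNN : N ^ 2 = |N| * |N| := by rw [abs_mul_abs_self]; ring
  rw [hNN] at hb
  by_contra hcon
  push Not at hcon
  nlinarith

theorem p_PIR : T_PIR := by
  refine ⟨fun I => ?_⟩
  by_cases hI : I = ⊥
  · rw [hI]
    exact bot_isPrincipal
  · obtain ⟨y0, hy0, hy0n⟩ := Submodule.exists_mem_ne_zero_of_ne_bot hI
    let P : ℕ → Prop := fun n => ∃ y ∈ I, y ≠ 0 ∧ y.norm.natAbs = n
    have hP : ∃ n, P n := ⟨_, y0, hy0, hy0n, rfl⟩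
    classical
    obtain ⟨y, hyI, hyn, hy⟩ := Nat.find_spec hP
    refine ⟨y, le_antisymm ?_ ?_⟩
    · intro x hx
      obtain ⟨q, hq⟩ := div_PIR x y hyn
      have hm : x - y * q ∈ I := I.sub_mem hx (I.mul_mem_right q hyI)
      have h0 : x - y * q = 0 := by
        by_contra hne
        have h1 : Nat.find hP ≤ (x - y * q).norm.natAbs :=
          Nat.find_min' hP ⟨_, hm, hne, rfl⟩
        have h2 : y.norm.natAbs ≤ (x - y * q).norm.natAbs := hy.le.trans h1
        rw [Int.abs_eq_natAbs, Int.abs_eq_natAbs] at hq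
        have h3 : (x - y * q).norm.natAbs < y.norm.natAbs := by exact_mod_cast hq
        exact absurd h2 (not_le.2 h3)
      rw [sub_eq_zero] at h0
      rw [h0]
      exact Ideal.mul_mem_right q _ (Submodule.mem_span_singleton_self y)
    · rw [Submodule.span_singleton_le_iff_mem]
      exact hyI

end ST6
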