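import Pool.Agent.ST6.Targets

set_option autoImplicit false

/-!
# ST6: QEX, the auxiliary prime element
-/

namespace ST6

theorem nonsq_mul_QEX {l : ℕ} [Fact l.Prime] {a b : ZMod l} (ha : ¬ IsSquare a)
    (hb : ¬ IsSquare b) : IsSquare (a * b) := by
  by_contra hab
  rw [← quadraticChar_neg_one_iff_not_isSquare] at ha hb hab
  rw [map_mul, ha, hb] at hab
  norm_num at hab

theorem two_QEX : ¬ IsSquare (2 : ZMod 3) := by decide

theorem three_sq_QEX {l : ℕ} [Fact l.Prime] (hl : l % 12 = 11) : IsSquare (3 : ZMod l) := by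
  have h3 : Fact (Nat.Prime 3) := ⟨by norm_num⟩
  have h1 := ZMod.exists_sq_eq_prime_iff_of_mod_four_eq_three (p := l) (q := 3) (by omega)
    (by norm_num) (by omega)
  have h2 : (l : ZMod 3) = 2 := by
    have h4 : ((l : ℤ) : ZMod 3) = ((2 : ℤ) : ZMod 3) := by
      rw [ZMod.intCast_eq_intCast_iff_dvd_sub]
      omega
    exact_mod_cast h4
  rw [h2] at h1
  exact_mod_cast h1.2 two_QEX

/-- The reduction of `ℤ[√3]` modulo a prime above `l`. -/
def red_QEX {l : ℕ} (r : ZMod l) (hr : r * r = 3) : R →+* ZMod l :=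
  Zsqrtd.lift ⟨r, by rw [hr]; norm_num⟩

theorem red_eq_QEX {l : ℕ} (r : ZMod l) (hr : r * r = 3) (x : R) :
    red_QEX r hr x = x.re + x.im * r := rfl

theorem ker_QEX (h1 : T_PIR) {l : ℕ} [hp : Fact l.Prime] (hl : l % 12 = 11) (r : ZMod l)
    (hr : r * r = 3) : ∃ α : R, Prime α ∧ α.norm = -(l : ℤ) ∧
      ∀ x : R, red_QEX r hr x = 0 → α ∣ x := by
  have : IsPrincipalIdealRing R := h1
  have hker : ∀ x : R, x ∈ RingHom.ker (red_QEX r hr) ↔
      Submodule.IsPrincipal.generator (RingHom.ker (red_QEX r hr)) ∣ x := fun x =>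
    Submodule.IsPrincipal.mem_iff_generator_dvd _
  have hlmem : ((l : ℕ) : R) ∈ RingHom.ker (red_QEX r hr) := by
    rw [RingHom.mem_ker, map_natCast]
    exact ZMod.natCast_self l
  have hl0 : ((l : ℕ) : R) ≠ 0 := by
    intro h
    have h2 := congrArg Zsqrtd.re h
    simp only [Zsqrtd.re_natCast, Zsqrtd.re_zero] at h2
    omega
  have hne : RingHom.ker (red_QEX r hr) ≠ ⊥ := by
    intro h
    rw [h, Ideal.mem_bot] at hlmem
    exact hl0 hlmem
  have hpr : Prime (Submodule.IsPrincipal.generator (RingHom.ker (red_QEX r hr))) := by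
    have : (RingHom.ker (red_QEX r hr)).IsPrime := RingHom.ker_isPrime _
    exact Submodule.IsPrincipal.prime_generator_of_isPrime _ hne
  obtain ⟨α, hα⟩ : ∃ α, α = Submodule.IsPrincipal.generator (RingHom.ker (red_QEX r hr)) :=
    ⟨_, rfl⟩
  rw [← hα] at hpr
  simp only [← hα] at hker
  refine ⟨α, hpr, ?_, fun x hx => (hker x).1 hx⟩
  obtain ⟨β, hβ⟩ := (hker _).1 hlmem
  have hN : α.norm * β.norm = (l : ℤ) ^ 2 := by
    rw [← Zsqrtd.norm_mul, ← hβ, norm_eq]
    simp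
  have hN' : α.norm.natAbs * β.norm.natAbs = l ^ 2 := by
    rw [← Int.natAbs_mul, hN, Int.natAbs_pow, Int.natAbs_natCast]
  obtain ⟨i, hi, hi'⟩ := (Nat.dvd_prime_pow hp.out).1 (Dvd.intro _ hN')
  have hi0 : i ≠ 0 := by
    rintro rfl
    rw [pow_zero, Zsqrtd.norm_eq_one_iff] at hi'
    exact hpr.not_isUnit hi'
  have hi2 : i ≠ 2 := by
    rintro rfl
    rw [hi'] at hN'
    have hb : β.norm.natAbs = 1 := by
      have : 0 < l ^ 2 := pow_pos hp.out.pos 2
      exact Nat.eq_of_mul_eq_mul_left this (by rw [hN', mul_one])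
    rw [Zsqrtd.norm_eq_one_iff] at hb
    obtain ⟨r', hr'⟩ : ∃ r' : ℤ, (r' : ZMod l) = r := ⟨r.val, by simp⟩
    have hmem : (⟨r', -1⟩ : R) ∈ RingHom.ker (red_QEX r hr) := by
      rw [RingHom.mem_ker, red_eq_QEX]
      simp [hr']
    have hd := (hker _).1 hmem
    have hd2 : ((l : ℕ) : R) ∣ ⟨r', -1⟩ := by
      rw [hβ]
      exact (IsUnit.mul_right_dvd hb).2 hd
    obtain ⟨y, hy⟩ := hd2
    have h3 := congrArg Zsqrtd.im hy
    simp at h3
    have h4 : (l : ℤ) ∣ 1 := ⟨-y.im, by linarith⟩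
    have h5 := Int.le_of_dvd one_pos h4
    have := hp.out.two_le
    omega
  have hi1 : i = 1 := by omega
  rw [hi1, pow_one] at hi'
  rcases Int.natAbs_eq α.norm with h | h
  · exfalso
    rw [hi', norm_eq] at h
    have hm : (l : ℤ) % 4 = 3 := by omega
    rcases Int.even_or_odd' α.re with ⟨x, hx | hx⟩ <;>
      rcases Int.even_or_odd' α.im with ⟨y, hy | hy⟩ <;> rw [hx, hy] at h <;>
      ring_nf at h <;> omega
  · rw [h, hi']

theorem d4_QEX {d : R} (h : 4 ∣ d - 1 ∨ 4 ∣ d - 3) : d.norm % 8 = 1 := by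
  rw [norm_eq]
  have key : ∀ c : ℤ, (c = 1 ∨ c = 3) → 4 ∣ d.re - c → 4 ∣ d.im →
      (d.re ^ 2 - 3 * d.im ^ 2) % 8 = 1 := by
    rintro c hc ⟨x, hx⟩ ⟨y, hy⟩
    have hre : d.re = 4 * x + c := by linarith
    rw [hre, hy]
    rcases hc with rfl | rfl <;> ring_nf <;> omega
  rcases h with h | h
  · rw [four_dvd_iff] at h
    refine key 1 (Or.inl rfl) ?_ ?_
    · simpa using h.1
    · simpa using h.2
  · rw [four_dvd_iff] at h
    refine key 3 (Or.inr rfl) ?_ ?_
    · simpa using h.1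
    · simpa using h.2

/-- Conclusion from a square root of `-d` modulo a prime above `l`. -/
theorem fin_QEX (h1 : T_PIR) {l : ℕ} [hp : Fact l.Prime] (hl : l % 12 = 11) (r : ZMod l)
    (hr : r * r = 3) (d : R) (hd : 0 < d.norm) (hl2 : 2 * d.norm < l)
    (hs : IsSquare (-(red_QEX r hr d))) :
    ∃ q k : R, Prime q ∧ Odd q.norm ∧ q.norm < 0 ∧ IsCoprime q.norm (2 * d.norm) ∧
      q ∣ k ^ 2 + d := by
  obtain ⟨α, hα, hn, hk⟩ := ker_QEX h1 hl r hr
  obtain ⟨s, hs⟩ := hs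
  obtain ⟨s', hs'⟩ : ∃ s' : ℤ, (s' : ZMod l) = s := ⟨s.val, by simp⟩
  refine ⟨α, (s' : R), hα, ?_, ?_, ?_, hk _ ?_⟩
  · rw [hn, Int.odd_iff]
    omega
  · rw [hn]
    have := hp.out.pos
    omega
  · rw [hn, IsCoprime.neg_left_iff]
    have h3 : IsCoprime (l : ℤ) (2 * d.norm) := by
      rw [Int.isCoprime_iff_nat_coprime, Int.natAbs_natCast, Nat.Prime.coprime_iff_not_dvd hp.out]
      intro h4
      have h5 := Nat.le_of_dvd (by omega) h4
      omega
    exact h3
  · rw [map_add, map_pow, map_intCast, hs', pow_two, ← hs]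
    ring

theorem div_QEX (h1 : T_PIR) {d e y : R} (hy : y ≠ 0) (h : y ^ 2 * d = e ^ 2) :
    ∃ δ : R, d = δ ^ 2 := by
  have : IsPrincipalIdealRing R := h1
  have h2 : y ^ 2 ∣ e ^ 2 := ⟨d, h.symm⟩
  rw [IsIntegrallyClosed.pow_dvd_pow_iff two_ne_zero] at h2
  obtain ⟨z, rfl⟩ := h2
  refine ⟨z, ?_⟩
  have h3 : y ^ 2 * d = y ^ 2 * z ^ 2 := by rw [h]; ring
  exact mul_left_cancel₀ (pow_ne_zero 2 hy) h3

theorem p_QEX (h1 : T_PIR) (h2 : T_QNR) : T_QEX := by
  intro d hd h4 hns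
  have hn8 := d4_QEX h4
  have hpos := hd.norm_pos
  obtain ⟨n, hn⟩ : ∃ n : ℕ, (n : ℤ) = d.norm := ⟨d.norm.toNat, Int.toNat_of_nonneg hpos.le⟩
  have hn0 : 0 < n := by omega
  by_cases hsq : ∃ g : ℕ, n = g ^ 2
  · obtain ⟨g, hg⟩ := hsq
    have hg0 : 0 < g := by
      rcases Nat.eq_zero_or_pos g with h | h
      · rw [h] at hg
        omega
      · exact h
    have hre := hd.1
    obtain ⟨t, ht⟩ : ∃ t : ℕ, (t : ℤ) = 2 * d.re + 2 * g :=
      ⟨(2 * d.re + 2 * g).toNat, Int.toNat_of_nonneg (by positivity)⟩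
    have hnorm : d.re ^ 2 - 3 * d.im ^ 2 = (g : ℤ) ^ 2 := by
      rw [← norm_eq, ← hn, hg]
      push_cast
      ring
    have key : ((t : ℤ) : R) * d = (d + ((g : ℤ) : R)) ^ 2 := by
      rw [ht]
      ext
      · simp [pow_two]
        nlinarith
      · simp [pow_two]
        ring
    have ht1 : ¬ ∃ s : ℕ, t = s ^ 2 := by
      rintro ⟨s, hs⟩
      have hs0 : ((s : ℤ) : R) ≠ 0 := by
        intro h
        have h3 := congrArg Zsqrtd.re h
        simp at h3
        rw [h3] at hs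
        omega
      refine hns (div_QEX h1 hs0 (e := d + ((g : ℤ) : R)) ?_)
      rw [← key, hs]
      push_cast
      ring
    have ht3 : ¬ ∃ s : ℕ, t = 3 * s ^ 2 := by
      rintro ⟨s, hs⟩
      have hs0 : ((s : ℤ) : R) ≠ 0 := by
        intro h
        have h3 := congrArg Zsqrtd.re h
        simp at h3
        rw [h3] at hs
        omega
      have hw0 : w ≠ 0 := by
        intro h
        have h3 := congrArg Zsqrtd.im h
        simp [w] at h3
      refine hns (div_QEX h1 (mul_ne_zero hw0 hs0) (e := d + ((g : ℤ) : R)) ?_)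
      rw [← key, hs, mul_pow, pow_two w, w_sq]
      push_cast
      ring
    obtain ⟨l, hl, hlB, hl12, hj⟩ := h2 t (t + 2 * n) (by omega) ht1 ht3
    have hlp : Fact l.Prime := ⟨hl⟩
    have hts : ¬ IsSquare (((t : ℕ) : ℤ) : ZMod l) := by
      rw [← legendreSym.eq_neg_one_iff, jacobiSym.legendreSym.to_jacobiSym]
      exact hj
    have hm1 : ¬ IsSquare (-1 : ZMod l) := by
      rw [ZMod.exists_sq_eq_neg_one_iff]
      omega
    obtain ⟨m, hm⟩ := nonsq_mul_QEX hm1 hts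
    have ht0 : (((t : ℕ) : ℤ) : ZMod l) ≠ 0 := by
      intro h
      rw [h] at hts
      exact hts (IsSquare.zero)
    obtain ⟨r, hr⟩ := three_sq_QEX hl12
    refine fin_QEX h1 hl12 r hr.symm d hpos (by omega) ?_
    have hk := congrArg (red_QEX r hr.symm) key
    rw [map_mul, map_pow, map_add, map_intCast, map_intCast] at hk
    refine ⟨(red_QEX r hr.symm d + ((g : ℤ) : ZMod l)) * m / (((t : ℕ) : ℤ) : ZMod l), ?_⟩
    field_simp
    linear_combination (red_QEX r hr.symm d + ((g : ℤ) : ZMod l)) ^ 2 * hm -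
      (((t : ℕ) : ℤ) : ZMod l) * hk
  · have h3 : ¬ ∃ s : ℕ, n = 3 * s ^ 2 := by
      rintro ⟨s, hs⟩
      have h5 : n % 8 = 1 := by omega
      rcases Nat.even_or_odd' s with ⟨x, hx | hx⟩
      · rw [hx] at hs
        ring_nf at hs
        omega
      · rw [hx] at hs
        ring_nf at hs
        omega
    obtain ⟨l, hl, hlB, hl12, hj⟩ := h2 n (2 * n) hn0 hsq h3
    have hlp : Fact l.Prime := ⟨hl⟩
    have hts : ¬ IsSquare (((n : ℕ) : ℤ) : ZMod l) := by
      rw [← legendreSym.eq_neg_one_iff, jacobiSym.legendreSym.to_jacobiSym]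
      exact hj
    obtain ⟨r, hr⟩ := three_sq_QEX hl12
    by_cases ha : IsSquare (-(red_QEX r hr.symm d))
    · exact fin_QEX h1 hl12 r hr.symm d hpos (by omega) ha
    · have hr' : (-r) * (-r) = 3 := by
        rw [neg_mul_neg]
        exact hr.symm
      by_cases hb : IsSquare (-(red_QEX (-r) hr' d))
      · exact fin_QEX h1 hl12 (-r) hr' d hpos (by omega) hb
      · exfalso
        apply hts
        have h6 := nonsq_mul_QEX ha hb
        rw [red_eq_QEX, red_eq_QEX] at h6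
        rw [hn, norm_eq]
        push_cast
        have h7 : (d.re : ZMod l) ^ 2 - 3 * (d.im : ZMod l) ^ 2 =
            -((d.re : ZMod l) + d.im * r) * -((d.re : ZMod l) + d.im * -r) := by
          linear_combination -(d.im : ZMod l) ^ 2 * hr
        rw [h7]
        exact h6

end ST6
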