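import Pool.Agent.ST6.Targets

set_option autoImplicit false

/-!
# ST6, target QNR: primes `q = 11` modulo `12` for which `t` is not a square
-/

namespace ST6

theorem u_QNR {u q : ℕ} (hu : 0 < u) (hq : Odd q) (h : q ≡ 4 * u - 1 [MOD 4 * u]) :
    jacobiSym (u : ℤ) q = 1 := by
  have h0 : (4 * u - 1) % (4 * u) = 4 * u - 1 := Nat.mod_eq_of_lt (by omega)
  have hodd : Odd (4 * u - 1) := ⟨2 * u - 1, by omega⟩
  rw [jacobiSym.mod_right' u hq, h, h0]
  have h1 : jacobiSym ((4 : ℤ) * u) (4 * u - 1) = 1 := by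
    have h2 : jacobiSym ((4 : ℤ) * u) (4 * u - 1) = jacobiSym 1 (4 * u - 1) := by
      apply jacobiSym.mod_left'
      have h3 : ((4 * u - 1 : ℕ) : ℤ) = 4 * u - 1 := by
        rw [Nat.cast_sub (by omega)]
        push_cast
        ring
      rw [h3]
      exact Int.modEq_iff_dvd.2 ⟨-1, by ring⟩
    rw [h2, jacobiSym.one_left]
  rw [jacobiSym.mul_left, jacobiSym.at_four hodd, one_mul] at h1
  exact h1

theorem res_QNR {l : ℕ} (hl : l.Prime) (hl5 : 5 ≤ l) :
    ∃ r : ℕ, r.Coprime l ∧ ∀ q : ℕ, q % 4 = 3 → q ≡ r [MOD l] → jacobiSym (l : ℤ) q = -1 := by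
  have hodd : Odd l := hl.odd_of_ne_two (by omega)
  have : Fact l.Prime := ⟨hl⟩
  have hmod : l % 4 = 1 ∨ l % 4 = 3 := by
    rcases hodd with ⟨k, hk⟩
    omega
  rcases hmod with h1 | h3
  · obtain ⟨a, ha⟩ := FiniteField.exists_nonsquare (F := ZMod l) (by
      rw [ZMod.ringChar_zmod_n]
      omega)
    have ha0 : a ≠ 0 := by
      rintro rfl
      exact ha (IsSquare.zero)
    have hval : ((a.val : ℕ) : ZMod l) = a := ZMod.natCast_zmod_val a
    refine ⟨a.val, ?_, ?_⟩
    · have : IsUnit ((a.val : ℕ) : ZMod l) := by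
        rw [hval]
        exact isUnit_iff_ne_zero.2 ha0
      exact (ZMod.isUnit_iff_coprime _ _).1 this
    · intro q hq4 hq
      have hqodd : Odd q := ⟨q / 2, by omega⟩
      rw [jacobiSym.quadratic_reciprocity_one_mod_four h1 hqodd]
      have h2 : jacobiSym (q : ℤ) l = jacobiSym ((a.val : ℕ) : ℤ) l := by
        apply jacobiSym.mod_left'
        exact_mod_cast (Int.natCast_modEq_iff.2 hq)
      rw [h2, ← jacobiSym.legendreSym.to_jacobiSym, legendreSym.eq_neg_one_iff]
      push_cast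
      rw [hval]
      exact ha
  · refine ⟨1, Nat.coprime_one_left l, ?_⟩
    intro q hq4 hq
    rw [jacobiSym.quadratic_reciprocity_three_mod_four h3 hq4]
    have h2 : jacobiSym (q : ℤ) l = jacobiSym 1 l := by
      apply jacobiSym.mod_left'
      have := Int.natCast_modEq_iff.2 hq
      exact_mod_cast this
    rw [h2, jacobiSym.one_left]

theorem six_QNR {t0 : ℕ} (h0 : Squarefree t0) (h : ∀ l : ℕ, l.Prime → l ∣ t0 → l < 5) :
    t0 ∣ 6 := by
  rw [← Nat.prod_primeFactors_of_squarefree h0]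
  have h1 : t0.primeFactors ⊆ ({2, 3} : Finset ℕ) := by
    intro l hl
    rw [Nat.mem_primeFactors] at hl
    have h2 := h l hl.1 hl.2.1
    have h3 := hl.1.two_le
    interval_cases l
    · simp
    · simp
    · exact absurd hl.1 (by norm_num)
  have h4 := Finset.prod_dvd_prod_of_subset _ _ (fun p => p) h1
  have h5 : ∏ p ∈ ({2, 3} : Finset ℕ), p = 6 := by decide
  rw [h5] at h4
  exact h4

theorem sq_QNR {s q : ℕ} (hq : q.Prime) (hs : 0 < s) (hsq : s < q) :
    jacobiSym ((s : ℤ) ^ 2) q = 1 := by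
  apply jacobiSym.sq_one'
  rw [Int.gcd_natCast_natCast]
  exact (Nat.Coprime.symm ((Nat.Prime.coprime_iff_not_dvd hq).2
    (Nat.not_dvd_of_pos_of_lt hs hsq)))

theorem p_QNR : T_QNR := by
  intro t B ht hns hn3
  obtain ⟨t0, s, hst, hsf⟩ := Nat.sq_mul_squarefree t
  have hs : 0 < s := by
    rcases Nat.eq_zero_or_pos s with h | h
    · rw [h] at hst
      simp at hst
      omega
    · exact h
  have ht0 : 0 < t0 := by
    rcases Nat.eq_zero_or_pos t0 with h | h
    · rw [h, mul_zero] at hst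
      omega
    · exact h
  have hsle : s ≤ t := by
    rw [← hst, pow_two]
    nlinarith
  have ht01 : t0 ≠ 1 := by
    rintro rfl
    exact hns ⟨s, by rw [← hst, mul_one]⟩
  have ht03 : t0 ≠ 3 := by
    rintro rfl
    exact hn3 ⟨s, by rw [← hst, mul_comm]⟩
  by_cases hex : ∃ l : ℕ, l.Prime ∧ l ∣ t0 ∧ 5 ≤ l
  · obtain ⟨l, hl, ⟨u, hu⟩, hl5⟩ := hex
    have hu0 : 0 < u := by
      rcases Nat.eq_zero_or_pos u with h | h
      · rw [h, mul_zero] at hu
        omega
      · exact h
    have hlu : l.Coprime u := by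
      rw [hu] at hsf
      exact Nat.coprime_of_squarefree_mul hsf
    have hl24 : l.Coprime 24 := by
      rw [hl.coprime_iff_not_dvd]
      intro hd
      have h1 : l ∣ 2 ^ 3 * 3 := by
        norm_num
        exact hd
      rcases (hl.dvd_mul).1 h1 with h2 | h2
      · have := Nat.le_of_dvd (by norm_num) (hl.dvd_of_dvd_pow h2)
        omega
      · have := Nat.le_of_dvd (by norm_num) h2
        omega
    have hco : (24 * u).Coprime l := (Nat.Coprime.mul_right hl24 hlu).symm
    obtain ⟨r, hr, hres⟩ := res_QNR hl hl5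
    obtain ⟨x, hx1, hx2⟩ := Nat.chineseRemainder hco (24 * u - 1) r
    have hxc : x.Coprime (24 * u * l) := by
      apply Nat.Coprime.mul_right
      · have h1 : Nat.gcd x (24 * u) = Nat.gcd (24 * u - 1) (24 * u) := hx1.gcd_eq
        have h2 : (24 * u - 1).Coprime (24 * u) := by
          have h3 : Nat.Coprime (24 * u - 1) (24 * u - 1 + 1) := by
            simp
          rwa [Nat.sub_add_cancel (by omega)] at h3
        exact h1.trans h2
      · have h1 : Nat.gcd x l = Nat.gcd r l := hx2.gcd_eq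
        exact h1.trans hr
    obtain ⟨q, hqg, hqp, hqx⟩ := Nat.forall_exists_prime_gt_and_modEq (B + t)
      (q := 24 * u * l) (a := x) (by positivity) hxc
    have hq1 : q ≡ 24 * u - 1 [MOD 24 * u] := (hqx.of_mul_right l).trans hx1
    have hq2 : q ≡ r [MOD l] := (hqx.of_mul_left (24 * u)).trans hx2
    have hq24 : q ≡ 24 * u - 1 [MOD 24] := hq1.of_mul_right u
    have hqm : q % 24 = 23 := by
      have h1 : (24 * u - 1) % 24 = 23 := by omega
      rw [← h1]
      exact hq24
    have hq4 : q ≡ 4 * u - 1 [MOD 4 * u] := by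
      have h1 : q ≡ 24 * u - 1 [MOD 4 * u] := by
        have h2 : 24 * u = 4 * u * 6 := by ring
        have h3 : q ≡ 24 * u - 1 [MOD 4 * u * 6] := by
          rw [← h2]
          exact hq1
        exact h3.of_mul_right 6
      refine h1.trans ?_
      have h4 : 24 * u - 1 = (4 * u - 1) + 4 * u * 5 := by omega
      rw [h4]
      show ((4 * u - 1) + 4 * u * 5) % (4 * u) = (4 * u - 1) % (4 * u)
      rw [Nat.add_mul_mod_self_left]
    have hqodd : Odd q := ⟨q / 2, by omega⟩
    refine ⟨q, hqp, by omega, by omega, ?_⟩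
    have e : (t : ℤ) = (s : ℤ) ^ 2 * ((l : ℤ) * (u : ℤ)) := by
      rw [← hst, hu]
      push_cast
      ring
    rw [e, jacobiSym.mul_left, jacobiSym.mul_left, sq_QNR hqp hs (by omega),
      u_QNR hu0 hqodd hq4, hres q (by omega) hq2]
    norm_num
  · have h6 : t0 ∣ 6 := by
      apply six_QNR hsf
      intro l hl hd
      by_contra hc
      exact hex ⟨l, hl, hd, by omega⟩
    have h26 : t0 = 2 ∨ t0 = 6 := by
      have h7 : t0 ≤ 6 := Nat.le_of_dvd (by norm_num) h6
      interval_cases t0 <;> omega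
    obtain ⟨q, hqg, hqp, hqx⟩ := Nat.forall_exists_prime_gt_and_modEq (B + t)
      (q := 24) (a := 11) (by norm_num) (by norm_num)
    have hqm : q % 24 = 11 := hqx
    have hqodd : Odd q := ⟨q / 2, by omega⟩
    refine ⟨q, hqp, by omega, by omega, ?_⟩
    have e : (t : ℤ) = (s : ℤ) ^ 2 * (t0 : ℤ) := by
      rw [← hst]
      push_cast
      ring
    rw [e, jacobiSym.mul_left, sq_QNR hqp hs (by omega), one_mul,
      jacobiSym.mod_right' t0 hqodd]
    rcases h26 with h | h
    · rw [h]
      have h8 : q % (4 * 2) = 3 := by omega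
      rw [h8]
      norm_num
    · rw [h]
      have h8 : q % (4 * 6) = 11 := by omega
      rw [h8]
      norm_num

end ST6
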