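import Pool.Agent.ST6.Targets

set_option autoImplicit false

/-!
# RAT: two rows that are rational up to units give four squares
-/

namespace ST6

theorem coordRe_RAT (x y : R) : (algebraMap R O x + algebraMap R O y * iO).re = x - w * y := by
  simp [iO, QuadraticAlgebra.algebraMap_eq]
  ring

theorem coordIm_RAT (x y : R) : (algebraMap R O x + algebraMap R O y * iO).im = 2 * y := by
  simp [iO, QuadraticAlgebra.algebraMap_eq]
  ring

theorem split_RAT (z : O) (h : 2 ∣ z.im) :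
    ∃ x y : R, z = algebraMap R O x + algebraMap R O y * iO := by
  obtain ⟨y, hy⟩ := h
  refine ⟨z.re + w * y, y, ?_⟩
  apply QuadraticAlgebra.ext
  · rw [coordRe_RAT]
    ring
  · rw [coordIm_RAT, hy]

theorem nm_RAT (x y : R) : nm (algebraMap R O x + algebraMap R O y * iO) = x ^ 2 + y ^ 2 := by
  unfold nm
  rw [coordRe_RAT, coordIm_RAT]
  linear_combination (-y ^ 2) * w_sq

theorem starMap_RAT (x : R) : star (algebraMap R O x) = algebraMap R O x := by
  apply QuadraticAlgebra.ext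
  · simp [QuadraticAlgebra.algebraMap_eq]
  · simp [QuadraticAlgebra.algebraMap_eq]

theorem mul_RAT (x1 y1 x2 y2 : R) :
    star (algebraMap R O x1 + algebraMap R O y1 * iO) *
      (algebraMap R O x2 + algebraMap R O y2 * iO) =
      algebraMap R O (x1 * x2 + y1 * y2) + algebraMap R O (x1 * y2 - y1 * x2) * iO := by
  rw [star_add, star_mul, starMap_RAT, starMap_RAT, star_iO]
  simp only [map_add, map_sub, map_mul]
  linear_combination (-(algebraMap R O y1 * algebraMap R O y2)) * iO_sq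

theorem row_RAT (z1 z2 : O)
    (h : ∃ η : O, nm η = 1 ∧ 2 ∣ (η * z1).im ∧ 2 ∣ (η * z2).im) :
    ∃ x1 y1 x2 y2 : R, nm z1 = x1 ^ 2 + y1 ^ 2 ∧ nm z2 = x2 ^ 2 + y2 ^ 2 ∧
      star z1 * z2 =
        algebraMap R O (x1 * x2 + y1 * y2) + algebraMap R O (x1 * y2 - y1 * x2) * iO := by
  obtain ⟨η, hη, h1, h2⟩ := h
  obtain ⟨x1, y1, e1⟩ := split_RAT _ h1
  obtain ⟨x2, y2, e2⟩ := split_RAT _ h2
  refine ⟨x1, y1, x2, y2, ?_, ?_, ?_⟩
  · rw [← nm_RAT, ← e1, nm_mul, hη, one_mul]
  · rw [← nm_RAT, ← e2, nm_mul, hη, one_mul]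
  · rw [← mul_RAT, ← e1, ← e2, star_mul]
    have h3 := star_mul_self_eq η
    rw [hη, map_one] at h3
    linear_combination (-(star z1 * z2)) * h3

theorem p_RAT : T_RAT := by
  intro a c b β z11 z12 z21 z22 ha hc hb h1 h2
  obtain ⟨x1, y1, x2, y2, e1, e2, e3⟩ := row_RAT z11 z21 h1
  obtain ⟨x3, y3, x4, y4, e4, e5, e6⟩ := row_RAT z12 z22 h2
  have hb' : algebraMap R O (x1 * x2 + y1 * y2 + (x3 * x4 + y3 * y4)) +
      algebraMap R O (x1 * y2 - y1 * x2 + (x3 * y4 - y3 * x4)) * iO =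
      algebraMap R O b + algebraMap R O β * iO := by
    rw [← hb, e3, e6]
    simp only [map_add]
    ring
  have hre := congrArg QuadraticAlgebra.re hb'
  have him := congrArg QuadraticAlgebra.im hb'
  rw [coordRe_RAT, coordRe_RAT] at hre
  rw [coordIm_RAT, coordIm_RAT] at him
  have h20 : (2 : R) ≠ 0 := by
    intro h
    have h' := congrArg Zsqrtd.re h
    simp at h'
  have him' := mul_left_cancel₀ h20 him
  rw [him'] at hre
  have hbb : x1 * x2 + y1 * y2 + (x3 * x4 + y3 * y4) = b := by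
    linear_combination hre
  refine ⟨![x1, y1, x3, y3], ![x2, y2, x4, y4], ?_, ?_, ?_⟩
  · rw [← ha, e1, e4]
    simp [Fin.sum_univ_four]
    ring
  · rw [← hbb]
    simp [Fin.sum_univ_four]
    ring
  · rw [← hc, e2, e5]
    simp [Fin.sum_univ_four]
    ring

end ST6
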