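import Pool.Agent.ST6.Targets

set_option autoImplicit false

/-!
# ST6, target SIX: sums of squares of binary forms over `ℤ[√3]` are sums of six squares
-/

namespace ST6

open Matrix

theorem add_SIX {m n : ℕ} {a b c a' b' c' : R} (h : SS m a b c) (h' : SS n a' b' c') :
    SS (m + n) (a + a') (b + b') (c + c') := by
  obtain ⟨x, y, h1, h2, h3⟩ := h
  obtain ⟨x', y', h1', h2', h3'⟩ := h'
  refine ⟨Fin.append x x', Fin.append y y', ?_, ?_, ?_⟩
  · rw [Fin.sum_univ_add]
    simp only [Fin.append_left, Fin.append_right]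
    rw [h1, h1']
  · rw [Fin.sum_univ_add]
    simp only [Fin.append_left, Fin.append_right]
    rw [h2, h2']
  · rw [Fin.sum_univ_add]
    simp only [Fin.append_left, Fin.append_right]
    rw [h3, h3']

theorem zero_SIX (n : ℕ) : SS n 0 0 0 :=
  ⟨0, 0, by simp, by simp, by simp⟩

theorem mono_SIX {m n : ℕ} (hmn : m ≤ n) {a b c : R} (h : SS m a b c) : SS n a b c := by
  obtain ⟨k, rfl⟩ := Nat.exists_eq_add_of_le hmn
  have h1 := add_SIX h (zero_SIX k)
  simpa using h1

theorem one_SIX (x y : R) : SS 1 (x ^ 2) (x * y) (y ^ 2) :=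
  ⟨fun _ => x, fun _ => y, by simp, by simp, by simp⟩

theorem finset_SIX {ι : Type} (s : Finset ι) (x y : ι → R) :
    SS s.card (∑ i ∈ s, x i ^ 2) (∑ i ∈ s, x i * y i) (∑ i ∈ s, y i ^ 2) := by
  classical
  induction s using Finset.induction_on with
  | empty => simpa using zero_SIX 0
  | insert i s hi ih =>
    rw [Finset.sum_insert hi, Finset.sum_insert hi, Finset.sum_insert hi,
      Finset.card_insert_of_notMem hi, add_comm s.card 1]
    exact add_SIX (one_SIX _ _) ih

theorem psd_SIX {ι : Type} (s : Finset ι) (x y : ι → R) :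
    Psd (∑ i ∈ s, x i ^ 2) (∑ i ∈ s, x i * y i) (∑ i ∈ s, y i ^ 2) := by
  refine ⟨Tn_sum s _ fun i _ => Tn_sq _, Tn_sum s _ fun i _ => Tn_sq _, ?_⟩
  rw [Tn_iff]
  simp only [map_sub, map_mul, map_pow, map_sum]
  constructor
  · have h := Finset.sum_mul_sq_le_sq_mul_sq s (fun i => e1 (x i)) (fun i => e1 (y i))
    linarith
  · have h := Finset.sum_mul_sq_le_sq_mul_sq s (fun i => e2 (x i)) (fun i => e2 (y i))
    linarith

theorem scale_SIX {n : ℕ} {a b c : R} (h : SS n a b c) : SS n (4 * a) (4 * b) (4 * c) := by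
  obtain ⟨x, y, h1, h2, h3⟩ := h
  refine ⟨fun i => 2 * x i, fun i => 2 * y i, ?_, ?_, ?_⟩
  · rw [← h1, Finset.mul_sum]
    exact Finset.sum_congr rfl fun i _ => by ring
  · rw [← h2, Finset.mul_sum]
    exact Finset.sum_congr rfl fun i _ => by ring
  · rw [← h3, Finset.mul_sum]
    exact Finset.sum_congr rfl fun i _ => by ring

theorem four_re_SIX (a : R) : (4 * a).re = 4 * a.re := by
  simp

theorem tn_zero_SIX {a : R} (h : Tn a) (h0 : a.re = 0) : a = 0 := by
  obtain ⟨_, h2⟩ := h
  rw [h0] at h2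
  have h3 : a.im = 0 := by nlinarith [sq_nonneg a.im]
  exact Zsqrtd.ext h0 h3

theorem seven_SIX (h1 : T_T4) (h2 : T_CMB) (N : ℕ) : ∀ (a b c : R), (a + c).re ≤ N →
    SS 7 a b c → SS 6 a b c := by
  induction N using Nat.strong_induction_on with
  | _ N ih =>
  intro a b c hN h
  obtain ⟨x, y, hx, hxy, hy⟩ := h
  have hP : Psd a b c := by
    have := psd_SIX Finset.univ x y
    rwa [hx, hxy, hy] at this
  rcases h2 x y with hd | ⟨S, hS, hG⟩
  · have hre : (a + c).re = a.re + c.re := by simp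
    have ha0 : 0 ≤ a.re := hP.1.1
    have hc0 : 0 ≤ c.re := hP.2.1.1
    rcases eq_or_lt_of_le (add_nonneg ha0 hc0) with h0 | h0
    · have ha : a = 0 := tn_zero_SIX hP.1 (by linarith)
      have hc : c = 0 := tn_zero_SIX hP.2.1 (by linarith)
      have hb : b = 0 := by
        have h3 := hP.2.2.1
        rw [ha, zero_mul, zero_sub] at h3
        have h4 : (-b ^ 2).re = -(b.re ^ 2 + 3 * b.im ^ 2) := by
          rw [pow_two b]
          simp
          ring
        rw [h4] at h3
        have h5 : b.re = 0 := by nlinarith [sq_nonneg b.re, sq_nonneg b.im]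
        have h6 : b.im = 0 := by nlinarith [sq_nonneg b.re, sq_nonneg b.im]
        exact Zsqrtd.ext h5 h6
      rw [ha, hb, hc]
      exact zero_SIX 6
    · choose x' hx' using fun i => (hd i).1
      choose y' hy' using fun i => (hd i).2
      have ea : a = 4 * ∑ i, x' i ^ 2 := by
        rw [← hx, Finset.mul_sum]
        exact Finset.sum_congr rfl fun i _ => by rw [hx' i]; ring
      have eb : b = 4 * ∑ i, x' i * y' i := by
        rw [← hxy, Finset.mul_sum]
        exact Finset.sum_congr rfl fun i _ => by rw [hx' i, hy' i]; ring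
      have ec : c = 4 * ∑ i, y' i ^ 2 := by
        rw [← hy, Finset.mul_sum]
        exact Finset.sum_congr rfl fun i _ => by rw [hy' i]; ring
      rw [ea, eb, ec]
      apply scale_SIX
      have hr : (a + c).re = 4 * ((∑ i, x' i ^ 2) + ∑ i, y' i ^ 2 : R).re := by
        rw [ea, ec, ← mul_add, four_re_SIX]
      set r : ℤ := ((∑ i, x' i ^ 2) + ∑ i, y' i ^ 2 : R).re with hrdef
      have hrpos : 0 < r := by
        rw [hre] at hr
        linarith
      refine ih r.toNat ?_ _ _ _ ?_ ⟨x', y', rfl, rfl, rfl⟩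
      · have : (r.toNat : ℤ) = r := Int.toNat_of_nonneg hrpos.le
        have h7 : (r.toNat : ℤ) < N := by
          rw [this]
          linarith
        exact_mod_cast h7
      · rw [Int.toNat_of_nonneg hrpos.le]
  · classical
    have h4 : SS 4 (∑ i ∈ S, x i ^ 2) (∑ i ∈ S, x i * y i) (∑ i ∈ S, y i ^ 2) :=
      h1 _ _ _ (Ev_sum S _ fun i _ => Ev_sq _) (Ev_sum S _ fun i _ => Ev_sq _)
        (psd_SIX S x y) hG
    have h5 := finset_SIX Sᶜ x y
    have h6 : Sᶜ.card ≤ 2 := by
      rw [Finset.card_compl, Fintype.card_fin]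
      omega
    have h7 := add_SIX h4 (mono_SIX h6 h5)
    rw [Finset.sum_add_sum_compl, Finset.sum_add_sum_compl, Finset.sum_add_sum_compl,
      hx, hxy, hy] at h7
    exact h7

theorem p_SIX (h1 : T_T4) (h2 : T_CMB) : T_SIX := by
  intro n
  induction n with
  | zero =>
    intro a b c h
    exact mono_SIX (Nat.zero_le 6) h
  | succ n ih =>
    intro a b c h
    obtain ⟨x, y, hx, hxy, hy⟩ := h
    rw [Fin.sum_univ_castSucc] at hx hxy hy
    have h3 : SS n (∑ i : Fin n, x i.castSucc ^ 2) (∑ i : Fin n, x i.castSucc * y i.castSucc)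
        (∑ i : Fin n, y i.castSucc ^ 2) :=
      ⟨fun i => x i.castSucc, fun i => y i.castSucc, rfl, rfl, rfl⟩
    have h4 := add_SIX (ih _ _ _ h3) (one_SIX (x (Fin.last n)) (y (Fin.last n)))
    rw [hx, hxy, hy] at h4
    exact seven_SIX h1 h2 (a + c).re.toNat a b c (Int.self_le_toNat _) h4

end ST6
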