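import Pool.Agent.ST6.Targets

set_option autoImplicit false

/-!
# ST6: square roots modulo an inert prime number (T_SQ)
-/

namespace ST6

/-- The product of two non-squares is a square. -/
theorem mul_isSquare_SQ {K : Type} [Field K] [Fintype K] [DecidableEq K] {a b : K}
    (h : ¬ IsSquare (a * b)) : IsSquare a ∨ IsSquare b := by
  by_contra hcon
  rw [not_or] at hcon
  obtain ⟨ha, hb⟩ := hcon
  have h1 : quadraticChar K a = -1 ∧ quadraticChar K b = -1 := by
    by_cases h2 : ringChar K = 2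
    · exact absurd (FiniteField.isSquare_of_char_two h2 a) ha
    · exact ⟨quadraticChar_neg_one_iff_not_isSquare.2 ha,
        quadraticChar_neg_one_iff_not_isSquare.2 hb⟩
  have h3 : quadraticChar K (a * b) = 1 := by
    rw [map_mul, h1.1, h1.2]
    norm_num
  have h4 : a * b ≠ 0 := by
    intro h0
    rw [h0] at h
    exact h ⟨0, by ring⟩
  exact h ((quadraticChar_one_iff_isSquare h4).1 h3)

/-- `2` is not a square modulo `3`. -/
theorem two_not_sq_SQ : ¬ IsSquare (2 : ZMod 3) := by decide

/-- `3` is not a square. -/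
theorem three_not_sq_SQ {p : ℕ} (hp : p.Prime) (h : p % 12 = 5 ∨ p % 12 = 7) :
    ¬ IsSquare (3 : ZMod p) := by
  have : Fact p.Prime := ⟨hp⟩
  have : Fact (Nat.Prime 3) := ⟨Nat.prime_three⟩
  have e3 : ((3 : ℕ) : ZMod p) = 3 := by norm_cast
  rcases h with h | h
  · have h1 := ZMod.exists_sq_eq_prime_iff_of_mod_four_eq_one (p := p) (q := 3) (by omega)
      (by norm_num)
    rw [e3] at h1
    rw [h1]
    have h2 : (p : ZMod 3) = 2 := by
      have : ((p : ℕ) : ZMod 3) = ((2 : ℕ) : ZMod 3) := by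
        rw [ZMod.natCast_eq_natCast_iff']
        omega
      rw [this]
      norm_cast
    rw [h2]
    exact two_not_sq_SQ
  · have h1 := ZMod.exists_sq_eq_prime_iff_of_mod_four_eq_three (p := p) (q := 3) (by omega)
      (by norm_num) (by rintro rfl; omega)
    rw [e3] at h1
    rw [h1, not_not]
    have h2 : (p : ZMod 3) = 1 := by
      have : ((p : ℕ) : ZMod 3) = ((1 : ℕ) : ZMod 3) := by
        rw [ZMod.natCast_eq_natCast_iff']
        omega
      rw [this]
      norm_cast
    rw [h2]
    exact ⟨1, by ring⟩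

/-- Lifting a square root. -/
theorem lift_SQ {p : ℕ} [NeZero p] (D : R) (x y : ZMod p)
    (h1 : x ^ 2 + 3 * y ^ 2 = ((D.re : ℤ) : ZMod p)) (h2 : 2 * (x * y) = ((D.im : ℤ) : ZMod p)) :
    ∃ k : R, (p : R) ∣ k ^ 2 - D := by
  refine ⟨⟨(x.val : ℤ), (y.val : ℤ)⟩, ?_⟩
  have hx : (((x.val : ℤ)) : ZMod p) = x := by
    rw [Int.cast_natCast, ZMod.natCast_zmod_val]
  have hy : (((y.val : ℤ)) : ZMod p) = y := by
    rw [Int.cast_natCast, ZMod.natCast_zmod_val]
  have e : ((p : ℕ) : R) = (((p : ℤ)) : R) := by norm_cast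
  rw [e, Zsqrtd.intCast_dvd]
  constructor
  · rw [← ZMod.intCast_zmod_eq_zero_iff_dvd, pow_two]
    simp only [Zsqrtd.re_sub, Zsqrtd.re_mul]
    push_cast
    rw [← h1]
    simp only [ZMod.natCast_zmod_val]
    ring
  · rw [← ZMod.intCast_zmod_eq_zero_iff_dvd, pow_two]
    simp only [Zsqrtd.im_sub, Zsqrtd.im_mul]
    push_cast
    rw [← h2]
    simp only [ZMod.natCast_zmod_val]
    ring

/-- Square roots modulo a prime number that is inert in `ℤ[√3]`. -/
theorem p_SQ : T_SQ := by
  intro p hp hmod D hN0 hNs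
  have : Fact p.Prime := ⟨hp⟩
  have : NeZero p := ⟨hp.ne_zero⟩
  have h3s := three_not_sq_SQ hp hmod
  have h2 : (2 : ZMod p) ≠ 0 := by
    intro h
    have h' : ((2 : ℕ) : ZMod p) = 0 := by exact_mod_cast h
    rw [ZMod.natCast_eq_zero_iff] at h'
    have := Nat.le_of_dvd (by norm_num) h'
    omega
  have h3 : (3 : ZMod p) ≠ 0 := by
    intro h
    apply h3s
    rw [h]
    exact ⟨0, by ring⟩
  obtain ⟨g, hg⟩ := hNs
  have hN : ((D.norm : ℤ) : ZMod p) =
      ((D.re : ℤ) : ZMod p) ^ 2 - 3 * ((D.im : ℤ) : ZMod p) ^ 2 := by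
    rw [norm_eq]
    push_cast
    ring
  rw [hN] at hg hN0
  set d0 : ZMod p := ((D.re : ℤ) : ZMod p) with hd0
  set d1 : ZMod p := ((D.im : ℤ) : ZMod p) with hd1
  by_cases h1 : d1 = 0
  · rw [h1] at hN0 hg
    have hd00 : d0 ≠ 0 := by
      intro h
      rw [h] at hN0
      exact hN0 (by ring)
    by_cases hs : IsSquare d0
    · obtain ⟨x, hx⟩ := hs
      exact lift_SQ D x 0 (by rw [← hd0, hx]; ring) (by rw [← hd1, h1]; ring)
    · have : IsSquare (3 * d0) := by
        by_contra hcon
        rcases mul_isSquare_SQ hcon with h | h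
        · exact h3s h
        · exact hs h
      obtain ⟨y, hy⟩ := this
      refine lift_SQ D 0 (y / 3) ?_ (by rw [← hd1, h1]; ring)
      rw [← hd0]
      field_simp
      linear_combination -hy
  · have key : ∀ A B : ZMod p, A + B = d0 → 4 * (A * B) = 3 * d1 ^ 2 → IsSquare A →
        ∃ k : R, (p : R) ∣ k ^ 2 - D := by
      rintro A B hAB hprod ⟨x, hx⟩
      have hx0 : x ≠ 0 := by
        intro h
        rw [hx, h] at hprod
        have : 3 * d1 ^ 2 = 0 := by rw [← hprod]; ring
        rcases mul_eq_zero.1 this with h' | h'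
        · exact h3 h'
        · exact h1 (pow_eq_zero_iff two_ne_zero |>.1 h')
      refine lift_SQ D x (d1 / (2 * x)) ?_ ?_
      · rw [← hd0, ← hAB]
        have hB : B = 3 * (d1 / (2 * x)) ^ 2 := by
          rw [div_pow, mul_div_assoc', eq_div_iff (pow_ne_zero 2 (mul_ne_zero h2 hx0))]
          rw [hx] at hprod
          linear_combination hprod
        rw [hB, hx]
        ring
      · rw [← hd1]
        field_simp
    have hns : ¬ IsSquare (((d0 + g) / 2) * ((d0 - g) / 2)) := by
      rintro ⟨z, hz⟩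
      apply h3s
      refine ⟨2 * z / d1, ?_⟩
      have hz' : 4 * (z * z) = 3 * d1 ^ 2 := by
        rw [← hz]
        have h4 : (4 : ZMod p) = 2 * 2 := by norm_num
        rw [h4]
        field_simp
        linear_combination hg
      rw [div_mul_div_comm, eq_div_iff (mul_ne_zero h1 h1)]
      linear_combination -hz'
    have hsum : (d0 + g) / 2 + (d0 - g) / 2 = d0 := by
      field_simp
      ring
    have hprod : 4 * (((d0 + g) / 2) * ((d0 - g) / 2)) = 3 * d1 ^ 2 := by
      have h4 : (4 : ZMod p) = 2 * 2 := by norm_num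
      rw [h4]
      field_simp
      linear_combination hg
    rcases mul_isSquare_SQ hns with h | h
    · exact key _ _ hsum hprod h
    · exact key _ _ (by rw [add_comm]; exact hsum) (by rw [mul_comm ((d0 - g) / 2)]; exact hprod) h

end ST6
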