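import Pool.Agent.ST6.Targets

set_option autoImplicit false

/-!
# MP_a901ae_nt, project ST6: target SW, one of the two neighbours is of the other class

The matrices `XX_SW P k M u v q` and `YY_SW P k M u v q` are totally positive definite of
determinant `1`; if both are in the class of the unit matrix then the matrix
`W diag (q ^ 2, 1, q) U⁻¹` contradicts LEMR.
-/

namespace ST6

open Matrix

/-- The first matrix. -/
def XX_SW (P k M u v q : R) : Matrix (Fin 3) (Fin 3) R :=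
  !![2 * P * q ^ 2, k, 0; k, 2 * M, u; 0, u, v]

/-- The second matrix. -/
def YY_SW (P k M u v q : R) : Matrix (Fin 3) (Fin 3) R :=
  !![2 * P, k, 0; k, 2 * M * q ^ 2, q * u; 0, q * u, v]

/-- The diagonal matrix. -/
def DD_SW (q : R) : Matrix (Fin 3) (Fin 3) R :=
  !![q ^ 2, 0, 0; 0, 1, 0; 0, 0, q]

theorem XX_det_SW (P k M u v q d : R) (hd : 4 * P * q ^ 2 * M - k ^ 2 = d)
    (h1 : d * v - 2 * P * q ^ 2 * u ^ 2 = 1) : (XX_SW P k M u v q).det = 1 := by
  rw [XX_SW, Matrix.det_fin_three]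
  simp only [Matrix.of_apply, Matrix.cons_val', Matrix.cons_val_zero, Matrix.cons_val_one,
    Matrix.cons_val]
  linear_combination h1 + v * hd

theorem YY_det_SW (P k M u v q d : R) (hd : 4 * P * q ^ 2 * M - k ^ 2 = d)
    (h1 : d * v - 2 * P * q ^ 2 * u ^ 2 = 1) : (YY_SW P k M u v q).det = 1 := by
  rw [YY_SW, Matrix.det_fin_three]
  simp only [Matrix.of_apply, Matrix.cons_val', Matrix.cons_val_zero, Matrix.cons_val_one,
    Matrix.cons_val]
  linear_combination h1 + v * hd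

theorem XX_adj_SW (P k M u v q d : R) (hd : 4 * P * q ^ 2 * M - k ^ 2 = d) :
    (XX_SW P k M u v q).adjugate 2 2 = d := by
  rw [XX_SW, Matrix.adjugate_fin_three_of]
  simp only [Matrix.of_apply, Matrix.cons_val', Matrix.cons_val_zero, Matrix.cons_val_one,
    Matrix.cons_val]
  linear_combination hd

theorem YY_adj_SW (P k M u v q d : R) (hd : 4 * P * q ^ 2 * M - k ^ 2 = d) :
    (YY_SW P k M u v q).adjugate 2 2 = d := by
  rw [YY_SW, Matrix.adjugate_fin_three_of]
  simp only [Matrix.of_apply, Matrix.cons_val', Matrix.cons_val_zero, Matrix.cons_val_one,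
    Matrix.cons_val]
  linear_combination hd

theorem DYD_SW (P k M u v q : R) :
    DD_SW q * YY_SW P k M u v q * DD_SW q = q ^ 2 • XX_SW P k M u v q := by
  ext i j : 1
  fin_cases i <;> fin_cases j <;>
    simp [DD_SW, XX_SW, YY_SW, Matrix.mul_apply, Fin.sum_univ_three] <;> ring

theorem DDt_SW (q : R) : (DD_SW q)ᵀ = DD_SW q := by
  ext i j : 1
  fin_cases i <;> fin_cases j <;> simp [DD_SW]

theorem DDdet_SW (q : R) : (DD_SW q).det = q ^ 3 := by
  rw [DD_SW, Matrix.det_fin_three]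
  simp only [Matrix.of_apply, Matrix.cons_val', Matrix.cons_val_zero, Matrix.cons_val_one,
    Matrix.cons_val]
  ring

/-- A matrix with determinant `± 1` has an inverse with the same determinant. -/
theorem inv_SW (U : Matrix (Fin 3) (Fin 3) R) (hU : U.det ^ 2 = 1) :
    ∃ V : Matrix (Fin 3) (Fin 3) R, U * V = 1 ∧ V * U = 1 ∧ V.det = U.det := by
  have hV1 : U * (U.det • U.adjugate) = 1 := by
    rw [Matrix.mul_smul, Matrix.mul_adjugate, smul_smul, ← pow_two, hU, one_smul]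
  have hV2 : (U.det • U.adjugate) * U = 1 := by
    rw [Matrix.smul_mul, Matrix.adjugate_mul, smul_smul, ← pow_two, hU, one_smul]
  refine ⟨U.det • U.adjugate, hV1, hV2, ?_⟩
  have h := congrArg Matrix.det hV1
  rw [Matrix.det_mul, Matrix.det_one] at h
  linear_combination U.det * h - (U.det • U.adjugate).det * hU

/-- The contradiction with LEMR. -/
theorem contra_SW (h2 : T_LEMR) (P k M u v q : R) (hq : Prime q) (hqo : Odd q.norm)
    (hqn : q.norm < 0) (U W : Matrix (Fin 3) (Fin 3) R) (hU : U.det ^ 2 = 1)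
    (hW : W.det ^ 2 = 1) (hX : XX_SW P k M u v q = Uᵀ * U)
    (hY : YY_SW P k M u v q = Wᵀ * W) : False := by
  obtain ⟨V, hV1, hV2, hV3⟩ := inv_SW U hU
  obtain ⟨T, hT1, hT2, hT3⟩ := inv_SW W hW
  set s : R := U.det * W.det with hs
  have hs2 : s ^ 2 = 1 := by
    rw [hs]; linear_combination U.det ^ 2 * hW + hU
  set M1 : Matrix (Fin 3) (Fin 3) R := s • (W * DD_SW q * V) with hM1
  have hdet : M1.det = q ^ 3 := by
    rw [hM1, Matrix.det_smul, Matrix.det_mul, Matrix.det_mul, DDdet_SW, hV3]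
    rw [Fintype.card_fin]
    have e : s ^ 3 * (W.det * q ^ 3 * U.det) = (s ^ 2) ^ 2 * q ^ 3 := by
      rw [hs]; ring
    rw [e, hs2]; ring
  have hVU : Vᵀ * Uᵀ = 1 := by
    rw [← Matrix.transpose_mul, hV1, Matrix.transpose_one]
  have hgram : M1ᵀ * M1 = q ^ 2 • (1 : Matrix (Fin 3) (Fin 3) R) := by
    rw [hM1, Matrix.transpose_smul, Matrix.smul_mul, Matrix.mul_smul, smul_smul, ← pow_two,
      hs2, one_smul, Matrix.transpose_mul, Matrix.transpose_mul, DDt_SW]
    have e : Vᵀ * (DD_SW q * Wᵀ) * (W * DD_SW q * V) =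
        Vᵀ * (DD_SW q * (Wᵀ * W) * DD_SW q) * V := by
      simp only [Matrix.mul_assoc]
    rw [e, ← hY, DYD_SW, hX, Matrix.mul_smul, Matrix.smul_mul]
    have e2 : Vᵀ * (Uᵀ * U) * V = (Vᵀ * Uᵀ) * (U * V) := by
      simp only [Matrix.mul_assoc]
    rw [e2, hVU, hV1, Matrix.mul_one]
  obtain ⟨N, hN⟩ := h2 M1 q hq hqo hqn hgram hdet
  have h3 : T * M1 * U = s • DD_SW q := by
    rw [hM1, Matrix.mul_smul, Matrix.smul_mul]
    have e : T * (W * DD_SW q * V) * U = (T * W) * DD_SW q * (V * U) := by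
      simp only [Matrix.mul_assoc]
    rw [e, hT2, hV2, Matrix.one_mul, Matrix.mul_one]
  have h4 : T * M1 * U = q • (T * N * U) := by
    rw [hN, Matrix.mul_smul, Matrix.smul_mul]
  have h5 : s = q * (T * N * U) 1 1 := by
    have h6 := congrFun (congrFun (h3.symm.trans h4) 1) 1
    simpa [DD_SW, Matrix.smul_apply] using h6
  have h7 : q ∣ s := ⟨_, h5⟩
  have h8 : q ∣ 1 := by
    rw [← hs2, pow_two]; exact Dvd.dvd.mul_left h7 s
  exact hq.not_isUnit (isUnit_of_dvd_one h8)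

theorem pp_two_SW : pp ∣ (2 : R) := by
  rw [two_eq, pow_two, mul_assoc]
  exact dvd_mul_right _ _

theorem XX_even_SW (P k M u v q : R) (x : Fin 3 → R) (hx : x 2 = 0) :
    En (x ⬝ᵥ (XX_SW P k M u v q *ᵥ x)) := by
  rw [En_iff]
  have e : x ⬝ᵥ (XX_SW P k M u v q *ᵥ x) =
      2 * (P * q ^ 2 * x 0 ^ 2 + k * x 0 * x 1 + M * x 1 ^ 2) := by
    simp [XX_SW, dotProduct, Matrix.mulVec, Fin.sum_univ_three, hx]
    ring
  rw [e]
  exact Dvd.dvd.mul_right pp_two_SW _

theorem YY_even_SW (P k M u v q : R) (x : Fin 3 → R) (hx : x 2 = 0) :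
    En (x ⬝ᵥ (YY_SW P k M u v q *ᵥ x)) := by
  rw [En_iff]
  have e : x ⬝ᵥ (YY_SW P k M u v q *ᵥ x) =
      2 * (P * x 0 ^ 2 + k * x 0 * x 1 + M * q ^ 2 * x 1 ^ 2) := by
    simp [YY_SW, dotProduct, Matrix.mulVec, Fin.sum_univ_three, hx]
    ring
  rw [e]
  exact Dvd.dvd.mul_right pp_two_SW _

theorem p_SW (h1 : T_CLS3) (h2 : T_LEMR) (h3 : T_KEV) (h4 : T_PDS) : T_SW := by
  intro P k M u v q d hP hdp hq hqo hqn hd hdv hv
  have htwo : Tp (2 : R) := by
    refine ⟨?_, ?_⟩ <;> decide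
  have hone : Tp (1 : R) := by
    refine ⟨?_, ?_⟩ <;> decide
  have hq2 : Tp (q ^ 2) := Tp_sq hq.ne_zero
  have hXd := XX_det_SW P k M u v q d hd hdv
  have hYd := YY_det_SW P k M u v q d hd hdv
  have hXpd : PD (XX_SW P k M u v q) := by
    refine h4.2 _ _ _ _ _ _ ((htwo.mul hP).mul hq2) ?_ ?_
    · have e : 2 * P * q ^ 2 * (2 * M) - k ^ 2 = d := by linear_combination hd
      rw [e]; exact hdp
    · have e := hXd
      rw [XX_SW] at e
      rw [e]; exact hone
  have hYpd : PD (YY_SW P k M u v q) := by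
    refine h4.2 _ _ _ _ _ _ (htwo.mul hP) ?_ ?_
    · have e : 2 * P * (2 * M * q ^ 2) - k ^ 2 = d := by linear_combination hd
      rw [e]; exact hdp
    · have e := hYd
      rw [YY_SW] at e
      rw [e]; exact hone
  have hXev : ∀ i, Ev (XX_SW P k M u v q i i) := by
    intro i
    fin_cases i
    · change Ev (2 * P * q ^ 2)
      rw [mul_assoc]; exact Ev_two_mul _
    · change Ev (2 * M)
      exact Ev_two_mul _
    · exact hv
  have hYev : ∀ i, Ev (YY_SW P k M u v q i i) := by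
    intro i
    fin_cases i
    · change Ev (2 * P)
      exact Ev_two_mul _
    · change Ev (2 * M * q ^ 2)
      rw [mul_assoc]; exact Ev_two_mul _
    · exact hv
  obtain ⟨U, hU, hXU | hXU⟩ := h1 _ hXpd hXd hXev
  · obtain ⟨W, hW, hYW | hYW⟩ := h1 _ hYpd hYd hYev
    · exact (contra_SW h2 P k M u v q hq hqo hqn U W hU hW hXU hYW).elim
    · obtain ⟨β, z, hz⟩ := h3 _ _ hYW hW (YY_even_SW P k M u v q)
      exact ⟨β, z, by rw [← hz, YY_adj_SW P k M u v q d hd]⟩
  · obtain ⟨β, z, hz⟩ := h3 _ _ hXU hU (XX_even_SW P k M u v q)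
    exact ⟨β, z, by rw [← hz, XX_adj_SW P k M u v q d hd]⟩

end ST6

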