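import Pool.Agent.ST6.Targets

set_option autoImplicit false

/-!
# MP_a901ae_nt: totally positive numbers with even coefficient (target T3P)
-/

namespace ST6

open scoped NumberTheorySymbols

theorem jac_one_T3P (n p : ℕ) (hn : n % 4 = 1) (hp : p % 4 = 1) (h : (n : ℤ) ∣ 1 + p) :
    J((n : ℤ) | p) = 1 := by
  have hnodd : Odd n := Nat.odd_iff.mpr (by omega)
  have hpodd : Odd p := Nat.odd_iff.mpr (by omega)
  rw [jacobiSym.quadratic_reciprocity_one_mod_four hn hpodd]
  have h1 : J((p : ℤ) | n) = J(-1 | n) := by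
    apply jacobiSym.mod_left'
    apply Int.emod_emod_of_dvd _ (dvd_refl (n : ℤ)) |>.symm.trans
    rw [Int.emod_emod_of_dvd _ (dvd_refl (n : ℤ))]
    apply Int.emod_eq_emod_iff_emod_sub_eq_zero.2
    apply Int.emod_eq_zero_of_dvd
    have : (p : ℤ) - -1 = 1 + p := by ring
    rw [this]
    exact h
  rw [h1, jacobiSym.at_neg_one hnodd, ZMod.χ₄_nat_one_mod_four hn]

theorem jac_neg_T3P (n p : ℕ) (hn : n % 4 = 3) (hp : p % 4 = 1) (h : (n : ℤ) ∣ 1 + p) :
    J((n : ℤ) | p) = -1 := by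
  have hnodd : Odd n := Nat.odd_iff.mpr (by omega)
  have hpodd : Odd p := Nat.odd_iff.mpr (by omega)
  rw [jacobiSym.quadratic_reciprocity_one_mod_four' hnodd hp]
  have h1 : J((p : ℤ) | n) = J(-1 | n) := by
    apply jacobiSym.mod_left'
    apply Int.emod_eq_emod_iff_emod_sub_eq_zero.2
    apply Int.emod_eq_zero_of_dvd
    have : (p : ℤ) - -1 = 1 + p := by ring
    rw [this]
    exact h
  rw [h1, jacobiSym.at_neg_one hnodd, ZMod.χ₄_nat_three_mod_four hn]

theorem jac_two_T3P (p : ℕ) (hp : p % 8 = 5) : J(2 | p) = -1 := by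
  have hpodd : Odd p := Nat.odd_iff.mpr (by omega)
  rw [jacobiSym.at_two hpodd, ZMod.χ₈_nat_eq_if_mod_eight]
  rw [if_neg (by omega), if_neg (by omega)]

/-- The common part of the three cases. -/
theorem main_T3P (h1 : T_GEN) (h2 : T_SQ) (d : R) (hd : Tp d) (hev : Ev d) (p : ℕ)
    (hp : p.Prime) (hp12 : p % 12 = 5) (hgt : d.norm < p)
    (hsq : IsSquare ((d.norm : ℤ) : ZMod p)) (u v : R) (hv : Ev v)
    (huv : d * v = 1 + (p : R) * u ^ 2) : ∃ (β : R) (z : O), d = β ^ 2 + 2 * nm z := by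
  have hn0 : 0 < d.norm := hd.norm_pos
  have hne : ((d.norm : ℤ) : ZMod p) ≠ 0 := by
    intro h
    rw [ZMod.intCast_zmod_eq_zero_iff_dvd] at h
    have := Int.le_of_dvd hn0 h
    omega
  have hnn : (-d).norm = d.norm := Zsqrtd.norm_neg d
  obtain ⟨k, m, hm⟩ := h2 p hp (Or.inl hp12) (-d) (by rwa [hnn]) (by rwa [hnn])
  have hm' : (p : R) * m = k ^ 2 + d := by
    rw [← hm]
    ring
  have hp0 : 0 < p := hp.pos
  have hTp : Tp (p : R) := by
    constructor
    · simpa using hp0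
    · simp
      exact_mod_cast pow_pos hp0 2
  have hEp : Ev (p : R) := by
    unfold Ev
    simp
  have hEm : Ev m := by
    have h3 : Ev ((p : R) * m) := by
      rw [hm']
      exact (Ev_sq k).add hev
    unfold Ev at h3 ⊢
    have h4 : ((p : R) * m).im = (p : ℤ) * m.im := by simp
    rw [h4, Int.even_mul] at h3
    rcases h3 with h3 | h3
    · exfalso
      rw [Int.even_iff] at h3
      omega
    · exact h3
  exact h1 p k m u v d hTp hd hEp hEm hv (by rw [hm']; ring) (by rw [huv]; ring)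

/-- The cases `d` odd and `d = 2 d1`, `d1` odd. -/
theorem case_one_T3P (h1 : T_GEN) (h2 : T_SQ) (c g : ℤ) (hc : 0 < c) (hg : g * c = 6) (d1 : R)
    (hd : Tp ((c : R) * d1)) (ho : Odd d1.re) (he : Even d1.im) :
    ∃ (β : R) (z : O), (c : R) * d1 = β ^ 2 + 2 * nm z := by
  have hcn : ((c : R) * d1).norm = c ^ 2 * d1.norm := by
    rw [Zsqrtd.norm_mul, Zsqrtd.norm_intCast]
    ring
  have hn0 : 0 < d1.norm := by
    have h3 := hd.norm_pos
    rw [hcn] at h3
    exact pos_of_mul_pos_right h3 (sq_nonneg c)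
  obtain ⟨n, hn⟩ : ∃ n : ℕ, (n : ℤ) = d1.norm := ⟨d1.norm.toNat, Int.toNat_of_nonneg hn0.le⟩
  have hn4 : ∃ i : ℤ, (n : ℤ) = 4 * i + 1 := by
    obtain ⟨a, ha⟩ := ho
    obtain ⟨b, hb⟩ := he
    refine ⟨a ^ 2 + a - 3 * b ^ 2, ?_⟩
    rw [hn, norm_eq, ha, hb]
    ring
  obtain ⟨i, hi⟩ := hn4
  have hnpos : 0 < n := by
    have : (0 : ℤ) < n := by rw [hn]; exact hn0
    exact_mod_cast this
  have hcop : IsCoprime (6 * (n : ℤ) - 1) ((12 * n : ℕ) : ℤ) := by
    refine ⟨-(6 * (n : ℤ) + 1), 3 * n, ?_⟩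
    push_cast
    ring
  obtain ⟨p, hpgt, hp, hpm⟩ := Nat.forall_exists_prime_gt_and_zmodEq (c.toNat ^ 2 * n)
    (q := 12 * n) (a := 6 * (n : ℤ) - 1) (by omega) hcop
  obtain ⟨j, hj⟩ := Int.modEq_iff_dvd.1 hpm
  push_cast at hj
  have hp1 : 1 + (p : ℤ) = 6 * n * (1 - 2 * j) := by linear_combination -hj
  have hp12 : p % 12 = 5 := by
    have h3 : (p : ℤ) = 12 * (2 * i - n * j) + 5 := by
      have h4 : 6 * (n : ℤ) = 24 * i + 6 := by rw [hi]; ring
      linear_combination hp1 + h4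
    generalize 2 * i - (n : ℤ) * j = X at h3
    omega
  have hgt : ((c : R) * d1).norm < p := by
    rw [hcn, ← hn]
    have h3 : ((c.toNat ^ 2 * n : ℕ) : ℤ) < p := by exact_mod_cast hpgt
    push_cast at h3
    rwa [Int.toNat_of_nonneg hc.le] at h3
  have hpp : Fact p.Prime := ⟨hp⟩
  have hj1 : J((n : ℤ) | p) = 1 := by
    refine jac_one_T3P n p (by omega) (by omega) ⟨6 * (1 - 2 * j), ?_⟩
    rw [hp1]
    ring
  have hsq : IsSquare ((((c : R) * d1).norm : ℤ) : ZMod p) := by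
    rw [hcn, ← hn]
    obtain ⟨r, hr⟩ := ZMod.isSquare_of_jacobiSym_eq_one hj1
    refine ⟨c * r, ?_⟩
    push_cast at hr ⊢
    rw [hr]
    ring
  have hev : Ev ((c : R) * d1) := by
    unfold Ev
    have : ((c : R) * d1).im = c * d1.im := by simp
    rw [this]
    exact he.mul_left c
  refine main_T3P h1 h2 _ hd hev p hp hp12 hgt hsq 1 (((g * (1 - 2 * j) : ℤ) : R) * star d1)
    ?_ ?_
  · unfold Ev
    have : (((g * (1 - 2 * j) : ℤ) : R) * star d1).im = (g * (1 - 2 * j)) * -d1.im := by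
      rw [Zsqrtd.im_mul]
      simp
    rw [this]
    exact Even.mul_left (by simpa using he) _
  · have h3 := Zsqrtd.norm_eq_mul_conj d1
    rw [← hn] at h3
    have h4 : ((1 + (p : ℤ) : ℤ) : R) = ((6 * n * (1 - 2 * j) : ℤ) : R) := by rw [hp1]
    have h5 : ((g * c : ℤ) : R) = ((6 : ℤ) : R) := by rw [hg]
    push_cast at h3 h4 h5 ⊢
    linear_combination (-(g : R) * c * (1 - 2 * j)) * h3 + (n * (1 - 2 * j) : R) * h5 - h4

/-- The case `d = 2 d1`, `d1` even but not divisible by `2`. -/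
theorem case_three_T3P (h1 : T_GEN) (h2 : T_SQ) (d1 : R)
    (hd : Tp (2 * d1)) (ho : Odd d1.re) (ho' : Odd d1.im) :
    ∃ (β : R) (z : O), 2 * d1 = β ^ 2 + 2 * nm z := by
  have hcn : (2 * d1).norm = 4 * d1.norm := by
    rw [Zsqrtd.norm_mul]
    have : (2 : R).norm = 4 := by
      have := Zsqrtd.norm_intCast (d := 3) 2
      simpa using this
    rw [this]
  have hn0 : 0 < d1.norm := by
    have h3 := hd.norm_pos
    rw [hcn] at h3
    omega
  have hn4 : ∃ r : ℤ, d1.norm = 2 * (4 * r + 3) := by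
    obtain ⟨a, ha⟩ := ho
    obtain ⟨b, hb⟩ := ho'
    have h3 : d1.norm = 4 * (a * (a + 1)) - 12 * (b * (b + 1)) - 2 := by
      rw [norm_eq, ha, hb]
      ring
    obtain ⟨x, hx⟩ := Int.even_mul_succ_self a
    obtain ⟨y, hy⟩ := Int.even_mul_succ_self b
    rw [hx, hy] at h3
    exact ⟨x - 3 * y - 1, by rw [h3]; ring⟩
  obtain ⟨r, hr⟩ := hn4
  obtain ⟨n, hn⟩ : ∃ n : ℕ, (n : ℤ) = 4 * r + 3 :=
    ⟨(4 * r + 3).toNat, Int.toNat_of_nonneg (by omega)⟩
  have hn2 : d1.norm = 2 * n := by rw [hr, hn]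
  have hcop : IsCoprime (18 * (n : ℤ) - 1) ((24 * n : ℕ) : ℤ) := by
    refine ⟨-(24 * r + 19), 18 * r + 14, ?_⟩
    push_cast
    rw [hn]
    ring
  obtain ⟨p, hpgt, hp, hpm⟩ := Nat.forall_exists_prime_gt_and_zmodEq (8 * n)
    (q := 24 * n) (a := 18 * (n : ℤ) - 1) (by omega) hcop
  obtain ⟨j, hj⟩ := Int.modEq_iff_dvd.1 hpm
  push_cast at hj
  have hp1 : 1 + (p : ℤ) = 6 * n * (3 - 4 * j) := by linear_combination -hj
  have hp24 : p % 24 = 5 := by
    have h3 : (p : ℤ) = 24 * (3 * r + 2 - n * j) + 5 := by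
      have h4 : 18 * (n : ℤ) = 72 * r + 54 := by rw [hn]; ring
      linear_combination hp1 + h4
    generalize 3 * r + 2 - (n : ℤ) * j = X at h3
    omega
  have hgt : (2 * d1).norm < p := by
    rw [hcn, hn2]
    have h3 : ((8 * n : ℕ) : ℤ) < p := by exact_mod_cast hpgt
    push_cast at h3
    linarith
  have hpp : Fact p.Prime := ⟨hp⟩
  have hj1 : J((n : ℤ) | p) = -1 := by
    refine jac_neg_T3P n p (by omega) (by omega) ⟨6 * (3 - 4 * j), ?_⟩
    rw [hp1]
    ring
  have hj2 : J(2 * (n : ℤ) | p) = 1 := by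
    rw [jacobiSym.mul_left, hj1, jac_two_T3P p (by omega)]
    norm_num
  have hsq : IsSquare (((2 * d1).norm : ℤ) : ZMod p) := by
    rw [hcn, hn2]
    obtain ⟨s, hs⟩ := ZMod.isSquare_of_jacobiSym_eq_one hj2
    refine ⟨2 * s, ?_⟩
    push_cast at hs ⊢
    rw [hs]
    ring
  have hev : Ev (2 * d1) := Ev_two_mul d1
  obtain ⟨a, ha⟩ : ∃ a : ℤ, (p : ℤ) = 4 * a + 1 := ⟨(p : ℤ) / 4, by omega⟩
  refine main_T3P h1 h2 _ hd hev p hp (by omega) hgt hsq ⟨1 + n, -n⟩
    (2 * (star d1 * ⟨8 * a * r + 7 * a + 2 * r + 4 - 3 * j, -(p * (r + 1))⟩)) (Ev_two_mul _) ?_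
  have h3 := Zsqrtd.norm_eq_mul_conj d1
  rw [hn2] at h3
  have h4 : (2 * d1) * (2 * (star d1 * ⟨8 * a * r + 7 * a + 2 * r + 4 - 3 * j,
      -(p * (r + 1))⟩)) = ((4 * (2 * n) : ℤ) : R) *
      ⟨8 * a * r + 7 * a + 2 * r + 4 - 3 * j, -(p * (r + 1))⟩ := by
    push_cast at h3 ⊢
    linear_combination (-4 * (⟨8 * a * r + 7 * a + 2 * r + 4 - 3 * j, -(p * (r + 1))⟩ : R)) * h3
  rw [h4]
  ext
  · simp [pow_two]
    rw [ha, hn]
    rw [ha, hn] at hp1
    nlinarith [hp1]
  · simp [pow_two]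
    rw [hn]
    ring

theorem p_T3P (h1 : T_GEN) (h2 : T_SQ) : T_T3P := by
  have key : ∀ N : ℕ, ∀ d : R, d.norm.toNat = N → Tp d → Ev d →
      ∃ (β : R) (z : O), d = β ^ 2 + 2 * nm z := by
    intro N
    induction N using Nat.strong_induction_on with
    | _ N ih =>
      intro d hN hd hev
      rcases Int.even_or_odd d.re with hre | hre
      · obtain ⟨s, hs⟩ := hre
        obtain ⟨t, ht⟩ := hev
        have hdst : d = 2 * ⟨s, t⟩ := by
          ext
          · simp [hs]; ring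
          · simp [ht]; ring
        rcases Int.even_or_odd s with hs2 | hs2
        · have hd2 : d = pp ^ 2 * ⟨2 * s - 3 * t, 2 * t - s⟩ := by
            ext
            · simp [hs, pp, pow_two]; ring
            · simp [ht, pp, pow_two]; ring
          have hpp2 : Tp (pp ^ 2) := by
            apply Tp_sq
            intro h
            have := congrArg Zsqrtd.re h
            simp [pp] at this
          have hTp : Tp (⟨2 * s - 3 * t, 2 * t - s⟩ : R) := by
            rw [hd2] at hd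
            exact Tp.of_mul hpp2 hd
          have hE : Ev (⟨2 * s - 3 * t, 2 * t - s⟩ : R) := by
            unfold Ev
            exact Even.sub (even_two_mul t) hs2
          have hnorm : d.norm = 4 * (⟨2 * s - 3 * t, 2 * t - s⟩ : R).norm := by
            rw [norm_eq, norm_eq, hs, ht]
            ring
          have hpos := hTp.norm_pos
          obtain ⟨β, z, hβ⟩ := ih _ (by omega) ⟨2 * s - 3 * t, 2 * t - s⟩ rfl hTp hE
          refine ⟨pp * β, pp • z, ?_⟩
          rw [hd2, hβ, nm_smul]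
          ring
        · rcases Int.even_or_odd t with ht2 | ht2
          · have h3 := case_one_T3P h1 h2 2 3 (by norm_num) (by norm_num) ⟨s, t⟩
              (by
                rw [hdst] at hd
                simpa using hd) hs2 ht2
            rw [hdst]
            simpa using h3
          · rw [hdst] at hd ⊢
            exact case_three_T3P h1 h2 ⟨s, t⟩ hd hs2 ht2
      · have h3 := case_one_T3P h1 h2 1 6 (by norm_num) (by norm_num) d
          (by simpa using hd) hre hev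
        simpa using h3
  intro d hd hev
  exact key _ d rfl hd hev

end ST6
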