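import Pool.Agent.ST6.Targets

set_option autoImplicit false

/-!
# Totally positive numbers which are `1` or `3` modulo `4` (T3Q)
-/

namespace ST6

theorem crt_T3Q {a b : R} (h : IsCoprime a b) (x y : R) : ∃ k : R, a ∣ k - x ∧ b ∣ k - y := by
  obtain ⟨u, v, huv⟩ := h
  refine ⟨x * (v * b) + y * (u * a), ⟨(y - x) * u, ?_⟩, ⟨(x - y) * v, ?_⟩⟩
  · linear_combination x * huv
  · linear_combination y * huv

theorem dvd_T3Q {a k x d : R} (h1 : a ∣ k - x) (h2 : a ∣ x ^ 2 + d) : a ∣ k ^ 2 + d := by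
  have : k ^ 2 + d = (k - x) * (k + x) + (x ^ 2 + d) := by ring
  rw [this]
  exact dvd_add (Dvd.dvd.mul_right h1 _) h2

theorem hensel_T3Q {q k d : R} (hq : IsCoprime q (2 * k)) (h : q ∣ k ^ 2 + d) :
    ∃ k1 : R, q ^ 2 ∣ k1 ^ 2 + d := by
  obtain ⟨c, hc⟩ := h
  obtain ⟨a, b, hab⟩ := hq
  refine ⟨k - q * (b * c), ⟨a * c + (b * c) ^ 2, ?_⟩⟩
  linear_combination hc - q * c * hab

theorem norm_T3Q {d : R} (h : 4 ∣ d - 1 ∨ 4 ∣ d - 3) : d.norm % 8 = 1 ∧ Ev d := by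
  rcases h with h | h
  · rw [four_dvd_iff] at h
    obtain ⟨⟨a, ha⟩, ⟨b, hb⟩⟩ := h
    simp at ha hb
    have h1 : d.re = 4 * a + 1 := by omega
    have h2 : d.norm = 8 * (2 * a ^ 2 + a - 6 * b ^ 2) + 1 := by
      rw [norm_eq, h1, hb]
      ring
    refine ⟨by omega, ?_⟩
    unfold Ev
    rw [hb]
    exact ⟨2 * b, by ring⟩
  · rw [four_dvd_iff] at h
    obtain ⟨⟨a, ha⟩, ⟨b, hb⟩⟩ := h
    simp at ha hb
    have h1 : d.re = 4 * a + 3 := by omega
    have h2 : d.norm = 8 * (2 * a ^ 2 + 3 * a + 1 - 6 * b ^ 2) + 1 := by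
      rw [norm_eq, h1, hb]
      ring
    refine ⟨by omega, ?_⟩
    unfold Ev
    rw [hb]
    exact ⟨2 * b, by ring⟩

theorem prime_T3Q (n B : ℕ) (hn : n % 8 = 1) :
    ∃ p : ℕ, B < p ∧ p.Prime ∧ p % 12 = 7 ∧ n ∣ 2 * p + 1 := by
  obtain ⟨m, rfl⟩ : ∃ m, n = 8 * m + 1 := ⟨n / 8, by omega⟩
  have hc : Nat.Coprime (60 * m + 7) (12 * (8 * m + 1)) := by
    rw [← Nat.isCoprime_iff_coprime]
    push_cast
    refine IsCoprime.mul_right ⟨7, -(35 * (m : ℤ) + 4), by ring⟩ ⟨-2, 15, by ring⟩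
  obtain ⟨p, hB, hp, hmod⟩ := Nat.forall_exists_prime_gt_and_modEq B
    (q := 12 * (8 * m + 1)) (by omega) hc
  refine ⟨p, hB, hp, ?_, ?_⟩
  · have h1 : p ≡ 60 * m + 7 [MOD 12] := hmod.of_mul_right _
    unfold Nat.ModEq at h1
    omega
  · have h1 : p ≡ 60 * m + 7 [MOD 8 * m + 1] := hmod.of_mul_left _
    have h2 : 2 * p + 1 ≡ 2 * (60 * m + 7) + 1 [MOD 8 * m + 1] :=
      (h1.mul_left 2).add_right 1
    refine (Nat.modEq_zero_iff_dvd).1 (h2.trans ?_)
    rw [Nat.modEq_zero_iff_dvd]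
    exact ⟨15, by ring⟩

theorem jac_T3Q (n p : ℕ) (hn : n % 8 = 1) (hp : p % 12 = 7) (h : n ∣ 2 * p + 1) :
    jacobiSym n p = 1 := by
  have hodd : Odd n := by rw [Nat.odd_iff]; omega
  have hpodd : Odd p := by rw [Nat.odd_iff]; omega
  rw [jacobiSym.quadratic_reciprocity_one_mod_four (by omega) hpodd]
  have h2 : jacobiSym 2 n = 1 := by
    rw [jacobiSym.at_two hodd, ZMod.χ₈_nat_eq_if_mod_eight]
    have : n % 2 ≠ 0 := by omega
    simp [hn, this]
  have h1 : jacobiSym (-1) n = 1 := by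
    rw [jacobiSym.at_neg_one hodd, ZMod.χ₄_nat_one_mod_four (by omega)]
  have h3 : jacobiSym (2 * (p : ℤ)) n = jacobiSym (-1) n := by
    apply jacobiSym.mod_left'
    have : (2 * (p : ℤ)) ≡ -1 [ZMOD n] := by
      rw [Int.modEq_iff_dvd]
      have h4 : (n : ℤ) ∣ 2 * (p : ℤ) + 1 := by exact_mod_cast h
      have h5 : (-1 : ℤ) - 2 * p = -(2 * (p : ℤ) + 1) := by ring
      rw [h5]
      exact (dvd_neg).2 h4
    exact this
  rw [jacobiSym.mul_left, h2, one_mul, h1] at h3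
  exact h3

theorem sq_T3Q (n p : ℕ) (hn : n % 8 = 1) (hpp : p.Prime) (hp : p % 12 = 7)
    (h : n ∣ 2 * p + 1) (hnp : n < p) :
    (((n : ℤ) : ZMod p) ≠ 0) ∧ IsSquare ((n : ℤ) : ZMod p) := by
  have : Fact p.Prime := ⟨hpp⟩
  have h0 : ((n : ℤ) : ZMod p) ≠ 0 := by
    rw [Int.cast_natCast]
    intro h0
    rw [ZMod.natCast_eq_zero_iff] at h0
    have := Nat.le_of_dvd (by omega) h0
    omega
  refine ⟨h0, ?_⟩
  rw [← legendreSym.eq_one_iff p h0, jacobiSym.legendreSym.to_jacobiSym]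
  exact jac_T3Q n p hn hp h

theorem cast_T3Q {a b : ℤ} (h : IsCoprime a b) : IsCoprime (a : R) (b : R) := by
  have := h.map (Int.castRingHom R)
  simpa using this

theorem p_T3Q (h1 : T_QEX) (h2 : T_SW) (h3 : T_SQ) : T_T3Q := by
  intro d hd hd4
  by_cases hsq : ∃ δ : R, d = δ ^ 2
  · obtain ⟨δ, hδ⟩ := hsq
    exact ⟨δ, 0, by rw [nm_zero, hδ]; ring⟩
  obtain ⟨q, k0, hq, hqo, hqn, hqc, hqd⟩ := h1 d hd hd4 hsq
  obtain ⟨hd8, hEv⟩ := norm_T3Q hd4
  have hdpos := hd.norm_pos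
  -- coprimality facts for `q`
  have hqN : q ∣ ((q.norm : ℤ) : R) := by
    rw [Zsqrtd.norm_eq_mul_conj]
    exact Dvd.intro _ rfl
  have hq2d : IsCoprime q (((2 * d.norm : ℤ)) : R) :=
    (cast_T3Q hqc).of_isCoprime_of_dvd_left hqN
  have hq2 : IsCoprime q (2 : R) := by
    refine hq2d.of_isCoprime_of_dvd_right ?_
    push_cast
    exact Dvd.intro _ rfl
  have hqdn : IsCoprime q ((d.norm : ℤ) : R) := by
    refine hq2d.of_isCoprime_of_dvd_right ?_
    push_cast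
    exact Dvd.intro_left _ rfl
  have hqdd : IsCoprime q d := by
    refine hqdn.of_isCoprime_of_dvd_right ?_
    rw [Zsqrtd.norm_eq_mul_conj]
    exact Dvd.intro _ rfl
  have hqk : IsCoprime q k0 := by
    obtain ⟨c, hc⟩ := hqd
    obtain ⟨a, b, hab⟩ := hqdd
    refine ⟨a + b * c, -(b * k0), ?_⟩
    linear_combination hab - b * hc
  obtain ⟨k1, hk1⟩ := hensel_T3Q (hq2.mul_right hqk) hqd
  -- the natural number `n = norm d`
  obtain ⟨n, hn⟩ := Int.eq_ofNat_of_zero_le hdpos.le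
  have hn8 : n % 8 = 1 := by
    rw [hn] at hd8
    omega
  obtain ⟨p, hpB, hpp, hp12, hpn⟩ := prime_T3Q n (n + q.norm.natAbs) hn8
  have hsqp := sq_T3Q n p hn8 hpp hp12 hpn (by omega)
  -- square root of `- d` modulo `p`
  have hnn : (-d).norm = (n : ℤ) := by
    rw [← hn, norm_eq, norm_eq]
    simp
  obtain ⟨k2, hk2⟩ := h3 p hpp (Or.inr hp12) (-d) (by rw [hnn]; exact hsqp.1)
    (by rw [hnn]; exact hsqp.2)
  have hk2' : (p : R) ∣ k2 ^ 2 + d := by
    have : k2 ^ 2 + d = k2 ^ 2 - -d := by ring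
    rw [this]
    exact hk2
  -- square root of `- d` modulo `4`
  obtain ⟨k3, hk3⟩ : ∃ k3 : R, 4 ∣ k3 ^ 2 + d := by
    rcases hd4 with h | h
    · refine ⟨w, ?_⟩
      have : w ^ 2 + d = (d - 1) + 4 := by
        rw [pow_two, w_sq]
        ring
      rw [this]
      exact dvd_add h (dvd_refl _)
    · refine ⟨1, ?_⟩
      have : (1 : R) ^ 2 + d = (d - 3) + 4 := by ring
      rw [this]
      exact dvd_add h (dvd_refl _)
  -- coprimality of the moduli
  have hpodd : ¬ p ∣ 4 := by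
    intro h
    have := Nat.le_of_dvd (by norm_num) h
    omega
  have h4p : IsCoprime (4 : R) (p : R) := by
    have h5 : IsCoprime (4 : ℤ) (p : ℤ) := by
      have : Nat.Coprime 4 p := ((Nat.Prime.coprime_iff_not_dvd hpp).2 hpodd).symm
      exact_mod_cast Nat.isCoprime_iff_coprime.2 this
    have h6 := cast_T3Q h5
    simpa using h6
  have hqp : IsCoprime q (p : R) := by
    have h5 : IsCoprime q.norm (p : ℤ) := by
      rw [Int.isCoprime_iff_gcd_eq_one]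
      have : Nat.Coprime p q.norm.natAbs := by
        rw [Nat.Prime.coprime_iff_not_dvd hpp]
        intro h
        have h0 : 0 < q.norm.natAbs := by omega
        have := Nat.le_of_dvd h0 h
        omega
      have h7 := this.symm
      rw [Int.gcd]
      simpa using h7
    have h6 := cast_T3Q h5
    rw [Int.cast_natCast] at h6
    exact h6.of_isCoprime_of_dvd_left hqN
  have hq4 : IsCoprime q (4 : R) := by
    have : (4 : R) = 2 * 2 := by norm_num
    rw [this]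
    exact hq2.mul_right hq2
  have h4pq : IsCoprime ((4 : R) * p) (q ^ 2) :=
    IsCoprime.pow_right (hq4.mul_right hqp).symm
  obtain ⟨k', hk'4, hk'p⟩ := crt_T3Q h4p k3 k2
  obtain ⟨k, hk4p, hkq⟩ := crt_T3Q h4pq k' k1
  have hA : (4 : R) * p ∣ k ^ 2 + d :=
    dvd_T3Q hk4p (h4p.mul_dvd (dvd_T3Q hk'4 hk3) (dvd_T3Q hk'p hk2'))
  have hB : (4 : R) * p * q ^ 2 ∣ k ^ 2 + d := h4pq.mul_dvd hA (dvd_T3Q hkq hk1)
  obtain ⟨M, hM⟩ := hB
  -- the choice of `u` and `v`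
  obtain ⟨a, b, hab⟩ := hqdn
  rw [hn] at hab
  have hdd : (((n : ℤ)) : R) = d * star d := by
    rw [← hn, Zsqrtd.norm_eq_mul_conj]
  obtain ⟨e, he⟩ : ∃ e : ℤ, 2 * (p : ℤ) + 1 = n * e := by
    have : (n : ℤ) ∣ 2 * (p : ℤ) + 1 := by exact_mod_cast hpn
    exact this
  have heR : 2 * (p : R) + 1 = (((n : ℤ)) : R) * (e : R) := by
    have := congrArg (Int.cast : ℤ → R) he
    push_cast at this ⊢
    exact this
  set N : R := ((n : ℤ) : R) with hN
  set y : R := (e : R) - 2 * p * b * (q * a + 1) with hy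
  have hyn : 1 + 2 * (p : R) * (q * a) ^ 2 = N * y := by
    rw [hy]
    linear_combination heR + 2 * (p : R) * (q * a + 1) * hab
  have hEy : Ev y := by
    have hEv1 : Ev (1 + 2 * (p : R) * (q * a) ^ 2) := by
      have h5 : Ev (1 : R) := by simp [Ev]
      refine Ev.add h5 ?_
      rw [mul_assoc]
      exact Ev_two_mul _
    rw [hyn] at hEv1
    unfold Ev at hEv1 ⊢
    have h6 : (N * y).im = n * y.im := by
      rw [hN]
      simp
    rw [h6] at hEv1
    rcases Int.even_mul.1 hEv1 with h7 | h7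
    · exfalso
      rw [Int.even_iff] at h7
      omega
    · exact h7
  have hEs : Ev (star d) := by
    unfold Ev at hEv ⊢
    rw [Zsqrtd.im_star]
    exact hEv.neg
  have hpos : Tp (p : R) := by
    refine ⟨?_, ?_⟩
    · simp
      exact hpp.pos
    · have h5 : (0 : ℤ) < (p : ℤ) := by exact_mod_cast hpp.pos
      simp
      positivity
  refine h2 (p : R) k M a (star d * y) q d hpos hd hq hqo hqn ?_ ?_ (Ev.mul hEs hEy)
  · linear_combination -hM
  · linear_combination -hyn - y * hdd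

end ST6
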