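import Pool.Agent.ST6.P_T4U

set_option autoImplicit false

/-!
# ST6, T4F: flagged forms are sums of four squares
-/

namespace ST6

theorem dvd_of_nm_T4F {z : O} (h : En (nm z)) : pO ∣ z :=
  (dvd_pO_iff z).2 ((En_nm z).1 h)

theorem En_of_dvd_T4F {z : O} (h : pO ∣ z) : En (nm z) :=
  (En_nm z).2 ((dvd_pO_iff z).1 h)

theorem nm_pO_mul_T4F (x : O) : nm (pO * x) = pp ^ 2 * nm x := by
  rw [nm_mul]
  have h2 : nm pO = pp ^ 2 := nm_algebraMap pp
  rw [h2]

/-- One of the two products divisible by `pO`, a factor of the other one odd. -/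
theorem dvd_mul_T4F {x y z t : O} (h : pO ∣ x * y - z * t) (hy : pO ∣ x * y)
    (ht : Od (nm t)) : pO ∣ z := by
  apply dvd_of_nm_T4F
  have h1 : pO ∣ t * z := by
    have h2 : t * z = x * y - (x * y - z * t) := by ring
    rw [h2]
    exact dvd_sub hy h
  have h3 := En_of_dvd_T4F h1
  rw [nm_mul] at h3
  exact En_of_mul_T4U ht h3

theorem Od_add_T4F {x y : R} (h : Od (x + y)) (hx : Od x) : En y := by
  by_contra hy
  rw [← Od_iff_not] at hy
  have h3 : En (x + y) := by
    unfold En Od at *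
    have h4 : (x + y).re + (x + y).im = (x.re + x.im) + (y.re + y.im) := by
      simp
      ring
    rw [h4]
    exact hx.add_odd hy
  exact (Od_iff_not _).1 h h3

theorem Od_add'_T4F {x y : R} (h : Od (x + y)) (hx : En x) : Od y := by
  rw [Od_iff_not]
  intro hy
  exact (Od_iff_not _).1 h (En.add hx hy)

theorem En_add_T4F {x y : R} (h : En (x + y)) (hx : En x) : En y := by
  rw [En_iff] at *
  exact (dvd_add_right hx).1 h

theorem core_T4F (b c β : R) (z11 z12 z21 z22 : O) (hEv : Ev c)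
    (h12 : pO ∣ z12) (h22 : pO ∣ z22) (hc : Od (nm z21) ∨ (Od (nm z11) ∧ pO ∣ z21))
    (e2 : nm z21 + nm z22 = c)
    (e3 : star z11 * z21 + star z12 * z22 = algebraMap R O b + algebraMap R O β * iO) :
    (∃ η : O, nm η = 1 ∧ 2 ∣ (η * (pO * z11)).im ∧ 2 ∣ (η * z21).im) ∧
      (∃ η : O, nm η = 1 ∧ 2 ∣ (η * (pO * z12)).im ∧ 2 ∣ (η * z22).im) := by
  obtain ⟨x, rfl⟩ := h12
  obtain ⟨y, rfl⟩ := h22
  have hp : ∀ θ t : O, (θ * (pO * t)).im = pp * (θ * t).im := by
    intro θ t
    have h1 : θ * (pO * t) = pO * (θ * t) := by ring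
    rw [h1, pO_im_T4U]
  have hp2 : ∀ θ t : O, En (θ * t).im → 2 ∣ (θ * (pO * t)).im := by
    intro θ t ht
    rw [hp, two_dvd_iff_pp]
    obtain ⟨s, hs⟩ := (En_iff _).1 ht
    rw [hs]
    exact ⟨s, by ring⟩
  -- the imaginary part of the mixed term
  have hmix : ∀ η : O, nm η = 1 → ∃ s : R,
      (η * z11).re * (η * z21).im - (η * z11).im * (η * z21).re = 2 * s := by
    intro η hη
    have h1 : star (η * z11) * (η * z21) =
        algebraMap R O b + algebraMap R O β * iO - star (pO * x) * (pO * y) := by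
      rw [star_mul_T4U hη, ← e3]
      ring
    have h2 := congrArg QuadraticAlgebra.im h1
    have h3 : (algebraMap R O b + algebraMap R O β * iO).im = 2 * β := by
      simp [iO]
      ring
    have h4 : (star (pO * x) * (pO * y)).im = pp ^ 2 * (x.re * y.im - x.im * y.re) := by
      rw [im_mul_T4U, star_re_T4U, star_im_T4U, pO_re_T4U, pO_im_T4U, pO_re_T4U, pO_im_T4U]
      ring
    rw [QuadraticAlgebra.im_sub, h3, h4, im_mul_T4U, star_re_T4U, star_im_T4U, pp_sq] at h2
    exact ⟨β - ⟨2, 1⟩ * (x.re * y.im - x.im * y.re), by linear_combination h2⟩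
  constructor
  · rcases hc with hc | ⟨hc, h21⟩
    · obtain ⟨η, hη, hu⟩ := unit_T4U z21
      obtain ⟨s, hs⟩ := hmix η hη
      have hnu : nm (η * z21) = nm z21 := by rw [nm_mul, hη, one_mul]
      have hur : Od (η * z21).re := by
        rw [Od_iff_not]
        intro h
        have h1 : En (nm (η * z21)) := (En_nm _).2 ⟨h, hu⟩
        rw [hnu] at h1
        exact (Od_iff_not _).1 hc h1
      have hnim : Even (nm (η * z21)).im := by
        rw [hnu]
        have h1 : nm z21 = c - 2 * (⟨2, 1⟩ * nm y) := by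
          rw [← e2, nm_pO_mul_T4F, pp_sq]
          ring
        rw [h1]
        exact Ev.sub hEv (Ev_two_mul _)
      have hu2 : 2 ∣ (η * z21).im := two_im_T4U hur hu hnim
      refine ⟨η, hη, hp2 _ _ (En_of_two_dvd_T4U ?_), hu2⟩
      apply two_dvd_of_mul_T4U hur
      have h5 : (η * z21).re * (η * z11).im = (η * z11).re * (η * z21).im - 2 * s := by
        linear_combination -hs
      rw [h5]
      exact dvd_sub (Dvd.dvd.mul_left hu2 _) ⟨s, rfl⟩
    · obtain ⟨η, hη, hu⟩ := unit_T4U z11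
      obtain ⟨s, hs⟩ := hmix η hη
      have hur : Od (η * z11).re := by
        rw [Od_iff_not]
        intro h
        have h1 : En (nm (η * z11)) := (En_nm _).2 ⟨h, hu⟩
        rw [nm_mul, hη, one_mul] at h1
        exact (Od_iff_not _).1 hc h1
      refine ⟨η, hη, hp2 _ _ hu, ?_⟩
      apply two_dvd_of_mul_T4U hur
      have h5 : (η * z11).re * (η * z21).im = 2 * s + (η * z11).im * (η * z21).re := by
        linear_combination hs
      rw [h5]
      refine dvd_add ⟨s, rfl⟩ ?_
      obtain ⟨t, rfl⟩ := h21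
      obtain ⟨q, hq⟩ := (En_iff _).1 hu
      have h6 : η * (pO * t) = pO * (η * t) := by ring
      rw [hq, h6, pO_re_T4U, two_dvd_iff_pp]
      exact ⟨q * (η * t).re, by ring⟩
  · obtain ⟨θ, hθ, hy⟩ := unit_T4U y
    refine ⟨θ, hθ, ?_, hp2 _ _ hy⟩
    rw [hp, hp, two_dvd_iff_pp]
    exact ⟨(θ * x).im, by ring⟩

/-- T4F: flagged forms are sums of four squares. -/
theorem p_T4F (h1 : T_HM) (h2 : T_T3P) (h3 : T_RAT) : T_T4F := by
  intro a b c hEa hEc hO ⟨ha, hc, hd⟩
  obtain ⟨β, z, hdet⟩ : ∃ (β : R) (z : O), a * c - b ^ 2 = β ^ 2 + 2 * nm z := by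
    by_cases h0 : a * c - b ^ 2 = 0
    · exact ⟨0, 0, by rw [h0, nm_zero]; ring⟩
    · exact h2 _ (Tp.of_ne hd h0) (Ev.sub (Ev.mul hEa hEc) (Ev_sq b))
  have hh : nm (algebraMap R O b + algebraMap R O β * iO) = b ^ 2 + β ^ 2 := by
    have h3 := w_sq
    have hre : (algebraMap R O b + algebraMap R O β * iO).re = b - w * β := by
      simp [iO]
      ring
    have him : (algebraMap R O b + algebraMap R O β * iO).im = 2 * β := by
      simp [iO]
      ring
    unfold nm
    rw [hre, him]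
    linear_combination (-β ^ 2) * h3
  have hv : nm (star uO * algebraMap R O ⟨2, -1⟩) = ⟨2, -1⟩ := by
    rw [nm_mul, nm_star, nm_uO, nm_algebraMap]
    ext <;> simp [pow_two]
  have hδ : nm (pO * (star uO * algebraMap R O ⟨2, -1⟩ * z)) = 2 * nm z := by
    rw [nm_pO_mul_T4F, nm_mul, hv]
    have h := two_eq
    linear_combination (-nm z) * h
  obtain ⟨z11, z12, z21, z22, e1, e2, e3⟩ := h1 a c
    (algebraMap R O b + algebraMap R O β * iO)
    (pO * (star uO * algebraMap R O ⟨2, -1⟩ * z)) ha hc (by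
      rw [hh, hδ]
      linear_combination hdet)
  have hD : pO ∣ z11 * z22 - z12 * z21 := by
    apply dvd_of_nm_T4F
    rw [← nm_det_T4U, e1, e2, e3, hh]
    have h4 : a * c - (b ^ 2 + β ^ 2) = 2 * nm z := by linear_combination hdet
    rw [h4]
    exact En_of_two_dvd_T4U ⟨_, rfl⟩
  have hD' : pO ∣ z12 * z21 - z11 * z22 := by
    rw [← dvd_neg]
    have h4 : -(z12 * z21 - z11 * z22) = z11 * z22 - z12 * z21 := by ring
    rw [h4]
    exact hD
  -- it is enough to treat one order of the rows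
  have main : ∀ y11 y12 y21 y22 : O, pO ∣ y12 → pO ∣ y22 →
      (Od (nm y21) ∨ (Od (nm y11) ∧ pO ∣ y21)) → nm y11 + nm y12 = a → nm y21 + nm y22 = c →
      star y11 * y21 + star y12 * y22 = algebraMap R O b + algebraMap R O β * iO →
      SS 4 (pp ^ 2 * a) (pp * b) c := by
    intro y11 y12 y21 y22 h12 h22 hcs f1 f2 f3
    obtain ⟨g1, g2⟩ := core_T4F b c β y11 y12 y21 y22 hEc h12 h22 hcs f2 f3
    refine h3 (pp ^ 2 * a) c (pp * b) (pp * β) (pO * y11) (pO * y12) y21 y22 ?_ f2 ?_ g1 g2
    · rw [nm_pO_mul_T4F, nm_pO_mul_T4F, ← f1]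
      ring
    · have hs : ∀ t : O, star (pO * t) = pO * star t := by
        intro t
        rw [star_mul, mul_comm]
        have h0 : star (pO : O) = pO := by
          apply QuadraticAlgebra.ext
          · rw [star_re_T4U]
            simp [pO]
          · rw [star_im_T4U]
            simp [pO]
        rw [h0]
      rw [hs, hs, map_mul, map_mul]
      have h5 : pO = algebraMap R O pp := rfl
      rw [← h5]
      linear_combination pO * f3
  by_cases hcO : Od c
  · by_cases h21 : Od (nm z21)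
    · have h22 : pO ∣ z22 := dvd_of_nm_T4F (Od_add_T4F (by rw [e2]; exact hcO) h21)
      have h12 : pO ∣ z12 := dvd_mul_T4F hD (Dvd.dvd.mul_left h22 _) h21
      exact main z11 z12 z21 z22 h12 h22 (Or.inl h21) e1 e2 e3
    · have h21' : En (nm z21) := by
        by_contra h
        exact h21 ((Od_iff_not _).2 h)
      have h22 : Od (nm z22) := Od_add'_T4F (by rw [e2]; exact hcO) h21'
      have h21d : pO ∣ z21 := dvd_of_nm_T4F h21'
      have h11 : pO ∣ z11 := dvd_mul_T4F hD' (Dvd.dvd.mul_left h21d _) h22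
      exact main z12 z11 z22 z21 h11 h21d (Or.inl h22) (by rw [add_comm]; exact e1)
        (by rw [add_comm]; exact e2) (by rw [add_comm]; exact e3)
  · have haO : Od a := hO.resolve_right hcO
    have hcE : En c := by
      by_contra h
      exact hcO ((Od_iff_not _).2 h)
    have hD2 : pO ∣ z22 * z11 - z21 * z12 := by
      have h4 : z22 * z11 - z21 * z12 = z11 * z22 - z12 * z21 := by ring
      rw [h4]
      exact hD
    have hD3 : pO ∣ z21 * z12 - z22 * z11 := by
      have h4 : z21 * z12 - z22 * z11 = z12 * z21 - z11 * z22 := by ring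
      rw [h4]
      exact hD'
    by_cases h11 : Od (nm z11)
    · have h12 : pO ∣ z12 := dvd_of_nm_T4F (Od_add_T4F (by rw [e1]; exact haO) h11)
      have h22 : pO ∣ z22 := dvd_mul_T4F hD3 (Dvd.dvd.mul_left h12 _) h11
      have h21 : pO ∣ z21 := dvd_of_nm_T4F
        (En_add_T4F (by rw [add_comm, e2]; exact hcE) (En_of_dvd_T4F h22))
      exact main z11 z12 z21 z22 h12 h22 (Or.inr ⟨h11, h21⟩) e1 e2 e3
    · have h11' : En (nm z11) := by
        by_contra h
        exact h11 ((Od_iff_not _).2 h)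
      have h12 : Od (nm z12) := Od_add'_T4F (by rw [e1]; exact haO) h11'
      have h11d : pO ∣ z11 := dvd_of_nm_T4F h11'
      have h21 : pO ∣ z21 := dvd_mul_T4F hD2 (Dvd.dvd.mul_left h11d _) h12
      have h22 : pO ∣ z22 := dvd_of_nm_T4F
        (En_add_T4F (by rw [e2]; exact hcE) (En_of_dvd_T4F h21))
      exact main z12 z11 z22 z21 h11d h21 (Or.inr ⟨h12, h22⟩) (by rw [add_comm]; exact e1)
        (by rw [add_comm]; exact e2) (by rw [add_comm]; exact e3)

end ST6
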