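import Pool.Agent.ST6.Targets

set_option autoImplicit false

/-!
# ST6, T4U: odd forms whose determinant is `x ^ 2 + 4 (y ^ 2 + √3 y z + z ^ 2)`
-/

namespace ST6

theorem pp_ne_T4U : pp ≠ 0 := by
  intro h
  have := congrArg Zsqrtd.re h
  simp [pp] at this

theorem pO_ne_T4U : pO ≠ 0 := by
  intro h
  have h1 : (pO : O).re = 0 := by rw [h]; simp
  have h2 : (pO : O).re = pp := by simp [pO]
  exact pp_ne_T4U (h2.symm.trans h1)

theorem im_mul_T4U (y z : O) :
    (y * z).im = y.re * z.im + y.im * z.re + w * y.im * z.im := by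
  simp

theorem re_mul_T4U (y z : O) : (y * z).re = y.re * z.re - y.im * z.im := by
  simp
  ring

theorem star_re_T4U (y : O) : (star y).re = y.re + w * y.im := by
  simp

theorem star_im_T4U (y : O) : (star y).im = -y.im := by
  simp

theorem pO_im_T4U (y : O) : (pO * y).im = pp * y.im := by
  simp [pO]

theorem pO_re_T4U (y : O) : (pO * y).re = pp * y.re := by
  simp [pO]

/-- The norm of the determinant. -/
theorem nm_det_T4U (z11 z12 z21 z22 : O) :
    (nm z11 + nm z12) * (nm z21 + nm z22) - nm (star z11 * z21 + star z12 * z22) =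
      nm (z11 * z22 - z12 * z21) := by
  unfold nm
  simp only [QuadraticAlgebra.re_add, QuadraticAlgebra.im_add, QuadraticAlgebra.re_sub,
    QuadraticAlgebra.im_sub, im_mul_T4U, re_mul_T4U, star_re_T4U, star_im_T4U]
  ring

theorem En_of_mul_T4U {x y : R} (hx : Od x) (h : En (x * y)) : En y := by
  by_contra hy
  rw [← Od_iff_not] at hy
  have := (Od_mul x y).2 ⟨hx, hy⟩
  rw [Od_iff_not] at this
  exact this h

theorem two_dvd_of_mul_T4U {x y : R} (hx : Od x) (h : 2 ∣ x * y) : 2 ∣ y := by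
  rw [two_dvd_iff_pp] at h ⊢
  have h1 : pp ∣ x * y := dvd_trans ⟨pp, by ring⟩ h
  have h2 : pp ∣ y := (En_iff y).1 (En_of_mul_T4U hx ((En_iff _).2 h1))
  obtain ⟨y1, rfl⟩ := h2
  obtain ⟨t, ht⟩ := h
  have h3 : x * y1 = pp * t := by
    apply mul_left_cancel₀ pp_ne_T4U
    linear_combination ht
  have h4 : pp ∣ y1 := (En_iff y1).1 (En_of_mul_T4U hx ((En_iff _).2 ⟨t, h3⟩))
  obtain ⟨y2, rfl⟩ := h4
  exact ⟨y2, by ring⟩

theorem En_of_two_dvd_T4U {x : R} (h : 2 ∣ x) : En x := by
  rw [two_dvd_iff_pp] at h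
  exact (En_iff x).2 (dvd_trans ⟨pp, by ring⟩ h)

/-- Multiplication by a root of unity makes the second coordinate even. -/
theorem unit_T4U (z : O) : ∃ η : O, nm η = 1 ∧ En (η * z).im := by
  by_cases h1 : En z.im
  · exact ⟨1, nm_one, by rw [one_mul]; exact h1⟩
  · by_cases h2 : En z.re
    · refine ⟨⟨w, -1⟩, ?_, ?_⟩
      · unfold nm
        have h := w_sq
        linear_combination (norm := (simp only; ring))
      · rw [im_mul_T4U]
        have h3 : w * z.im + -1 * z.re + w * -1 * z.im = -z.re := by ring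
        show En (w * z.im + -1 * z.re + w * -1 * z.im)
        rw [h3, En_iff, dvd_neg, ← En_iff]
        exact h2
    · refine ⟨⟨2, -w⟩, ?_, ?_⟩
      · unfold nm
        have h := w_sq
        linear_combination (norm := (simp only; ring)) -h
      · rw [im_mul_T4U]
        have h3 : 2 * z.im + -w * z.re + w * -w * z.im = -(z.im + w * z.re) := by
          have h := w_sq
          linear_combination -(z.im) * h
        show En (2 * z.im + -w * z.re + w * -w * z.im)
        rw [h3, En_iff, dvd_neg, ← En_iff]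
        rw [← Od_iff_not] at h1 h2
        unfold En
        unfold Od at h1 h2
        have h4 : (z.im + w * z.re).re + (z.im + w * z.re).im =
            (z.im.re + z.im.im) + (z.re.re + z.re.im) + 2 * z.re.im := by
          simp [w]
          ring
        rw [h4]
        exact (h1.add_odd h2).add (even_two_mul _)

theorem two_im_T4U {z : O} (h1 : Od z.re) (h2 : En z.im) (h3 : Even (nm z).im) :
    2 ∣ z.im := by
  rw [two_dvd_iff]
  rw [nm_coord] at h3
  unfold Od at h1
  unfold En at h2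
  simp only at h3
  have h4 : Even (z.re.re * z.im.re + z.re.im * z.im.im) := by
    obtain ⟨k, hk⟩ := h3
    exact ⟨k - z.re.re * z.re.im - z.re.im * z.im.im - z.im.re * z.im.im, by linarith⟩
  have h5 : Even ((z.re.re + z.re.im) * z.im.re) := by
    have h6 : (z.re.re + z.re.im) * z.im.re =
        (z.re.re * z.im.re + z.re.im * z.im.im) + z.re.im * (z.im.re + z.im.im) -
          2 * (z.re.im * z.im.im) := by ring
    rw [h6]
    exact (h4.add (h2.mul_left _)).sub (even_two_mul _)
  have h7 : Even z.im.re := by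
    rcases Int.even_mul.1 h5 with h | h
    · exact absurd h (Int.not_even_iff_odd.2 h1)
    · exact h
  exact ⟨h7, (Int.even_add.1 h2).1 h7⟩

/-- Four divides the norm only if `(1 + √3) ^ 2` divides the number. -/
theorem dvd_of_nm_T4U {D z : O} (h : nm D = 4 * nm z) : ∃ D2 : O, D = pO * (pO * D2) := by
  have h4 : (4 : R) = pp ^ 2 * (pp ^ 2 * ⟨2, -1⟩ ^ 2) := by
    have h := two_eq
    calc (4 : R) = 2 * 2 := by norm_num
      _ = (pp ^ 2 * ⟨2, -1⟩) * (pp ^ 2 * ⟨2, -1⟩) := by rw [← h]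
      _ = _ := by ring
  have hstep : ∀ (E : O) (t : R), nm E = pp ^ 2 * t → ∃ E1 : O, E = pO * E1 ∧ nm E1 = t := by
    intro E t hE
    have h1 : En (nm E) := (En_iff _).2 ⟨pp * t, by rw [hE]; ring⟩
    obtain ⟨E1, rfl⟩ := (dvd_pO_iff E).2 ((En_nm E).1 h1)
    refine ⟨E1, rfl, ?_⟩
    rw [nm_mul] at hE
    have h2 : nm pO = pp ^ 2 := nm_algebraMap pp
    rw [h2] at hE
    exact mul_left_cancel₀ (pow_ne_zero 2 pp_ne_T4U) hE
  obtain ⟨D1, rfl, hD1⟩ := hstep D (pp ^ 2 * ⟨2, -1⟩ ^ 2 * nm z) (by rw [h, h4]; ring)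
  obtain ⟨D2, rfl, -⟩ := hstep D1 (⟨2, -1⟩ ^ 2 * nm z) (by rw [hD1]; ring)
  exact ⟨D2, rfl⟩

theorem star_mul_T4U {η : O} (h : nm η = 1) (y z : O) :
    star (η * y) * (η * z) = star y * z := by
  have h1 : star η * η = 1 := by
    rw [star_mul_self_eq, h, map_one]
  calc star (η * y) * (η * z) = (star η * η) * (star y * z) := by
        rw [star_mul]
        ring
    _ = star y * z := by rw [h1, one_mul]

theorem core_T4U (a b β : R) (z11 z12 z21 z22 D2 : O) (hEv : Ev a)
    (h11 : Od (nm z11)) (h12 : pO ∣ z12) (e1 : nm z11 + nm z12 = a)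
    (e3 : star z11 * z21 + star z12 * z22 = algebraMap R O b + algebraMap R O β * iO)
    (hD : z11 * z22 - z12 * z21 = pO * (pO * D2)) :
    (∃ η : O, nm η = 1 ∧ 2 ∣ (η * z11).im ∧ 2 ∣ (η * z21).im) ∧
      (∃ η : O, nm η = 1 ∧ 2 ∣ (η * z12).im ∧ 2 ∣ (η * z22).im) := by
  obtain ⟨η, hη, hu⟩ := unit_T4U z11
  obtain ⟨x, rfl⟩ := h12
  have hnu : nm (η * z11) = nm z11 := by rw [nm_mul, hη, one_mul]
  have hur : Od (η * z11).re := by
    rw [Od_iff_not]
    intro h
    have h1 : En (nm (η * z11)) := (En_nm _).2 ⟨h, hu⟩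
    rw [hnu] at h1
    exact (Od_iff_not _).1 h11 h1
  have hpx : nm (pO * x) = 2 * (⟨2, 1⟩ * nm x) := by
    rw [nm_mul]
    have h2 : nm pO = pp ^ 2 := nm_algebraMap pp
    rw [h2, pp_sq]
    ring
  have hnim : Even (nm (η * z11)).im := by
    rw [hnu]
    have h1 : nm z11 = a - 2 * (⟨2, 1⟩ * nm x) := by
      rw [← hpx, ← e1]
      ring
    rw [h1]
    exact Ev.sub hEv (Ev_two_mul _)
  have hu2 : 2 ∣ (η * z11).im := two_im_T4U hur hu hnim
  -- the last entry
  have h22 : pO ∣ z22 := by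
    have h1 : z11 * z22 = pO * (pO * D2 + x * z21) := by
      linear_combination hD
    have h2 : En (nm z11 * nm z22) := by
      rw [← nm_mul, h1, En_nm, pO_re_T4U, pO_im_T4U, En_iff, En_iff]
      exact ⟨⟨_, rfl⟩, ⟨_, rfl⟩⟩
    exact (dvd_pO_iff z22).2 ((En_nm z22).1 (En_of_mul_T4U h11 h2))
  obtain ⟨y, rfl⟩ := h22
  have hv2 : 2 ∣ (η * z21).im := by
    have h1 : star (η * z11) * (η * z21) =
        algebraMap R O b + algebraMap R O β * iO - star (pO * x) * (pO * y) := by
      rw [star_mul_T4U hη, ← e3]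
      ring
    have h2 := congrArg QuadraticAlgebra.im h1
    have h3 : (algebraMap R O b + algebraMap R O β * iO).im = 2 * β := by
      simp [iO]
      ring
    have h4 : (star (pO * x) * (pO * y)).im = pp ^ 2 * (x.re * y.im - x.im * y.re) := by
      rw [im_mul_T4U, star_re_T4U, star_im_T4U, pO_re_T4U, pO_im_T4U, pO_re_T4U, pO_im_T4U]
      ring
    rw [QuadraticAlgebra.im_sub, h3, h4, im_mul_T4U, star_re_T4U, star_im_T4U] at h2
    apply two_dvd_of_mul_T4U hur
    have h5 : (η * z11).re * (η * z21).im =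
        2 * β - pp ^ 2 * (x.re * y.im - x.im * y.re) + (η * z11).im * (η * z21).re := by
      linear_combination h2
    rw [h5]
    refine dvd_add (dvd_sub ⟨β, rfl⟩ ?_) (Dvd.dvd.mul_right hu2 _)
    rw [pp_sq]
    exact ⟨⟨2, 1⟩ * (x.re * y.im - x.im * y.re), by ring⟩
  refine ⟨⟨η, hη, hu2, hv2⟩, ?_⟩
  obtain ⟨θ, hθ, hx⟩ := unit_T4U x
  have hdet : z11 * y - x * z21 = pO * D2 := by
    apply mul_left_cancel₀ pO_ne_T4U
    linear_combination hD
  have hy : En (θ * y).im := by
    have h1 : (η * z11) * (θ * y) = pO * (θ * η * D2) + (θ * x) * (η * z21) := by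
      linear_combination (θ * η) * hdet
    have h2 := congrArg QuadraticAlgebra.im h1
    rw [QuadraticAlgebra.im_add, pO_im_T4U, im_mul_T4U (η * z11), im_mul_T4U (θ * x)] at h2
    apply En_of_mul_T4U hur
    have h3 : (η * z11).re * (θ * y).im =
        pp * (θ * η * D2).im + ((θ * x).re * (η * z21).im + (θ * x).im * (η * z21).re +
          w * (θ * x).im * (η * z21).im) - (η * z11).im * (θ * y).re -
          w * (η * z11).im * (θ * y).im := by
      linear_combination h2
    have hu3 := (En_iff _).1 hu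
    have hv3 := (En_iff _).1 (En_of_two_dvd_T4U hv2)
    have hx3 := (En_iff _).1 hx
    rw [h3, En_iff]
    refine dvd_sub (dvd_sub (dvd_add ⟨_, rfl⟩ (dvd_add (dvd_add ?_ ?_) ?_)) ?_) ?_
    · exact Dvd.dvd.mul_left hv3 _
    · exact Dvd.dvd.mul_right hx3 _
    · exact Dvd.dvd.mul_left hv3 _
    · exact Dvd.dvd.mul_right hu3 _
    · exact Dvd.dvd.mul_right (Dvd.dvd.mul_left hu3 _) _
  have hfin : ∀ t : O, En (θ * t).im → 2 ∣ (θ * (pO * t)).im := by
    intro t ht
    have h1 : θ * (pO * t) = pO * (θ * t) := by ring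
    rw [h1, pO_im_T4U, two_dvd_iff_pp]
    obtain ⟨s, hs⟩ := (En_iff _).1 ht
    rw [hs]
    exact ⟨s, by ring⟩
  exact ⟨θ, hθ, hfin x hx, hfin y hy⟩

/-- T4U: odd forms whose determinant is `x ^ 2 + 4 (y ^ 2 + √3 y z + z ^ 2)`. -/
theorem p_T4U (h1 : T_HM) (h2 : T_RAT) : T_T4U := by
  intro a b c β z hEv hOd ha hc hdet
  have hh : nm (algebraMap R O b + algebraMap R O β * iO) = b ^ 2 + β ^ 2 := by
    have h3 := w_sq
    have hre : (algebraMap R O b + algebraMap R O β * iO).re = b - w * β := by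
      simp [iO]
      ring
    have him : (algebraMap R O b + algebraMap R O β * iO).im = 2 * β := by
      simp [iO]
      ring
    unfold nm
    rw [hre, him]
    linear_combination (-β ^ 2) * h3
  have hδ : nm ((2 : R) • z) = 4 * nm z := by
    rw [nm_smul]
    norm_num
  obtain ⟨z11, z12, z21, z22, e1, e2, e3⟩ := h1 a c
    (algebraMap R O b + algebraMap R O β * iO) ((2 : R) • z) ha hc (by
      rw [hh, hδ]
      linear_combination hdet)
  have hD : nm (z11 * z22 - z12 * z21) = 4 * nm z := by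
    rw [← nm_det_T4U, e1, e2, e3, hh]
    linear_combination hdet
  obtain ⟨D2, hD2⟩ := dvd_of_nm_T4U hD
  by_cases h11 : En (nm z11)
  · have h12 : Od (nm z12) := by
      rw [Od_iff_not]
      intro h
      have h3 := En.add h11 h
      rw [e1] at h3
      exact (Od_iff_not a).1 hOd h3
    have hp : pO ∣ z11 := (dvd_pO_iff z11).2 ((En_nm z11).1 h11)
    obtain ⟨g1, g2⟩ := core_T4U a b β z12 z11 z22 z21 (-D2) hEv h12 hp
      (by rw [add_comm]; exact e1) (by rw [add_comm]; exact e3)
      (by linear_combination -hD2)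
    exact h2 a c b β z11 z12 z21 z22 e1 e2 e3 g2 g1
  · have h11' := (Od_iff_not _).2 h11
    have h12 : En (nm z12) := by
      by_contra h
      rw [← Od_iff_not] at h
      have h3 : En a := by
        rw [← e1]
        unfold En Od at *
        have h4 : (nm z11 + nm z12).re + (nm z11 + nm z12).im =
            ((nm z11).re + (nm z11).im) + ((nm z12).re + (nm z12).im) := by
          simp
          ring
        rw [h4]
        exact h11'.add_odd h
      exact (Od_iff_not a).1 hOd h3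
    have hp : pO ∣ z12 := (dvd_pO_iff z12).2 ((En_nm z12).1 h12)
    obtain ⟨g1, g2⟩ := core_T4U a b β z11 z12 z21 z22 D2 hEv h11' hp e1 e3 hD2
    exact h2 a c b β z11 z12 z21 z22 e1 e2 e3 g1 g2

end ST6
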