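import Pool.Agent.ST6.Targets

set_option autoImplicit false

/-!
# MP_a901ae_nt: the determinant of the trace form (T_TRD)
-/

namespace ST6

open Matrix

theorem dec_TRD (x : R) : ((x.re : ℤ) : R) + w * ((x.im : ℤ) : R) = x := by
  ext <;> simp [w]

theorem decs_TRD (x : R) : ((x.re : ℤ) : R) - w * ((x.im : ℤ) : R) = star x := by
  ext <;> simp [w]

/-- The block matrix over the integers. -/
theorem block_TRD (k : ℕ) (X : Matrix (Fin k) (Fin k) R) :
    (fromBlocks (X.map fun x => x.re) (X.map fun x => 3 * x.im)
      (X.map fun x => x.im) (X.map fun x => x.re)).det = X.det.norm := by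
  have hinj : Function.Injective (Int.castRingHom R) := Int.cast_injective
  apply hinj
  rw [RingHom.map_det, RingHom.mapMatrix_apply, fromBlocks_map]
  set A : Matrix (Fin k) (Fin k) R := (X.map fun x => x.re).map (Int.castRingHom R) with hA
  set B : Matrix (Fin k) (Fin k) R := (X.map fun x => x.im).map (Int.castRingHom R) with hB
  set C : Matrix (Fin k) (Fin k) R := (X.map fun x => 3 * x.im).map (Int.castRingHom R) with hC
  have hC' : C = (w * w) • B := by
    refine Matrix.ext fun i j => ?_
    simp only [hC, hB, Matrix.map_apply, Matrix.smul_apply, w_sq, smul_eq_mul, map_mul]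
    rfl
  have hX : A + w • B = X := by
    refine Matrix.ext fun i j => ?_
    simp only [hA, hB, Matrix.add_apply, Matrix.map_apply, Matrix.smul_apply, smul_eq_mul]
    exact dec_TRD (X i j)
  have hX' : A - w • B = X.map (starRingEnd R) := by
    refine Matrix.ext fun i j => ?_
    simp only [hA, hB, Matrix.sub_apply, Matrix.map_apply, Matrix.smul_apply, smul_eq_mul]
    exact decs_TRD (X i j)
  have hU : (fromBlocks (1 : Matrix (Fin k) (Fin k) R) (w • (1 : Matrix (Fin k) (Fin k) R))
      (0 : Matrix (Fin k) (Fin k) R) (1 : Matrix (Fin k) (Fin k) R)).det = 1 := by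
    rw [det_fromBlocks_zero₂₁, det_one, mul_one]
  have hV : (fromBlocks (1 : Matrix (Fin k) (Fin k) R) (-(w • (1 : Matrix (Fin k) (Fin k) R)))
      (0 : Matrix (Fin k) (Fin k) R) (1 : Matrix (Fin k) (Fin k) R)).det = 1 := by
    rw [det_fromBlocks_zero₂₁, det_one, mul_one]
  have hprod : fromBlocks (1 : Matrix (Fin k) (Fin k) R) (w • (1 : Matrix (Fin k) (Fin k) R))
      (0 : Matrix (Fin k) (Fin k) R) (1 : Matrix (Fin k) (Fin k) R) * fromBlocks A C B A *
      fromBlocks (1 : Matrix (Fin k) (Fin k) R) (-(w • (1 : Matrix (Fin k) (Fin k) R)))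
      (0 : Matrix (Fin k) (Fin k) R) (1 : Matrix (Fin k) (Fin k) R) =
      fromBlocks X 0 B (X.map (starRingEnd R)) := by
    rw [fromBlocks_multiply, fromBlocks_multiply, ← hX', ← hX, hC']
    congr 1
    · simp
    · simp only [one_mul, mul_one, smul_mul_assoc, mul_neg, mul_smul_comm, smul_add, smul_smul]
      abel
    · simp
    · simp only [zero_mul, one_mul, mul_one, zero_add, mul_neg, mul_smul_comm, smul_zero]
      abel
  have hdet : (fromBlocks A C B A).det = X.det * (X.map (starRingEnd R)).det := by
    have h1 := congrArg Matrix.det hprod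
    rw [det_mul, det_mul, hU, hV, one_mul, mul_one, det_fromBlocks_zero₁₂] at h1
    exact h1
  have hstar : (X.map (starRingEnd R)).det = star X.det := by
    have h1 := RingHom.map_det (starRingEnd R) X
    rw [RingHom.mapMatrix_apply] at h1
    rw [← h1]
    rfl
  rw [hdet, hstar]
  exact (Zsqrtd.norm_eq_mul_conj X.det).symm

theorem p_TRD : T_TRD := by
  intro k X
  have hfac : fromBlocks (X.map fun x => 2 * x.re) (X.map fun x => 6 * x.im)
      (X.map fun x => 6 * x.im) (X.map fun x => 6 * x.re) =
      fromBlocks ((2 : ℤ) • (1 : Matrix (Fin k) (Fin k) ℤ)) 0 0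
        ((6 : ℤ) • (1 : Matrix (Fin k) (Fin k) ℤ)) *
      fromBlocks (X.map fun x => x.re) (X.map fun x => 3 * x.im)
      (X.map fun x => x.im) (X.map fun x => x.re) := by
    rw [fromBlocks_multiply]
    congr 1 <;> refine Matrix.ext fun i j => ?_ <;>
      simp only [Matrix.smul_mul, Matrix.one_mul, Matrix.zero_mul, add_zero, zero_add,
        Matrix.smul_apply, Matrix.map_apply, smul_eq_mul]
    ring
  rw [hfac, det_mul, block_TRD, det_fromBlocks_zero₂₁, det_smul, det_smul, det_one,
    Fintype.card_fin, mul_one, mul_one, ← mul_pow]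
  norm_num

end ST6
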