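import Pool.Agent.ST6.P_CLS2
import Pool.Agent.ST6.P_CLS3
import Pool.Agent.ST6.P_CMB
import Pool.Agent.ST6.P_COV
import Pool.Agent.ST6.P_CPL
import Pool.Agent.ST6.P_DT2
import Pool.Agent.ST6.P_GEN
import Pool.Agent.ST6.P_HB
import Pool.Agent.ST6.P_HM
import Pool.Agent.ST6.P_HMS
import Pool.Agent.ST6.P_HMT
import Pool.Agent.ST6.P_INE
import Pool.Agent.ST6.P_KEV
import Pool.Agent.ST6.P_LEMR
import Pool.Agent.ST6.P_LOW
import Pool.Agent.ST6.P_MIN2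
import Pool.Agent.ST6.P_MIN3
import Pool.Agent.ST6.P_NSJ
import Pool.Agent.ST6.P_OK
import Pool.Agent.ST6.P_ONE
import Pool.Agent.ST6.P_PDS
import Pool.Agent.ST6.P_PIO
import Pool.Agent.ST6.P_PIR
import Pool.Agent.ST6.P_QEX
import Pool.Agent.ST6.P_QNR
import Pool.Agent.ST6.P_RAT
import Pool.Agent.ST6.P_SIX
import Pool.Agent.ST6.P_SQ
import Pool.Agent.ST6.P_SW
import Pool.Agent.ST6.P_T3P
import Pool.Agent.ST6.P_T3Q
import Pool.Agent.ST6.P_T4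
import Pool.Agent.ST6.P_T4F
import Pool.Agent.ST6.P_T4U
import Pool.Agent.ST6.P_TRD

set_option autoImplicit false

/-!
# MP_a901ae_nt: assembly of the pieces
-/

open scoped NumberField

namespace ST6

theorem m_SIX : T_SIX := by
  have hPIR : T_PIR := p_PIR
  have hPIO : T_PIO := p_PIO p_COV
  have hINE : T_INE := p_INE hPIR
  have hHB : T_HB := p_HB p_COV
  have hHMS : T_HMS := p_HMS hPIR hPIO hINE p_NSJ
  have hHM : T_HM := p_HM hHB hPIO hHMS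
  have hMIN2 : T_MIN2 := p_MIN2 p_HMT p_TRD
  have hMIN3 : T_MIN3 := p_MIN3 p_HMT p_TRD
  have hCPL : T_CPL := p_CPL hPIR
  have hCLS2 : T_CLS2 := p_CLS2 hPIR hMIN2 p_PDS hCPL
  have hDT2 : T_DT2 := p_DT2 hPIR hMIN2 p_PDS
  have hONE : T_ONE := p_ONE hPIR hMIN3 hMIN2 hDT2 hCPL
  have hCLS3 : T_CLS3 := p_CLS3 hONE hCLS2 hCPL
  have hGEN : T_GEN := p_GEN hCLS3 p_PDS
  have hT3P : T_T3P := p_T3P hGEN p_SQ
  have hLEMR : T_LEMR := p_LEMR hPIR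
  have hSW : T_SW := p_SW hCLS3 hLEMR p_KEV p_PDS
  have hQEX : T_QEX := p_QEX hPIR p_QNR
  have hT3Q : T_T3Q := p_T3Q hQEX hSW p_SQ
  have hT4F : T_T4F := p_T4F hHM hT3P p_RAT
  have hT4U : T_T4U := p_T4U hHM p_RAT
  exact p_SIX (p_T4 hT4F hT4U hT3Q) p_CMB

theorem m_OK : T_OK := p_OK p_PIR m_SIX

end ST6
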