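import Pool.Agent.ST6.Targets

set_option autoImplicit false

/-!
# MP_a901ae_nt, target CLS2: the classification of the binary unimodular forms
-/

namespace ST6

open Matrix

theorem Q_CLS2 (a b c x y : R) :
    (![x, y] : Fin 2 → R) ⬝ᵥ (!![a, b; b, c] *ᵥ ![x, y]) =
      a * x ^ 2 + 2 * b * x * y + c * y ^ 2 := by
  simp [dotProduct, mulVec, Fin.sum_univ_two]
  ring

/-- A square divisor of `2` with even cofactor is a unit. -/
theorem unit_CLS2 (g t : R) (ht : Ev t) (h : g ^ 2 * t = 2) : ∃ g' : R, g * g' = 1 := by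
  have hn : g.norm ^ 2 * t.norm = 4 := by
    have h1 := congrArg Zsqrtd.norm h
    rw [Zsqrtd.norm_mul, pow_two, Zsqrtd.norm_mul] at h1
    rw [pow_two, h1]
    rw [norm_eq]
    norm_num
  have hd : g.norm ^ 2 ∣ 4 := ⟨t.norm, hn.symm⟩
  have hb : g.norm ^ 2 ≤ 4 := Int.le_of_dvd (by norm_num) hd
  have hb1 : g.norm ≤ 2 := by nlinarith
  have hb2 : -2 ≤ g.norm := by nlinarith
  have hm : g * star g = ((g.norm : ℤ) : R) := (Zsqrtd.norm_eq_mul_conj g).symm
  have hcases : g.norm = 1 ∨ g.norm = -1 ∨ g.norm = 2 ∨ g.norm = -2 := by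
    have h0 : g.norm ≠ 0 := by
      intro h0
      rw [h0] at hn
      norm_num at hn
    omega
  rcases hcases with h1 | h1 | h1
  · exact ⟨star g, by rw [hm, h1]; simp⟩
  · exact ⟨-star g, by rw [mul_neg, hm, h1]; simp⟩
  · exfalso
    rw [norm_eq] at h1
    have hp : g.re % 2 = 1 ∧ g.im % 2 = 1 := by
      have h2 : (g.re ^ 2 - 3 * g.im ^ 2) % 4 = 2 := by
        rcases h1 with h1 | h1 <;> rw [h1] <;> norm_num
      have e1 : g.re % 4 = 0 ∨ g.re % 4 = 1 ∨ g.re % 4 = 2 ∨ g.re % 4 = 3 := by omega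
      have e2 : g.im % 4 = 0 ∨ g.im % 4 = 1 ∨ g.im % 4 = 2 ∨ g.im % 4 = 3 := by omega
      rcases e1 with e1 | e1 | e1 | e1 <;> rcases e2 with e2 | e2 | e2 | e2 <;>
        first
        | (refine ⟨?_, ?_⟩ <;> omega)
        | (exfalso; simp [pow_two, Int.sub_emod, Int.mul_emod, e1, e2] at h2)
    obtain ⟨p, hp1⟩ : ∃ p, g.re = 2 * p + 1 := ⟨g.re / 2, by omega⟩
    obtain ⟨q, hq1⟩ : ∃ q, g.im = 2 * q + 1 := ⟨g.im / 2, by omega⟩
    obtain ⟨s, hs⟩ := ht
    have r1 := congrArg Zsqrtd.re h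
    have r2 := congrArg Zsqrtd.im h
    simp [pow_two, hp1, hq1, hs] at r1 r2
    -- parity of `p ^ 2 + p`
    obtain ⟨p', hp'⟩ : ∃ p', p * p + p = 2 * p' := by
      rcases Int.even_or_odd' p with ⟨k, hk | hk⟩
      · exact ⟨2 * k * k + k, by rw [hk]; ring⟩
      · exact ⟨2 * k * k + 3 * k + 1, by rw [hk]; ring⟩
    obtain ⟨q', hq'⟩ : ∃ q', q * q + q = 2 * q' := by
      rcases Int.even_or_odd' q with ⟨k, hk | hk⟩
      · exact ⟨2 * k * k + k, by rw [hk]; ring⟩
      · exact ⟨2 * k * k + 3 * k + 1, by rw [hk]; ring⟩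
    have r3 : (8 * p' + 24 * q' + 4) * t.re + 12 * ((2 * p + 1) * (2 * q + 1)) * s = 2 := by
      linear_combination r1 - (4 * t.re) * hp' - (12 * t.re) * hq'
    have r4 : 4 * ((2 * p' + 6 * q' + 1) * t.re + 3 * ((2 * p + 1) * (2 * q + 1)) * s) = 2 := by
      linear_combination r3
    omega

theorem p_CLS2 (h1 : T_PIR) (h2 : T_MIN2) (h3 : T_PDS) (h4 : T_CPL) : T_CLS2 := by
  intro a b c ha hc hpa hdet
  have hdd : (!![a, b; b, c] : Matrix (Fin 2) (Fin 2) R).det = 1 := by
    rw [Matrix.det_fin_two_of]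
    linear_combination hdet
  have hPD : PD !![a, b; b, c] := h3.1 a b c hpa (by rw [hdet]; exact Tp_one)
  obtain ⟨v, hv0, hv⟩ := h2 _ hPD
  have hvv : v = ![v 0, v 1] := by
    funext i
    fin_cases i <;> rfl
  obtain ⟨x, hx⟩ : ∃ x, x = v 0 := ⟨_, rfl⟩
  obtain ⟨y, hy⟩ : ∃ y, y = v 1 := ⟨_, rfl⟩
  rw [← hx, ← hy] at hvv
  have hTp := hPD.2 v hv0
  rw [hvv, Q_CLS2] at hv hTp
  rw [hdd] at hv
  have hEv : ∀ x y : R, Ev (a * x ^ 2 + 2 * b * x * y + c * y ^ 2) := by
    intro x y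
    have e : a * x ^ 2 + 2 * b * x * y + c * y ^ 2 =
        a * x ^ 2 + c * y ^ 2 + 2 * (b * x * y) := by ring
    rw [e]
    exact ((Ev.mul ha (Ev_sq _)).add (Ev.mul hc (Ev_sq _))).add (Ev_two_mul _)
  -- the value is `1` or `2`
  obtain ⟨Qv, hQv⟩ : ∃ Qv, Qv = a * x ^ 2 + 2 * b * x * y + c * y ^ 2 := ⟨_, rfl⟩
  have hQE := hEv x y
  rw [← hQv] at hv hTp hQE
  have hval : Qv = 1 ∨ Qv = 2 := by
    have hre : Qv.re ≤ 2 := by
      by_contra hcon
      have h5 : 3 ≤ Qv.re := by omega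
      have h6 : 81 ≤ Qv.re ^ 4 := by
        calc (81 : ℤ) = 3 ^ 4 := by norm_num
          _ ≤ Qv.re ^ 4 := pow_le_pow_left₀ (by norm_num) h5 4
      have h7 : (1 : R).norm = 1 := by simp
      rw [h7] at hv
      omega
    obtain ⟨k, hk⟩ := hQE
    obtain ⟨h5, h6⟩ := hTp
    have h7 : Qv.im = 0 := by
      have h8 : k = 0 := by
        rw [hk] at h6
        have h9 : Qv.re ^ 2 ≤ 4 := by nlinarith
        have h10 : 12 * k ^ 2 < 4 := by nlinarith
        have h11 : k ^ 2 < 1 := by linarith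
        nlinarith [sq_nonneg k, h11, abs_nonneg k, Int.one_le_abs (z := k)]
      omega
    have h8 : Qv.re = 1 ∨ Qv.re = 2 := by omega
    rcases h8 with h8 | h8
    · left
      ext
      · simpa using h8
      · simpa using h7
    · right
      ext
      · simpa using h8
      · simpa using h7
  -- the vector is unimodular
  obtain ⟨u0, u1, hu⟩ : ∃ u0 u1 : R, u0 * x + u1 * y = 1 := by
    have _ : IsPrincipalIdealRing R := h1
    obtain ⟨g, hg⟩ := (IsPrincipalIdealRing.principal (Ideal.span {x, y})).principal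
    rw [Ideal.submodule_span_eq] at hg
    have hgx : g ∣ x := by
      rw [← Ideal.mem_span_singleton, ← hg]
      exact Ideal.subset_span (by simp)
    have hgy : g ∣ y := by
      rw [← Ideal.mem_span_singleton, ← hg]
      exact Ideal.subset_span (by simp)
    have hgg : g ∈ Ideal.span {x, y} := by
      rw [hg]
      exact Ideal.mem_span_singleton_self g
    obtain ⟨r, s, hrs⟩ := Ideal.mem_span_pair.1 hgg
    obtain ⟨x1, hx1⟩ := hgx
    obtain ⟨y1, hy1⟩ := hgy
    have hgt : g ^ 2 * (a * x1 ^ 2 + 2 * b * x1 * y1 + c * y1 ^ 2) = Qv := by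
      rw [hQv, hx1, hy1]
      ring
    obtain ⟨g', hg'⟩ : ∃ g' : R, g * g' = 1 := by
      rcases hval with h5 | h5
      · rw [h5] at hgt
        exact ⟨g * (a * x1 ^ 2 + 2 * b * x1 * y1 + c * y1 ^ 2), by linear_combination hgt⟩
      · rw [h5] at hgt
        exact unit_CLS2 g _ (hEv x1 y1) hgt
    exact ⟨r * g', s * g', by linear_combination g' * hrs + hg'⟩
  obtain ⟨U0, hU0, hcol⟩ := h4.1 ![x, y] ![u0, u1] (by
    simp [dotProduct, Fin.sum_univ_two]
    linear_combination hu)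
  obtain ⟨s, hs⟩ : ∃ s, s = U0 0 1 := ⟨_, rfl⟩
  obtain ⟨t, ht⟩ : ∃ t, t = U0 1 1 := ⟨_, rfl⟩
  have hU : U0 = !![x, s; y, t] := by
    have e0 := hcol 0
    have e1 := hcol 1
    simp at e0 e1
    ext i j : 1
    fin_cases i <;> fin_cases j <;> simp [e0, e1, hs, ht]
  have hdU : x * t - s * y = 1 := by
    rw [hU, Matrix.det_fin_two_of] at hU0
    exact hU0
  obtain ⟨b', hb'⟩ : ∃ b', b' = a * x * s + b * (x * t + y * s) + c * y * t := ⟨_, rfl⟩
  obtain ⟨c', hc'⟩ : ∃ c', c' = a * s ^ 2 + 2 * b * s * t + c * t ^ 2 := ⟨_, rfl⟩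
  have hdet' : Qv * c' - b' ^ 2 = 1 := by
    rw [hQv, hc', hb']
    have e : (a * x ^ 2 + 2 * b * x * y + c * y ^ 2) * (a * s ^ 2 + 2 * b * s * t + c * t ^ 2) -
        (a * x * s + b * (x * t + y * s) + c * y * t) ^ 2 =
        (a * c - b ^ 2) * (x * t - s * y) ^ 2 := by ring
    rw [e, hdet, hdU]
    ring
  set A : Matrix (Fin 2) (Fin 2) R := !![t, -s; -y, x] with hA
  have hAd : A.det = 1 := by
    rw [hA, Matrix.det_fin_two_of]
    linear_combination hdU
  have hX : !![a, b; b, c] = Aᵀ * !![Qv, b'; b', c'] * A := by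
    have e1 : U0 * A = 1 := by
      rw [hU, hA]
      ext i j : 1
      fin_cases i <;> fin_cases j <;> simp [Matrix.mul_apply, Fin.sum_univ_two]
      · linear_combination hdU
      · ring
      · ring
      · linear_combination hdU
    have e2 : Aᵀ * U0ᵀ = 1 := by
      rw [← Matrix.transpose_mul, e1, Matrix.transpose_one]
    have e3 : !![Qv, b'; b', c'] = U0ᵀ * !![a, b; b, c] * U0 := by
      rw [hU, hQv, hb', hc']
      ext i j : 1
      fin_cases i <;> fin_cases j <;>
        simp [Matrix.mul_apply, Fin.sum_univ_two] <;> ring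
    rw [e3]
    calc !![a, b; b, c] = 1 * !![a, b; b, c] * 1 := by simp
      _ = (Aᵀ * U0ᵀ) * !![a, b; b, c] * (U0 * A) := by rw [e1, e2]
      _ = Aᵀ * (U0ᵀ * !![a, b; b, c] * U0) * A := by simp only [Matrix.mul_assoc]
  rcases hval with h5 | h5
  · -- the value `1`
    rw [h5] at hdet' hX
    refine ⟨!![1, b'; 0, 1] * A, ?_, Or.inl ?_⟩
    · rw [Matrix.det_mul, hAd, Matrix.det_fin_two_of]
      ring
    · have e1 : !![1, b'; b', c'] = (!![1, b'; 0, 1] : Matrix (Fin 2) (Fin 2) R)ᵀ *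
          !![1, b'; 0, 1] := by
        ext i j : 1
        fin_cases i <;> fin_cases j <;> simp [Matrix.mul_apply, Fin.sum_univ_two]
        linear_combination hdet'
      rw [hX, e1, Matrix.transpose_mul]
      simp only [Matrix.mul_assoc]
  · -- the value `2`
    rw [h5] at hdet' hX
    have r1 := congrArg Zsqrtd.re hdet'
    simp [pow_two] at r1
    have hpar : (∃ m : R, b' = 1 + 2 * m) ∨ ∃ m : R, b' = w + 2 * m := by
      rcases Int.even_or_odd' b'.re with ⟨p, hp | hp⟩ <;>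
        rcases Int.even_or_odd' b'.im with ⟨q, hq | hq⟩
      · exfalso
        rw [hp, hq] at r1
        have : 2 * (c'.re - 2 * p * p - 6 * q * q) = 1 := by linear_combination r1
        omega
      · right
        refine ⟨⟨p, q⟩, ?_⟩
        ext
        · simp [w, hp]
        · simp [w, hq]
          ring
      · left
        refine ⟨⟨p, q⟩, ?_⟩
        ext
        · simp [hp]
          ring
        · simp [hq]
      · exfalso
        rw [hp, hq] at r1
        have : 2 * (c'.re - 2 * p * p - 2 * p - 6 * q * q - 6 * q - 2) = 1 := by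
          linear_combination r1
        omega
    have htwo : (2 : R) ≠ 0 := by
      intro h0
      have := congrArg Zsqrtd.re h0
      simp at this
    rcases hpar with ⟨m, hm⟩ | ⟨m, hm⟩
    · have hc2 : c' = 1 + 2 * m + 2 * m ^ 2 := by
        apply mul_left_cancel₀ htwo
        rw [hm] at hdet'
        linear_combination hdet'
      refine ⟨!![1, 0; 1, 1] * !![1, m; 0, 1] * A, ?_, Or.inl ?_⟩
      · rw [Matrix.det_mul, Matrix.det_mul, hAd, Matrix.det_fin_two_of, Matrix.det_fin_two_of]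
        ring
      · have e1 : !![2, b'; b', c'] =
            ((!![1, 0; 1, 1] : Matrix (Fin 2) (Fin 2) R) * !![1, m; 0, 1])ᵀ *
            (!![1, 0; 1, 1] * !![1, m; 0, 1]) := by
          rw [hm, hc2]
          ext i j : 1
          fin_cases i <;> fin_cases j <;> simp [Matrix.mul_apply, Fin.sum_univ_two] <;> ring
        rw [hX, e1, Matrix.transpose_mul (!![1, 0; 1, 1] * !![1, m; 0, 1]) A]
        simp only [Matrix.mul_assoc]
    · have hc2 : c' = 2 + 2 * m * w + 2 * m ^ 2 := by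
        apply mul_left_cancel₀ htwo
        rw [hm] at hdet'
        linear_combination hdet' + w_sq
      refine ⟨!![1, m; 0, 1] * A, ?_, Or.inr ?_⟩
      · rw [Matrix.det_mul, hAd, Matrix.det_fin_two_of]
        ring
      · have e1 : !![2, b'; b', c'] = (!![1, m; 0, 1] : Matrix (Fin 2) (Fin 2) R)ᵀ *
            !![2, w; w, 2] * !![1, m; 0, 1] := by
          rw [hm, hc2]
          ext i j : 1
          fin_cases i <;> fin_cases j <;> simp [Matrix.mul_apply, Fin.sum_univ_two] <;> ring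
        rw [hX, e1, Matrix.transpose_mul]
        simp only [Matrix.mul_assoc]

end ST6
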