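import Pool.Agent.ST6.Targets

set_option autoImplicit false

/-!
# MP_a901ae_nt: short vectors of binary forms over `ℤ[√3]`
-/

namespace ST6

open Matrix

/-- The trace form of a binary form. -/
def S_MIN2 (X : Matrix (Fin 2) (Fin 2) R) : Matrix (Fin 4) (Fin 4) ℤ :=
  !![2 * (X 0 0).re, 2 * (X 0 1).re, 6 * (X 0 0).im, 6 * (X 0 1).im;
     2 * (X 1 0).re, 2 * (X 1 1).re, 6 * (X 1 0).im, 6 * (X 1 1).im;
     6 * (X 0 0).im, 6 * (X 0 1).im, 6 * (X 0 0).re, 6 * (X 0 1).re;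
     6 * (X 1 0).im, 6 * (X 1 1).im, 6 * (X 1 0).re, 6 * (X 1 1).re]

/-- The vector `x + √3 y`. -/
def v_MIN2 (u : Fin 4 → ℤ) : Fin 2 → R := ![⟨u 0, u 2⟩, ⟨u 1, u 3⟩]

theorem sub_MIN2 (X : Matrix (Fin 2) (Fin 2) R) :
    S_MIN2 X = (fromBlocks (X.map fun x => 2 * x.re) (X.map fun x => 6 * x.im)
      (X.map fun x => 6 * x.im) (X.map fun x => 6 * x.re)).submatrix
      (finSumFinEquiv (m := 2) (n := 2)).symm (finSumFinEquiv (m := 2) (n := 2)).symm := by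
  ext i j
  fin_cases i <;> fin_cases j <;> rfl

theorem q_MIN2 (X : Matrix (Fin 2) (Fin 2) R) (u : Fin 4 → ℤ) :
    u ⬝ᵥ (S_MIN2 X *ᵥ u) = 2 * (v_MIN2 u ⬝ᵥ (X *ᵥ v_MIN2 u)).re := by
  simp only [dotProduct, mulVec, Fin.sum_univ_four, Fin.sum_univ_two, S_MIN2, v_MIN2,
    Matrix.cons_val_zero, Matrix.cons_val_one, Zsqrtd.re_add, Zsqrtd.re_mul, Zsqrtd.im_add,
    Zsqrtd.im_mul, of_apply, cons_val']
  simp
  ring

theorem p_MIN2 (h1 : T_HMT) (h2 : T_TRD) : T_MIN2 := by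
  intro X hX
  have hs : X 1 0 = X 0 1 := by
    have := congrFun (congrFun hX.1 0) 1
    simpa [transpose_apply] using this
  have hv : ∀ u : Fin 4 → ℤ, u ≠ 0 → v_MIN2 u ≠ 0 := by
    intro u hu h
    apply hu
    have e0 := congrFun h 0
    have e1 := congrFun h 1
    simp only [v_MIN2, Matrix.cons_val_zero, Matrix.cons_val_one, Pi.zero_apply] at e0 e1
    have a0 := congrArg Zsqrtd.re e0
    have a2 := congrArg Zsqrtd.im e0
    have a1 := congrArg Zsqrtd.re e1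
    have a3 := congrArg Zsqrtd.im e1
    simp only [Zsqrtd.re_zero, Zsqrtd.im_zero] at a0 a1 a2 a3
    funext i
    fin_cases i
    · exact a0
    · exact a1
    · exact a2
    · exact a3
  have hT : (S_MIN2 X)ᵀ = S_MIN2 X := by
    ext i j
    fin_cases i <;> fin_cases j <;> simp [S_MIN2, hs]
  have hP : ∀ u : Fin 4 → ℤ, u ≠ 0 → 0 < u ⬝ᵥ (S_MIN2 X *ᵥ u) := by
    intro u hu
    rw [q_MIN2]
    have := (hX.2 _ (hv u hu)).1
    linarith
  obtain ⟨u, hu, hle⟩ := h1 3 (S_MIN2 X) hT hP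
  refine ⟨v_MIN2 u, hv u hu, ?_⟩
  have hd : (S_MIN2 X).det = 12 ^ 2 * X.det.norm := by
    rw [sub_MIN2, det_submatrix_equiv_self]
    exact h2 2 X
  have h6 : (3 + 1) * 3 / 2 = 6 := rfl
  rw [hd, q_MIN2, h6] at hle
  generalize (v_MIN2 u ⬝ᵥ (X *ᵥ v_MIN2 u)).re = r at hle ⊢
  generalize X.det.norm = N at hle ⊢
  have e : (2 * r) ^ (3 + 1) * 3 ^ 6 = 11664 * r ^ 4 := by ring
  rw [e] at hle
  linarith

end ST6
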