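import Pool.Agent.ST6.Targets

set_option autoImplicit false

/-!
# MP_a901ae_nt: forms that satisfy the congruence condition are sums of four squares
-/

namespace ST6

theorem SS_swap_T4 {n : ℕ} {a b c : R} (h : SS n c b a) : SS n a b c := by
  obtain ⟨x, y, h1, h2, h3⟩ := h
  refine ⟨y, x, h3, ?_, h1⟩
  rw [← h2]
  exact Finset.sum_congr rfl fun i _ => mul_comm _ _

theorem SS_shift_T4 {n : ℕ} {a b c : R} (h : SS n (a + 2 * b + c) (b + c) c) : SS n a b c := by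
  obtain ⟨x, y, h1, h2, h3⟩ := h
  refine ⟨fun i => x i - y i, y, ?_, ?_, h3⟩
  · have : ∀ i, (x i - y i) ^ 2 = x i ^ 2 - 2 * (x i * y i) + y i ^ 2 := fun i => by ring
    simp only [this, Finset.sum_add_distrib, Finset.sum_sub_distrib, ← Finset.mul_sum, h1, h2, h3]
    ring
  · have : ∀ i, (x i - y i) * y i = x i * y i - y i ^ 2 := fun i => by ring
    simp only [this, Finset.sum_sub_distrib, h2, h3]
    ring

theorem Psd_swap_T4 {a b c : R} (h : Psd a b c) : Psd c b a := by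
  refine ⟨h.2.1, h.1, ?_⟩
  rw [mul_comm]
  exact h.2.2

theorem real_T4 {a b c : ℝ} (ha : 0 ≤ a) (hc : 0 ≤ c) (h : 0 ≤ a * c - b ^ 2) :
    0 ≤ a + 2 * b + c := by
  have h1 : (2 * b) ^ 2 ≤ (a + c) ^ 2 := by nlinarith [sq_nonneg (a - c)]
  have h2 := abs_le_of_sq_le_sq' h1 (add_nonneg ha hc)
  linarith [h2.1]

theorem Psd_shift_T4 {a b c : R} (h : Psd a b c) : Psd (a + 2 * b + c) (b + c) c := by
  obtain ⟨ha, hc, hd⟩ := h
  refine ⟨?_, hc, ?_⟩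
  · rw [Tn_iff] at *
    simp only [map_add, map_mul, map_sub, map_pow, map_ofNat] at *
    exact ⟨real_T4 ha.1 hc.1 hd.1, real_T4 ha.2 hc.2 hd.2⟩
  · have : (a + 2 * b + c) * c - (b + c) ^ 2 = a * c - b ^ 2 := by ring
    rw [this]
    exact hd

theorem Tn_of_mul_T4 {x y : R} (hx : Tp x) (hxy : Tn (x * y)) : Tn y := by
  rw [Tp_iff] at hx
  rw [Tn_iff] at *
  simp only [map_mul] at hxy
  exact ⟨(mul_nonneg_iff_of_pos_left hx.1).1 hxy.1, (mul_nonneg_iff_of_pos_left hx.2).1 hxy.2⟩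

theorem Tp_pp_sq_T4 : Tp (pp ^ 2) := by
  apply Tp_sq
  intro h
  have := congrArg Zsqrtd.re h
  simp [pp] at this

theorem Fl_a_T4 {a b c : R} (h : Fl a b c) :
    ∃ a1 : R, a = pp ^ 2 * a1 ∧ Ev a1 ∧ (Od a1 ∨ Od c) := by
  rcases h.1 with ⟨⟨k, hk⟩, hc⟩ | ⟨k, hk⟩
  · refine ⟨2 * (k * ⟨2, -1⟩), ?_, Ev_two_mul _, Or.inr hc⟩
    have h2 := two_eq
    rw [hk]
    calc (4 : R) * k = 2 * (2 * k) := by ring
      _ = (pp ^ 2 * ⟨2, -1⟩) * (2 * k) := by rw [← h2]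
      _ = pp ^ 2 * (2 * (k * ⟨2, -1⟩)) := by ring
  · refine ⟨⟨-3, 2⟩ + 2 * (k * ⟨2, -1⟩), ?_, ?_, Or.inl ?_⟩
    · have h2 := two_eq
      have h3 : a = 2 * (w + 2 * k) := by linear_combination hk
      have h4 : (⟨-3, 2⟩ : R) = w * ⟨2, -1⟩ := by
        ext <;> simp [w]
      rw [h4, h3]
      calc (2 : R) * (w + 2 * k) = (pp ^ 2 * ⟨2, -1⟩) * (w + 2 * k) := by rw [← h2]
        _ = pp ^ 2 * (w * ⟨2, -1⟩ + 2 * (k * ⟨2, -1⟩)) := by ring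
    · refine Ev.add ?_ (Ev_two_mul _)
      exact ⟨1, rfl⟩
    · unfold Od
      simp only [Zsqrtd.re_add, Zsqrtd.im_add, Zsqrtd.re_mul, Zsqrtd.im_mul, Zsqrtd.re_ofNat,
        Zsqrtd.im_ofNat]
      refine ⟨-1 + (k.re * 2 + 3 * k.im * -1) + (k.re * -1 + k.im * 2), ?_⟩
      push_cast
      ring

theorem Fl_T4 (h1 : T_T4F) {a b c : R} (ha : Ev c) (hP : Psd a b c) (h : Fl a b c) :
    SS 4 a b c := by
  obtain ⟨a1, e1, e2, e3⟩ := Fl_a_T4 h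
  obtain ⟨b1, e4⟩ := (En_iff b).1 h.2
  subst e1 e4
  refine h1 a1 b1 c e2 ha e3 ⟨Tn_of_mul_T4 Tp_pp_sq_T4 hP.1, hP.2.1, ?_⟩
  refine Tn_of_mul_T4 Tp_pp_sq_T4 ?_
  have : pp ^ 2 * (a1 * c - b1 ^ 2) = pp ^ 2 * a1 * c - (pp * b1) ^ 2 := by ring
  rw [this]
  exact hP.2.2

theorem p_T4 (h1 : T_T4F) (h2 : T_T4U) (h3 : T_T3Q) : T_T4 := by
  intro a b c ha hc hP hG
  rcases hG with h | h | h | ⟨ho, hd⟩
  · exact Fl_T4 h1 hc hP h
  · exact SS_swap_T4 (Fl_T4 h1 ha (Psd_swap_T4 hP) h)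
  · exact SS_shift_T4 (Fl_T4 h1 hc (Psd_shift_T4 hP) h)
  · have hne : a * c - b ^ 2 ≠ 0 := by
      intro h0
      rw [h0] at hd
      rcases hd with hd | hd <;> rw [four_dvd_iff] at hd <;> simp at hd
    obtain ⟨β, z, hz⟩ := h3 _ (Tp.of_ne hP.2.2 hne) hd
    rcases ho with ho | ho
    · exact h2 a b c β z ha ho hP.1 hP.2.1 hz
    · refine SS_swap_T4 (h2 c b a β z hc ho hP.2.1 hP.1 ?_)
      rw [mul_comm]
      exact hz

end ST6
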