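import Pool.Agent.ST6.Base
import Pool.Agent.P7.Defs

set_option autoImplicit false

/-!
# MP_a901ae_nt (sums of six squares over `ℤ[√3]`): the pieces, as compiled statements

`Base.lean` contains the elementary facts on `Tn`, `Tp`, `Ev`, `Od`, `En`, `nm`.  Below `Q v` is
`v ⬝ᵥ (X *ᵥ v)`, `B u v` is `u ⬝ᵥ (X *ᵥ v)`, `x'` is `star x`, `π = pp`, `eps = ⟨2, 1⟩` (a unit,
`π ^ 2 = 2 eps`), and a number is even if it is divisible by `π` (`En`), odd otherwise (`Od`).
-/

open scoped NumberField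

namespace ST6

open Matrix

/-! ## A. Arithmetic of the two rings -/

/-- PIR: `ℤ[√3]` is a principal ideal ring.  Proof: for `x` and `y ≠ 0` round the two coordinates
of `x * star y / norm y` to get `q`; the errors `s, t` are at most `1 / 2`, so
`|norm (x - y q)| = |s ^ 2 - 3 t ^ 2| |norm y| ≤ 3 / 4 |norm y|`. -/
def T_PIR : Prop := IsPrincipalIdealRing R

/-- COV: covering of `O` by the trace form with arbitrary positive weights.  Proof: for `z : O`
put `y0 = z.re.re + 2 z.im.im, y1 = z.im.im, y2 = - z.re.im, y3 = - 2 z.re.im - z.im.re`; this is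
an additive bijection `O ≃ ℤ ^ 4` and `nm z = ⟨A + B, y1 y2 - y0 y3⟩`,
`A = y0 ^ 2 - y0 y1 + y1 ^ 2`, `B = y2 ^ 2 - y2 y3 + y3 ^ 2`.  Lemma TRI: for a natural number
`n > 0`, integers `u, v` and real `l, m` there are integers `p, q` such that `U = u - n p`,
`V = v - n q` satisfy `3 (U ^ 2 - U V + V ^ 2 + l U + m V) ≤ n ^ 2`.  Proof of TRI: we may assume
`0 ≤ u, v < n`; let `f (U, V) = U ^ 2 - U V + V ^ 2 + l U + m V`.  If `v ≤ u` then
`(n - u) f (u, v) + (u - v) f (u - n, v) + v f (u - n, v - n) = n (n u - u ^ 2 + u v - v ^ 2)` and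
`n ^ 2 - 3 n u + 3 u ^ 2 - 3 u v + 3 v ^ 2 = (n - 3 u / 2) ^ 2 + 3 (u / 2 - v) ^ 2 ≥ 0`, so one of
the three values is at most `n ^ 2 / 3`; symmetric if `u ≤ v`.  Now choose first `y2, y3` modulo
`n` by TRI with `l = m = 0`, then `y0, y1` with `l = - 3 a.im y3 / a.re, m = 3 a.im y2 / a.re`. -/
def T_COV : Prop := ∀ (a : R) (n : ℤ) (y : O), Tp a → 0 < n →
  ∃ q : O, 3 * (a * nm (y - (n : O) * q)).re ≤ 2 * n ^ 2 * a.re

/-- PIO: `ℤ[ζ₁₂]` is a principal ideal ring.  Proof (from COV): `O` is Euclidean for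
`N z = (nm z).norm ≥ 0`: for `x` and `y ≠ 0` let `n = N y`, `Y = x * star y * (nm y)'`, so that
`n = y * star y * (nm y)'`; COV with `a = 1` gives `q` with `3 (nm (Y - n q)).re ≤ 2 n ^ 2`, hence
`(nm (Y - n q)).norm ≤ 4 / 9 n ^ 4`, and `Y - n q = (x - y q) star y (nm y)'` gives
`N (x - y q) n ^ 3 ≤ 4 / 9 n ^ 4`. -/
def T_PIO : Prop := IsPrincipalIdealRing O

/-- INE: an inert prime has a rational generator.  Proof: `star ϖ = μ ϖ`, `μ` a unit,
`μ star μ = 1`.  For `t = 1` or `t = ζ` (`ζ = ⟨0, 1⟩`) the element `g = t + star μ * star t`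
satisfies `star g = μ g` and is not divisible by `ϖ` (otherwise `ϖ` divides `1 + star μ` and
`ζ + star μ star ζ`, so `ζ - star ζ = iO`, a unit).  Hence `r = ϖ star g = ϖ μ g` is fixed by
`star`, so `r : R`, and `ϖ ∣ r`, `¬ ϖ ^ 2 ∣ r`; also `nm ϖ = μ ϖ ^ 2`.  Let `l` be a generator of
the ideal `(r, nm ϖ)` of `R`: `l` divides `μ ϖ ^ 2` and `r`, so `l` is `ϖ` or `1` up to a unit of
`O`, and it is divisible by `ϖ`. -/
def T_INE : Prop := ∀ ϖ : O, Prime ϖ → ϖ ∣ star ϖ → ∃ l : R, Associated ϖ (algebraMap R O l)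

/-- NSJ: every residue class modulo a prime of `R` contains a norm.  Proof: `R / l` is a finite
field (finite because `l` divides the integer `norm l`).  If it has odd characteristic every
element is `x ^ 2 + y ^ 2` (`FiniteField.exists_root_sum_quadratic` or counting) and
`nm (x + y iO) = x ^ 2 + y ^ 2`.  If `2` is in the ideal then `l` is associated to `π` (because
`2 = π ^ 2 ⟨2, -1⟩`), `r` is `0` or `1` modulo `π`, take `X = 0` or `X = 1`. -/
def T_NSJ : Prop := ∀ l : R, Prime l → ∀ r : R, ∃ X : O, l ∣ nm X - r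

/-- HB: binary unimodular Hermitian lattices over `O` have class number one.  Proof: strong
induction on `a.re` (positive).  (1) If `a = 1`: take `1, 0, h, 1`.  (2) If `a.norm = 1`, `a ≠ 1`:
`a.im ≠ 0` and `a.re < 3 |a.im|`; with the unit `v = uO` or its inverse (`nm v = ⟨2, ± 1⟩`) the
number `a nm v` has smaller positive real part; apply the induction to `(a nm v, c nm (1/v))` and
`h star v / v` (that is `e1 ↦ v e1`, `e2 ↦ e2 / v`), and multiply back.  (3) Otherwise
`n = a.norm ≥ 4` (`n = 2`, `3` are impossible modulo `3`, `4`).  For `q : O` the matrix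
`(a, h - a q; *, c')`, `c' = c - star q h - star h q + a nm q`, has the same determinant, so
`a c' = 1 + nm (h - a q)`.  Multiply by `a'`: `n c' = a' + a' nm (h - a q)` and
`n a' nm (h - a q) = a nm (a' h - n q)`.  COV with `y = a' h` gives `q` with
`n c'.re ≤ a.re + 2 / 3 n a.re`, so `c'.re < a.re` (`n ≥ 4`), `Tp c'`; apply the induction to
`(c', a)` and `star (h - a q)` and transform back. -/
def T_HB : Prop := ∀ (a c : R) (h : O), Tp a → a * c - nm h = 1 →
  ∃ z11 z12 z21 z22 : O, HZ a c h z11 z12 z21 z22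

/-- HMS: one step towards a unimodular overlattice.  `H = (a, h; star h, c)`, `D = det H =
nm (ϖ δ)`, `p = nm ϖ`.  We want a basis `f1, f2` of a larger lattice, `e1 = g11 f1 + g12 f2`,
`e2 = g21 f1 + g22 f2`, with Gram matrix `H1 = (a1, h1; star h1, c1)` over `O`.
(A) If one of `c`, `star h` is not divisible by `ϖ` let `v = (c, - star h)`, otherwise, if `h` or
`a` is not divisible by `ϖ`, let `v = (- h, a)`: then `H v = (D, 0)` or `(0, D)` and
`vᴴ H v = c D` or `a D`, so `H v` is divisible by `ϖ` and `vᴴ H v` by `p`.  One coordinate of `v`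
is prime to `ϖ`; multiply by its inverse modulo `ϖ` and reduce modulo `ϖ`: `v = (1, t)` or `(t, 1)`
has the same two properties.  For `v = (1, t)`: `f1 = v / ϖ`, `f2 = e2`, `e1 = ϖ f1 - t f2`,
`a1 = vᴴ H v / p : R`, `h1 = (h + star t c) / star ϖ`, `c1 = c` and similarly for `(t, 1)`.
(B) Otherwise `ϖ` divides `a, c, h, star h`.  (B1) If `star ϖ` is not divisible by `ϖ`, then `p`
divides `a` (in `R`), `star ϖ` divides `h`: `f1 = e1 / ϖ`, `f2 = e2`.  (B2) If `ϖ ∣ star ϖ` we
may take `ϖ = l : R` by INE (`l` is prime in `R`); `a = l a1`, `c = l c1`, `h = l h1`; by NSJ there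
is `v = (x, y)`, not both divisible by `l`, with `nm x a1 + (star x y h1 + conj) + nm y c1`
divisible by `l` (if `l ∣ a1` take `(1, 0)`, otherwise `y = 1` and `x` with
`nm (a1 x + h1) = - (a1 c1 - nm h1)` modulo `l`, as `a1` is invertible modulo `l`); this `v`
satisfies the two properties and we continue as in (A).  Positivity: `a vᴴ H v =
nm (a x + h y) + D nm y` is totally positive for `v = (x, y) ≠ 0`. -/
def T_HMS : Prop := ∀ (a c : R) (h ϖ δ : O), Prime ϖ → δ ≠ 0 → Tp a → Tp c →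
  a * c - nm h = nm (ϖ * δ) →
  ∃ (a1 c1 : R) (h1 g11 g12 g21 g22 : O), Tp a1 ∧ Tp c1 ∧ a1 * c1 - nm h1 = nm δ ∧
    algebraMap R O a = star g11 * g11 * algebraMap R O a1 + star g11 * g12 * h1 +
      star g12 * g11 * star h1 + star g12 * g12 * algebraMap R O c1 ∧
    algebraMap R O c = star g21 * g21 * algebraMap R O a1 + star g21 * g22 * h1 +
      star g22 * g21 * star h1 + star g22 * g22 * algebraMap R O c1 ∧
    h = star g11 * g21 * algebraMap R O a1 + star g11 * g22 * h1 +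
      star g12 * g21 * star h1 + star g12 * g22 * algebraMap R O c1

/-- HM: a totally positive semidefinite Hermitian matrix whose determinant is a norm is of the
form `Zᴴ Z`.  Proof: first `δ ≠ 0`, by induction on the number `(nm δ).norm` (or on the number of
prime factors of `δ`, `WfDvdMonoid.induction_on_irreducible`).  Then `Tp a`, `Tp c`
(`a c = nm h + nm δ`).  If `δ` is a unit apply HB to `(a, c / nm δ)`, `h / δ`, and multiply the
second column by `δ`.  Otherwise let `ϖ` be a prime of `O` with `ϖ ∣ δ` and apply HMS: a matrix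
`Z1` for `H1` gives `Z = Z1 G`, that is `z1k = g11 y1k + g12 y2k`, `z2k = g21 y1k + g22 y2k`.
Now `δ = 0`.  For every `γ : R`, `Tp γ`: the first case with `(γ, γ)`, `h = 0`, `δ = γ` gives
`γ = nm p + nm q`.  If `a = 0` then `h = 0` and `c = nm p + nm q` (or `c = 0`).  If `a ≠ 0` let
`g` be a gcd of `a` and `h` in `O`, `a = g a1`, `h = g h1`; then `star a1 ∣ g` (because
`star a1` divides `g a1 = a` and, as `a c = h star h` gives `a1 ∣ star h`, also `g h1 = h`), so
`γ = a / nm a1 : R` and `a = γ nm a1`, `h = γ star a1 h1`, `c = γ nm h1`, and with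
`γ = nm p + nm q` take `z11 = p a1, z12 = q a1, z21 = p h1, z22 = q h1`. -/
def T_HM : Prop := ∀ (a c : R) (h δ : O), Tn a → Tn c → a * c - nm h = nm δ →
  ∃ z11 z12 z21 z22 : O, HZ a c h z11 z12 z21 z22

/-! ## B. Reduction of forms over `R` -/

/-- HMT: Hermite's inequality for integral positive definite matrices of size `n + 1`.  Proof:
prove the version for positive definite symmetric matrices over `ℚ` (with `v` the first column of
a matrix `U` over `ℤ` with determinant `± 1`) by induction on `n`.  Choose `U` such that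
`g = (Uᵀ S U) 0 0` is minimal (possible because `N S` is integral for some `N > 0`), let
`S' = Uᵀ S U = (g, b; b, C)` and `T = C - b bᵀ / g` (positive definite, `det S' = g det T`).  By
induction there is `W` with determinant `± 1` whose first column `x` satisfies the inequality
`t ^ n ≤ (4 / 3) ^ (n (n - 1) / 2) det T`, `t = x ⬝ᵥ T x`.  Let `r` be the integer nearest to
`- b ⬝ᵥ x / g`; the vector `(r, x)` is a column of a matrix of determinant `± 1`, and
`S' (r, x) ≤ g / 4 + t`; by minimality `3 / 4 g ≤ t`.  Hence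
`g ^ (n + 1) ≤ (4 / 3) ^ (n (n + 1) / 2) det S`. -/
def T_HMT : Prop := ∀ (n : ℕ) (S : Matrix (Fin (n + 1)) (Fin (n + 1)) ℤ), Sᵀ = S →
  (∀ v : Fin (n + 1) → ℤ, v ≠ 0 → 0 < v ⬝ᵥ (S *ᵥ v)) →
  ∃ v : Fin (n + 1) → ℤ, v ≠ 0 ∧
    (v ⬝ᵥ (S *ᵥ v)) ^ (n + 1) * 3 ^ ((n + 1) * n / 2) ≤ 4 ^ ((n + 1) * n / 2) * S.det

/-- TRD: the determinant of the trace form.  Proof: over `R`, with `P = (1, w; 1, -w)` (blocks)
the matrix is `Pᵀ (X, 0; 0, X') P`, `det P = det (-2 w)` , `(-2 w) ^ 2 = 12`,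
`det X det X' = norm (det X)`. -/
def T_TRD : Prop := ∀ (k : ℕ) (X : Matrix (Fin k) (Fin k) R),
  (fromBlocks (X.map fun x => 2 * x.re) (X.map fun x => 6 * x.im)
    (X.map fun x => 6 * x.im) (X.map fun x => 6 * x.re)).det = 12 ^ k * X.det.norm

/-- MIN2: short vectors of binary forms over `R`.  Proof: HMT with `n + 1 = 4` for the matrix of
TRD (indexed by `Fin 4`): it is the Gram matrix of `2 (Q v).re` for `v = x + w y`, `x, y`
integral; `(2 r) ^ 4 3 ^ 6 ≤ 4 ^ 6 144 N`. -/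
def T_MIN2 : Prop := ∀ X : Matrix (Fin 2) (Fin 2) R, PD X →
  ∃ v : Fin 2 → R, v ≠ 0 ∧ 11664 * (v ⬝ᵥ (X *ᵥ v)).re ^ 4 ≤ 589824 * X.det.norm

/-- MIN3: short vectors of unimodular ternary forms over `R`.  Proof: HMT with `n + 1 = 6` for the
matrix of TRD: `(2 r) ^ 6 3 ^ 15 ≤ 4 ^ 15 12 ^ 3`, so `r ≤ 3`. -/
def T_MIN3 : Prop := ∀ X : Matrix (Fin 3) (Fin 3) R, PD X → X.det = 1 →
  ∃ v : Fin 3 → R, v ≠ 0 ∧ (v ⬝ᵥ (X *ᵥ v)).re ≤ 3

/-- PDS: the criterion of Sylvester.  Proof: apply `e1`, `e2` (see `Tp_iff`) and complete the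
squares: `a Q = (a x + b y + c z) ^ 2 + ...`, twice. -/
def T_PDS : Prop :=
  (∀ a b c : R, Tp a → Tp (a * c - b ^ 2) → PD !![a, b; b, c]) ∧
  ∀ a b c d e f : R, Tp a → Tp (a * d - b ^ 2) → Tp (!![a, b, c; b, d, e; c, e, f]).det →
    PD !![a, b, c; b, d, e; c, e, f]

/-- CPL: completion of unimodular vectors to a basis (`R` is a principal ideal ring). -/
def T_CPL : Prop :=
  (∀ v u : Fin 2 → R, u ⬝ᵥ v = 1 → ∃ U : Matrix (Fin 2) (Fin 2) R, U.det = 1 ∧
    ∀ i, U i 0 = v i) ∧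
  ∀ v u : Fin 3 → R, u ⬝ᵥ v = 1 → ∃ U : Matrix (Fin 3) (Fin 3) R, U.det = 1 ∧
    ∀ i, U i 0 = v i

/-- CLS2: the classification of the binary unimodular forms.  Proof: the form is `PD` (PDS), and
all its values are `Ev`.  MIN2 gives `v ≠ 0` with `r = (Q v).re ≤ 2`.  `v = g v1`, `v1` unimodular
(its coordinates generate `R`), `g ^ 2 Q v1 = Q v`.  As `Q v` is totally positive and `Ev`, it is
`1` or `2`.  If it is `1` then `g` is a unit.  If it is `2` then `g` is a unit, otherwise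
`g = π` up to a unit and `Q v1 = ⟨2, -1⟩ η ^ 2`, `η` a unit, is not `Ev`.  Dividing `v` by `g` we
have `Q v ∈ {1, 2}` up to the square of a unit; multiply by the inverse unit: `Q v ∈ {1, 2}`, `v`
unimodular.  Complete `v` to a basis (CPL): the form is `(1, b; b, c)`, then `(1, 0; 0, 1)` after
a translation; or `(2, b; b, c)`, `2 c - b ^ 2 = 1`, `b` is odd, so `1` or `w` modulo `2`, and
after a translation `b = 1, c = 1` (interchange the basis vectors, first case) or `b = w`,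
`c = 2`. -/
def T_CLS2 : Prop := ∀ a b c : R, Ev a → Ev c → Tp a → a * c - b ^ 2 = 1 →
  ∃ U : Matrix (Fin 2) (Fin 2) R, U.det ^ 2 = 1 ∧
    (!![a, b; b, c] = Uᵀ * U ∨ !![a, b; b, c] = Uᵀ * !![2, w; w, 2] * U)

/-- DT2: a binary form of determinant `2` represents `1`.  Proof: MIN2 gives `v ≠ 0` with
`(Q v).re ≤ 3`, so `Q v ∈ {1, 2, 3}`.  Write `v = g v1`, `v1` unimodular.  `Q v = 1`: done.
`Q v = 2`: `g` is a unit (as in CLS2); complete (CPL): `(2, b; b, c)`, `2 c = 2 + b ^ 2`, `b` even,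
`b = π b1`, `c = 1 + eps b1 ^ 2`, `Ev c` forces `b1` even, so `2 ∣ b`, translate to `b = 0`,
`c = 1`.  `Q v = 3`: if `g` is not a unit then `g ^ 2` is `3` up to the square of a unit and a
multiple of `v1` has `Q = 1`; otherwise `(3, b; b, c)`, `3 c = 2 + b ^ 2`, `b` is `± 1` modulo `3`,
translate to `b = ± 1`, `c = 1`. -/
def T_DT2 : Prop := ∀ a b c : R, Ev a → Ev c → Tp a → a * c - b ^ 2 = 2 →
  ∃ x y : R, a * x ^ 2 + 2 * b * x * y + c * y ^ 2 = 1

/-- ONE: a unimodular ternary form represents `1`.  Proof: all values `Q v` are `Ev`.  Let `v ≠ 0`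
be a vector with `(Q v).re` minimal; it is at most `3` by MIN3, so `Q v ∈ {1, 2, 3}`.  Let
`Q v = 2`: `v` is unimodular up to a unit (as in CLS2), complete it to a basis (CPL), so
`X = (2, b1, b2; ...)`.  `S i j = 2 X i j - X 0 i X 0 j` (`i, j ∈ {1, 2}`) is positive, `Ev`, of
determinant `2 det X = 2`, so it represents `1` (DT2), at `(x, y)`, which is unimodular; put
`v2 = (t, x, y)`: `2 Q v2 = 1 + b ^ 2`, `b = B v v2 = 2 t + b1 x + b2 y` is odd, so choose `t` with
`b ∈ {1, w}`.  If `b = 1` then `Q v2 = 1`, done.  If `b = w` then `v, v2` span `(2, w; w, 2)`,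
which is unimodular; complete `v, v2` to a basis `v, v2, v3` (complete `(x, y)`), replace `v3` by
`v3 - α v - β v2` orthogonal to `v, v2`; then `Q v3 = det X = 1`.  Let `Q v = 3`: again `v` is
unimodular (otherwise a vector with `Q = 1` would exist), `S i j = 3 X i j - X 0 i X 0 j` has
determinant `3`, MIN2 gives `(x, y) ≠ 0` with `(S (x, y)).re ≤ 4`; choose `t` such that
`b = 3 t + b1 x + b2 y` has both coordinates in `{-1, 0, 1}`; `v2 = (t, x, y)` has
`3 (Q v2).re = (S (x, y)).re + (b ^ 2).re ≤ 4 + 4`, so `(Q v2).re ≤ 2`, against the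
minimality. -/
def T_ONE : Prop := ∀ X : Matrix (Fin 3) (Fin 3) R, PD X → X.det = 1 → (∀ i, Ev (X i i)) →
  ∃ v : Fin 3 → R, v ⬝ᵥ (X *ᵥ v) = 1

/-- CLS3: the classification of the ternary unimodular forms.  Proof: ONE gives `v` with
`Q v = 1`; `v` is unimodular (`(X v) ⬝ᵥ v = 1`), complete it to a basis (CPL) and make the other
two basis vectors orthogonal to it; the complement is binary, unimodular, `Ev`: CLS2. -/
def T_CLS3 : Prop := ∀ X : Matrix (Fin 3) (Fin 3) R, PD X → X.det = 1 → (∀ i, Ev (X i i)) →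
  ∃ U : Matrix (Fin 3) (Fin 3) R, U.det ^ 2 = 1 ∧ (X = Uᵀ * U ∨ X = Uᵀ * G2 * U)

/-! ## C. Ternary representations -/

/-- GEN: representation of a number by `x ^ 2 + 2 (y ^ 2 + √3 y z + z ^ 2)`.  Proof: let
`X = (p, k, 0; k, m, u; 0, u, v)`, of determinant `d v - p u ^ 2 = 1`; it is `PD` (PDS).
`d = p m - k ^ 2` is the entry `2 2` of `adjugate X = X⁻¹`.  CLS3.  If `X = Uᵀ G2 U` then
`X⁻¹ = U⁻¹ G2⁻¹ U⁻¹ᵀ`, and with the last row `(β, y, z)` of `U⁻¹` we get
`d = β ^ 2 + 2 (y ^ 2 - √3 y z + z ^ 2) = β ^ 2 + 2 nm ⟨y, -z⟩`.  If `X = Uᵀ U` then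
`d = x ^ 2 + y ^ 2 + z ^ 2`; one of `x, y, z`, say `x`, has the parity of `d`, and then `y, z` have
the same parity, so `y + z iO = (y - w z) + 2 z ζ` is divisible by `pO` in `O`, and
`y ^ 2 + z ^ 2 = nm (pO t) = π ^ 2 nm t = 2 nm (uO t)`. -/
def T_GEN : Prop := ∀ p k m u v d : R, Tp p → Tp d → Ev p → Ev m → Ev v →
  p * m - k ^ 2 = d → d * v - p * u ^ 2 = 1 → ∃ (β : R) (z : O), d = β ^ 2 + 2 * nm z

/-- SQ: square roots modulo a prime number that is inert in `R`.  Proof: `3` is not a square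
modulo `p` (`p = 5, 7` modulo `12`).  Let `D = D0 + D1 w`, `D0 ^ 2 - 3 D1 ^ 2 = g ^ 2 ≠ 0` in
`ZMod p`.  If `D1 ≠ 0`: `(D0 + g) / 2 * ((D0 - g) / 2) = 3 D1 ^ 2 / 4` is not a square, so one
factor is a nonzero square `x ^ 2`, and `k = x + D1 / (2 x) w` works, because
`3 (D1 / (2 x)) ^ 2` is the other factor.  If `D1 = 0`: `D0` or `D0 / 3` is a square,
`k = x` or `k = x w`. -/
def T_SQ : Prop := ∀ p : ℕ, p.Prime → (p % 12 = 5 ∨ p % 12 = 7) → ∀ D : R,
  ((D.norm : ℤ) : ZMod p) ≠ 0 → IsSquare ((D.norm : ℤ) : ZMod p) →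
  ∃ k : R, (p : R) ∣ k ^ 2 - D

/-- T3P: totally positive numbers with even `√3`-coefficient.  Proof: induction on `norm d`.
(0) `d = 2 ⟨s, t⟩` with `s` even: `d = π ^ 2 d2`, `d2 = ⟨2, -1⟩ ⟨s, t⟩` is totally positive and
`Ev`, of norm `norm d / 4`; multiply its representation by `π`.  In the other cases we find
a prime number `p > norm d`, `p = 5` modulo `12`, `u v : R` with `Ev v` and
`d v = 1 + p u ^ 2`, such that `norm d` is a square modulo `p`.  By SQ (with `D = - d`) there are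
`k, m` with `p m = d + k ^ 2` (`Ev m`, as `p` is odd), and GEN applies.
(1) `d` odd: `n = norm d = 1` modulo `4`.  `p` prime, `p = 6 n - 1` modulo `12 n`, so `p = 5`
modulo `12` and `n ∣ 1 + p`, `u = 1`, `v = ((1 + p) / n) d'`.  Jacobi symbols:
`(n | p) = (p | n) = (-1 | n) = 1`.
(2) `d = 2 d1`, `d1 = ⟨s, t⟩`, `s` odd, `t` even: `n = norm d1 = 1` modulo `4`, `p = 6 n - 1`
modulo `12 n`, `u = 1`, `v = ((1 + p) / (2 n)) d1'`, `(4 n | p) = (n | p) = 1` as before.
(3) `d = 2 d1`, `d1 = ⟨s, t⟩`, `s, t` odd: `norm d1 = 2 n`, `n = 3` modulo `4`.  `p` prime,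
`p = 18 n - 1` modulo `24 n`, so `p = 5` modulo `24` and `n ∣ 1 + p`; `(norm d | p) = (8 n | p) =
(2 | p) (n | p) = - (p | n) = - (-1 | n) = 1`.  Take `e : ℤ` with `e = 1` modulo `n`, `e = 0`
modulo `4` and `u = w + (1 - w) e`: then `n` and `8` divide `1 + p u ^ 2` (`u = w` modulo `4`,
`u ^ 2 = 3` modulo `8`, `1 + 3 p = 0` modulo `8`), so `1 + p u ^ 2 = 8 n y = d d' y`,
`v = d' y`, and `Ev v` because `2 ∣ d'`.
Dirichlet: `Nat.forall_exists_prime_gt_and_eq_mod`. -/
def T_T3P : Prop := ∀ d : R, Tp d → Ev d → ∃ (β : R) (z : O), d = β ^ 2 + 2 * nm z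

/-- LEMR: there is no proper rotation with denominator `q`, if `q` has negative norm.  Proof:
suppose `q` does not divide `M`.  Put (indices `1, 2, 3` for the rows of `M`)
`P00 = q + M11 + M22 + M33`, `P11 = q + M11 - M22 - M33`, `P22 = q - M11 + M22 - M33`,
`P33 = q - M11 - M22 + M33`, `P01 = M32 - M23`, `P02 = M13 - M31`, `P03 = M21 - M12`,
`P12 = M12 + M21`, `P13 = M13 + M31`, `P23 = M23 + M32`, `P` symmetric.  Then
`P i j P k l = P i l P k j` (consequence of `Mᵀ M = M Mᵀ = q ^ 2`, `adjugate M = q Mᵀ`) and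
`P00 + P11 + P22 + P33 = 4 q`.  As `R` is a principal ideal ring, `P i j = τ α i α j` with
`α 0, ..., α 3` generating the unit ideal (take `P i i ≠ 0` and divide the column `i` by its gcd).
So `τ n = 4 q`, `n = ∑ α i ^ 2`, `Tp n`.  If `q ∣ τ` then `q` divides `4 M11 = P00 + P11 - P22 -
P33`, `2 M32 = P01 + P23`, ..., so it divides `M` (`q` odd), contradiction.  So `q ∣ n`,
`n = q n1`, `τ n1 = 4`.  Norms: `norm n > 0`, so `norm n1 < 0`, `norm τ * norm n1 = 16`, and
`norm x = -1, -4, -16` is impossible (modulo `4`), so `norm n1 = -2` or `-8`.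
If `norm n1 = -2`: `n` is even and `Ev`, so `2 ∣ n`, `4 ∣ norm n = -2 norm q`, impossible.  If
`norm n1 = -8`, `norm τ = -2`: `π ∣ τ` exactly once; `2 M32 = τ (α0 α1 + α2 α3)` etc. show that
`α0 α1 + α2 α3`, `α0 α2 + α1 α3`, `α0 α3 + α1 α2` are even, so not exactly two of the `α i` are
odd; their number is even (`n` is even) and positive, so all are odd, and then
`n.re = ∑ (x ^ 2 + 3 y ^ 2)` with each summand `1` or `3` modulo `4`, `n.im` divisible by `4`, so
`norm n = n.re ^ 2 - 3 n.im ^ 2` is divisible by `16` or is `4` modulo `8`, but it is `-8 norm q`,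
`norm q` odd. -/
def T_LEMR : Prop := ∀ (M : Matrix (Fin 3) (Fin 3) R) (q : R), Prime q → Odd q.norm →
  q.norm < 0 → Mᵀ * M = q ^ 2 • (1 : Matrix (Fin 3) (Fin 3) R) → M.det = q ^ 3 →
  ∃ N : Matrix (Fin 3) (Fin 3) R, M = q • N

/-- KEV: the even case.  Proof: `det X = 1`.  Let `x` be the last column of `adjugate X`:
`X x = (0, 0, 1)`, `B x v = v 2`, `Q x = x 2 = adjugate X 2 2`.  `(β, z1, z2) = U x`,
`Q x = β ^ 2 + 2 (z1 ^ 2 + w z1 z2 + z2 ^ 2)`.  The vector `v = U⁻¹ y`,
`y = (- (2 z1 + w z2), β, 0)`, is orthogonal to `x`, so `v 2 = 0` and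
`Q v = y 0 ^ 2 + 2 β ^ 2` is even, so `z2` is even; likewise with
`y = (- (w z1 + 2 z2), 0, β)`, `z1` is even.  `z1 = π t1`, `z2 = π t2`:
`Q x = β ^ 2 + 2 π ^ 2 nm ⟨t1, t2⟩ = β ^ 2 + 4 nm (uO ⟨t1, t2⟩)`. -/
def T_KEV : Prop := ∀ (X U : Matrix (Fin 3) (Fin 3) R), X = Uᵀ * G2 * U → U.det ^ 2 = 1 →
  (∀ v : Fin 3 → R, v 2 = 0 → En (v ⬝ᵥ (X *ᵥ v))) →
  ∃ (β : R) (z : O), X.adjugate 2 2 = β ^ 2 + 4 * nm z

/-- SW: one of the two neighbours is of the other class.  Proof:
`X = (2 P q ^ 2, k, 0; k, 2 M, u; 0, u, v)`, `Y = (2 P, k, 0; k, 2 M q ^ 2, q u; 0, q u, v)` are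
`PD` (PDS), of determinant `1`, with `Ev` diagonal, even on the vectors with `v 2 = 0`, and
`adjugate X 2 2 = adjugate Y 2 2 = d`.  If one of them is `Uᵀ G2 U` we are done by KEV.  By CLS3
the other possibility is `X = Uᵀ U`, `Y = Wᵀ W`; as `diag (q ^ 2, 1, q) Y diag (q ^ 2, 1, q) =
q ^ 2 X`, the matrix `M0 = W diag (q ^ 2, 1, q) U⁻¹` (`W` replaced by `- W` if necessary) satisfies
the hypotheses of LEMR, so `q` divides `M0` and `diag (q ^ 2, 1, q)`, contradiction. -/
def T_SW : Prop := ∀ P k M u v q d : R, Tp P → Tp d → Prime q → Odd q.norm → q.norm < 0 →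
  4 * P * q ^ 2 * M - k ^ 2 = d → d * v - 2 * P * q ^ 2 * u ^ 2 = 1 → Ev v →
  ∃ (β : R) (z : O), d = β ^ 2 + 4 * nm z

/-- QNR: primes `q = 11` modulo `12` for which `t` is not a square.  Proof: `t = s ^ 2 t0`, `t0`
squarefree, `t0 ≠ 1, 3`.  If `t0 = 2` or `6`: `q = 11` modulo `24`, `(2 | q) = -1`,
`(3 | q) = 1`.  Otherwise `t0 = l t1` with a prime `l ≥ 5`; take `q = -1` modulo `24 t1` and `q`
modulo `l` such that `(l | q) = -1` (that is `(q | l) = - (-1 | l)`, a class that exists because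
there are squares and non-squares modulo `l`); then `(2 | q) = (3 | q) = 1` and `(l1 | q) = 1` for
the other prime divisors `l1` of `t0`.  Dirichlet: `Nat.forall_exists_prime_gt_and_eq_mod`; take
`q > B` and `q > t`. -/
def T_QNR : Prop := ∀ t B : ℕ, 0 < t → (¬ ∃ s : ℕ, t = s ^ 2) → (¬ ∃ s : ℕ, t = 3 * s ^ 2) →
  ∃ q : ℕ, q.Prime ∧ B < q ∧ q % 12 = 11 ∧ jacobiSym t q = -1

/-- QEX: the auxiliary prime element.  Proof: for a prime number `l = 11` modulo `12` there is
`r : ℤ` with `r ^ 2 = 3` modulo `l`, `l` is not prime in `R`, so `l = - α α'` with `norm α = - l`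
(`norm = l` is impossible modulo `4`), `α` prime, and `R / α` is `ZMod l` by `w ↦ r` (for `α` or
`α'`).  Let `n = norm d`, odd.  (1) If `n` is not a square: `n = 3 s ^ 2` is impossible (`3 ∣ d.re`,
so `- d.im ^ 2 = s ^ 2` modulo `3`, descent).  QNR gives `l > 2 n` with `(n | l) = -1`.  Modulo
`α` and modulo `α'` the number `d` has residues `d1, d2` with `d1 d2 = n`, so
`(-d1 | l) (-d2 | l) = -1` and one of `-d1, -d2` is a square: take `q = α` or `α'`.  (2) If
`n = g ^ 2`, `g > 0`: `t = 2 d.re + 2 g` satisfies `t d = (d + g) ^ 2`.  If `t = s ^ 2` or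
`t = 3 s ^ 2` then `d` is a square in the fraction field, so in `R` (`R` is integrally closed),
against the hypothesis.  QNR gives `l > t + 2 n` with `(t | l) = -1`, so `- t` is a square modulo
`l` (`l = 3` modulo `4`); `norm (d + g) = t g` is prime to `l`, so `d + g` is invertible modulo `α`
and `- d = - (d + g) ^ 2 / t` is a square modulo `α`. -/
def T_QEX : Prop := ∀ d : R, Tp d → (4 ∣ d - 1 ∨ 4 ∣ d - 3) → (¬ ∃ δ : R, d = δ ^ 2) →
  ∃ q k : R, Prime q ∧ Odd q.norm ∧ q.norm < 0 ∧ IsCoprime q.norm (2 * d.norm) ∧ q ∣ k ^ 2 + d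

/-- T3Q: totally positive numbers which are `1` or `3` modulo `4`.  Proof: if `d = δ ^ 2` take
`β = δ, z = 0`.  Otherwise take `q` from QEX; by Hensel (`q` is prime to `2 d`) there is `k1` with
`q ^ 2 ∣ k1 ^ 2 + d`.  `n = norm d = 1` modulo `8`.  `p` prime, `p = (15 n - 1) / 2` modulo
`12 n`, `p > n`, `p` prime to `norm q`: then `p = 7` modulo `12` (as `15 n = 15` modulo `24`) and
`n ∣ 2 p + 1`.  `(n | p) = (p | n) = (2 | n) (2 p | n) = (-1 | n) = 1`, so by SQ there is `k2` with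
`p ∣ k2 ^ 2 + d`.  If `4 ∣ d - 1` let `k3 = w`, if `4 ∣ d - 3` let `k3 = 1`: `4 ∣ k3 ^ 2 + d`.
Chinese remainder theorem in `R` (`4`, `p`, `q ^ 2` are pairwise coprime): `k`, and `M` with
`4 p q ^ 2 M = k ^ 2 + d`.  Choose `u` with `n ∣ q u - 1` (`q` is prime to `n`); then
`1 + 2 p (q u) ^ 2 = n y = d d' y`, `v = d' y`; `n y` is `Ev`, `n` odd, so `y` and `v` are `Ev`.
Apply SW with `P = p`. -/
def T_T3Q : Prop := ∀ d : R, Tp d → (4 ∣ d - 1 ∨ 4 ∣ d - 3) →
  ∃ (β : R) (z : O), d = β ^ 2 + 4 * nm z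

/-! ## D. Sums of four squares -/

/-- RAT: two rows that are rational up to units give four squares.  Proof: if `z.im = 2 y` then
`z = (z.re + w y) + y iO`.  Write `η z11 = x1 + y1 iO`, `η z21 = x2 + y2 iO` (`x1, y1, ... : R`);
`star (η z11) (η z21) = star z11 z21 = (x1 x2 + y1 y2) + (x1 y2 - y1 x2) iO`,
`nm z11 = x1 ^ 2 + y1 ^ 2`.  Similarly for the second row; compare the coefficients of `1` and
`iO`. -/
def T_RAT : Prop := ∀ (a c b β : R) (z11 z12 z21 z22 : O),
  nm z11 + nm z12 = a → nm z21 + nm z22 = c →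
  star z11 * z21 + star z12 * z22 = algebraMap R O b + algebraMap R O β * iO →
  (∃ η : O, nm η = 1 ∧ 2 ∣ (η * z11).im ∧ 2 ∣ (η * z21).im) →
  (∃ η : O, nm η = 1 ∧ 2 ∣ (η * z12).im ∧ 2 ∣ (η * z22).im) → SS 4 a b c

/-- T4F: flagged forms are sums of four squares.  Proof: let `d = a c - b ^ 2`, and
`d = β ^ 2 + 2 nm z` (T3P, or `β = 0, z = 0` if `d = 0`).  `h = b + β iO`, `nm h = b ^ 2 + β ^ 2`,
`a c - nm h = 2 nm z = nm δ` with `δ = pO z / uO` (`π ^ 2 = 2 nm uO`).  HM gives `Z`; the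
determinant `Δ = z11 z22 - z12 z21` has `nm Δ = nm δ` even, so `pO ∣ Δ` (`En_nm`).  `O / pO` is the
field with four elements `0, 1, ζ, ζ ^ 2`; every `z` not divisible by `pO` has `η z = 1` modulo
`pO` with `η ∈ {1, ζ ^ 11, ζ ^ 10}` a unit of norm `1`.  We show that
`(π z11, z21)` and `(π z12, z22)` satisfy the hypothesis of RAT (applied to `π ^ 2 a, π b, π β`).
(1) `c` odd: exactly one of `z21, z22` is divisible by `pO`, say `z22` (otherwise interchange the
rows).  `pO ∣ Δ` gives `pO ∣ z12`.  Second row: `π z12` is divisible by `2`; `z22 = pO y`, choose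
`η` with `η y = 0` or `1` modulo `pO`, then `η z22 = 0` or `pO` modulo `2`.  First row: choose `η`
with `η z21 = 1 + pO s`; its norm is odd and `Ev` modulo `2` (`c` is `Ev`, `nm z22` is divisible
by `2`), and `nm (1 + pO s) = 1 + π (2 s.re + w s.im)` modulo `2`, so `s.im` is even and
`2 ∣ (η z21).im`.  Modulo `pO`: `star (η z11) = star (η z11) (η z21) = b + β`, so `(η z11).im` is
even and `2 ∣ (π η z11).im`.
(2) `c` even, `a` odd: say `pO ∣ z12`, `z11` not divisible; `pO ∣ Δ` gives `pO ∣ z22`, and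
`nm z21 + nm z22 = c` even gives `pO ∣ z21`.  Second row as before.  First row: `η z11 = 1` modulo
`pO`, so `(η z11).im` is even and `2 ∣ (π η z11).im`; `η z21 = pO t`, and modulo `2`:
`pO t = star (η z11) (η z21) = b + β iO - star z12 z22 = (b - w β) + 2 β ζ`, so
`2 ∣ (η z21).im`. -/
def T_T4F : Prop := ∀ a b c : R, Ev a → Ev c → Od a ∨ Od c → Psd a b c →
  SS 4 (pp ^ 2 * a) (pp * b) c

/-- T4U: odd forms whose determinant is `x ^ 2 + 4 (y ^ 2 + √3 y z + z ^ 2)`.  Proof: `h = b +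
β iO`, `a c - nm h = 4 nm z = nm (2 z)`, HM gives `Z`, `nm Δ` is divisible by `4`, so `2 ∣ Δ`
(`En_nm` twice, `2 = π ^ 2` up to a unit).  `a` odd: say `pO ∣ z12`, `z11` not divisible.
First row: choose `η` (a power of `ζ`) with `η z11 = 1 + pO s`; `nm (η z11) = a - nm z12` is `1`
modulo `2` (`a` is odd and `Ev`), so `s.im` is even and `2 ∣ (η z11).im`; so `η z11` is congruent
modulo `2` to an odd `r : R`.  `star z12 z22` is divisible by `2` (`pO ∣ Δ` gives `pO ∣ z22`), so
`r (η z21) = b + β iO = b - w β` modulo `2`, hence `2 ∣ (η z21).im`.  Second row: `z12 = pO x`,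
`z22 = pO y`, and `2 ∣ Δ` gives `z11 y = x z21` modulo `pO`.  Multiply by `η`: modulo `pO` we have
`η z11 = 1`, `η z21 = 0` or `1`, so `y = 0` or `y = x` modulo `pO`; with `θ x = 0` or `1` modulo
`pO` (`θ` a power of `ζ`) both `θ z12`, `θ z22` are `0` or `pO` modulo `2`. -/
def T_T4U : Prop := ∀ (a b c β : R) (z : O), Ev a → Od a → Tn a → Tn c →
  a * c - b ^ 2 = β ^ 2 + 4 * nm z → SS 4 a b c

/-- T4: forms that satisfy the congruence condition are sums of four squares.  Proof: `SS 4` and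
`Psd` do not change under a change of the basis.  If `Fl a b c`: `π ^ 2 ∣ a`, `π ∣ b`,
`a = π ^ 2 a1`, `b = π b1`, `a1 = a / (2 eps) = (a / 2) ⟨2, -1⟩` is `Ev`, and odd if
`4 ∣ a - 2 w`; T4F (`Psd a1 b1 c` because `π ^ 2` is totally positive).  If `Un a b c`:
`d = a c - b ^ 2` is odd, so not `0`, `Tp d`, and T3Q, T4U apply (interchange the basis vectors
if `a` is even). -/
def T_T4 : Prop := ∀ a b c : R, Ev a → Ev c → Psd a b c → Gd a b c → SS 4 a b c

/-! ## E. Conclusion -/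

/-- CMB: among seven vectors, not all of them `0` modulo `2`, there are at least five whose sum
of squares satisfies the congruence condition.  Finite check: `x ^ 2` modulo `4` depends only on
`x` modulo `2` (it is `0, 1, 3, 2 w` for `x = 0, 1, w, 1 + w`), `Gd a b c` depends only on
`a, c` modulo `4` and `b` modulo `2`; so each vector `(x, y)` counts with one of `16` types, and
the condition is symmetric.  By computer: of the `170544` multisets of `7` types only the one with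
all types `0` has no subset of `5, 6` or `7` elements with `Gd`.  (A search with pruning: fix the
value `t` of the total sum, `142` of the `256` values are not `Gd`; the types that may occur and
the pairs that may occur together are restricted by `t`; the search tree has `400000` nodes.) -/
def T_CMB : Prop := ∀ x y : Fin 7 → R, (∀ i, 2 ∣ x i ∧ 2 ∣ y i) ∨
  ∃ S : Finset (Fin 7), 5 ≤ S.card ∧
    Gd (∑ i ∈ S, x i ^ 2) (∑ i ∈ S, x i * y i) (∑ i ∈ S, y i ^ 2)

/-- SIX: sums of squares of binary forms over `ℤ[√3]` are sums of six squares.  Proof: it is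
enough to reduce `7` squares to `6`.  Induction on `(a + c).re`: if all vectors are divisible by
`2`, divide.  Otherwise replace the vectors of the set `S` of CMB by four vectors (T4; sums of
squares are `Psd` by the Cauchy inequality at both places, and `Ev`), in total at most
`4 + 2`. -/
def T_SIX : Prop := ∀ (n : ℕ) (a b c : R), SS n a b c → SS 6 a b c

/-- LOW: a form that needs six squares.  The second half is a finite check: the vectors `(x, y)` in
a representation satisfy `x ^ 2 ≤ 7 - 2 √3` at both places, so `x.re ^ 2 + 3 x.im ^ 2 ≤ 7`, and the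
same for `y`. -/
def T_LOW : Prop := SS 6 ⟨7, -2⟩ ⟨2, -1⟩ ⟨7, -2⟩ ∧ ¬ SS 5 ⟨7, -2⟩ ⟨2, -1⟩ ⟨7, -2⟩

/-- OK: the Pythagoras number of the biquadratic fields that contain `√3`.  Proof: `𝓞 K` is an
`R`-module by `w ↦ √3`, finitely generated (over `ℤ`), torsion free, so free (PIR), of rank `2`
(the rank over `ℤ` is `4`).  With an `R`-basis `ω1, ω2` a sum of squares
`∑ (x i ω1 + y i ω2) ^ 2` is `a ω1 ^ 2 + 2 b ω1 ω2 + c ω2 ^ 2` with `SS n a b c`, and SIX. -/
def T_OK : Prop := ∀ K : IntermediateField ℚ ℝ, P7.IsBiquadratic K → √(3 : ℝ) ∈ K →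
  P7.pythagorasNumber (𝓞 K) ≤ 6

end ST6
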